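import Pool.Agent.J4.H83.SG.Defs

/-!
# Steep Gaussians, uniqueness of the minimiser: definitions
-/

set_option autoImplicit false

open MeasureTheory Set

namespace Pool.Agent.J4.H83.SG

open Pool.Agent.J4.H83.FV Pool.Agent.J4.H83.HD Pool.Agent.J4.H83.OO

/-- the points of the periodic configuration -/
def PC {N : ℕ} (u v : ℂ) (x : Fin N → ℂ) : Set ℂ := {y | ∃ j, ∃ m n : ℤ, y = x j + m * u + n * v}

/-- the finite configuration `z` is a part of `C` and contains all the points of `C` at a distance less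
than `r` from `z i` -/
structure Loc (C : Set ℂ) (r : ℝ) {M : ℕ} (z : Fin M → ℂ) (i : Fin M) : Prop where
  inj : Function.Injective z
  sub : ∀ l, z l ∈ C
  all : ∀ y ∈ C, ‖y - z i‖ < r → ∃ l, z l = y

/-- the energy of a periodic configuration -/
noncomputable def Ep {N : ℕ} (β : ℝ) (u v : ℂ) (x : Fin N → ℂ) : ℝ :=
  ∑ j, ∑ k, ∑' p : ℤ × ℤ, (if x j - x k + p.1 * u + p.2 * v = 0 then 0
    else Real.exp (-β * ‖x j - x k + p.1 * u + p.2 * v‖ ^ 2))

/-- the energy of a finite configuration -/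
noncomputable def Ef {M : ℕ} (β : ℝ) (z : Fin M → ℂ) : ℝ :=
  ∑ i, ∑ j ∈ Finset.univ.erase i, Real.exp (-β * ‖z j - z i‖ ^ 2)

end Pool.Agent.J4.H83.SG
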