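import Pool.Agent.J4.H83.SG.FinDefs

/-!
# The set of the points of a periodic configuration, and the hexagonal lattice
-/

set_option autoImplicit false

open MeasureTheory Set

namespace Pool.Agent.J4.H83.SG

/-- the union of the cosets `x j + Λ`, `Λ = ℤ u + ℤ v` -/
def points {N : ℕ} (u v : ℂ) (x : Fin N → ℂ) : Set ℂ :=
  {y | ∃ j, ∃ m n : ℤ, y = x j + (m * u + n * v)}

/-- `C` is the image of the hexagonal lattice of density one by a translation and a rotation. -/
def IsHex (C : Set ℂ) : Prop :=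
  ∃ c w : ℂ, ‖w‖ = 1 ∧
    C = {y | ∃ m n : ℤ, y = c + w * (m * (spc : ℂ) + n * ⟨spc / 2, spc * √3 / 2⟩)}

end Pool.Agent.J4.H83.SG
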