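import Pool.Agent.J4.H83.SG.FinB
import Pool.Agent.J4.H83.SG.FinDefs2
import Pool.Agent.J4.H83.SG.DefsU

/-!
# Steep Gaussians: density one and mixtures, with the uniqueness of the minimiser
-/

set_option autoImplicit false

open MeasureTheory Set

namespace Pool.Agent.J4.H83.SG

open Pool.Agent.J4.H83.OO

namespace FinUAux

open FinBAux

theorem spc_ne : (spc : ℂ) ≠ 0 := by exact_mod_cast spc_pos.ne'

theorem lin {N : ℕ} (u v : ℂ) (x : Fin N → ℂ) (j k : Fin N) (m n : ℤ) :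
    x j / spc - x k / spc + m * (u / spc) + n * (v / spc) = (x j - x k + (m * u + n * v)) / spc := by
  have := spc_ne
  field_simp
  ring

theorem cov {N : ℕ} {u v : ℂ} {x : Fin N → ℂ} (hx : IsConf u v x) :
    |(starRingEnd ℂ (u / spc) * (v / spc)).im| = √3 / 2 * N := by
  have hspc := spc_ne
  have hsp2 : 0 < spc ^ 2 := by
    have := spc_pos
    positivity
  have h1 : (starRingEnd ℂ (u / spc) * (v / spc)).im =
      (u.re * v.im - u.im * v.re) * (√3 / 2) := by
    have h2 : starRingEnd ℂ (u / spc) * (v / spc) =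
        ((1 / spc ^ 2 : ℝ) : ℂ) * (starRingEnd ℂ u * v) := by
      rw [map_div₀, Complex.conj_ofReal]
      push_cast
      field_simp
    have h3 : 1 / spc ^ 2 = √3 / 2 := by
      rw [div_eq_div_iff hsp2.ne' two_ne_zero]
      linarith [spc_sq]
    rw [h2, Complex.im_ofReal_mul, h3, Complex.mul_im, Complex.conj_re, Complex.conj_im]
    ring
  rw [h1, abs_mul, hx.covol, abs_of_nonneg (by positivity)]
  ring

theorem dist {N : ℕ} {u v : ℂ} {x : Fin N → ℂ} (hx : IsConf u v x) (j k : Fin N) (m n : ℤ)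
    (h : x j / spc - x k / spc + m * (u / spc) + n * (v / spc) = 0) : j = k := by
  by_contra hjk
  rw [lin, div_eq_zero_iff] at h
  rcases h with h | h
  · exact hx.distinct j k hjk m n h
  · exact spc_ne h

theorem right {N : ℕ} (α : ℝ) {u v : ℂ} {x : Fin N → ℂ} (hx : IsConf u v x) :
    ENNReal.ofReal (Ep (α * spc ^ 2) (u / spc) (v / spc) fun j => x j / spc) ≤
      N * energy (gauss α) u v x := by
  classical
  have hsp := spc_pos
  have hspc := spc_ne
  have h0 : (N : ENNReal) * energy (gauss α) u v x = ∑ j, ∑ k, ∑' q : ℤ × ℤ,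
      (if x j - x k + (q.1 * u + q.2 * v) = 0 then 0
        else gauss α ‖x j - x k + (q.1 * u + q.2 * v)‖ : ENNReal) := by
    unfold energy
    rw [ENNReal.mul_div_cancel (by exact_mod_cast hx.pos.ne') (ENNReal.natCast_ne_top N)]
  rw [h0]
  unfold Ep
  have hnn : ∀ (j k : Fin N) (p : ℤ × ℤ), (0 : ℝ) ≤
      (if x j / spc - x k / spc + p.1 * (u / spc) + p.2 * (v / spc) = 0 then 0
        else Real.exp (-(α * spc ^ 2) *
          ‖x j / spc - x k / spc + p.1 * (u / spc) + p.2 * (v / spc)‖ ^ 2)) := by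
    intro j k p
    split_ifs
    · exact le_rfl
    · exact (Real.exp_pos _).le
  rw [ENNReal.ofReal_sum_of_nonneg fun j _ => Finset.sum_nonneg fun k _ =>
    tsum_nonneg fun p => hnn j k p]
  refine Finset.sum_le_sum fun j _ => ?_
  rw [ENNReal.ofReal_sum_of_nonneg fun k _ => tsum_nonneg fun p => hnn j k p]
  refine Finset.sum_le_sum fun k _ => ?_
  refine (ofReal_tsum_le _ fun p => hnn j k p).trans (le_of_eq ?_)
  refine tsum_congr fun p => ?_
  rw [lin]
  by_cases hp : x j - x k + (p.1 * u + p.2 * v) = 0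
  · rw [if_pos hp, hp, zero_div, if_pos rfl, ENNReal.ofReal_zero]
  · rw [if_neg hp, if_neg (div_ne_zero hp hspc)]
    unfold gauss
    rw [norm_div, Complex.norm_real, Real.norm_of_nonneg hsp.le, div_pow]
    congr 2
    field_simp

theorem left (α : ℝ) (N : ℕ) (g E : ℝ) (hg : 0 ≤ g)
    (h : ∀ s : Finset {p : ℤ × ℤ // p ≠ 0}, N * ∑ p ∈ s, Real.exp (-(α * spc ^ 2) *
      ((p.1.1 : ℝ) ^ 2 + p.1.1 * p.1.2 + (p.1.2 : ℝ) ^ 2)) + g ≤ E) :
    (N : ENNReal) * hexEnergy (gauss α) + ENNReal.ofReal g ≤ ENNReal.ofReal E := by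
  classical
  rw [hex_eq, ENNReal.tsum_eq_iSup_sum, ENNReal.mul_iSup, ENNReal.iSup_add]
  refine iSup_le fun s => ?_
  have h4 : ∑ q ∈ s, (if q = 0 then 0 else ENNReal.ofReal (Real.exp (-(α * spc ^ 2) *
        ((q.1 : ℝ) ^ 2 + q.1 * q.2 + (q.2 : ℝ) ^ 2)))) =
      ENNReal.ofReal (∑ p ∈ s.subtype (fun q => q ≠ 0), Real.exp (-(α * spc ^ 2) *
        ((p.1.1 : ℝ) ^ 2 + p.1.1 * p.1.2 + (p.1.2 : ℝ) ^ 2))) := by
    rw [ENNReal.ofReal_sum_of_nonneg fun p _ => (Real.exp_pos _).le,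
      Finset.sum_subtype_eq_sum_filter (s := s) (p := fun q : ℤ × ℤ => q ≠ 0)
        (fun q : ℤ × ℤ => ENNReal.ofReal (Real.exp (-(α * spc ^ 2) *
        ((q.1 : ℝ) ^ 2 + q.1 * q.2 + (q.2 : ℝ) ^ 2)))), Finset.sum_filter]
    refine Finset.sum_congr rfl fun q _ => ?_
    by_cases hq : q = 0
    · simp [hq]
    · simp [hq]
  have h5 : (N : ENNReal) = ENNReal.ofReal (N : ℝ) := (ENNReal.ofReal_natCast N).symm
  have h6 : (N : ENNReal) * ∑ q ∈ s, (if q = 0 then 0 else ENNReal.ofReal (Real.exp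
      (-(α * spc ^ 2) * ((q.1 : ℝ) ^ 2 + q.1 * q.2 + (q.2 : ℝ) ^ 2)))) + ENNReal.ofReal g ≤
      ENNReal.ofReal E := by
    rw [h4, h5, ← ENNReal.ofReal_mul (Nat.cast_nonneg N), ← ENNReal.ofReal_add (mul_nonneg
      (Nat.cast_nonneg N) (Finset.sum_nonneg fun p _ => (Real.exp_pos _).le)) hg]
    exact ENNReal.ofReal_le_ofReal (h _)
  refine le_trans (le_of_eq ?_) h6
  congr!

/-- a configuration which is hexagonal in units of the spacing is hexagonal -/
theorem isHex {N : ℕ} {u v : ℂ} {x : Fin N → ℂ} {c w : ℂ} (hw : ‖w‖ = 1)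
    (h : PC (u / spc) (v / spc) (fun j => x j / spc) = {y | ∃ m n : ℤ, y = c + w * (m + n * ze)}) :
    IsHex (points u v x) := by
  have hspc := spc_ne
  have hze : (⟨spc / 2, spc * √3 / 2⟩ : ℂ) = spc * ze := by
    unfold ze Pool.Agent.J4.H83.HD.om
    apply Complex.ext
    · simp [Complex.mul_re]
      ring
    · simp [Complex.mul_im]
      ring
  refine ⟨spc * c, w, hw, ?_⟩
  ext y
  constructor
  · rintro ⟨j, m, n, rfl⟩
    have h1 : (x j + (m * u + n * v)) / spc ∈ PC (u / spc) (v / spc) (fun j => x j / spc) :=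
      ⟨j, m, n, by ring⟩
    rw [h] at h1
    obtain ⟨m', n', h2⟩ := h1
    refine ⟨m', n', ?_⟩
    rw [div_eq_iff hspc] at h2
    rw [h2, hze]
    ring
  · rintro ⟨m, n, rfl⟩
    have h1 : c + w * (m + n * ze) ∈ PC (u / spc) (v / spc) (fun j => x j / spc) := by
      rw [h]
      exact ⟨m, n, rfl⟩
    obtain ⟨j, m', n', h2⟩ := h1
    refine ⟨j, m', n', ?_⟩
    rw [hze]
    have h3 : (spc : ℂ) * (c + w * (m + n * ze)) =
        spc * (x j / spc + m' * (u / spc) + n' * (v / spc)) := by rw [h2]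
    have h4 : (spc : ℂ) * (x j / spc + m' * (u / spc) + n' * (v / spc)) =
        x j + (m' * u + n' * v) := by
      field_simp
      ring
    rw [← h4, ← h3]
    ring

theorem measurable_energy {N : ℕ} (u v : ℂ) (x : Fin N → ℂ) :
    Measurable fun α : ℝ => energy (gauss α) u v x := by
  classical
  unfold energy
  refine Measurable.div_const ?_ _
  refine Finset.measurable_sum _ fun j _ => Finset.measurable_sum _ fun k _ =>
    Measurable.tsum fun q => ?_
  split_ifs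
  · exact measurable_const
  · exact measurable_gauss _

end FinUAux

open FinBAux FinUAux in
theorem final_unique (mainU : ∃ β₀ : ℝ, 1 ≤ β₀ ∧ ∀ β : ℝ, β₀ ≤ β → ∀ (N : ℕ), 0 < N → ∀ (u v : ℂ),
    |(starRingEnd ℂ u * v).im| = √3 / 2 * N → ∀ x : Fin N → ℂ,
      (∀ j k, ∀ m n : ℤ, x j - x k + m * u + n * v = 0 → j = k) →
      (∀ s : Finset {p : ℤ × ℤ // p ≠ 0},
        N * ∑ p ∈ s, Real.exp (-β * ((p.1.1 : ℝ) ^ 2 + p.1.1 * p.1.2 + (p.1.2 : ℝ) ^ 2)) ≤
          Ep β u v x) ∧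
      ((∃ c w : ℂ, ‖w‖ = 1 ∧ PC u v x = {y | ∃ m n : ℤ, y = c + w * (m + n * ze)}) ∨
        ∃ g : ℝ, 0 < g ∧ ∀ s : Finset {p : ℤ × ℤ // p ≠ 0},
        N * ∑ p ∈ s, Real.exp (-β * ((p.1.1 : ℝ) ^ 2 + p.1.1 * p.1.2 + (p.1.2 : ℝ) ^ 2)) + g ≤
          Ep β u v x)) :
    ∃ α₀ : ℝ, 0 < α₀ ∧
      (∀ α : ℝ, α₀ ≤ α → ∀ (N : ℕ) (u v : ℂ) (x : Fin N → ℂ), IsConf u v x →
        hexEnergy (gauss α) ≤ energy (gauss α) u v x ∧
        (energy (gauss α) u v x = hexEnergy (gauss α) → IsHex (points u v x))) ∧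
      (∀ μ : Measure ℝ, μ (Iio α₀) = 0 → ∀ (N : ℕ) (u v : ℂ) (x : Fin N → ℂ), IsConf u v x →
        hexEnergy (mix μ) ≤ energy (mix μ) u v x ∧
        (μ ≠ 0 → hexEnergy (mix μ) ≠ ⊤ → energy (mix μ) u v x = hexEnergy (mix μ) →
          IsHex (points u v x))) := by
  obtain ⟨β₀, hβ₀, hmain⟩ := mainU
  have hsp := spc_pos
  have hsp2 : 0 < spc ^ 2 := by positivity
  have key : ∀ α : ℝ, β₀ / spc ^ 2 ≤ α → ∀ (N : ℕ) (u v : ℂ) (x : Fin N → ℂ), IsConf u v x →
      hexEnergy (gauss α) ≤ energy (gauss α) u v x ∧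
        (¬ IsHex (points u v x) → hexEnergy (gauss α) < energy (gauss α) u v x) := by
    intro α hα N u v x hx
    have hβ : β₀ ≤ α * spc ^ 2 := by
      rwa [div_le_iff₀ hsp2] at hα
    have hN0 : (N : ENNReal) ≠ 0 := by exact_mod_cast hx.pos.ne'
    have hNt : (N : ENNReal) ≠ ⊤ := ENNReal.natCast_ne_top N
    obtain ⟨hA, hB⟩ := hmain (α * spc ^ 2) hβ N hx.pos (u / spc) (v / spc) (cov hx)
      (fun j => x j / spc) (fun j k m n h => dist hx j k m n h)
    have hle : (N : ENNReal) * hexEnergy (gauss α) ≤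
        ENNReal.ofReal (Ep (α * spc ^ 2) (u / spc) (v / spc) fun j => x j / spc) := by
      have := left α N 0 (Ep (α * spc ^ 2) (u / spc) (v / spc) fun j => x j / spc) le_rfl
        (fun s => by rw [add_zero]; exact hA s)
      rwa [ENNReal.ofReal_zero, add_zero] at this
    have hR := right α hx
    refine ⟨?_, fun hnh => ?_⟩
    · exact (ENNReal.mul_le_mul_iff_right hN0 hNt).1 (hle.trans hR)
    · rcases hB with ⟨c, w, hw, h⟩ | ⟨g, hg, h⟩
      · exact absurd (isHex hw h) hnh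
      · have h1 := left α N g _ hg.le h
        have h2 : (N : ENNReal) * hexEnergy (gauss α) ≠ ⊤ :=
          ne_top_of_le_ne_top ENNReal.ofReal_ne_top hle
        have h3 : (N : ENNReal) * hexEnergy (gauss α) < N * energy (gauss α) u v x := by
          refine lt_of_lt_of_le (ENNReal.lt_add_right h2 ?_) (h1.trans hR)
          rw [Ne, ENNReal.ofReal_eq_zero]
          exact not_le.2 hg
        by_contra hcon
        exact absurd h3 (not_lt.2 (by gcongr; exact not_lt.1 hcon))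
  refine ⟨β₀ / spc ^ 2, by positivity, fun α hα N u v x hx => ⟨(key α hα N u v x hx).1, fun he => ?_⟩,
    fun μ hμ N u v x hx => ?_⟩
  · by_contra hnh
    exact absurd he (ne_of_gt ((key α hα N u v x hx).2 hnh))
  · have h1 : hexEnergy (mix μ) = ∫⁻ α, hexEnergy (gauss α) ∂μ := energy_mix μ _ _ _
    have h2 : ∀ᵐ α ∂μ, α ∉ Iio (β₀ / spc ^ 2) := measure_eq_zero_iff_ae_notMem.1 hμ
    refine ⟨?_, fun hμ0 hfin he => ?_⟩
    · rw [h1, energy_mix]
      refine lintegral_mono_ae ?_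
      filter_upwards [h2] with α hα
      exact (key α (not_lt.1 hα) N u v x hx).1
    · by_contra hnh
      rw [h1] at hfin
      have h3 := lintegral_strict_mono hμ0 (measurable_energy u v x).aemeasurable hfin (by
        filter_upwards [h2] with α hα
        exact (key α (not_lt.1 hα) N u v x hx).2 hnh)
      rw [← h1, ← energy_mix, he] at h3
      exact lt_irrefl _ h3

end Pool.Agent.J4.H83.SG
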