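import Pool.Agent.J4.H83.SG.Defs

/-!
# Steep Gaussians: the pairs of particles given by the far lattice vectors are different
-/

set_option autoImplicit false

open MeasureTheory Set Filter Topology

namespace Pool.Agent.J4.H83.SG

open Pool.Agent.J4.H83.FV Pool.Agent.J4.H83.HD Pool.Agent.J4.H83.OO

namespace Dist

/-- the statement `rot_dev` -/
def S_rot : Prop := ∀ {N : ℕ} {x : Fin N → ℂ} (_hx : Sep x) {τ C A d : ℝ} (_hC : 1 ≤ C)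
    (_hCτ : C * τ ≤ 1 / 100) (_hA : 1 ≤ A) (_hA2 : A ≤ 1001 / 1000) (_hd : 0 ≤ d) (_hd2 : d ≤ 1 / 1000)
    {ρ : Equiv.Perm (Fin N × Fin N)} (_hex0 : ∀ i, 0 ≤ ex x i) (_hρ : IsRot x τ C ρ)
    {γ : Fin N × Fin N} (_hγ : γ ∈ Bd x) (_h : Dw τ A x d γ.1),
    ‖bv x (ρ γ) - ze * bv x γ‖ ≤ 4 * d * A ∧ (γ.2, (ρ γ).2) ∈ Bd x ∧
      ρ (γ.2, (ρ γ).2) = swp N γ

/-- the statement `pos` -/
def S_pos : Prop := ∀ {N : ℕ} {x : Fin N → ℂ} (_hx : Sep x) {τ C A : ℝ} (_hC : 1 ≤ C)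
    (_hCτ : C * τ ≤ 1 / 100) (_hA : 1 ≤ A) (_hA2 : A ≤ 1001 / 1000)
    {ρ : Equiv.Perm (Fin N × Fin N)} (_hex0 : ∀ i, 0 ≤ ex x i) (_hρ : IsRot x τ C ρ) {k : ℕ}
    (_hk : 1 ≤ k) {γ : Fin N × Fin N} (_hγ : γ ∈ Gk τ A (1 / 1000) x ρ k) (m n : ℕ)
    (_hm : m ≤ 2 * k) (_hn : n ≤ 2 * k),
    act ρ m n γ ∈ Bd x ∧
      ‖bv x (act ρ m n γ) - bv x γ‖ ≤ 12 * (m + n) * (1 / 1000 / (k : ℝ) ^ 2) * A ∧
      ‖Xv x ρ m n γ - ((m : ℂ) + n * ze) * bv x γ‖ ≤ 12 * (m + n) ^ 2 * (1 / 1000 / (k : ℝ) ^ 2) * A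

lemma ze_sq : ze ^ 2 = ze - 1 := by
  have h3 : √3 * √3 = 3 := Real.mul_self_sqrt (by norm_num)
  unfold ze om
  apply Complex.ext
  · simp only [pow_two, Complex.mul_re, Complex.add_re, Complex.one_re, Complex.add_im,
      Complex.one_im, Complex.sub_re]
    linarith
  · simp only [pow_two, Complex.mul_im, Complex.add_re, Complex.one_re, Complex.add_im,
      Complex.one_im, Complex.sub_im]
    ring

lemma ze_cube : ze ^ 3 = -1 := by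
  have h : ze ^ 3 = ze * ze ^ 2 := by ring
  rw [h, ze_sq, mul_sub, ← pow_two, ze_sq]
  ring

lemma ze_six : ze ^ 6 = 1 := by
  have h : ze ^ 6 = (ze ^ 3) ^ 2 := by ring
  rw [h, ze_cube]
  norm_num

lemma norm_ze : ‖ze‖ = 1 := by
  have h : ‖ze‖ ^ 6 = 1 := by rw [← norm_pow, ze_six, norm_one]
  exact (pow_eq_one_iff_of_nonneg (norm_nonneg _) (by norm_num)).1 h

lemma norm_ze_pow (m : ℕ) : ‖ze ^ m‖ = 1 := by rw [norm_pow, norm_ze, one_pow]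

/-- the norm of an Eisenstein integer -/
lemma norm_eis (a b : ℤ) : ‖((a : ℂ) + b * ze)‖ ^ 2 = ((a ^ 2 + a * b + b ^ 2 : ℤ) : ℝ) := by
  have h3 : √3 * √3 = 3 := Real.mul_self_sqrt (by norm_num)
  rw [Complex.sq_norm, Complex.normSq_apply]
  unfold ze om
  simp only [Complex.add_re, Complex.add_im, Complex.mul_re, Complex.mul_im, Complex.one_re,
    Complex.one_im, Complex.intCast_re, Complex.intCast_im]
  push_cast
  nlinarith [h3]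

/-- a small Eisenstein integer is zero -/
lemma eis_zero {a b : ℤ} (h : ‖((a : ℂ) + b * ze)‖ < 1) : a = 0 ∧ b = 0 := by
  have h1 := norm_eis a b
  have h2 : ‖((a : ℂ) + b * ze)‖ ^ 2 < 1 := by
    have := norm_nonneg ((a : ℂ) + b * ze)
    nlinarith
  rw [h1] at h2
  have h3 : a ^ 2 + a * b + b ^ 2 < 1 := by exact_mod_cast h2
  have h4 : a ^ 2 + a * b + b ^ 2 = 0 := by nlinarith [sq_nonneg (2 * a + b), sq_nonneg b]
  have hb : b = 0 := by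
    have : 3 * b ^ 2 ≤ 0 := by nlinarith [sq_nonneg (2 * a + b)]
    exact pow_eq_zero_iff two_ne_zero |>.1 (le_antisymm (by linarith) (sq_nonneg b))
  subst hb
  refine ⟨?_, rfl⟩
  have : a ^ 2 = 0 := by linarith
  exact pow_eq_zero_iff two_ne_zero |>.1 this

/-- the sectors are disjoint -/
lemma sector {m n m' n' s : ℕ} (hm : 1 ≤ m) (hm' : 1 ≤ m') (hs : s < 6)
    (h : ‖((m : ℂ) + n * ze) * ze ^ s - ((m' : ℂ) + n' * ze)‖ < 1) : s = 0 ∧ m = m' ∧ n = n' := by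
  have h2 := ze_sq
  have h3 := ze_cube
  interval_cases s
  · have e : ((m : ℂ) + n * ze) * ze ^ 0 - ((m' : ℂ) + n' * ze) =
        (((m : ℤ) - m' : ℤ) : ℂ) + (((n : ℤ) - n' : ℤ) : ℂ) * ze := by
      push_cast
      ring
    rw [e] at h
    obtain ⟨h4, h5⟩ := eis_zero h
    exact ⟨rfl, by omega, by omega⟩
  · have e : ((m : ℂ) + n * ze) * ze ^ 1 - ((m' : ℂ) + n' * ze) =
        ((-(n : ℤ) - m' : ℤ) : ℂ) + (((m : ℤ) + n - n' : ℤ) : ℂ) * ze := by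
      push_cast
      linear_combination (n : ℂ) * h2
    rw [e] at h
    obtain ⟨h4, h5⟩ := eis_zero h
    omega
  · have e : ((m : ℂ) + n * ze) * ze ^ 2 - ((m' : ℂ) + n' * ze) =
        ((-(m : ℤ) - n - m' : ℤ) : ℂ) + (((m : ℤ) - n' : ℤ) : ℂ) * ze := by
      push_cast
      linear_combination (m : ℂ) * h2 + (n : ℂ) * h3
    rw [e] at h
    obtain ⟨h4, h5⟩ := eis_zero h
    omega
  · have e : ((m : ℂ) + n * ze) * ze ^ 3 - ((m' : ℂ) + n' * ze) =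
        ((-(m : ℤ) - m' : ℤ) : ℂ) + ((-(n : ℤ) - n' : ℤ) : ℂ) * ze := by
      push_cast
      linear_combination ((m : ℂ) + n * ze) * h3
    rw [e] at h
    obtain ⟨h4, h5⟩ := eis_zero h
    omega
  · have e : ((m : ℂ) + n * ze) * ze ^ 4 - ((m' : ℂ) + n' * ze) =
        (((n : ℤ) - m' : ℤ) : ℂ) + ((-(m : ℤ) - n - n' : ℤ) : ℂ) * ze := by
      push_cast
      linear_combination ((m : ℂ) + n * ze) * ze * h3 - (n : ℂ) * h2
    rw [e] at h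
    obtain ⟨h4, h5⟩ := eis_zero h
    omega
  · have e : ((m : ℂ) + n * ze) * ze ^ 5 - ((m' : ℂ) + n' * ze) =
        (((m : ℤ) + n - m' : ℤ) : ℂ) + ((-(m : ℤ) - n' : ℤ) : ℂ) * ze := by
      push_cast
      linear_combination ((m : ℂ) + n * ze) * ze ^ 2 * h3 - (m : ℂ) * h2 - (n : ℂ) * h3
    rw [e] at h
    obtain ⟨h4, h5⟩ := eis_zero h
    omega

lemma norm_W_le (m n : ℕ) : ‖((m : ℂ) + n * ze)‖ ≤ m + n := by
  refine (norm_add_le _ _).trans ?_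
  rw [norm_mul, norm_ze, mul_one, Complex.norm_natCast, Complex.norm_natCast]

/-- length of the far vectors -/
lemma norm_W_ge {m n : ℕ} (hm : 1 ≤ m) (hmn : 2 ≤ m + n) : 173 / 100 ≤ ‖((m : ℂ) + n * ze)‖ := by
  have h1 := norm_eis m n
  have e : (((m : ℤ) : ℂ) + ((n : ℤ) : ℂ) * ze) = ((m : ℂ) + n * ze) := by push_cast; ring
  rw [e] at h1
  have h2 : (3 : ℤ) ≤ (m : ℤ) ^ 2 + m * n + (n : ℤ) ^ 2 := by
    have h3 : (1 : ℤ) ≤ m := by exact_mod_cast hm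
    have h4 : (0 : ℤ) ≤ n := by positivity
    have h5 : (2 : ℤ) ≤ m + n := by exact_mod_cast hmn
    rcases Nat.eq_zero_or_pos n with h | h
    · subst h
      push_cast at *
      nlinarith
    · have h6 : (1 : ℤ) ≤ n := by exact_mod_cast h
      nlinarith
  have h3 : (3 : ℝ) ≤ ‖((m : ℂ) + n * ze)‖ ^ 2 := by
    rw [h1]
    exact_mod_cast h2
  by_contra hc
  rw [not_le] at hc
  have := norm_nonneg ((m : ℂ) + n * ze)
  nlinarith

section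

variable {N : ℕ} {x : Fin N → ℂ} {τ C A : ℝ} {ρ : Equiv.Perm (Fin N × Fin N)}

lemma len_ge {d : ℝ} {γ : Fin N × Fin N} (hγ : γ ∈ Bd x) (hA : 1 ≤ A) (h : Dv τ A x d γ.1) :
    (1 - d) * A ≤ ‖bv x γ‖ := by
  have h1 : γ.2 ∈ Nbr x γ.1 := by
    unfold Bd at hγ
    exact (Finset.mem_filter.1 hγ).2
  have h2 := (abs_le.1 (h.2 _ h1)).1
  have hA0 : 0 < A := by linarith
  unfold bv
  rw [le_sub_iff_add_le, le_div_iff₀ hA0] at h2
  linarith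

/-- the powers of the rotation -/
lemma rot_pow (hrot : S_rot) (hx : Sep x) (hC : 1 ≤ C) (hCτ : C * τ ≤ 1 / 100) (hA : 1 ≤ A)
    (hA2 : A ≤ 1001 / 1000) {d : ℝ} (hd : 0 ≤ d) (hd2 : d ≤ 1 / 1000) (hex0 : ∀ i, 0 ≤ ex x i)
    (hρ : IsRot x τ C ρ) {γ : Fin N × Fin N} (hγ : γ ∈ Bd x) (h : Dw τ A x d γ.1) (s : ℕ) :
    ((ρ ^ s) γ).1 = γ.1 ∧ (ρ ^ s) γ ∈ Bd x ∧
      ‖bv x ((ρ ^ s) γ) - ze ^ s * bv x γ‖ ≤ s * (4 * d * A) := by
  induction s with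
  | zero => refine ⟨rfl, hγ, ?_⟩; simp
  | succ s ih =>
    obtain ⟨h1, h2, h3⟩ := ih
    have h4 : (ρ ^ (s + 1)) γ = ρ ((ρ ^ s) γ) := by
      rw [pow_succ', Equiv.Perm.mul_apply]
    rw [h4]
    refine ⟨(hρ.fst _).trans h1, hρ.mem _ h2, ?_⟩
    have h6 := (hrot hx hC hCτ hA hA2 hd hd2 hex0 hρ h2 (by rw [h1]; exact h)).1
    have h8 : bv x (ρ ((ρ ^ s) γ)) - ze ^ (s + 1) * bv x γ =
        (bv x (ρ ((ρ ^ s) γ)) - ze * bv x ((ρ ^ s) γ)) +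
          ze * (bv x ((ρ ^ s) γ) - ze ^ s * bv x γ) := by ring
    rw [h8]
    refine (norm_add_le _ _).trans ?_
    rw [norm_mul, norm_ze, one_mul, Nat.cast_succ]
    linarith

/-- all the bonds of the particle are rotations of one of them -/
lemma six (hrot : S_rot) (hx : Sep x) (hC : 1 ≤ C) (hCτ : C * τ ≤ 1 / 100) (hA : 1 ≤ A)
    (hA2 : A ≤ 1001 / 1000) {d : ℝ} (hd : 0 ≤ d) (hd2 : d ≤ 1 / 1000) (hex0 : ∀ i, 0 ≤ ex x i)
    (hρ : IsRot x τ C ρ) {γ : Fin N × Fin N} (hγ : γ ∈ Bd x) (h : Dw τ A x d γ.1)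
    {γ' : Fin N × Fin N} (hγ' : γ' ∈ Bd x) (h1 : γ'.1 = γ.1) : ∃ s < 6, γ' = (ρ ^ s) γ := by
  classical
  have hstep := rot_pow hrot hx hC hCτ hA hA2 hd hd2 hex0 hρ hγ h
  have hlen := len_ge hγ hA h.1
  have hA0 : 0 < A := by linarith
  have hinj : Set.InjOn (fun m : ℕ => ((ρ ^ m) γ).2) (Finset.range 6 : Finset ℕ) := by
    intro a ha b hb hab
    rw [Finset.mem_coe, Finset.mem_range] at ha hb
    by_contra hne
    have h1 : (ρ ^ a) γ = (ρ ^ b) γ :=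
      Prod.ext ((hstep a).1.trans (hstep b).1.symm) hab
    have h2 := (hstep a).2.2
    have h3 := (hstep b).2.2
    rw [h1] at h2
    have hac : (a : ℝ) ≤ 5 := by exact_mod_cast (by omega : a ≤ 5)
    have hbc : (b : ℝ) ≤ 5 := by exact_mod_cast (by omega : b ≤ 5)
    have hdA : 0 ≤ 4 * d * A := by positivity
    have hdA2 : 4 * d * A ≤ 4 / 1000 * A := by
      have := mul_le_mul_of_nonneg_right hd2 hA0.le
      linarith
    have h4 : ‖(ze ^ a - ze ^ b) * bv x γ‖ ≤ 40 / 1000 * A := by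
      have h5 : (ze ^ a - ze ^ b) * bv x γ = (bv x ((ρ ^ b) γ) - ze ^ b * bv x γ) -
          (bv x ((ρ ^ b) γ) - ze ^ a * bv x γ) := by ring
      rw [h5]
      refine (norm_sub_le _ _).trans ?_
      have h6 := mul_le_mul_of_nonneg_right hac hdA
      have h7 := mul_le_mul_of_nonneg_right hbc hdA
      linarith
    rw [norm_mul] at h4
    -- gap of the powers
    have hgap : 1 ≤ ‖ze ^ a - ze ^ b‖ := by
      by_contra hc
      rw [not_le] at hc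
      have key : ∀ a b : ℕ, a < 6 → b < a → ‖ze ^ a - ze ^ b‖ < 1 → False := by
        intro a b ha hab hc
        obtain ⟨c, rfl⟩ := Nat.exists_eq_add_of_lt hab
        have h1 : ze ^ (b + c + 1) - ze ^ b = ze ^ b * (ze ^ (c + 1) - 1) := by ring
        rw [h1, norm_mul, norm_ze_pow, one_mul] at hc
        have h2 := sector (m := 1) (n := 0) (m' := 1) (n' := 0) (s := c + 1) le_rfl le_rfl (by omega) (by
          have e : (((1 : ℕ) : ℂ) + ((0 : ℕ) : ℂ) * ze) * ze ^ (c + 1) - (((1 : ℕ) : ℂ) + ((0 : ℕ) : ℂ) * ze) =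
              ze ^ (c + 1) - 1 := by
            push_cast
            ring
          rw [e]
          exact hc)
        omega
      rcases lt_or_gt_of_ne hne with h | h
      · rw [norm_sub_rev] at hc
        exact key b a hb h hc
      · exact key a b ha h hc
    have h8 : ‖bv x γ‖ ≤ ‖ze ^ a - ze ^ b‖ * ‖bv x γ‖ := le_mul_of_one_le_left (norm_nonneg _) hgap
    have h9 := mul_le_mul_of_nonneg_right hd2 hA0.le
    nlinarith
  have himg : (Finset.range 6).image (fun m : ℕ => ((ρ ^ m) γ).2) = Nbr x γ.1 := by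
    refine Finset.eq_of_subset_of_card_le ?_ ?_
    · intro j hj
      rw [Finset.mem_image] at hj
      obtain ⟨m, -, rfl⟩ := hj
      have h1 := (hstep m).2.1
      unfold Bd at h1
      rw [Finset.mem_filter] at h1
      have h2 := h1.2
      rwa [(hstep m).1] at h2
    · rw [hρ.six _ h.1.1, Finset.card_image_of_injOn hinj, Finset.card_range]
  have h2 : γ'.2 ∈ Nbr x γ.1 := by
    unfold Bd at hγ'
    rw [← h1]
    exact (Finset.mem_filter.1 hγ').2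
  rw [← himg, Finset.mem_image] at h2
  obtain ⟨s, hs, hs2⟩ := h2
  exact ⟨s, Finset.mem_range.1 hs, Prod.ext (h1.trans (hstep s).1.symm) hs2.symm⟩

lemma of_Gk {k : ℕ} {γ : Fin N × Fin N} (hγ : γ ∈ Gk τ A (1 / 1000) x ρ k) :
    γ ∈ Bd x ∧ Dw τ A x (1 / 1000 / (k : ℝ) ^ 2) γ.1 := by
  classical
  unfold Gk at hγ
  rw [Finset.mem_filter] at hγ
  refine ⟨hγ.1, ?_⟩
  have h := hγ.2 0 (Nat.zero_le _) 0 (Nat.zero_le _)
  unfold act at h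
  rw [pow_zero, pow_zero, one_mul] at h
  exact h

lemma lev {k : ℕ} (hk : 2 ≤ k) : 0 ≤ 1 / 1000 / (k : ℝ) ^ 2 ∧ 1 / 1000 / (k : ℝ) ^ 2 ≤ 1 / 1000 := by
  have h : (1 : ℝ) ≤ (k : ℝ) ^ 2 := by
    have : (1 : ℝ) ≤ k := by exact_mod_cast (by omega : 1 ≤ k)
    exact one_le_pow₀ this
  exact ⟨by positivity, div_le_self (by norm_num) h⟩

/-- the position of the translate -/
lemma pos' (hpos : S_pos) (hx : Sep x) (hC : 1 ≤ C) (hCτ : C * τ ≤ 1 / 100) (hA : 1 ≤ A)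
    (hA2 : A ≤ 1001 / 1000) (hex0 : ∀ i, 0 ≤ ex x i) (hρ : IsRot x τ C ρ) {m n : ℕ}
    (hmn : 2 ≤ m + n) {γ : Fin N × Fin N} (hγ : γ ∈ Gk τ A (1 / 1000) x ρ (m + n)) :
    ‖Xv x ρ m n γ - ((m : ℂ) + n * ze) * bv x γ‖ ≤ 12 / 1000 * A := by
  have h := (hpos hx hC hCτ hA hA2 hex0 hρ (by omega : 1 ≤ m + n) hγ m n (by omega) (by omega)).2.2
  refine h.trans (le_of_eq ?_)
  have h1 : ((m : ℝ) + n) ≠ 0 := by
    have : (2 : ℝ) ≤ (m : ℝ) + n := by exact_mod_cast hmn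
    linarith
  push_cast
  field_simp

/-- injectivity -/
lemma inj (hrot : S_rot) (hpos : S_pos) (hx : Sep x) (hC : 1 ≤ C) (hCτ : C * τ ≤ 1 / 100) (hA : 1 ≤ A)
    (hA2 : A ≤ 1001 / 1000) (hex0 : ∀ i, 0 ≤ ex x i) (hρ : IsRot x τ C ρ) {m n m' n' : ℕ}
    (hm : 1 ≤ m) (hm' : 1 ≤ m') (hmn : 2 ≤ m + n) (hmn' : 2 ≤ m' + n') (hle : m + n ≤ m' + n')
    {γ γ' : Fin N × Fin N} (hγ : γ ∈ Gk τ A (1 / 1000) x ρ (m + n))
    (hγ' : γ' ∈ Gk τ A (1 / 1000) x ρ (m' + n')) (h1 : γ.1 = γ'.1)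
    (h2 : (act ρ m n γ).1 = (act ρ m' n' γ').1) : m = m' ∧ n = n' ∧ γ = γ' := by
  have hA0 : 0 < A := by linarith
  obtain ⟨hb, hw⟩ := of_Gk hγ
  obtain ⟨hb', hw'⟩ := of_Gk hγ'
  obtain ⟨hd, hd2⟩ := lev hmn'
  obtain ⟨s, hs, rfl⟩ := six hrot hx hC hCτ hA hA2 hd hd2 hex0 hρ hb' hw' hb h1
  have hr := (rot_pow hrot hx hC hCτ hA hA2 hd hd2 hex0 hρ hb' hw' s).2.2
  have hp := pos' hpos hx hC hCτ hA hA2 hex0 hρ hmn hγ
  have hp' := pos' hpos hx hC hCτ hA hA2 hex0 hρ hmn' hγ'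
  have hX : Xv x ρ m n ((ρ ^ s) γ') = Xv x ρ m' n' γ' := by
    unfold Xv
    rw [h1, h2]
  rw [hX] at hp
  have hsc : (s : ℝ) ≤ 5 := by exact_mod_cast (by omega : s ≤ 5)
  have hk2 : (2 : ℝ) ≤ (m' : ℝ) + n' := by exact_mod_cast hmn'
  have hkk : (m : ℝ) + n ≤ (m' : ℝ) + n' := by exact_mod_cast hle
  have hk0 : (0 : ℝ) ≤ (m : ℝ) + n := by positivity
  -- the error of the rotation
  have hr2 : ‖((m : ℂ) + n * ze) * (bv x ((ρ ^ s) γ') - ze ^ s * bv x γ')‖ ≤ 10 / 1000 * A := by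
    rw [norm_mul]
    have h3 := norm_W_le m n
    have h4 : ‖bv x ((ρ ^ s) γ') - ze ^ s * bv x γ'‖ ≤
        20 / 1000 * A / ((m' : ℝ) + n') ^ 2 := by
      refine hr.trans ?_
      have h5 : (s : ℝ) * (4 * (1 / 1000 / ((m' + n' : ℕ) : ℝ) ^ 2) * A) ≤
          5 * (4 * (1 / 1000 / ((m' + n' : ℕ) : ℝ) ^ 2) * A) :=
        mul_le_mul_of_nonneg_right hsc (by positivity)
      refine h5.trans (le_of_eq ?_)
      push_cast
      ring
    calc ‖((m : ℂ) + n * ze)‖ * ‖bv x ((ρ ^ s) γ') - ze ^ s * bv x γ'‖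
        ≤ ((m' : ℝ) + n') * (20 / 1000 * A / ((m' : ℝ) + n') ^ 2) :=
          mul_le_mul (h3.trans hkk) h4 (norm_nonneg _) (by positivity)
      _ = 20 / 1000 * A / ((m' : ℝ) + n') := by
          have : ((m' : ℝ) + n') ≠ 0 := by linarith
          field_simp
      _ ≤ 20 / 1000 * A / 2 := div_le_div_of_nonneg_left (by positivity) (by norm_num) hk2
      _ = 10 / 1000 * A := by ring
  have h5 : ‖(((m : ℂ) + n * ze) * ze ^ s - ((m' : ℂ) + n' * ze)) * bv x γ'‖ ≤ 34 / 1000 * A := by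
    have e : (((m : ℂ) + n * ze) * ze ^ s - ((m' : ℂ) + n' * ze)) * bv x γ' =
        (Xv x ρ m' n' γ' - ((m' : ℂ) + n' * ze) * bv x γ') -
          (Xv x ρ m' n' γ' - ((m : ℂ) + n * ze) * bv x ((ρ ^ s) γ')) -
          ((m : ℂ) + n * ze) * (bv x ((ρ ^ s) γ') - ze ^ s * bv x γ') := by ring
    rw [e]
    have h6 := norm_sub_le ((Xv x ρ m' n' γ' - ((m' : ℂ) + n' * ze) * bv x γ') -
          (Xv x ρ m' n' γ' - ((m : ℂ) + n * ze) * bv x ((ρ ^ s) γ')))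
      (((m : ℂ) + n * ze) * (bv x ((ρ ^ s) γ') - ze ^ s * bv x γ'))
    have h7 := norm_sub_le (Xv x ρ m' n' γ' - ((m' : ℂ) + n' * ze) * bv x γ')
          (Xv x ρ m' n' γ' - ((m : ℂ) + n * ze) * bv x ((ρ ^ s) γ'))
    linarith
  have hlen := len_ge hb' hA hw'.1
  have hlen2 : 999 / 1000 * A ≤ ‖bv x γ'‖ := by
    have := mul_le_mul_of_nonneg_right hd2 hA0.le
    nlinarith
  have h6 : ‖((m : ℂ) + n * ze) * ze ^ s - ((m' : ℂ) + n' * ze)‖ < 1 := by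
    by_contra hc
    rw [not_lt] at hc
    rw [norm_mul] at h5
    have h7 : ‖bv x γ'‖ ≤ ‖((m : ℂ) + n * ze) * ze ^ s - ((m' : ℂ) + n' * ze)‖ * ‖bv x γ'‖ :=
      le_mul_of_one_le_left (norm_nonneg _) hc
    linarith
  obtain ⟨h7, h8, h9⟩ := sector hm hm' hs h6
  subst h7
  exact ⟨h8, h9, rfl⟩

/-- the far pairs are not bonds -/
lemma far_len (hpos : S_pos) (hx : Sep x) (hC : 1 ≤ C) (hCτ : C * τ ≤ 1 / 100) (hA : 1 ≤ A)
    (hA2 : A ≤ 1001 / 1000) (hex0 : ∀ i, 0 ≤ ex x i) (hρ : IsRot x τ C ρ) {m n : ℕ}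
    (hm : 1 ≤ m) (hmn : 2 ≤ m + n) {γ : Fin N × Fin N} (hγ : γ ∈ Gk τ A (1 / 1000) x ρ (m + n)) :
    17 / 10 ≤ ‖Xv x ρ m n γ‖ := by
  have hA0 : 0 < A := by linarith
  obtain ⟨hb, hw⟩ := of_Gk hγ
  obtain ⟨hd, hd2⟩ := lev hmn
  have hp := pos' hpos hx hC hCτ hA hA2 hex0 hρ hmn hγ
  have hlen := len_ge hb hA hw.1
  have hlen2 : 999 / 1000 * A ≤ ‖bv x γ‖ := by
    have := mul_le_mul_of_nonneg_right hd2 hA0.le
    nlinarith
  have h1 := norm_W_ge hm hmn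
  have h2 : 173 / 100 * (999 / 1000 * A) ≤ ‖((m : ℂ) + n * ze) * bv x γ‖ := by
    rw [norm_mul]
    exact mul_le_mul h1 hlen2 (by positivity) (norm_nonneg _)
  have h3 := norm_sub_norm_le (((m : ℂ) + n * ze) * bv x γ) (Xv x ρ m n γ)
  rw [norm_sub_rev] at h3
  nlinarith

end

theorem en_ge_of (hrot : S_rot) (hpos : S_pos) {N : ℕ} {x : Fin N → ℂ} (hx : Sep x) {τ C A β : ℝ}
    (hC : 1 ≤ C) (hCτ : C * τ ≤ 1 / 100) (hA : 1 ≤ A) (hA2 : A ≤ 1001 / 1000)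
    {ρ : Equiv.Perm (Fin N × Fin N)} (hex0 : ∀ i, 0 ≤ ex x i) (hρ : IsRot x τ C ρ) (K : ℕ) :
    ∑ γ ∈ Bg τ x, Real.exp (-β * (‖bv x γ‖ / A) ^ 2) +
      ∑ p ∈ far K, ∑ γ ∈ Gk τ A (1 / 1000) x ρ (p.1 + p.2),
        Real.exp (-β * (‖Xv x ρ p.1 p.2 γ‖ / A) ^ 2) ≤ En β A x := by
  classical
  set f : Fin N × Fin N → ℝ := fun q => Real.exp (-β * (‖x q.2 - x q.1‖ / A) ^ 2) with hf
  have hf0 : ∀ q, 0 ≤ f q := fun q => (Real.exp_pos _).le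
  -- the energy as a sum over pairs
  have hEn : En β A x = ∑ q ∈ (Finset.univ : Finset (Fin N × Fin N)).filter (fun q => q.2 ≠ q.1), f q := by
    unfold En
    rw [Finset.sum_filter, ← Finset.univ_product_univ, Finset.sum_product]
    refine Finset.sum_congr rfl fun i _ => ?_
    rw [← Finset.sum_filter]
    refine Finset.sum_congr ?_ fun j _ => rfl
    ext j
    simp
  have hfar : ∀ p ∈ far K, 1 ≤ p.1 ∧ 2 ≤ p.1 + p.2 := by
    intro p hp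
    unfold far at hp
    rw [Finset.mem_filter, Finset.mem_product, Finset.mem_Icc] at hp
    exact ⟨hp.1.1.1, hp.2.1⟩
  set S : Finset (Σ _ : ℕ × ℕ, Fin N × Fin N) :=
    (far K).sigma fun p => Gk τ A (1 / 1000) x ρ (p.1 + p.2) with hS
  set Φ : (Σ _ : ℕ × ℕ, Fin N × Fin N) → Fin N × Fin N :=
    fun z => (z.2.1, (act ρ z.1.1 z.1.2 z.2).1) with hΦ
  have hinj : Set.InjOn Φ (S : Set (Σ _ : ℕ × ℕ, Fin N × Fin N)) := by
    rintro ⟨p, γ⟩ hz ⟨p', γ'⟩ hz' heq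
    rw [Finset.mem_coe, hS, Finset.mem_sigma] at hz hz'
    obtain ⟨h1, h2⟩ := hfar p hz.1
    obtain ⟨h1', h2'⟩ := hfar p' hz'.1
    have e1 : (Φ ⟨p, γ⟩).1 = (Φ ⟨p', γ'⟩).1 := by rw [heq]
    have e2 : (Φ ⟨p, γ⟩).2 = (Φ ⟨p', γ'⟩).2 := by rw [heq]
    change γ.1 = γ'.1 at e1
    change (act ρ p.1 p.2 γ).1 = (act ρ p'.1 p'.2 γ').1 at e2
    have key : p.1 = p'.1 ∧ p.2 = p'.2 ∧ γ = γ' := by
      rcases le_total (p.1 + p.2) (p'.1 + p'.2) with h | h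
      · exact inj hrot hpos hx hC hCτ hA hA2 hex0 hρ h1 h1' h2 h2' h hz.2 hz'.2 e1 e2
      · obtain ⟨a, b, c⟩ := inj hrot hpos hx hC hCτ hA hA2 hex0 hρ h1' h1 h2' h2 h hz'.2 hz.2
          e1.symm e2.symm
        exact ⟨a.symm, b.symm, c.symm⟩
    obtain ⟨a, b, c⟩ := key
    obtain ⟨p1, p2⟩ := p
    obtain ⟨p1', p2'⟩ := p'
    simp only at a b
    subst a
    subst b
    subst c
    rfl
  have hlen : ∀ z ∈ S, 17 / 10 ≤ ‖x (Φ z).2 - x (Φ z).1‖ := by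
    rintro ⟨p, γ⟩ hz
    rw [hS, Finset.mem_sigma] at hz
    obtain ⟨h1, h2⟩ := hfar p hz.1
    exact far_len hpos hx hC hCτ hA hA2 hex0 hρ h1 h2 hz.2
  have hsum2 : ∑ p ∈ far K, ∑ γ ∈ Gk τ A (1 / 1000) x ρ (p.1 + p.2),
      Real.exp (-β * (‖Xv x ρ p.1 p.2 γ‖ / A) ^ 2) = ∑ q ∈ S.image Φ, f q := by
    rw [Finset.sum_image hinj, hS, Finset.sum_sigma]
    rfl
  have hR : 2 * R < 17 / 10 := by
    have h3 : √3 * √3 = 3 := Real.mul_self_sqrt (by norm_num)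
    have h4 : √3 ≤ 2 := by
      rw [Real.sqrt_le_left (by norm_num)]
      norm_num
    unfold R
    nlinarith
  have hBd : ∀ γ ∈ Bg τ x, γ.2 ≠ γ.1 ∧ ‖x γ.2 - x γ.1‖ < 2 * R := by
    intro γ hγ
    unfold Bg Bd Nbr at hγ
    rw [Finset.mem_filter, Finset.mem_filter, Finset.mem_filter] at hγ
    exact ⟨hγ.1.2.2.1, hγ.1.2.2.2⟩
  have hdisj : Disjoint (Bg τ x) (S.image Φ) := by
    rw [Finset.disjoint_left]
    intro q hq hq2
    rw [Finset.mem_image] at hq2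
    obtain ⟨z, hz, rfl⟩ := hq2
    have h1 := hlen z hz
    have h2 := (hBd _ hq).2
    linarith
  rw [hsum2, hEn]
  change ∑ γ ∈ Bg τ x, f γ + _ ≤ _
  rw [← Finset.sum_union hdisj]
  refine Finset.sum_le_sum_of_subset_of_nonneg ?_ fun q _ _ => hf0 q
  intro q hq
  rw [Finset.mem_filter]
  refine ⟨Finset.mem_univ _, ?_⟩
  rcases Finset.mem_union.1 hq with h | h
  · exact (hBd q h).1
  · rw [Finset.mem_image] at h
    obtain ⟨z, hz, rfl⟩ := h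
    intro hc
    have h1 := hlen z hz
    rw [hc, sub_self, norm_zero] at h1
    linarith

end Dist

end Pool.Agent.J4.H83.SG
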