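import Pool.Agent.J4.H83.SG.Defs
import Pool.Agent.J4.H83.OO.Comm

/-!
# The rotation of bonds by 60 degrees is exact up to the deviation of the lengths of the bonds
-/

set_option autoImplicit false

open MeasureTheory Set

namespace Pool.Agent.J4.H83.SG

open Pool.Agent.J4.H83.FV Pool.Agent.J4.H83.HD Pool.Agent.J4.H83.OO

namespace RotD

/-- a triangle in terms of the lengths of its sides -/
theorem tri (u v : ℂ) : ‖v - ze * u‖ ^ 2 * (‖u‖ ^ 2 + ‖v‖ ^ 2 + ‖v - u‖ ^ 2 - ‖v - ze * u‖ ^ 2) =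
    ((‖u‖ ^ 2 - ‖v‖ ^ 2) ^ 2 + (‖v‖ ^ 2 - ‖v - u‖ ^ 2) ^ 2 + (‖v - u‖ ^ 2 - ‖u‖ ^ 2) ^ 2) / 2 := by
  obtain ⟨u1, u2⟩ := u
  obtain ⟨v1, v2⟩ := v
  obtain ⟨r, hr⟩ : ∃ r : ℝ, r = √3 := ⟨_, rfl⟩
  have hr2 : r ^ 2 = 3 := by rw [hr]; exact Real.sq_sqrt (by norm_num)
  have hze : ze = ⟨1 / 2, r / 2⟩ := by
    apply Complex.ext
    · simp only [ze, om, Complex.add_re, Complex.one_re]
      norm_num
    · simp only [ze, om, Complex.add_im, Complex.one_im, hr]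
      ring
  rw [hze]
  simp only [Complex.sq_norm, Complex.normSq_apply, Complex.sub_re, Complex.sub_im, Complex.mul_re,
    Complex.mul_im]
  have hE : (v1 - (1 / 2 * u1 - r / 2 * u2)) * (v1 - (1 / 2 * u1 - r / 2 * u2)) +
      (v2 - (1 / 2 * u2 + r / 2 * u1)) * (v2 - (1 / 2 * u2 + r / 2 * u1)) =
      (u1 ^ 2 + u2 ^ 2 + v1 ^ 2 + v2 ^ 2 - u1 * v1 - u2 * v2) - r * (u1 * v2 - u2 * v1) := by
    linear_combination (u1 ^ 2 + u2 ^ 2) / 4 * hr2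
  rw [hE]
  linear_combination (-(u1 * v2 - u2 * v1) ^ 2) * hr2

/-- a nearly equilateral triangle -/
theorem tri_dev {u v : ℂ} {A d : ℝ} (hA : 1 ≤ A) (hd : 0 ≤ d) (hd2 : d ≤ 1 / 1000)
    (hu : |‖u‖ / A - 1| ≤ d) (hv : |‖v‖ / A - 1| ≤ d) (hw : |‖v - u‖ / A - 1| ≤ d)
    (he : ‖v - ze * u‖ ≤ 1 / 100) : ‖v - ze * u‖ ≤ 4 * d * A := by
  have hA0 : 0 < A := by linarith
  have hb : ∀ z : ℂ, |‖z‖ / A - 1| ≤ d → (1 - d) * A ≤ ‖z‖ ∧ ‖z‖ ≤ (1 + d) * A := by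
    intro z hz
    rw [abs_le] at hz
    constructor
    · rw [← le_div_iff₀ hA0]
      linarith
    · rw [← div_le_iff₀ hA0]
      linarith
  obtain ⟨a1, a2⟩ := hb u hu
  obtain ⟨b1, b2⟩ := hb v hv
  obtain ⟨c1, c2⟩ := hb (v - u) hw
  have hT := tri u v
  have hd1 : 0 ≤ (1 - d) * A := by
    apply mul_nonneg <;> linarith
  have hsq : ∀ t : ℝ, (1 - d) * A ≤ t → t ≤ (1 + d) * A →
      ((1 - d) * A) ^ 2 ≤ t ^ 2 ∧ t ^ 2 ≤ ((1 + d) * A) ^ 2 := fun t h1 h2 =>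
    ⟨pow_le_pow_left₀ hd1 h1 2, pow_le_pow_left₀ (hd1.trans h1) h2 2⟩
  obtain ⟨a3, a4⟩ := hsq _ a1 a2
  obtain ⟨b3, b4⟩ := hsq _ b1 b2
  obtain ⟨c3, c4⟩ := hsq _ c1 c2
  have hW : ((1 + d) * A) ^ 2 - ((1 - d) * A) ^ 2 = 4 * d * A ^ 2 := by ring
  have hW0 : 0 ≤ 4 * d * A ^ 2 := by positivity
  have hdiff : ∀ s t : ℝ, ((1 - d) * A) ^ 2 ≤ s → s ≤ ((1 + d) * A) ^ 2 →
      ((1 - d) * A) ^ 2 ≤ t → t ≤ ((1 + d) * A) ^ 2 → (s - t) ^ 2 ≤ (4 * d * A ^ 2) ^ 2 := by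
    intro s t h1 h2 h3 h4
    rw [← hW]
    apply sq_le_sq'
    · linarith
    · linarith
  have q1 := hdiff _ _ a3 a4 b3 b4
  have q2 := hdiff _ _ b3 b4 c3 c4
  have q3 := hdiff _ _ c3 c4 a3 a4
  set E := ‖v - ze * u‖ ^ 2 with hE
  have hE0 : 0 ≤ E := by positivity
  have hE1 : E ≤ 1 / 10000 := by
    have := pow_le_pow_left₀ (norm_nonneg (v - ze * u)) he 2
    rw [hE]
    linarith
  have hA2 : 1 ≤ A ^ 2 := by nlinarith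
  have hlow : (998 / 1000 : ℝ) * A ^ 2 ≤ ((1 - d) * A) ^ 2 := by
    rw [mul_pow]
    have : (998 / 1000 : ℝ) ≤ (1 - d) ^ 2 := by nlinarith
    exact mul_le_mul_of_nonneg_right this (by positivity)
  have hS : (29 / 10 : ℝ) * A ^ 2 ≤ ‖u‖ ^ 2 + ‖v‖ ^ 2 + ‖v - u‖ ^ 2 - E := by linarith
  have h1 : E * ((29 / 10 : ℝ) * A ^ 2) ≤ 3 / 2 * (4 * d * A ^ 2) ^ 2 := by
    calc E * ((29 / 10 : ℝ) * A ^ 2) ≤ E * (‖u‖ ^ 2 + ‖v‖ ^ 2 + ‖v - u‖ ^ 2 - E) :=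
          mul_le_mul_of_nonneg_left hS hE0
      _ ≤ 3 / 2 * (4 * d * A ^ 2) ^ 2 := by rw [hT]; linarith
  have h2 : E ≤ (4 * d * A) ^ 2 := by
    have h3 : E * ((29 / 10 : ℝ) * A ^ 2) ≤ (24 * d ^ 2 * A ^ 2) * A ^ 2 := by
      refine h1.trans (le_of_eq ?_)
      ring
    have h4 : (E * (29 / 10 : ℝ)) * A ^ 2 ≤ (24 * d ^ 2 * A ^ 2) * A ^ 2 := by linarith
    have h5 := le_of_mul_le_mul_right h4 (by linarith)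
    nlinarith [mul_nonneg (sq_nonneg d) (sq_nonneg A)]
  exact (pow_le_pow_iff_left₀ (norm_nonneg _) (by positivity) two_ne_zero).1 h2

theorem mem_Bd {N : ℕ} {x : Fin N → ℂ} {p : Fin N × Fin N} : p ∈ Bd x ↔ p.2 ∈ Nbr x p.1 := by
  unfold Bd
  rw [Finset.mem_filter]
  exact ⟨fun h => h.2, fun h => ⟨Finset.mem_univ _, h⟩⟩

theorem two_R : (11 / 10 : ℝ) < 2 * R := by
  unfold R
  have h3 : (√3 : ℝ) ^ 2 = 3 := Real.sq_sqrt (by norm_num)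
  have h0 : (0 : ℝ) ≤ √3 := Real.sqrt_nonneg 3
  nlinarith

end RotD

open RotD in
theorem rot_dev {N : ℕ} {x : Fin N → ℂ} (hx : Sep x) {τ C A d : ℝ} (hC : 1 ≤ C)
    (hCτ : C * τ ≤ 1 / 100) (hA : 1 ≤ A) (hA2 : A ≤ 1001 / 1000) (hd : 0 ≤ d) (hd2 : d ≤ 1 / 1000)
    {ρ : Equiv.Perm (Fin N × Fin N)} (hex0 : ∀ i, 0 ≤ ex x i) (hρ : IsRot x τ C ρ)
    {γ : Fin N × Fin N} (hγ : γ ∈ Bd x) (h : Dw τ A x d γ.1) :
    ‖bv x (ρ γ) - ze * bv x γ‖ ≤ 4 * d * A ∧ (γ.2, (ρ γ).2) ∈ Bd x ∧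
      ρ (γ.2, (ρ γ).2) = swp N γ := by
  have hb : ∀ i, ex x i ≤ τ → C * ex x i ≤ 1 / 100 := fun i hi =>
    (mul_le_mul_of_nonneg_left hi (by linarith)).trans hCτ
  obtain ⟨⟨g1, g2⟩, g3⟩ := h
  have hj : γ.2 ∈ Nbr x γ.1 := mem_Bd.1 hγ
  have mρ := hρ.mem _ hγ
  have hk : (ρ γ).2 ∈ Nbr x γ.1 := by
    have := mem_Bd.1 mρ
    rwa [hρ.fst] at this
  have vρ : ‖bv x (ρ γ) - ze * bv x γ‖ ≤ 1 / 100 := (hρ.vec _ hγ g1).trans (hb _ g1)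
  have hA0 : 0 < A := by linarith
  -- the vectors
  have eu : bv x γ = x γ.2 - x γ.1 := rfl
  have ev : bv x (ρ γ) = x (ρ γ).2 - x γ.1 := by
    unfold bv
    rw [hρ.fst]
  have ew : x (ρ γ).2 - x γ.2 = bv x (ρ γ) - bv x γ := by rw [eu, ev]; ring
  have lu := g2 _ hj
  have lv := g2 _ hk
  rw [← eu] at lu
  rw [← ev] at lv
  have nu : ‖bv x γ‖ ≤ (1 + d) * A := by
    rw [abs_le] at lu
    rw [← div_le_iff₀ hA0]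
    linarith [lu.2]
  have nu' : (1 - d) * A ≤ ‖bv x γ‖ := by
    rw [abs_le] at lu
    rw [← le_div_iff₀ hA0]
    linarith [lu.1]
  have ezz : bv x (ρ γ) - bv x γ = (bv x (ρ γ) - ze * bv x γ) + ze ^ 2 * bv x γ := by
    rw [Comm.ze_sq]
    ring
  have nz : ‖ze ^ 2 * bv x γ‖ = ‖bv x γ‖ := by
    rw [norm_mul, norm_pow, Comm.ze_norm, one_pow, one_mul]
  -- the third side
  have hne : (ρ γ).2 ≠ γ.2 := by
    intro heq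
    have h0 : bv x (ρ γ) - bv x γ = 0 := by rw [← ew, heq, sub_self]
    rw [ezz] at h0
    have h1 : ‖ze ^ 2 * bv x γ‖ = ‖bv x (ρ γ) - ze * bv x γ‖ := by
      rw [← norm_neg (bv x (ρ γ) - ze * bv x γ)]
      congr 1
      linear_combination h0
    rw [nz] at h1
    nlinarith
  have nw : ‖x (ρ γ).2 - x γ.2‖ < 2 * R := by
    rw [ew, ezz]
    have h1 := norm_add_le (bv x (ρ γ) - ze * bv x γ) (ze ^ 2 * bv x γ)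
    rw [nz] at h1
    have h2 := two_R
    nlinarith
  have hjk : (γ.2, (ρ γ).2) ∈ Bd x := Comm.mem_Bd.2 ⟨hne, nw⟩
  have hk2 : (ρ γ).2 ∈ Nbr x γ.2 := mem_Bd.1 hjk
  obtain ⟨k1, k2⟩ := g3 _ hj
  have lw := k2 _ hk2
  rw [ew] at lw
  refine ⟨tri_dev hA hd hd2 lu lv lw vρ, hjk, ?_⟩
  have v2 := hρ.vec _ hjk k1
  have f2 : (ρ (γ.2, (ρ γ).2)).1 = γ.2 := hρ.fst _
  have hb2 := hb _ k1
  refine Prod.ext f2 ?_
  show (ρ (γ.2, (ρ γ).2)).2 = γ.1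
  refine Comm.eq_of hx ?_
  have e1 : bv x (ρ (γ.2, (ρ γ).2)) = x (ρ (γ.2, (ρ γ).2)).2 - x γ.2 := by
    unfold bv
    rw [f2]
  have e2 : bv x (γ.2, (ρ γ).2) = bv x (ρ γ) - bv x γ := ew
  rw [e1, e2] at v2
  have e3 : x (ρ (γ.2, (ρ γ).2)).2 - x γ.1 =
      (x (ρ (γ.2, (ρ γ).2)).2 - x γ.2 - ze * (bv x (ρ γ) - bv x γ)) +
        ze * (bv x (ρ γ) - ze * bv x γ) := by
    have h1 : ze * (bv x (ρ γ) - bv x γ) = ze * (bv x (ρ γ) - ze * bv x γ) - bv x γ := by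
      have := Comm.ze_sq
      linear_combination (bv x γ) * this
    rw [h1, eu]
    ring
  rw [e3]
  have h1 := norm_add_le (x (ρ (γ.2, (ρ γ).2)).2 - x γ.2 - ze * (bv x (ρ γ) - bv x γ))
    (ze * (bv x (ρ γ) - ze * bv x γ))
  rw [norm_mul, Comm.ze_norm, one_mul] at h1
  have h2 : ‖x (ρ (γ.2, (ρ γ).2)).2 - x γ.2 - ze * (bv x (ρ γ) - bv x γ)‖ ≤ 1 / 100 :=
    v2.trans hb2
  linarith

theorem fw_dev {N : ℕ} {x : Fin N → ℂ} (hx : Sep x) {τ C A d : ℝ} (hC : 1 ≤ C)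
    (hCτ : C * τ ≤ 1 / 100) (hA : 1 ≤ A) (hA2 : A ≤ 1001 / 1000) (hd : 0 ≤ d) (hd2 : d ≤ 1 / 1000)
    {ρ : Equiv.Perm (Fin N × Fin N)} (hex0 : ∀ i, 0 ≤ ex x i) (hρ : IsRot x τ C ρ)
    {γ : Fin N × Fin N} (hγ : γ ∈ Bd x) (h : Dw τ A x d γ.2) :
    fw ρ γ ∈ Bd x ∧ (fw ρ γ).1 = γ.2 ∧ ‖bv x (fw ρ γ) - bv x γ‖ ≤ 12 * d * A := by
  have m0 := Comm.swp_mem hγ
  have m1 := hρ.mem _ m0
  have m2 := hρ.mem _ m1
  have m3 := hρ.mem _ m2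
  have f0 : (swp N γ).1 = γ.2 := rfl
  have f1 : (ρ (swp N γ)).1 = γ.2 := (hρ.fst _).trans f0
  have f2 : (ρ (ρ (swp N γ))).1 = γ.2 := (hρ.fst _).trans f1
  have f3 : (ρ (ρ (ρ (swp N γ)))).1 = γ.2 := (hρ.fst _).trans f2
  have v1 := (rot_dev hx hC hCτ hA hA2 hd hd2 hex0 hρ m0 (by rw [f0]; exact h)).1
  have v2 := (rot_dev hx hC hCτ hA hA2 hd hd2 hex0 hρ m1 (by rw [f1]; exact h)).1
  have v3 := (rot_dev hx hC hCτ hA hA2 hd hd2 hex0 hρ m2 (by rw [f2]; exact h)).1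
  rw [Comm.swp_bv] at v1
  refine ⟨m3, f3, ?_⟩
  rw [Comm.fw_apply]
  have e : bv x (ρ (ρ (ρ (swp N γ)))) - bv x γ =
      (bv x (ρ (ρ (ρ (swp N γ)))) - ze * bv x (ρ (ρ (swp N γ)))) +
      ze * (bv x (ρ (ρ (swp N γ))) - ze * bv x (ρ (swp N γ))) +
      ze ^ 2 * (bv x (ρ (swp N γ)) - ze * -bv x γ) := by
    linear_combination (-bv x γ) * Comm.ze_cube
  rw [e]
  refine (norm_add₃_le).trans ?_
  rw [norm_mul, norm_mul, norm_pow, Comm.ze_norm, one_pow, one_mul, one_mul]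
  linarith

theorem up_dev {N : ℕ} {x : Fin N → ℂ} (hx : Sep x) {τ C A d : ℝ} (hC : 1 ≤ C)
    (hCτ : C * τ ≤ 1 / 100) (hA : 1 ≤ A) (hA2 : A ≤ 1001 / 1000) (hd : 0 ≤ d) (hd2 : d ≤ 1 / 1000)
    {ρ : Equiv.Perm (Fin N × Fin N)} (hex0 : ∀ i, 0 ≤ ex x i) (hρ : IsRot x τ C ρ)
    {γ : Fin N × Fin N} (hγ : γ ∈ Bd x) (h : Dw τ A x d γ.1) (h' : Dw τ A x d (up ρ γ).1) :
    up ρ γ ∈ Bd x ∧ (up ρ γ).1 = (ρ γ).2 ∧ ‖bv x (up ρ γ) - bv x γ‖ ≤ 12 * d * A := by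
  have eu : (up ρ γ).1 = (ρ γ).2 := by
    rw [Comm.up_apply, hρ.fst, hρ.fst, Comm.swp_fst]
  rw [eu] at h'
  have mρ := hρ.mem _ hγ
  have vρ := (rot_dev hx hC hCτ hA hA2 hd hd2 hex0 hρ hγ h).1
  have m0 := Comm.swp_mem mρ
  have m1 := hρ.mem _ m0
  have m2 := hρ.mem _ m1
  have f0 : (swp N (ρ γ)).1 = (ρ γ).2 := rfl
  have f1 : (ρ (swp N (ρ γ))).1 = (ρ γ).2 := (hρ.fst _).trans f0
  have v1 := (rot_dev hx hC hCτ hA hA2 hd hd2 hex0 hρ m0 (by rw [f0]; exact h')).1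
  have v2 := (rot_dev hx hC hCτ hA hA2 hd hd2 hex0 hρ m1 (by rw [f1]; exact h')).1
  rw [Comm.swp_bv] at v1
  refine ⟨m2, eu, ?_⟩
  rw [Comm.up_apply]
  have e : bv x (ρ (ρ (swp N (ρ γ)))) - bv x γ =
      (bv x (ρ (ρ (swp N (ρ γ)))) - ze * bv x (ρ (swp N (ρ γ)))) +
      ze * (bv x (ρ (swp N (ρ γ))) - ze * -bv x (ρ γ)) +
      ze ^ 2 * -(bv x (ρ γ) - ze * bv x γ) := by
    linear_combination (-bv x γ) * Comm.ze_cube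
  rw [e]
  refine (norm_add₃_le).trans ?_
  rw [norm_mul, norm_mul, norm_pow, Comm.ze_norm, one_pow, one_mul, one_mul, norm_neg]
  linarith

end Pool.Agent.J4.H83.SG
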