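import Pool.Agent.J4.H83.SG.DefsU
import Pool.Agent.J4.H83.SG.RotD
import Pool.Agent.J4.H83.SG.Dist

/-!
# Steep Gaussians: a configuration all of whose particles are perfect is a hexagonal lattice
(piece HEXC of the project SG)
-/

set_option autoImplicit false

open MeasureTheory Set Filter Topology

namespace Pool.Agent.J4.H83.SG

open Pool.Agent.J4.H83.FV Pool.Agent.J4.H83.HD Pool.Agent.J4.H83.OO

namespace HexC

lemma two_R_lt : 2 * R < 2 := by
  unfold R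
  have h3 : (√3 : ℝ) ^ 2 = 3 := Real.sq_sqrt (by norm_num)
  have h0 : (0 : ℝ) ≤ √3 := Real.sqrt_nonneg 3
  nlinarith

lemma enum {C : Set ℂ} (hfin : ∀ (y : ℂ) (r : ℝ), {y' ∈ C | ‖y' - y‖ < r}.Finite) {y : ℂ}
    (hy : y ∈ C) : ∃ (M : ℕ) (z : Fin M → ℂ) (i : Fin M), z i = y ∧
      ∀ j, ‖z j - y‖ < 5 → Loc C (2 * R) z j := by
  obtain ⟨F, hF⟩ : ∃ F : Finset ℂ, ∀ u, u ∈ F ↔ u ∈ C ∧ ‖u - y‖ < 10 :=
    ⟨(hfin y 10).toFinset, fun u => Set.Finite.mem_toFinset _⟩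
  have e := F.equivFin.symm
  have hyF : y ∈ F := (hF y).2 ⟨hy, by simp⟩
  refine ⟨F.card, fun l => (e l : ℂ), e.symm ⟨y, hyF⟩, by simp, ?_⟩
  intro j hj
  refine ⟨?_, ?_, ?_⟩
  · intro a b hab
    exact e.injective (Subtype.ext hab)
  · intro l
    exact ((hF _).1 (e l).2).1
  · intro y' hy' h
    have h2 : ‖y' - y‖ < 10 := by
      have h3 := norm_add_le (y' - (e j : ℂ)) ((e j : ℂ) - y)
      rw [sub_add_sub_cancel] at h3
      have h4 := two_R_lt
      simp only at hj h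
      linarith
    exact ⟨e.symm ⟨y', (hF y').2 ⟨hy', h2⟩⟩, by simp⟩

lemma loc1 {C : Set ℂ} {τ A Cc : ℝ} (hA : 1 ≤ A) (hA2 : A ≤ 1001 / 1000)
    (hsep : ∀ y ∈ C, ∀ y' ∈ C, y ≠ y' → 1 / A ≤ ‖y - y'‖)
    (hfin : ∀ (y : ℂ) (r : ℝ), {y' ∈ C | ‖y' - y‖ < r}.Finite)
    (hCc : 1 ≤ Cc) (hCτ : Cc * τ ≤ 1 / 100)
    (hrot : ∀ (N : ℕ) (x : Fin N → ℂ), Sep x → (∀ i, 0 ≤ ex x i) ∧
      ∃ ρ : Equiv.Perm (Fin N × Fin N), IsRot x τ Cc ρ)
    (hperf : ∀ (M : ℕ) (z : Fin M → ℂ) (i : Fin M), Loc C (2 * R) z i →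
      Dv τ A (fun l => (A : ℂ) * z l) 0 i) {y : ℂ} (hy : y ∈ C) :
    (∃ w : ℂ, ‖w‖ = 1 ∧ y + w ∈ C) ∧ ∀ w : ℂ, ‖w‖ = 1 → y + w ∈ C → y + ze * w ∈ C := by
  obtain ⟨M, z, i, hzi, hloc⟩ := enum hfin hy
  have hA0 : 0 < A := by linarith
  have hAc : (A : ℂ) ≠ 0 := by exact_mod_cast hA0.ne'
  have hi : Loc C (2 * R) z i := hloc i (by rw [hzi, sub_self, norm_zero]; norm_num)
  have hnorm : ∀ a b, ‖(A : ℂ) * z a - (A : ℂ) * z b‖ = A * ‖z a - z b‖ := by
    intro a b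
    rw [← mul_sub, norm_mul, Complex.norm_of_nonneg hA0.le]
  have hx : Sep (fun l => (A : ℂ) * z l) := by
    intro a b hab
    show 1 ≤ ‖(A : ℂ) * z a - (A : ℂ) * z b‖
    rw [hnorm]
    have h1 : z a ≠ z b := fun h => hab (hi.inj h)
    have h2 := hsep _ (hi.sub a) _ (hi.sub b) h1
    rwa [div_le_iff₀' hA0] at h2
  obtain ⟨hex0, ρ, hρ⟩ := hrot M _ hx
  have hDv : ∀ j, ‖z j - y‖ < 5 → Dv τ A (fun l => (A : ℂ) * z l) 0 j := fun j hj =>
    hperf M z j (hloc j hj)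
  have hiDv : Dv τ A (fun l => (A : ℂ) * z l) 0 i :=
    hDv i (by rw [hzi, sub_self, norm_zero]; norm_num)
  have hone : ∀ j ∈ Nbr (fun l => (A : ℂ) * z l) i, ‖z j - y‖ = 1 := by
    intro j hj
    have h1 := hiDv.2 j hj
    have h2 : ‖(A : ℂ) * z j - (A : ℂ) * z i‖ / A - 1 = 0 := abs_nonpos_iff.1 h1
    rw [hnorm, mul_div_cancel_left₀ _ hA0.ne'] at h2
    rw [← hzi]
    linarith
  have hDw : Dw τ A (fun l => (A : ℂ) * z l) 0 i :=
    ⟨hiDv, fun j hj => hDv j (by rw [hone j hj]; norm_num)⟩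
  have h2R := RotD.two_R
  refine ⟨?_, ?_⟩
  · have h6 := hρ.six i hiDv.1
    have hne : (Nbr (fun l => (A : ℂ) * z l) i).Nonempty := by
      rw [← Finset.card_pos, h6]
      norm_num
    obtain ⟨j, hj⟩ := hne
    refine ⟨z j - y, hone j hj, ?_⟩
    rw [add_sub_cancel]
    exact hi.sub j
  · intro w hw hyw
    obtain ⟨l, hl⟩ := hi.all (y + w) hyw (by rw [hzi, add_sub_cancel_left, hw]; linarith)
    have hli : l ≠ i := by
      rintro rfl
      rw [hzi] at hl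
      have : w = 0 := by linear_combination -hl
      rw [this, norm_zero] at hw
      norm_num at hw
    have hγ : (i, l) ∈ Bd (fun l => (A : ℂ) * z l) := by
      rw [Comm.mem_Bd]
      refine ⟨hli, ?_⟩
      show ‖(A : ℂ) * z l - (A : ℂ) * z i‖ < 2 * R
      rw [hnorm, hl, hzi, add_sub_cancel_left, hw]
      linarith
    have h1 := (rot_dev hx hCc hCτ hA hA2 le_rfl (by norm_num) hex0 hρ hγ hDw).1
    rw [mul_zero, zero_mul, norm_le_zero_iff, sub_eq_zero] at h1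
    have h2 : (ρ (i, l)).1 = i := hρ.fst _
    unfold bv at h1
    rw [h2] at h1
    simp only at h1
    rw [hl, hzi] at h1
    have h3 : z (ρ (i, l)).2 = y + ze * w := by
      have h4 : (A : ℂ) * z (ρ (i, l)).2 = (A : ℂ) * (y + ze * w) := by linear_combination h1
      exact mul_left_cancel₀ hAc h4
    rw [← h3]
    exact hi.sub _

/-- the covering radius of the hexagonal lattice is less than `9 / 10` -/
lemma cover (p : ℂ) : ∃ m n : ℤ, ‖p - (m + n * ze)‖ < 9 / 10 := by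
  -- real coordinates
  have h3 : (√3 : ℝ) ^ 2 = 3 := Real.sq_sqrt (by norm_num)
  have h0 : (0 : ℝ) < √3 := Real.sqrt_pos.2 (by norm_num)
  set b : ℝ := 2 * p.im / √3 with hb
  set a : ℝ := p.re - b / 2 with ha
  refine ⟨round a, round b, ?_⟩
  have hza := abs_sub_round a
  have hzb := abs_sub_round b
  set s := a - round a with hs
  set t := b - round b with ht
  have e : p - ((round a : ℤ) + (round b : ℤ) * ze) = ⟨s + t / 2, t * (√3 / 2)⟩ := by
    have hbim : b * √3 = 2 * p.im := by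
      rw [hb]
      field_simp
    apply Complex.ext
    · simp only [ze, om, Complex.sub_re, Complex.add_re, Complex.mul_re, Complex.intCast_re,
        Complex.intCast_im, Complex.one_re, Complex.add_im, Complex.one_im]
      rw [hs, ht, ha]
      ring
    · simp only [ze, om, Complex.sub_im, Complex.add_re, Complex.mul_im, Complex.intCast_re,
        Complex.intCast_im, Complex.one_re, Complex.add_im, Complex.one_im]
      rw [ht]
      linear_combination (-1 / 2 : ℝ) * hbim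
  rw [e]
  have h1 : ‖(⟨s + t / 2, t * (√3 / 2)⟩ : ℂ)‖ ^ 2 = s ^ 2 + s * t + t ^ 2 := by
    rw [Complex.sq_norm, Complex.normSq_apply]
    simp only
    linear_combination (t ^ 2 / 4) * h3
  have h2 : s ^ 2 + s * t + t ^ 2 ≤ 3 / 4 := by
    rw [abs_le] at hza hzb
    nlinarith [mul_nonneg (sub_nonneg.2 hza.2) (sub_nonneg.2 hzb.2), mul_nonneg (sub_nonneg.2 hza.1) (sub_nonneg.2 hzb.1),
      mul_nonneg (sub_nonneg.2 hza.1) (sub_nonneg.2 hza.2), mul_nonneg (sub_nonneg.2 hzb.1) (sub_nonneg.2 hzb.2),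
      mul_nonneg (sub_nonneg.2 hza.1) (sub_nonneg.2 hzb.2), mul_nonneg (sub_nonneg.2 hza.2) (sub_nonneg.2 hzb.1)]
  by_contra hc
  rw [not_lt] at hc
  nlinarith [norm_nonneg (⟨s + t / 2, t * (√3 / 2)⟩ : ℂ)]

end HexC

open HexC in
theorem perfect_hex {C : Set ℂ} {τ A Cc : ℝ} (hA : 1 ≤ A) (hA2 : A ≤ 1001 / 1000)
    (hC0 : C.Nonempty) (hsep : ∀ y ∈ C, ∀ y' ∈ C, y ≠ y' → 1 / A ≤ ‖y - y'‖)
    (hfin : ∀ (y : ℂ) (r : ℝ), {y' ∈ C | ‖y' - y‖ < r}.Finite)
    (hCc : 1 ≤ Cc) (hCτ : Cc * τ ≤ 1 / 100)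
    (hrot : ∀ (N : ℕ) (x : Fin N → ℂ), Sep x → (∀ i, 0 ≤ ex x i) ∧
      ∃ ρ : Equiv.Perm (Fin N × Fin N), IsRot x τ Cc ρ)
    (hperf : ∀ (M : ℕ) (z : Fin M → ℂ) (i : Fin M), Loc C (2 * R) z i →
      Dv τ A (fun l => (A : ℂ) * z l) 0 i) :
    ∃ c w : ℂ, ‖w‖ = 1 ∧ C = {y | ∃ m n : ℤ, y = c + w * (m + n * ze)} := by
  obtain ⟨c, hc⟩ := hC0
  have hl := fun {y : ℂ} (hy : y ∈ C) => loc1 hA hA2 hsep hfin hCc hCτ hrot hperf hy
  obtain ⟨w, hw, hcw⟩ := (hl hc).1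
  have hzn : ‖ze‖ = 1 := Comm.ze_norm
  have hz3 : ze ^ 3 = -1 := Comm.ze_cube
  have hA0 : 0 < A := by linarith
  -- all rotations
  have rotn : ∀ (s : ℕ) (y u : ℂ), ‖u‖ = 1 → y ∈ C → y + u ∈ C → y + ze ^ s * u ∈ C := by
    intro s
    induction s with
    | zero => intro y u _ _ h; simpa using h
    | succ s ih =>
      intro y u hu hy h
      have h1 := ih y u hu hy h
      have h2 := (hl hy).2 (ze ^ s * u) (by rw [norm_mul, norm_pow, hzn, one_pow, one_mul, hu]) h1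
      rw [← mul_assoc, ← pow_succ'] at h2
      exact h2
  have step : ∀ (s : ℕ) (y : ℂ), (y ∈ C ∧ y + w ∈ C) →
      (y + ze ^ s * w ∈ C ∧ y + ze ^ s * w + w ∈ C) := by
    intro s y h
    have h1 := rotn s y w hw h.1 h.2
    refine ⟨h1, ?_⟩
    -- neighbour y of y + ze^s w, vector - ze^s w; rotate by 6 - s + 3 mod 6: use ze^(5 s + 3)
    have h2 := rotn (5 * s + 3) (y + ze ^ s * w) (-(ze ^ s * w))
      (by rw [norm_neg, norm_mul, norm_pow, hzn, one_pow, one_mul, hw]) h1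
      (by rw [add_neg_cancel_right]; exact h.1)
    have h3 : ze ^ (5 * s + 3) * (-(ze ^ s * w)) = w := by
      have h4 : ze ^ (5 * s + 3) * (-(ze ^ s * w)) = (ze ^ 3) ^ (2 * s) * (ze ^ 3) * (-1) * w := by ring
      rw [h4, hz3, pow_mul]
      norm_num
    rwa [h3] at h2
  have h1p : ∀ y, (y ∈ C ∧ y + w ∈ C) → (y + w ∈ C ∧ y + w + w ∈ C) := fun y h => by
    simpa using step 0 y h
  have h1m : ∀ y, (y ∈ C ∧ y + w ∈ C) → (y - w ∈ C ∧ y - w + w ∈ C) := fun y h => by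
    have := step 3 y h
    rw [hz3, neg_one_mul, ← sub_eq_add_neg] at this
    exact this
  have h2p : ∀ y, (y ∈ C ∧ y + w ∈ C) → (y + ze * w ∈ C ∧ y + ze * w + w ∈ C) := fun y h => by
    simpa using step 1 y h
  have h2m : ∀ y, (y ∈ C ∧ y + w ∈ C) → (y - ze * w ∈ C ∧ y - ze * w + w ∈ C) := fun y h => by
    have := step 4 y h
    have e : ze ^ 4 * w = -(ze * w) := by
      have : ze ^ 4 = ze ^ 3 * ze := by ring
      rw [this, hz3]
      ring
    rw [e, ← sub_eq_add_neg] at this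
    exact this
  have hm : ∀ (m : ℤ) (y : ℂ), (y ∈ C ∧ y + w ∈ C) → (y + w * m ∈ C ∧ y + w * m + w ∈ C) := by
    intro m y h
    induction m using Int.induction_on with
    | zero => simpa using h
    | succ i ih =>
      have := h1p _ ih
      have e : y + w * ((i : ℤ) : ℂ) + w = y + w * (((i : ℤ) + 1 : ℤ) : ℂ) := by push_cast; ring
      rwa [e] at this
    | pred i ih =>
      have := h1m _ ih
      have e : y + w * ((-(i : ℤ) : ℤ) : ℂ) - w = y + w * ((-(i : ℤ) - 1 : ℤ) : ℂ) := by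
        push_cast; ring
      rwa [e] at this
  have hn : ∀ (n : ℤ) (y : ℂ), (y ∈ C ∧ y + w ∈ C) →
      (y + w * (n * ze) ∈ C ∧ y + w * (n * ze) + w ∈ C) := by
    intro n y h
    induction n using Int.induction_on with
    | zero => simpa using h
    | succ i ih =>
      have := h2p _ ih
      have e : y + w * (((i : ℤ) : ℂ) * ze) + ze * w = y + w * ((((i : ℤ) + 1 : ℤ) : ℂ) * ze) := by
        push_cast; ring
      rwa [e] at this
    | pred i ih =>
      have := h2m _ ih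
      have e : y + w * (((-(i : ℤ) : ℤ) : ℂ) * ze) - ze * w =
          y + w * (((-(i : ℤ) - 1 : ℤ) : ℂ) * ze) := by
        push_cast; ring
      rwa [e] at this
  have hall : ∀ m n : ℤ, c + w * (m + n * ze) ∈ C := by
    intro m n
    have := (hn n _ (hm m c ⟨hc, hcw⟩)).1
    rwa [add_assoc, ← mul_add] at this
  refine ⟨c, w, hw, ?_⟩
  apply Set.Subset.antisymm
  · intro y hy
    have hw0 : w ≠ 0 := by
      intro h
      rw [h, norm_zero] at hw
      norm_num at hw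
    obtain ⟨m, n, hmn⟩ := cover ((y - c) / w)
    refine ⟨m, n, ?_⟩
    by_contra hne
    have h1 := hsep y hy _ (hall m n) hne
    have h2 : y - (c + w * (m + n * ze)) = w * ((y - c) / w - (m + n * ze)) := by
      field_simp
      ring
    rw [h2, norm_mul, hw, one_mul] at h1
    have h3 : 1 / A < 9 / 10 := lt_of_le_of_lt h1 hmn
    rw [div_lt_iff₀ hA0] at h3
    linarith
  · rintro y ⟨m, n, rfl⟩
    exact hall m n

end Pool.Agent.J4.H83.SG
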