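import Pool.Agent.J4.H83.OO.Rot
import Pool.Agent.J4.H83.OO.Straight
import Pool.Agent.J4.H83.OO.CountO

/-!
# Steep Gaussians: the hexagonal lattice minimises the energy (definitions)

`x` is a finite configuration with mutual distances at least one (`Sep x`), `A ≥ 1` is the spacing of the
optimal lattice in these units, and `β` the exponent in the units in which this spacing is one: the
energy is `∑ exp (-β (‖x j - x i‖ / A)²)`.
-/

set_option autoImplicit false

open MeasureTheory Set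

namespace Pool.Agent.J4.H83.SG

open Pool.Agent.J4.H83.FV Pool.Agent.J4.H83.HD Pool.Agent.J4.H83.OO

/-- the norm of `m + n ζ` -/
def Nm (m n : ℕ) : ℕ := m ^ 2 + m * n + n ^ 2

/-- the area of the Voronoi cell of the particle `i`, truncated at the radius `R A`, in units `A²` -/
noncomputable def vA {N : ℕ} (A : ℝ) (x : Fin N → ℂ) (i : Fin N) : ℝ :=
  (volume (T (Finset.univ.erase i) fun j => (x j - x i) / (A : ℂ))).toReal

/-- the particle `i` is good (excess at most `τ`) and its bonds have the length `A` up to `d A` -/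
def Dv {N : ℕ} (τ A : ℝ) (x : Fin N → ℂ) (d : ℝ) (i : Fin N) : Prop :=
  ex x i ≤ τ ∧ ∀ j ∈ Nbr x i, |‖x j - x i‖ / A - 1| ≤ d

/-- the translation of bonds by the lattice vector `m + n ζ` -/
def act {N : ℕ} (ρ : Equiv.Perm (Fin N × Fin N)) (m n : ℕ) : Equiv.Perm (Fin N × Fin N) :=
  fw ρ ^ m * up ρ ^ n

/-- the vector from the particle `γ.1` to its translate -/
def Xv {N : ℕ} (x : Fin N → ℂ) (ρ : Equiv.Perm (Fin N × Fin N)) (m n : ℕ) (γ : Fin N × Fin N) : ℂ :=
  x (act ρ m n γ).1 - x γ.1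

open Classical in
/-- the particles which are not good of level `k` -/
noncomputable def bad {N : ℕ} (τ A c₀ : ℝ) (x : Fin N → ℂ) (k : ℕ) : Finset (Fin N) :=
  Finset.univ.filter fun i => ¬ Dv τ A x (c₀ / (k : ℝ) ^ 2) i

/-- the particle `i` and its neighbours are good with deviation at most `d` -/
def Dw {N : ℕ} (τ A : ℝ) (x : Fin N → ℂ) (d : ℝ) (i : Fin N) : Prop :=
  Dv τ A x d i ∧ ∀ j ∈ Nbr x i, Dv τ A x d j

open Classical in
/-- the bonds such that all the particles in the parallelogram of size `2 k` over the bond, and their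
neighbours, are good of level `k` -/
noncomputable def Gk {N : ℕ} (τ A c₀ : ℝ) (x : Fin N → ℂ) (ρ : Equiv.Perm (Fin N × Fin N)) (k : ℕ) :
    Finset (Fin N × Fin N) :=
  (Bd x).filter fun γ => ∀ m ≤ 2 * k, ∀ n ≤ 2 * k,
    Dw τ A x (c₀ / (k : ℝ) ^ 2) (act ρ m n γ).1

/-- the lattice vectors `m + n ζ`, `m ≥ 1`, `2 ≤ m + n ≤ K`: one sixth of the lattice without the
shortest vectors -/
def far (K : ℕ) : Finset (ℕ × ℕ) :=
  (Finset.Icc 1 K ×ˢ Finset.range K).filter fun p => 2 ≤ p.1 + p.2 ∧ p.1 + p.2 ≤ K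

/-- the energy of the configuration -/
noncomputable def En {N : ℕ} (β A : ℝ) (x : Fin N → ℂ) : ℝ :=
  ∑ i, ∑ j ∈ Finset.univ.erase i, Real.exp (-β * (‖x j - x i‖ / A) ^ 2)

open Classical in
/-- the bonds of the good particles -/
noncomputable def Bg {N : ℕ} (τ : ℝ) (x : Fin N → ℂ) : Finset (Fin N × Fin N) :=
  (Bd x).filter fun γ => ex x γ.1 ≤ τ

/-- the energy of the hexagonal lattice up to the shell `K` -/
noncomputable def eK (β : ℝ) (K : ℕ) : ℝ :=
  6 * (Real.exp (-β) + ∑ p ∈ far K, Real.exp (-β * Nm p.1 p.2))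

/-- the pressure up to the shell `K` -/
noncomputable def PK (β : ℝ) (K : ℕ) : ℝ :=
  4 * √3 * β * (Real.exp (-β) + ∑ p ∈ far K, (Nm p.1 p.2 : ℝ) * Real.exp (-β * Nm p.1 p.2))

end Pool.Agent.J4.H83.SG
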