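import Mathlib
import Pool.Agent.J4.H83.SG.Defs

/-! Project SG (helper83), piece HEXS: the energy of the hexagonal lattice is the supremum of the energies of its shells. -/

set_option autoImplicit false

open MeasureTheory Set Filter Topology

namespace Pool.Agent.J4.H83.SG

namespace HexSAux

/-- the rotations by multiples of 60 degrees -/
def g : Fin 6 × (ℕ × ℕ) → ℤ × ℤ
  | (0, c) => ((c.1 : ℤ), (c.2 : ℤ))
  | (1, c) => (-(c.2 : ℤ), (c.1 : ℤ) + c.2)
  | (2, c) => (-((c.1 : ℤ) + c.2), (c.1 : ℤ))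
  | (3, c) => (-(c.1 : ℤ), -(c.2 : ℤ))
  | (4, c) => ((c.2 : ℤ), -((c.1 : ℤ) + c.2))
  | (5, c) => ((c.1 : ℤ) + c.2, -(c.1 : ℤ))

lemma g_norm (x : Fin 6 × (ℕ × ℕ)) :
    ((g x).1 : ℝ) ^ 2 + (g x).1 * (g x).2 + ((g x).2 : ℝ) ^ 2 = (Nm x.2.1 x.2.2 : ℝ) := by
  obtain ⟨i, m, n⟩ := x
  unfold Nm
  fin_cases i <;> simp [g] <;> ring

lemma cover (a b : ℤ) (h : (a, b) ≠ 0) (K : ℕ) (hK : a.natAbs + b.natAbs ≤ K) :
    ∃ x ∈ (Finset.univ : Finset (Fin 6)) ×ˢ insert (1, 0) (far K), g x = (a, b) := by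
  have hab : a ≠ 0 ∨ b ≠ 0 := by
    by_contra hc
    push Not at hc
    exact h (by rw [hc.1, hc.2]; rfl)
  have key : ∀ (i : Fin 6) (m n : ℕ), 1 ≤ m → m + n ≤ K → g (i, (m, n)) = (a, b) →
      ∃ x ∈ (Finset.univ : Finset (Fin 6)) ×ˢ insert (1, 0) (far K), g x = (a, b) := by
    intro i m n hm hmn hg
    refine ⟨(i, (m, n)), ?_, hg⟩
    rw [Finset.mem_product]
    refine ⟨Finset.mem_univ _, ?_⟩
    rw [Finset.mem_insert]
    by_cases h2 : m + n = 1
    · left
      have e1 : m = 1 := by omega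
      have e2 : n = 0 := by omega
      rw [e1, e2]
    · right
      unfold far
      rw [Finset.mem_filter, Finset.mem_product, Finset.mem_Icc, Finset.mem_range]
      refine ⟨⟨⟨hm, ?_⟩, ?_⟩, ?_, ?_⟩ <;> dsimp only <;> omega
  rcases lt_trichotomy b 0 with hb | hb | hb
  · rcases lt_or_ge a 0 with ha | ha
    · refine key 3 a.natAbs b.natAbs (by omega) (by omega) ?_
      simp only [g]
      ext <;> dsimp only <;> omega
    · rcases lt_or_ge (a + b) 0 with hs | hs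
      · refine key 4 (a + b).natAbs a.natAbs (by omega) (by omega) ?_
        simp only [g]
        ext <;> dsimp only <;> omega
      · refine key 5 b.natAbs (a + b).natAbs (by omega) (by omega) ?_
        simp only [g]
        ext <;> dsimp only <;> omega
  · rcases lt_or_ge a 0 with ha | ha
    · refine key 3 a.natAbs b.natAbs (by omega) (by omega) ?_
      simp only [g]
      ext <;> dsimp only <;> omega
    · refine key 0 a.natAbs b.natAbs (by omega) (by omega) ?_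
      simp only [g]
      ext <;> dsimp only <;> omega
  · rcases lt_or_ge 0 a with ha | ha
    · refine key 0 a.natAbs b.natAbs (by omega) (by omega) ?_
      simp only [g]
      ext <;> dsimp only <;> omega
    · rcases lt_or_ge 0 (a + b) with hs | hs
      · refine key 1 (a + b).natAbs a.natAbs (by omega) (by omega) ?_
        simp only [g]
        ext <;> dsimp only <;> omega
      · refine key 2 b.natAbs (a + b).natAbs (by omega) (by omega) ?_
        simp only [g]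
        ext <;> dsimp only <;> omega

end HexSAux

open HexSAux in
/-- finite form -/
theorem hex_fin {β E : ℝ} (hβ : 0 < β) (h : ∀ K, eK β K ≤ E) (s : Finset {p : ℤ × ℤ // p ≠ 0}) :
    ∑ p ∈ s, Real.exp (-β * ((p.1.1 : ℝ) ^ 2 + p.1.1 * p.1.2 + (p.1.2 : ℝ) ^ 2)) ≤ E := by
  classical
  have _ := hβ
  set F : ℤ × ℤ → ℝ := fun p => Real.exp (-β * ((p.1 : ℝ) ^ 2 + p.1 * p.2 + (p.2 : ℝ) ^ 2)) with hF
  show ∑ p ∈ s, F p.1 ≤ E
  set K : ℕ := s.sup (fun p => p.1.1.natAbs + p.1.2.natAbs) with hK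
  have hc : ∀ p : {p : ℤ × ℤ // p ≠ 0}, ∃ x : Fin 6 × (ℕ × ℕ), p ∈ s →
      x ∈ (Finset.univ : Finset (Fin 6)) ×ˢ insert (1, 0) (far K) ∧ g x = p.1 := by
    intro p
    by_cases hp : p ∈ s
    · obtain ⟨x, hx1, hx2⟩ := cover p.1.1 p.1.2 p.2 K
        (Finset.le_sup (f := fun p : {p : ℤ × ℤ // p ≠ 0} => p.1.1.natAbs + p.1.2.natAbs) hp)
      exact ⟨x, fun _ => ⟨hx1, hx2⟩⟩
    · exact ⟨(0, (0, 0)), fun hp' => absurd hp' hp⟩
  choose ψ hψ using hc
  have hinj : Set.InjOn ψ s := by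
    intro p hp q hq hpq
    apply Subtype.ext
    rw [← (hψ p hp).2, ← (hψ q hq).2, hpq]
  have h1 : ∑ p ∈ s, F p.1 = ∑ x ∈ s.image ψ, F (g x) := by
    rw [Finset.sum_image hinj]
    exact Finset.sum_congr rfl fun p hp => by rw [(hψ p hp).2]
  have h2 : ∑ x ∈ s.image ψ, F (g x) ≤
      ∑ x ∈ (Finset.univ : Finset (Fin 6)) ×ˢ insert (1, 0) (far K), F (g x) := by
    refine Finset.sum_le_sum_of_subset_of_nonneg ?_ fun x _ _ => (Real.exp_pos _).le
    intro x hx
    obtain ⟨p, hp, rfl⟩ := Finset.mem_image.1 hx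
    exact (hψ p hp).1
  have h3 : ∑ x ∈ (Finset.univ : Finset (Fin 6)) ×ˢ insert (1, 0) (far K), F (g x) = eK β K := by
    have e1 : ∀ x : Fin 6 × (ℕ × ℕ), F (g x) = Real.exp (-β * Nm x.2.1 x.2.2) := by
      intro x
      rw [hF]
      dsimp only
      rw [g_norm]
    have e2 : ((1, 0) : ℕ × ℕ) ∉ far K := by
      unfold far
      rw [Finset.mem_filter]
      rintro ⟨_, hh, _⟩
      exact absurd hh (by norm_num)
    rw [Finset.sum_congr rfl fun x _ => e1 x, Finset.sum_product]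
    dsimp only
    rw [Finset.sum_const, Finset.card_univ, Fintype.card_fin, nsmul_eq_mul, Finset.sum_insert e2]
    unfold eK
    norm_num [Nm]
  rw [h1]
  exact h2.trans (h3.trans_le (h K))

theorem hex_sup {β E : ℝ} (hβ : 0 < β) (h : ∀ K, eK β K ≤ E) :
    ∑' p : {p : ℤ × ℤ // p ≠ 0}, Real.exp (-β * ((p.1.1 : ℝ) ^ 2 + p.1.1 * p.1.2 + (p.1.2 : ℝ) ^ 2)) ≤
      E := by
  have hE : 0 ≤ E := by
    refine le_trans ?_ (h 0)
    unfold eK
    positivity
  exact tsum_le_of_sum_le' hE fun s => hex_fin hβ h s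

end Pool.Agent.J4.H83.SG
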