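import Pool.Agent.J4.H83.SG.DefsU

/-!
# Project SG (helper83), second round, piece LOCAL (helper30): the excess is a local quantity
-/

set_option autoImplicit false

open MeasureTheory Set Filter Topology

namespace Pool.Agent.J4.H83.SG

open Pool.Agent.J4.H83.FV Pool.Agent.J4.H83.HD Pool.Agent.J4.H83.OO

namespace LocalU

theorem nrm {A : ℝ} (hA : 1 ≤ A) (a b : ℂ) : ‖(A : ℂ) * a - (A : ℂ) * b‖ = A * ‖a - b‖ := by
  rw [← mul_sub, norm_mul, Complex.norm_real, Real.norm_eq_abs, abs_of_nonneg (by linarith)]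

/-- the cell in terms of the set -/
theorem T_eq {C : Set ℂ} {A : ℝ} (hA : 1 ≤ A) {M : ℕ} {z : Fin M → ℂ} {i : Fin M}
    (h : Loc C (2 * R) z i) :
    T (Finset.univ.erase i) (fun j => (A : ℂ) * z j - (A : ℂ) * z i) =
      {p | ‖p‖ < R ∧ ∀ v : ℂ, z i + v ∈ C → v ≠ 0 → ‖p‖ < ‖p - (A : ℂ) * v‖} := by
  ext p
  constructor
  · rintro ⟨h1, h2⟩
    refine ⟨h1, fun v hv hv0 => ?_⟩
    by_cases hlt : ‖v‖ < 2 * R
    · obtain ⟨l, hl⟩ := h.all (z i + v) hv (by rw [add_sub_cancel_left]; exact hlt)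
      have hli : l ≠ i := fun e => hv0 (by rw [e] at hl; exact left_eq_add.1 hl)
      have h3 := h2 l (Finset.mem_erase.2 ⟨hli, Finset.mem_univ _⟩)
      have e : (A : ℂ) * z l - (A : ℂ) * z i = (A : ℂ) * v := by rw [hl]; ring
      simp only at h3
      rwa [e] at h3
    · rw [not_lt] at hlt
      have h3 : 2 * R ≤ ‖(A : ℂ) * v‖ := by
        rw [norm_mul, Complex.norm_real, Real.norm_eq_abs, abs_of_nonneg (by linarith)]
        have := norm_nonneg v
        nlinarith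
      have h4 := norm_sub_norm_le ((A : ℂ) * v) p
      rw [norm_sub_rev] at h4
      linarith
  · rintro ⟨h1, h2⟩
    refine ⟨h1, fun j hj => ?_⟩
    have hji : j ≠ i := (Finset.mem_erase.1 hj).1
    have h3 := h2 (z j - z i) (by rw [add_sub_cancel]; exact h.sub j)
      (sub_ne_zero.2 fun e => hji (h.inj e))
    rw [mul_sub] at h3
    exact h3

theorem ex_eq {C : Set ℂ} {A : ℝ} (hA : 1 ≤ A) {M M' : ℕ} {z : Fin M → ℂ} {i : Fin M}
    {z' : Fin M' → ℂ} {i' : Fin M'} (h : Loc C (2 * R) z i) (h' : Loc C (2 * R) z' i')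
    (ht : ∀ y, y ∈ C ↔ y + (z' i' - z i) ∈ C) :
    ex (fun l => (A : ℂ) * z l) i = ex (fun l => (A : ℂ) * z' l) i' := by
  unfold ex
  simp only
  rw [T_eq hA h, T_eq hA h']
  have e : ∀ v, z i + v ∈ C ↔ z' i' + v ∈ C := by
    intro v
    rw [ht (z i + v)]
    have : z i + v + (z' i' - z i) = z' i' + v := by ring
    rw [this]
  simp only [e]

end LocalU

open LocalU

theorem imperfect {C : Set ℂ} {τ A : ℝ} (hA : 1 ≤ A) {M : ℕ} {z : Fin M → ℂ} {i : Fin M}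
    (h : Loc C (2 * R) z i) (hn : ¬ Dv τ A (fun l => (A : ℂ) * z l) 0 i) :
    ∃ d : ℝ, 0 < d ∧ d ≤ 1 ∧ ∀ (M' : ℕ) (z' : Fin M' → ℂ) (i' : Fin M'), Loc C (2 * R) z' i' →
      (∀ y, y ∈ C ↔ y + (z' i' - z i) ∈ C) → ¬ Dv τ A (fun l => (A : ℂ) * z' l) d i' := by
  by_cases hex : ex (fun l => (A : ℂ) * z l) i ≤ τ
  · have hn2 : ¬ ∀ j ∈ Nbr (fun l => (A : ℂ) * z l) i,
        |‖(A : ℂ) * z j - (A : ℂ) * z i‖ / A - 1| ≤ 0 := fun h2 => hn ⟨hex, h2⟩
    push Not at hn2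
    obtain ⟨j, hj, hd⟩ := hn2
    obtain ⟨d₀, hd₀⟩ : ∃ d₀ : ℝ, d₀ = |‖(A : ℂ) * z j - (A : ℂ) * z i‖ / A - 1| := ⟨_, rfl⟩
    rw [← hd₀] at hd
    refine ⟨min (d₀ / 2) 1, lt_min (by linarith) one_pos, min_le_right _ _,
      fun M' z' i' h' ht hD => ?_⟩
    unfold Nbr at hj
    rw [Finset.mem_filter] at hj
    obtain ⟨-, hji, hlt⟩ := hj
    simp only at hlt
    rw [nrm hA] at hlt
    have hz : ‖z j - z i‖ < 2 * R := by
      have := norm_nonneg (z j - z i)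
      nlinarith
    have hmem := (ht (z j)).1 (h.sub j)
    have e1 : z j + (z' i' - z i) - z' i' = z j - z i := by ring
    obtain ⟨l, hl⟩ := h'.all _ hmem (by rw [e1]; exact hz)
    have e2 : z' l - z' i' = z j - z i := by rw [hl]; ring
    have hli : l ≠ i' := by
      intro e
      rw [e, sub_self] at e2
      exact hji (h.inj (sub_eq_zero.1 e2.symm))
    have hlN : l ∈ Nbr (fun l => (A : ℂ) * z' l) i' := by
      unfold Nbr
      rw [Finset.mem_filter]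
      refine ⟨Finset.mem_univ _, hli, ?_⟩
      simp only
      rw [nrm hA, e2]
      exact hlt
    have h3 := hD.2 l hlN
    simp only at h3
    rw [nrm hA, e2, ← nrm hA, ← hd₀] at h3
    have h4 := min_le_left (d₀ / 2) (1 : ℝ)
    linarith
  · refine ⟨1, one_pos, le_rfl, fun M' z' i' h' ht hD => hex ?_⟩
    rw [ex_eq hA h h' ht]
    exact hD.1

end Pool.Agent.J4.H83.SG
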