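import Pool.Agent.J4.H83.FV.Geo

/-!
# From finite configurations to periodic configurations
-/

set_option autoImplicit false

open MeasureTheory Set Filter Topology

namespace Pool.Agent.J4.H83.SG

open Pool.Agent.J4.H83.FV

namespace Per

/-- the linear map `(a, b) ↦ a u + b v` -/
noncomputable def L (u v : ℂ) : ℂ →ₗ[ℝ] ℂ where
  toFun z := (z.re : ℂ) * u + (z.im : ℂ) * v
  map_add' x y := by
    rw [Complex.add_re, Complex.add_im]
    push_cast
    ring
  map_smul' r x := by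
    simp only [Complex.real_smul, Complex.mul_re, Complex.mul_im, Complex.ofReal_re,
      Complex.ofReal_im, RingHom.id_apply, zero_mul, sub_zero, add_zero]
    push_cast
    ring

lemma det_L (u v : ℂ) : LinearMap.det (L u v) = (starRingEnd ℂ u * v).im := by
  rw [← LinearMap.det_toMatrix Complex.basisOneI, Matrix.det_fin_two]
  simp [LinearMap.toMatrix_apply, Complex.coe_basisOneI_repr, Complex.coe_basisOneI, L]
  ring

/-- coordinates -/
noncomputable def ca (u v w : ℂ) : ℝ := (starRingEnd ℂ w * v).im / (starRingEnd ℂ u * v).im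

/-- coordinates -/
noncomputable def cb (u v w : ℂ) : ℝ := (starRingEnd ℂ u * w).im / (starRingEnd ℂ u * v).im

lemma det_re (u v : ℂ) : (starRingEnd ℂ u * v).im = u.re * v.im - u.im * v.re := by
  simp only [Complex.mul_im, Complex.conj_re, Complex.conj_im]
  ring

lemma ca_eq (u v w : ℂ) : ca u v w =
    (w.re * v.im - w.im * v.re) / (u.re * v.im - u.im * v.re) := by
  unfold ca
  rw [det_re, det_re]

lemma cb_eq (u v w : ℂ) : cb u v w =
    (u.re * w.im - u.im * w.re) / (u.re * v.im - u.im * v.re) := by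
  unfold cb
  rw [det_re, det_re]

lemma coord {u v : ℂ} (h : (starRingEnd ℂ u * v).im ≠ 0) (w : ℂ) :
    (ca u v w : ℂ) * u + (cb u v w : ℂ) * v = w := by
  have h' := h
  rw [det_re] at h'
  apply Complex.ext
  · rw [Complex.add_re, Complex.re_ofReal_mul, Complex.re_ofReal_mul, ca_eq, cb_eq,
      div_mul_eq_mul_div, div_mul_eq_mul_div, ← add_div, div_eq_iff h']
    ring
  · rw [Complex.add_im, Complex.im_ofReal_mul, Complex.im_ofReal_mul, ca_eq, cb_eq,
      div_mul_eq_mul_div, div_mul_eq_mul_div, ← add_div, div_eq_iff h']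
    ring

lemma ca_add (u v w w' : ℂ) : ca u v (w + w') = ca u v w + ca u v w' := by
  unfold ca
  rw [map_add, add_mul, Complex.add_im, add_div]

lemma cb_add (u v w w' : ℂ) : cb u v (w + w') = cb u v w + cb u v w' := by
  unfold cb
  rw [mul_add, Complex.add_im, add_div]

lemma ca_lin {u v : ℂ} (h : (starRingEnd ℂ u * v).im ≠ 0) (a b : ℝ) :
    ca u v (a * u + b * v) = a := by
  unfold ca
  rw [div_eq_iff h]
  simp only [map_add, map_mul, Complex.conj_ofReal, Complex.mul_im, Complex.mul_re,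
    Complex.add_re, Complex.add_im, Complex.conj_re, Complex.conj_im, Complex.ofReal_re,
    Complex.ofReal_im]
  ring

lemma cb_lin {u v : ℂ} (h : (starRingEnd ℂ u * v).im ≠ 0) (a b : ℝ) :
    cb u v (a * u + b * v) = b := by
  unfold cb
  rw [div_eq_iff h]
  simp only [Complex.mul_im, Complex.mul_re,
    Complex.add_re, Complex.add_im, Complex.conj_re, Complex.conj_im, Complex.ofReal_re,
    Complex.ofReal_im]
  ring

lemma ca_le (u v w : ℂ) : |ca u v w| ≤ ‖w‖ * ‖v‖ / |(starRingEnd ℂ u * v).im| := by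
  unfold ca
  rw [abs_div]
  gcongr
  refine (Complex.abs_im_le_norm _).trans ?_
  rw [norm_mul, Complex.norm_conj]

lemma cb_le (u v w : ℂ) : |cb u v w| ≤ ‖w‖ * ‖u‖ / |(starRingEnd ℂ u * v).im| := by
  unfold cb
  rw [abs_div]
  gcongr
  refine (Complex.abs_im_le_norm _).trans ?_
  rw [norm_mul, Complex.norm_conj, mul_comm]

/-- the parallelogram -/
def Om (u v : ℂ) (c K : ℝ) : Set ℂ :=
  {w | ca u v w ∈ Icc (-c) (K + c) ∧ cb u v w ∈ Icc (-c) (K + c)}

lemma Om_meas (u v : ℂ) (c K : ℝ) : MeasurableSet (Om u v c K) := by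
  have h1 : Continuous (ca u v) := by
    unfold ca
    exact (Complex.continuous_im.comp (Complex.continuous_conj.mul continuous_const)).div_const _
  have h2 : Continuous (cb u v) := by
    unfold cb
    exact (Complex.continuous_im.comp (continuous_const.mul continuous_id)).div_const _
  exact ((isClosed_Icc.preimage h1).inter (isClosed_Icc.preimage h2)).measurableSet

/-- the square -/
def bx (c K : ℝ) : Set ℂ := {z | z.re ∈ Icc (-c) (K + c) ∧ z.im ∈ Icc (-c) (K + c)}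

lemma bx_vol (c K : ℝ) : volume (bx c K) = ENNReal.ofReal (K + 2 * c) * ENNReal.ofReal (K + 2 * c) := by
  have h1 : bx c K = Complex.measurableEquivRealProd ⁻¹'
      (Icc (-c) (K + c) ×ˢ Icc (-c) (K + c)) := by
    ext z
    constructor
    · intro h
      exact ⟨h.1, h.2⟩
    · intro h
      exact ⟨h.1, h.2⟩
  rw [h1, Complex.volume_preserving_equiv_real_prod.measure_preimage
    (measurableSet_Icc.prod measurableSet_Icc).nullMeasurableSet, Measure.volume_eq_prod,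
    Measure.prod_prod, Real.volume_Icc]
  congr 2 <;> ring

lemma Om_vol {u v : ℂ} (h : (starRingEnd ℂ u * v).im ≠ 0) {c K : ℝ} (hc : 0 ≤ c) (hK : 0 ≤ K) :
    volume (Om u v c K) ≠ ⊤ ∧
      (volume (Om u v c K)).toReal ≤ |(starRingEnd ℂ u * v).im| * (K + 2 * c) ^ 2 := by
  have h1 : Om u v c K ⊆ L u v '' bx c K := by
    intro w hw
    refine ⟨⟨ca u v w, cb u v w⟩, ⟨hw.1, hw.2⟩, ?_⟩
    exact coord h w
  have h2 : volume (Om u v c K) ≤ ENNReal.ofReal (|(starRingEnd ℂ u * v).im| * (K + 2 * c) ^ 2) := by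
    refine (measure_mono h1).trans ?_
    rw [Measure.addHaar_image_linearMap, det_L, bx_vol, ← ENNReal.ofReal_mul (by positivity),
      ← ENNReal.ofReal_mul (abs_nonneg _), ← pow_two]
  refine ⟨ne_top_of_le_ne_top ENNReal.ofReal_ne_top h2, ?_⟩
  exact ENNReal.toReal_le_of_le_ofReal (by positivity) h2

/-- the term -/
noncomputable def G (β : ℝ) (u v w : ℂ) (p : ℤ × ℤ) : ℝ :=
  if w + p.1 * u + p.2 * v = 0 then 0 else Real.exp (-β * ‖w + p.1 * u + p.2 * v‖ ^ 2)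

lemma G_nonneg (β : ℝ) (u v w : ℂ) (p : ℤ × ℤ) : 0 ≤ G β u v w p := by
  unfold G
  split_ifs
  · exact le_rfl
  · exact (Real.exp_pos _).le

lemma summable_int {t : ℝ} (ht : 0 < t) : Summable fun n : ℤ => Real.exp (-t * (n : ℝ) ^ 2) := by
  have h1 : Summable fun n : ℕ => Real.exp (-t * (n : ℝ) ^ 2) := by
    have h2 : Summable fun n : ℕ => Real.exp (n * (-t)) := Real.summable_exp_nat_mul_iff.2 (by linarith)
    refine Summable.of_nonneg_of_le (fun n => (Real.exp_pos _).le) (fun n => ?_) h2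
    apply Real.exp_le_exp.2
    have h3 : (n : ℝ) ≤ (n : ℝ) ^ 2 := by
      rcases Nat.eq_zero_or_pos n with h | h
      · rw [h]; simp
      · have : (1 : ℝ) ≤ n := by exact_mod_cast h
        nlinarith
    nlinarith
  refine Summable.of_nat_of_neg ?_ ?_
  · exact_mod_cast h1
  · refine h1.congr fun n => ?_
    push_cast
    rw [neg_sq]

lemma lat_le {u v : ℂ} (h : (starRingEnd ℂ u * v).im ≠ 0) (p : ℤ × ℤ) :
    (starRingEnd ℂ u * v).im ^ 2 * ((p.1 : ℝ) ^ 2 + (p.2 : ℝ) ^ 2) ≤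
      (‖u‖ ^ 2 + ‖v‖ ^ 2) * ‖(p.1 : ℂ) * u + p.2 * v‖ ^ 2 := by
  set a : ℂ := (p.1 : ℂ) * u + p.2 * v with ha
  set D := (starRingEnd ℂ u * v).im with hD
  have h1 : ca u v a = p.1 := by
    have := ca_lin h (p.1 : ℝ) (p.2 : ℝ)
    push_cast at this
    exact this
  have h2 : cb u v a = p.2 := by
    have := cb_lin h (p.1 : ℝ) (p.2 : ℝ)
    push_cast at this
    exact this
  have h3 := ca_le u v a
  have h4 := cb_le u v a
  rw [h1, le_div_iff₀ (abs_pos.2 h)] at h3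
  rw [h2, le_div_iff₀ (abs_pos.2 h)] at h4
  have h5 : (|(p.1 : ℝ)| * |D|) ^ 2 ≤ (‖a‖ * ‖v‖) ^ 2 := by gcongr
  have h6 : (|(p.2 : ℝ)| * |D|) ^ 2 ≤ (‖a‖ * ‖u‖) ^ 2 := by gcongr
  rw [mul_pow, mul_pow, sq_abs, sq_abs] at h5 h6
  nlinarith

lemma G_summable {β : ℝ} (hβ : 0 < β) {u v : ℂ} (h : (starRingEnd ℂ u * v).im ≠ 0) (w : ℂ) :
    Summable (G β u v w) := by
  have hu : u ≠ 0 := by
    rintro rfl
    simp at h
  have hs : 0 < ‖u‖ ^ 2 + ‖v‖ ^ 2 := by
    have := norm_pos_iff.2 hu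
    positivity
  set t : ℝ := β * ((starRingEnd ℂ u * v).im ^ 2 / (‖u‖ ^ 2 + ‖v‖ ^ 2)) / 2 with ht
  have htp : 0 < t := by
    have : 0 < (starRingEnd ℂ u * v).im ^ 2 := by positivity
    positivity
  have h1 := (summable_int htp).mul_of_nonneg (summable_int htp)
    (fun n => (Real.exp_pos _).le) (fun n => (Real.exp_pos _).le)
  have h2 := h1.mul_left (Real.exp (β * ‖w‖ ^ 2))
  refine Summable.of_nonneg_of_le (G_nonneg β u v w) (fun p => ?_) h2
  unfold G
  split_ifs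
  · positivity
  · rw [← Real.exp_add, ← Real.exp_add]
    apply Real.exp_le_exp.2
    have h3 := lat_le h p
    set a : ℂ := (p.1 : ℂ) * u + p.2 * v with ha
    have h4 : w + p.1 * u + p.2 * v = w + a := by rw [ha]; ring
    rw [h4]
    have h5 : (starRingEnd ℂ u * v).im ^ 2 / (‖u‖ ^ 2 + ‖v‖ ^ 2) * ((p.1 : ℝ) ^ 2 + (p.2 : ℝ) ^ 2) ≤
        ‖a‖ ^ 2 := by
      rw [div_mul_eq_mul_div, div_le_iff₀ hs]
      linarith
    have h6 : ‖a‖ ≤ ‖w + a‖ + ‖w‖ := by
      have : a = (w + a) - w := by ring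
      calc ‖a‖ = ‖(w + a) - w‖ := by rw [← this]
        _ ≤ _ := norm_sub_le _ _
    have h7 : ‖a‖ ^ 2 ≤ 2 * ‖w + a‖ ^ 2 + 2 * ‖w‖ ^ 2 := by
      have h8 : ‖a‖ ^ 2 ≤ (‖w + a‖ + ‖w‖) ^ 2 := by gcongr
      nlinarith [sq_nonneg (‖w + a‖ - ‖w‖)]
    have h8 : t * ((p.1 : ℝ) ^ 2 + (p.2 : ℝ) ^ 2) ≤ β * ‖w + a‖ ^ 2 + β * ‖w‖ ^ 2 := by
      have h9 : t * ((p.1 : ℝ) ^ 2 + (p.2 : ℝ) ^ 2) = β / 2 *
          ((starRingEnd ℂ u * v).im ^ 2 / (‖u‖ ^ 2 + ‖v‖ ^ 2) * ((p.1 : ℝ) ^ 2 + (p.2 : ℝ) ^ 2)) := by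
        rw [ht]; ring
      rw [h9]
      calc β / 2 * ((starRingEnd ℂ u * v).im ^ 2 / (‖u‖ ^ 2 + ‖v‖ ^ 2) * ((p.1 : ℝ) ^ 2 + (p.2 : ℝ) ^ 2))
          ≤ β / 2 * (2 * ‖w + a‖ ^ 2 + 2 * ‖w‖ ^ 2) := by
            refine mul_le_mul_of_nonneg_left (h5.trans h7) (by positivity)
        _ = _ := by ring
    linarith

/-- the hypothesis for arbitrary finite index types -/
lemma H_fin {β e P R : ℝ}
    (H : ∀ (M : ℕ) (z : Fin M → ℂ) (Ω : Set ℂ), MeasurableSet Ω → volume Ω ≠ ⊤ →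
      (∀ i, Metric.ball (z i) R ⊆ Ω) →
      M * (e + P * (√3 / 2)) ≤ ∑ i, ∑ j ∈ Finset.univ.erase i, Real.exp (-β * ‖z j - z i‖ ^ 2) +
        P * (volume Ω).toReal) {ι : Type} [Fintype ι] [DecidableEq ι] (z : ι → ℂ) (Ω : Set ℂ)
    (h1 : MeasurableSet Ω) (h2 : volume Ω ≠ ⊤) (h3 : ∀ i, Metric.ball (z i) R ⊆ Ω) :
    (Fintype.card ι : ℝ) * (e + P * (√3 / 2)) ≤
      ∑ i, ∑ j ∈ Finset.univ.erase i, Real.exp (-β * ‖z j - z i‖ ^ 2) + P * (volume Ω).toReal := by
  have e := (Fintype.equivFin ι).symm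
  have h := H (Fintype.card ι) (fun i => z (e i)) Ω h1 h2 fun i => h3 _
  refine h.trans (le_of_eq ?_)
  congr 1
  rw [← Equiv.sum_comp e (fun i => ∑ j ∈ Finset.univ.erase i, Real.exp (-β * ‖z j - z i‖ ^ 2))]
  refine Finset.sum_congr rfl fun i _ => ?_
  rw [Finset.sum_erase_eq_sub (Finset.mem_univ _), Finset.sum_erase_eq_sub (Finset.mem_univ _)]
  congr 1
  exact Equiv.sum_comp e (fun j => Real.exp (-β * ‖z j - z (e i)‖ ^ 2))

lemma growth {δ A B : ℝ} (hδ : 0 < δ) (hA : 0 ≤ A) (hB : 0 ≤ B)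
    (h : ∀ K : ℕ, 1 ≤ K → δ * (K : ℝ) ^ 2 ≤ A * K + B) : False := by
  obtain ⟨K, hK⟩ := exists_nat_gt ((A + B) / δ + 1)
  have h0 : 0 ≤ (A + B) / δ := by positivity
  have h1 : (1 : ℝ) < K := by linarith
  have h2 : 1 ≤ K := by exact_mod_cast h1.le
  have h3 := h K h2
  have h4 : A + B < δ * K := by
    have : (A + B) / δ < K := by linarith
    rw [div_lt_iff₀ hδ] at this
    linarith
  nlinarith

end Per

open Per in
theorem per_bound_gen {β e P D : ℝ} (hβ : 0 < β) (he : 0 ≤ e) (hP : 0 ≤ P)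
    (H : ∀ (M : ℕ) (z : Fin M → ℂ) (Ω : Set ℂ), MeasurableSet Ω → volume Ω ≠ ⊤ →
      (∀ i, Metric.ball (z i) R ⊆ Ω) →
      M * (e + P * (√3 / 2)) ≤ ∑ i, ∑ j ∈ Finset.univ.erase i, Real.exp (-β * ‖z j - z i‖ ^ 2) +
        P * (volume Ω).toReal)
    (N : ℕ) (hN : 0 < N) (u v : ℂ) (hDp : 0 < D)
    (hD : |(starRingEnd ℂ u * v).im| = D)
    (x : Fin N → ℂ) (hx : ∀ j k, ∀ m n : ℤ, x j - x k + m * u + n * v = 0 → j = k) :
    N * (e + P * (√3 / 2)) ≤ ∑ j, ∑ k, ∑' p : ℤ × ℤ, (if x j - x k + p.1 * u + p.2 * v = 0 then 0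
      else Real.exp (-β * ‖x j - x k + p.1 * u + p.2 * v‖ ^ 2)) + P * D := by
  classical
  have hN' : (0 : ℝ) < N := by exact_mod_cast hN
  have hD0 : (starRingEnd ℂ u * v).im ≠ 0 := by
    intro h
    rw [h, abs_zero] at hD
    linarith
  have hR : 0 ≤ R := by
    unfold R
    positivity
  -- the sum
  set S : ℝ := ∑ j, ∑ k, ∑' p : ℤ × ℤ, G β u v (x j - x k) p with hS
  show N * (e + P * (√3 / 2)) ≤ S + P * D
  set c : ℝ := (∑ j, ‖x j‖ + R) * (‖u‖ + ‖v‖) / D with hc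
  have hxs : ∀ j, ‖x j‖ ≤ ∑ j, ‖x j‖ := fun j =>
    Finset.single_le_sum (f := fun j => ‖x j‖) (fun i _ => norm_nonneg _) (Finset.mem_univ j)
  have hc0 : 0 ≤ c := by
    have : 0 ≤ ∑ j, ‖x j‖ := Finset.sum_nonneg fun i _ => norm_nonneg _
    positivity
  -- the estimate for every `K`
  have key : ∀ K : ℕ, 1 ≤ K → (N : ℝ) * (K : ℝ) ^ 2 * (e + P * (√3 / 2)) ≤
      (K : ℝ) ^ 2 * S + P * (D * (K + 2 * c) ^ 2) := by
    intro K hK
    let z : Fin N × (Fin K × Fin K) → ℂ := fun i => x i.1 + (i.2.1 : ℕ) * u + (i.2.2 : ℕ) * v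
    have hvol := Om_vol hD0 hc0 (Nat.cast_nonneg K)
    rw [hD] at hvol
    have hball : ∀ i, Metric.ball (z i) R ⊆ Om u v c K := by
      rintro ⟨j, m, n⟩ w hw
      have hw' : ‖w - z (j, m, n)‖ < R := by
        rw [← dist_eq_norm]
        exact hw
      set y := x j + (w - z (j, m, n)) with hy
      have e1 : w = y + (((m : ℕ) : ℝ) * u + ((n : ℕ) : ℝ) * v) := by
        rw [hy]
        simp only [z]
        push_cast
        ring
      have hy1 : ‖y‖ ≤ ∑ j, ‖x j‖ + R := (norm_add_le _ _).trans (add_le_add (hxs j) hw'.le)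
      have h1 : |ca u v y| ≤ c := by
        refine (ca_le u v y).trans ?_
        rw [hD, hc]
        gcongr
        linarith [norm_nonneg u]
      have h2 : |cb u v y| ≤ c := by
        refine (cb_le u v y).trans ?_
        rw [hD, hc]
        gcongr
        linarith [norm_nonneg v]
      have hm : ((m : ℕ) : ℝ) ≤ K := by exact_mod_cast m.2.le
      have hn : ((n : ℕ) : ℝ) ≤ K := by exact_mod_cast n.2.le
      have hm0 : (0 : ℝ) ≤ ((m : ℕ) : ℝ) := Nat.cast_nonneg _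
      have hn0 : (0 : ℝ) ≤ ((n : ℕ) : ℝ) := Nat.cast_nonneg _
      rw [abs_le] at h1 h2
      rw [e1]
      refine ⟨?_, ?_⟩
      · rw [ca_add, ca_lin hD0]
        exact ⟨by linarith, by linarith⟩
      · rw [cb_add, cb_lin hD0]
        exact ⟨by linarith, by linarith⟩
    have h := H_fin H z (Om u v c K) (Om_meas u v c K) hvol.1 hball
    have hcard : (Fintype.card (Fin N × (Fin K × Fin K)) : ℝ) = N * (K : ℝ) ^ 2 := by
      rw [Fintype.card_prod, Fintype.card_prod, Fintype.card_fin, Fintype.card_fin]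
      push_cast
      ring
    rw [hcard] at h
    refine h.trans (add_le_add ?_ (mul_le_mul_of_nonneg_left hvol.2 hP))
    -- the sum over the pairs
    have h1 : ∀ i : Fin N × (Fin K × Fin K),
        ∑ i' ∈ Finset.univ.erase i, Real.exp (-β * ‖z i' - z i‖ ^ 2) ≤
          ∑ k, ∑' p : ℤ × ℤ, G β u v (x k - x i.1) p := by
      rintro ⟨j, m, n⟩
      have h2 : ∀ i' ∈ Finset.univ.erase (j, m, n), Real.exp (-β * ‖z i' - z (j, m, n)‖ ^ 2) =
          G β u v (x i'.1 - x j) (((i'.2.1 : ℕ) : ℤ) - ((m : ℕ) : ℤ), ((i'.2.2 : ℕ) : ℤ) - ((n : ℕ) : ℤ)) := by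
        rintro ⟨k, m', n'⟩ hi
        have hne := (Finset.mem_erase.1 hi).1
        have e1 : z (k, m', n') - z (j, m, n) = x k - x j +
            ((((m' : ℕ) : ℤ) - ((m : ℕ) : ℤ) : ℤ) : ℂ) * u +
            ((((n' : ℕ) : ℤ) - ((n : ℕ) : ℤ) : ℤ) : ℂ) * v := by
          simp only [z]
          push_cast
          ring
        unfold G
        rw [if_neg, e1]
        intro h0
        have hkj := hx k j _ _ h0
        subst hkj
        rw [sub_self, zero_add] at h0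
        have ha := ca_lin hD0 (((((m' : ℕ) : ℤ) - ((m : ℕ) : ℤ) : ℤ)) : ℝ)
          (((((n' : ℕ) : ℤ) - ((n : ℕ) : ℤ) : ℤ)) : ℝ)
        have hb := cb_lin hD0 (((((m' : ℕ) : ℤ) - ((m : ℕ) : ℤ) : ℤ)) : ℝ)
          (((((n' : ℕ) : ℤ) - ((n : ℕ) : ℤ) : ℤ)) : ℝ)
        rw [Complex.ofReal_intCast, Complex.ofReal_intCast, h0] at ha hb
        have ha' : (0 : ℝ) = (((((m' : ℕ) : ℤ) - ((m : ℕ) : ℤ) : ℤ)) : ℝ) := by
          rw [← ha]
          simp [ca]
        have hb' : (0 : ℝ) = (((((n' : ℕ) : ℤ) - ((n : ℕ) : ℤ) : ℤ)) : ℝ) := by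
          rw [← hb]
          simp [cb]
        have ha2 : (0 : ℤ) = ((m' : ℕ) : ℤ) - ((m : ℕ) : ℤ) := by exact_mod_cast ha'
        have hb2 : (0 : ℤ) = ((n' : ℕ) : ℤ) - ((n : ℕ) : ℤ) := by exact_mod_cast hb'
        apply hne
        have hm : m' = m := Fin.ext (by omega)
        have hn : n' = n := Fin.ext (by omega)
        rw [hm, hn]
      rw [Finset.sum_congr rfl h2]
      refine (Finset.sum_le_sum_of_subset_of_nonneg (Finset.erase_subset _ _)
        (fun i' _ _ => G_nonneg _ _ _ _ _)).trans ?_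
      rw [Fintype.sum_prod_type]
      refine Finset.sum_le_sum fun k _ => ?_
      have hinj : Function.Injective fun q : Fin K × Fin K =>
          ((((q.1 : ℕ) : ℤ) - ((m : ℕ) : ℤ), ((q.2 : ℕ) : ℤ) - ((n : ℕ) : ℤ)) : ℤ × ℤ) := by
        rintro ⟨a, b⟩ ⟨a', b'⟩ hab
        simp only [Prod.mk.injEq] at hab
        have h3 : a = a' := Fin.ext (by omega)
        have h4 : b = b' := Fin.ext (by omega)
        rw [h3, h4]
      have h5 := tsum_comp_le_tsum_of_inj (G_summable hβ hD0 (x k - x j)) (G_nonneg _ _ _ _) hinj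
      rw [tsum_fintype] at h5
      exact h5
    refine (Finset.sum_le_sum fun i _ => h1 i).trans (le_of_eq ?_)
    rw [Fintype.sum_prod_type]
    simp only [Finset.sum_const, Finset.card_univ, Fintype.card_prod, Fintype.card_fin, nsmul_eq_mul]
    rw [← Finset.mul_sum, hS, Finset.sum_comm]
    push_cast
    ring
  by_contra hcon
  push Not at hcon
  refine growth (δ := N * (e + P * (√3 / 2)) - (S + P * D)) (A := P * (D * (4 * c)))
    (B := P * (D * (4 * c ^ 2)))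
    (by linarith) (by positivity) (by positivity) fun K hK => ?_
  have h1 := key K hK
  nlinarith

theorem per_bound {β e P : ℝ} (hβ : 0 < β) (he : 0 ≤ e) (hP : 0 ≤ P)
    (H : ∀ (M : ℕ) (z : Fin M → ℂ) (Ω : Set ℂ), MeasurableSet Ω → volume Ω ≠ ⊤ →
      (∀ i, Metric.ball (z i) R ⊆ Ω) →
      M * (e + P * (√3 / 2)) ≤ ∑ i, ∑ j ∈ Finset.univ.erase i, Real.exp (-β * ‖z j - z i‖ ^ 2) +
        P * (volume Ω).toReal)
    (N : ℕ) (hN : 0 < N) (u v : ℂ) (hD : |(starRingEnd ℂ u * v).im| = √3 / 2 * N)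
    (x : Fin N → ℂ) (hx : ∀ j k, ∀ m n : ℤ, x j - x k + m * u + n * v = 0 → j = k) :
    N * e ≤ ∑ j, ∑ k, ∑' p : ℤ × ℤ, (if x j - x k + p.1 * u + p.2 * v = 0 then 0
      else Real.exp (-β * ‖x j - x k + p.1 * u + p.2 * v‖ ^ 2)) := by
  have hN' : (0 : ℝ) < N := by exact_mod_cast hN
  have h := per_bound_gen hβ he hP H N hN u v (by positivity) hD x hx
  nlinarith

end Pool.Agent.J4.H83.SG
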