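import Pool.Agent.J4.H83.SG.DefsU
import Pool.Agent.J4.H83.SG.Per

/-!
# Periodic configurations are locally finite
-/

set_option autoImplicit false

open Set

namespace Pool.Agent.J4.H83.SG

open Per in
theorem pc_finite {N : ℕ} {u v : ℂ} (h : (starRingEnd ℂ u * v).im ≠ 0) (x : Fin N → ℂ) (y : ℂ)
    (r : ℝ) : {y' | y' ∈ PC u v x ∧ ‖y' - y‖ < r}.Finite := by
  set S : ℝ := ‖u‖ ^ 2 + ‖v‖ ^ 2 with hS
  set C : ℝ := |r| + ‖y‖ + ∑ j, ‖x j‖ with hC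
  have hsum : 0 ≤ ∑ j, ‖x j‖ := Finset.sum_nonneg fun i _ => norm_nonneg _
  have hC0 : 0 ≤ C := by positivity
  have hD : 0 < (starRingEnd ℂ u * v).im ^ 2 := by positivity
  set B : ℝ := S * C ^ 2 / (starRingEnd ℂ u * v).im ^ 2 with hB
  set K : ℤ := ⌈B⌉ with hK
  refine Set.Finite.subset (Set.finite_range fun q : Fin N × (Finset.Icc (-K) K) × (Finset.Icc (-K) K) =>
    x q.1 + ((q.2.1 : ℤ) : ℂ) * u + ((q.2.2 : ℤ) : ℂ) * v) ?_
  rintro y' ⟨⟨j, m, n, rfl⟩, hy⟩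
  have h1 : ‖(m : ℂ) * u + n * v‖ ≤ C := by
    have e : (m : ℂ) * u + n * v = (x j + m * u + n * v - y) + y - x j := by ring
    rw [e]
    have h2 : ‖x j‖ ≤ ∑ j, ‖x j‖ :=
      Finset.single_le_sum (f := fun j => ‖x j‖) (fun i _ => norm_nonneg _) (Finset.mem_univ j)
    have h3 := le_abs_self r
    calc ‖(x j + m * u + n * v - y) + y - x j‖ ≤ ‖(x j + m * u + n * v - y) + y‖ + ‖x j‖ :=
          norm_sub_le _ _
      _ ≤ ‖x j + m * u + n * v - y‖ + ‖y‖ + ‖x j‖ := by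
          gcongr
          exact norm_add_le _ _
      _ ≤ C := by
          rw [hC]
          linarith
  have h2 := lat_le h (m, n)
  simp only at h2
  have h3 : (starRingEnd ℂ u * v).im ^ 2 * ((m : ℝ) ^ 2 + (n : ℝ) ^ 2) ≤ S * C ^ 2 :=
    h2.trans (by gcongr)
  have h4 : (m : ℝ) ^ 2 + (n : ℝ) ^ 2 ≤ K := by
    refine le_trans ?_ (Int.le_ceil B)
    rw [hB, le_div_iff₀ hD]
    linarith
  have h5 : m ^ 2 + n ^ 2 ≤ K := by exact_mod_cast h4
  have hm : m ∈ Finset.Icc (-K) K := by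
    rw [Finset.mem_Icc]
    constructor <;> nlinarith [sq_nonneg n, sq_nonneg m, sq_nonneg (m - 1), sq_nonneg (m + 1),
      Int.le_self_sq m, Int.le_self_sq (-m)]
  have hn : n ∈ Finset.Icc (-K) K := by
    rw [Finset.mem_Icc]
    constructor <;> nlinarith [sq_nonneg n, sq_nonneg m,
      Int.le_self_sq n, Int.le_self_sq (-n)]
  exact ⟨(j, ⟨m, hm⟩, ⟨n, hn⟩), rfl⟩

end Pool.Agent.J4.H83.SG
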