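import Pool.Agent.J4.H83.SG.DefsU
import Pool.Agent.J4.H83.SG.Per

/-!
# From finite configurations to periodic configurations, with defects
-/

set_option autoImplicit false

open MeasureTheory Set Filter Topology

namespace Pool.Agent.J4.H83.SG

open Pool.Agent.J4.H83.FV

namespace Per2

open Per

/-- the translates of the points -/
noncomputable def zq {N : ℕ} (u v : ℂ) (x : Fin N → ℂ) (K : ℕ) (i : Fin N × (Fin K × Fin K)) : ℂ :=
  x i.1 + (i.2.1 : ℕ) * u + (i.2.2 : ℕ) * v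

lemma lin_zero {u v : ℂ} (hD0 : (starRingEnd ℂ u * v).im ≠ 0) {a b : ℤ}
    (h : (a : ℂ) * u + (b : ℂ) * v = 0) : a = 0 ∧ b = 0 := by
  have ha := ca_lin hD0 (a : ℝ) (b : ℝ)
  have hb := cb_lin hD0 (a : ℝ) (b : ℝ)
  rw [Complex.ofReal_intCast, Complex.ofReal_intCast, h] at ha hb
  have ha' : (0 : ℝ) = (a : ℝ) := by
    rw [← ha]
    simp [ca]
  have hb' : (0 : ℝ) = (b : ℝ) := by
    rw [← hb]
    simp [cb]
  exact ⟨by exact_mod_cast ha'.symm, by exact_mod_cast hb'.symm⟩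

lemma zz_sub {N : ℕ} (u v : ℂ) (x : Fin N → ℂ) (K : ℕ) (i i' : Fin N × (Fin K × Fin K)) :
    zq u v x K i' - zq u v x K i = x i'.1 - x i.1 +
      ((((i'.2.1 : ℕ) : ℤ) - ((i.2.1 : ℕ) : ℤ) : ℤ) : ℂ) * u +
      ((((i'.2.2 : ℕ) : ℤ) - ((i.2.2 : ℕ) : ℤ) : ℤ) : ℂ) * v := by
  unfold zq
  push_cast
  ring

lemma zz_inj {N : ℕ} {u v : ℂ} (hD0 : (starRingEnd ℂ u * v).im ≠ 0) {x : Fin N → ℂ}
    (hx : ∀ j k, ∀ m n : ℤ, x j - x k + m * u + n * v = 0 → j = k) (K : ℕ) :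
    Function.Injective (zq u v x K) := by
  rintro ⟨j, m, n⟩ ⟨k, m', n'⟩ h
  have h0 := zz_sub u v x K (j, m, n) (k, m', n')
  rw [← h, sub_self] at h0
  have hkj := hx k j _ _ h0.symm
  subst hkj
  rw [sub_self, zero_add] at h0
  obtain ⟨h1, h2⟩ := lin_zero hD0 h0.symm
  have hm : m = m' := Fin.ext (by simp only at h1; omega)
  have hn : n = n' := Fin.ext (by simp only at h2; omega)
  rw [hm, hn]

lemma ball_sub {N : ℕ} {u v : ℂ} (hD0 : (starRingEnd ℂ u * v).im ≠ 0) (x : Fin N → ℂ) {c : ℝ}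
    (hc : (∑ j, ‖x j‖ + R) * (‖u‖ + ‖v‖) / |(starRingEnd ℂ u * v).im| ≤ c) (K : ℕ)
    (i : Fin N × (Fin K × Fin K)) : Metric.ball (zq u v x K i) R ⊆ Om u v c K := by
  have hR : 0 ≤ R := by
    unfold R
    positivity
  have hxs : ∀ j, ‖x j‖ ≤ ∑ j, ‖x j‖ := fun j =>
    Finset.single_le_sum (f := fun j => ‖x j‖) (fun i _ => norm_nonneg _) (Finset.mem_univ j)
  have hs0 : 0 ≤ ∑ j, ‖x j‖ := Finset.sum_nonneg fun i _ => norm_nonneg _
  obtain ⟨j, m, n⟩ := i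
  intro w hw
  have hw' : ‖w - zq u v x K (j, m, n)‖ < R := by
    rw [← dist_eq_norm]
    exact hw
  set y := x j + (w - zq u v x K (j, m, n)) with hy
  have e1 : w = y + (((m : ℕ) : ℝ) * u + ((n : ℕ) : ℝ) * v) := by
    rw [hy]
    unfold zq
    push_cast
    ring
  have hy1 : ‖y‖ ≤ ∑ j, ‖x j‖ + R := (norm_add_le _ _).trans (add_le_add (hxs j) hw'.le)
  have h1 : |ca u v y| ≤ c := by
    refine (ca_le u v y).trans (le_trans ?_ hc)
    gcongr
    linarith [norm_nonneg u]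
  have h2 : |cb u v y| ≤ c := by
    refine (cb_le u v y).trans (le_trans ?_ hc)
    gcongr
    linarith [norm_nonneg v]
  have hm : ((m : ℕ) : ℝ) ≤ K := by exact_mod_cast m.2.le
  have hn : ((n : ℕ) : ℝ) ≤ K := by exact_mod_cast n.2.le
  have hm0 : (0 : ℝ) ≤ ((m : ℕ) : ℝ) := Nat.cast_nonneg _
  have hn0 : (0 : ℝ) ≤ ((n : ℕ) : ℝ) := Nat.cast_nonneg _
  rw [abs_le] at h1 h2
  rw [e1]
  refine ⟨?_, ?_⟩
  · rw [ca_add, ca_lin hD0]
    exact ⟨by linarith, by linarith⟩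
  · rw [cb_add, cb_lin hD0]
    exact ⟨by linarith, by linarith⟩

lemma energy_le {β : ℝ} (hβ : 0 < β) {N : ℕ} {u v : ℂ} (hD0 : (starRingEnd ℂ u * v).im ≠ 0)
    {x : Fin N → ℂ} (hx : ∀ j k, ∀ m n : ℤ, x j - x k + m * u + n * v = 0 → j = k) (K : ℕ) :
    ∑ i, ∑ i' ∈ Finset.univ.erase i, Real.exp (-β * ‖zq u v x K i' - zq u v x K i‖ ^ 2) ≤
      (K : ℝ) ^ 2 * Ep β u v x := by
  have h1 : ∀ i : Fin N × (Fin K × Fin K),
      ∑ i' ∈ Finset.univ.erase i, Real.exp (-β * ‖zq u v x K i' - zq u v x K i‖ ^ 2) ≤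
        ∑ k, ∑' p : ℤ × ℤ, G β u v (x k - x i.1) p := by
    rintro ⟨j, m, n⟩
    have h2 : ∀ i' ∈ Finset.univ.erase (j, m, n),
        Real.exp (-β * ‖zq u v x K i' - zq u v x K (j, m, n)‖ ^ 2) =
          G β u v (x i'.1 - x j) (((i'.2.1 : ℕ) : ℤ) - ((m : ℕ) : ℤ), ((i'.2.2 : ℕ) : ℤ) - ((n : ℕ) : ℤ)) := by
      rintro ⟨k, m', n'⟩ hi
      have hne := (Finset.mem_erase.1 hi).1
      have e1 := zz_sub u v x K (j, m, n) (k, m', n')
      unfold G
      rw [if_neg, e1]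
      intro h0
      apply hne
      apply zz_inj hD0 hx K
      rw [← sub_eq_zero, e1]
      exact h0
    rw [Finset.sum_congr rfl h2]
    refine (Finset.sum_le_sum_of_subset_of_nonneg (Finset.erase_subset _ _)
      (fun i' _ _ => G_nonneg _ _ _ _ _)).trans ?_
    rw [Fintype.sum_prod_type]
    refine Finset.sum_le_sum fun k _ => ?_
    have hinj : Function.Injective fun q : Fin K × Fin K =>
        ((((q.1 : ℕ) : ℤ) - ((m : ℕ) : ℤ), ((q.2 : ℕ) : ℤ) - ((n : ℕ) : ℤ)) : ℤ × ℤ) := by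
      rintro ⟨a, b⟩ ⟨a', b'⟩ hab
      simp only [Prod.mk.injEq] at hab
      have h3 : a = a' := Fin.ext (by omega)
      have h4 : b = b' := Fin.ext (by omega)
      rw [h3, h4]
    have h5 := tsum_comp_le_tsum_of_inj (G_summable hβ hD0 (x k - x j)) (G_nonneg _ _ _ _) hinj
    rw [tsum_fintype] at h5
    exact h5
  refine (Finset.sum_le_sum fun i _ => h1 i).trans (le_of_eq ?_)
  rw [Fintype.sum_prod_type]
  simp only [Finset.sum_const, Finset.card_univ, Fintype.card_prod, Fintype.card_fin, nsmul_eq_mul]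
  have h6 : Ep β u v x = ∑ j, ∑ k, ∑' p : ℤ × ℤ, G β u v (x j - x k) p := rfl
  rw [← Finset.mul_sum, h6, Finset.sum_comm]
  push_cast
  ring

lemma Ef_comp {β : ℝ} {ι : Type} [Fintype ι] [DecidableEq ι] {M : ℕ} (e : Fin M ≃ ι) (z : ι → ℂ) :
    Ef β (fun i => z (e i)) = ∑ i, ∑ j ∈ Finset.univ.erase i, Real.exp (-β * ‖z j - z i‖ ^ 2) := by
  unfold Ef
  rw [← Equiv.sum_comp e (fun i => ∑ j ∈ Finset.univ.erase i, Real.exp (-β * ‖z j - z i‖ ^ 2))]
  refine Finset.sum_congr rfl fun i _ => ?_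
  rw [Finset.sum_erase_eq_sub (Finset.mem_univ _), Finset.sum_erase_eq_sub (Finset.mem_univ _)]
  congr 1
  exact Equiv.sum_comp e (fun j => Real.exp (-β * ‖z j - z (e i)‖ ^ 2))

/-- the points of the configuration near an interior point -/
lemma interior {N : ℕ} {u v : ℂ} (hD0 : (starRingEnd ℂ u * v).im ≠ 0) (x : Fin N → ℂ) {r : ℝ} {L : ℕ}
    (hL : (|r| + 2 * ∑ j, ‖x j‖) * (‖u‖ + ‖v‖) / |(starRingEnd ℂ u * v).im| ≤ L) (K : ℕ)
    {j : Fin N} {m n : Fin K} (hm : L ≤ (m : ℕ)) (hm' : (m : ℕ) + L < K) (hn : L ≤ (n : ℕ))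
    (hn' : (n : ℕ) + L < K) {y : ℂ} (hy : y ∈ PC u v x) (hr : ‖y - zq u v x K (j, m, n)‖ < r) :
    ∃ i, zq u v x K i = y := by
  obtain ⟨k, a, b, rfl⟩ := hy
  have hxs : ∀ j, ‖x j‖ ≤ ∑ j, ‖x j‖ := fun j =>
    Finset.single_le_sum (f := fun j => ‖x j‖) (fun i _ => norm_nonneg _) (Finset.mem_univ j)
  set w : ℂ := (x k + a * u + b * v - zq u v x K (j, m, n)) - x k + x j with hw
  have hwn : ‖w‖ ≤ |r| + 2 * ∑ j, ‖x j‖ := by
    have h1 : ‖w‖ ≤ ‖x k + a * u + b * v - zq u v x K (j, m, n)‖ + ‖x k‖ + ‖x j‖ :=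
      (norm_add_le _ _).trans (add_le_add (norm_sub_le _ _) le_rfl)
    have h2 := hxs j
    have h3 := hxs k
    have h4 := le_abs_self r
    linarith
  have hwe : w = (((a - ((m : ℕ) : ℤ) : ℤ) : ℝ) : ℂ) * u + (((b - ((n : ℕ) : ℤ) : ℤ) : ℝ) : ℂ) * v := by
    rw [hw]
    unfold zq
    push_cast
    ring
  have h1 : |ca u v w| ≤ L := by
    refine (ca_le u v w).trans (le_trans ?_ hL)
    gcongr
    linarith [norm_nonneg u]
  have h2 : |cb u v w| ≤ L := by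
    refine (cb_le u v w).trans (le_trans ?_ hL)
    gcongr
    linarith [norm_nonneg v]
  rw [hwe, ca_lin hD0] at h1
  rw [hwe, cb_lin hD0] at h2
  have h1' : |a - ((m : ℕ) : ℤ)| ≤ (L : ℤ) := by exact_mod_cast h1
  have h2' : |b - ((n : ℕ) : ℤ)| ≤ (L : ℤ) := by exact_mod_cast h2
  rw [abs_le] at h1' h2'
  obtain ⟨a', rfl⟩ : ∃ a' : ℕ, a = a' := ⟨a.toNat, by omega⟩
  obtain ⟨b', rfl⟩ : ∃ b' : ℕ, b = b' := ⟨b.toNat, by omega⟩
  refine ⟨(k, ⟨a', by omega⟩, ⟨b', by omega⟩), ?_⟩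
  unfold zq
  push_cast
  rfl

end Per2

open Per Per2 in
theorem per_defect {β e P s r D : ℝ} (hβ : 0 < β) (he : 0 ≤ e) (hP : 0 ≤ P) (hs : 0 ≤ s)
    (N : ℕ) (hN : 0 < N) (u v : ℂ) (hDp : 0 < D) (hD : |(starRingEnd ℂ u * v).im| = D)
    (x : Fin N → ℂ) (hx : ∀ j k, ∀ m n : ℤ, x j - x k + m * u + n * v = 0 → j = k) (j₀ : Fin N)
    (Q : ∀ M : ℕ, (Fin M → ℂ) → Fin M → Prop)
    (hQ : ∀ (M : ℕ) (z : Fin M → ℂ) (i : Fin M), Loc (PC u v x) r z i →
      (∃ m n : ℤ, z i = x j₀ + m * u + n * v) → Q M z i)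
    (H : ∀ (M : ℕ) (z : Fin M → ℂ) (Ω : Set ℂ), Function.Injective z → (∀ l, z l ∈ PC u v x) →
      MeasurableSet Ω → volume Ω ≠ ⊤ → (∀ i, Metric.ball (z i) R ⊆ Ω) →
      M * (e + P * (√3 / 2)) + s * ({i | Q M z i}.ncard : ℝ) ≤ Ef β z + P * (volume Ω).toReal) :
    N * (e + P * (√3 / 2)) + s ≤ Ep β u v x + P * D := by
  classical
  have hD0 : (starRingEnd ℂ u * v).im ≠ 0 := by
    intro h
    rw [h, abs_zero] at hD
    linarith
  have hR : 0 ≤ R := by
    unfold R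
    positivity
  have hs0 : 0 ≤ ∑ j, ‖x j‖ := Finset.sum_nonneg fun i _ => norm_nonneg _
  set c : ℝ := (∑ j, ‖x j‖ + R) * (‖u‖ + ‖v‖) / D with hc
  have hc0 : 0 ≤ c := by positivity
  obtain ⟨L, hL⟩ := exists_nat_ge ((|r| + 2 * ∑ j, ‖x j‖) * (‖u‖ + ‖v‖) / D)
  have key : ∀ K : ℕ, 1 ≤ K → (N : ℝ) * (K : ℝ) ^ 2 * (e + P * (√3 / 2)) +
      s * ((K : ℝ) ^ 2 - 4 * L * K) ≤
      (K : ℝ) ^ 2 * Ep β u v x + P * (D * (K + 2 * c) ^ 2) := by
    intro K hK
    have hvol := Om_vol hD0 hc0 (Nat.cast_nonneg K)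
    rw [hD] at hvol
    have eq := (Fintype.equivFin (Fin N × (Fin K × Fin K))).symm
    set M := Fintype.card (Fin N × (Fin K × Fin K)) with hM
    have hz : Function.Injective fun i => zq u v x K (eq i) := (zz_inj hD0 hx K).comp eq.injective
    have hPC : ∀ l, zq u v x K (eq l) ∈ PC u v x := fun l =>
      ⟨(eq l).1, (((eq l).2.1 : ℕ) : ℤ), (((eq l).2.2 : ℕ) : ℤ), by
        unfold zq
        push_cast
        rfl⟩
    have h := H M (fun i => zq u v x K (eq i)) (Om u v c K) hz hPC (Om_meas u v c K) hvol.1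
      fun i => ball_sub hD0 x (by rw [hD]) K _
    have hcard : (M : ℝ) = N * (K : ℝ) ^ 2 := by
      rw [hM, Fintype.card_prod, Fintype.card_prod, Fintype.card_fin, Fintype.card_fin]
      push_cast
      ring
    rw [hcard, Ef_comp eq (zq u v x K)] at h
    have hen := energy_le hβ hD0 hx K
    -- the number of the defects
    have hcount : (K : ℝ) ^ 2 - 4 * L * K ≤
        ({i | Q M (fun i => zq u v x K (eq i)) i}.ncard : ℝ) := by
      by_cases hKL : 2 * L ≤ K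
      · let f : Fin (K - 2 * L) × Fin (K - 2 * L) → Fin M := fun q =>
          eq.symm (j₀, ⟨(q.1 : ℕ) + L, by omega⟩, ⟨(q.2 : ℕ) + L, by omega⟩)
        have hf : Function.Injective f := by
          rintro ⟨a, b⟩ ⟨a', b'⟩ hab
          have h1 := eq.symm.injective hab
          simp only [Prod.mk.injEq, Fin.mk.injEq, true_and] at h1
          have h2 : a = a' := Fin.ext (by omega)
          have h3 : b = b' := Fin.ext (by omega)
          rw [h2, h3]
        have hsub : ((Finset.univ.image f : Finset (Fin M)) : Set (Fin M)) ⊆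
            {i | Q M (fun i => zq u v x K (eq i)) i} := by
          intro i hi
          rw [Finset.coe_image, Set.mem_image] at hi
          obtain ⟨q, -, rfl⟩ := hi
          have e1 : eq (f q) = (j₀, ⟨(q.1 : ℕ) + L, by omega⟩, ⟨(q.2 : ℕ) + L, by omega⟩) :=
            eq.apply_symm_apply _
          refine hQ _ _ _ ⟨hz, hPC, fun y hy hr => ?_⟩ ⟨(((q.1 : ℕ) + L : ℕ) : ℤ), (((q.2 : ℕ) + L : ℕ) : ℤ), ?_⟩
          · simp only [e1] at hr
            obtain ⟨i, hi⟩ := interior hD0 x (by rw [hD]; exact hL) K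
              (by show L ≤ (q.1 : ℕ) + L; omega) (by show (q.1 : ℕ) + L + L < K; omega)
              (by show L ≤ (q.2 : ℕ) + L; omega) (by show (q.2 : ℕ) + L + L < K; omega) hy hr
            exact ⟨eq.symm i, by simp only [Equiv.apply_symm_apply]; exact hi⟩
          · simp only [e1]
            unfold zq
            push_cast
            rfl
        have h1 := Set.ncard_le_ncard hsub (Set.toFinite _)
        rw [Set.ncard_coe_finset, Finset.card_image_of_injective _ hf, Finset.card_univ,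
          Fintype.card_prod, Fintype.card_fin] at h1
        have h2 : (((K - 2 * L) * (K - 2 * L) : ℕ) : ℝ) ≤
            ({i | Q M (fun i => zq u v x K (eq i)) i}.ncard : ℝ) := by exact_mod_cast h1
        refine le_trans ?_ h2
        rw [Nat.cast_mul, Nat.cast_sub hKL]
        push_cast
        nlinarith [sq_nonneg (L : ℝ)]
      · push Not at hKL
        have h1 : (K : ℝ) ≤ 2 * L := by exact_mod_cast hKL.le
        have h2 : (0 : ℝ) ≤ ({i | Q M (fun i => zq u v x K (eq i)) i}.ncard : ℝ) := Nat.cast_nonneg _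
        have h3 : (0 : ℝ) ≤ K := Nat.cast_nonneg _
        have h4 : (0 : ℝ) ≤ L := Nat.cast_nonneg _
        nlinarith
    have h1 := mul_le_mul_of_nonneg_left hcount hs
    have h2 := mul_le_mul_of_nonneg_left hvol.2 hP
    linarith
  by_contra hcon
  push Not at hcon
  refine growth (δ := N * (e + P * (√3 / 2)) + s - (Ep β u v x + P * D))
    (A := P * (D * (4 * c)) + s * (4 * L)) (B := P * (D * (4 * c ^ 2)))
    (by linarith) (by positivity) (by positivity) fun K hK => ?_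
  have h1 := key K hK
  nlinarith

end Pool.Agent.J4.H83.SG
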