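import Pool.Agent.J4.H83.SG.PruneU
import Pool.Agent.J4.H83.SG.Per2
import Pool.Agent.J4.H83.SG.Local
import Pool.Agent.J4.H83.SG.NSep
import Pool.Agent.J4.H83.SG.HexC
import Pool.Agent.J4.H83.SG.PcFin
import Pool.Agent.J4.H83.SG.HexS

/-!
# Steep Gaussians: the theorem for one Gaussian, in units of the lattice spacing
-/

set_option autoImplicit false

open MeasureTheory Set Filter Topology

namespace Pool.Agent.J4.H83.SG

open Pool.Agent.J4.H83.FV Pool.Agent.J4.H83.HD Pool.Agent.J4.H83.OO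

namespace Mu

theorem pc_add {N : ℕ} {u v : ℂ} {x : Fin N → ℂ} (m n : ℤ) (y : ℂ) :
    y ∈ PC u v x ↔ y + (m * u + n * v) ∈ PC u v x := by
  constructor
  · rintro ⟨j, m', n', h⟩
    refine ⟨j, m' + m, n' + n, ?_⟩
    rw [h]
    push_cast
    ring
  · rintro ⟨j, m', n', h⟩
    refine ⟨j, m' - m, n' - n, ?_⟩
    push_cast
    linear_combination h

/-- a bound for all `K` gives the bound for the finite sums over the lattice -/
theorem of_eK {β g E : ℝ} {N : ℕ} (hβ : 0 < β) (hN : 0 < N) (h : ∀ K, N * eK β K + g ≤ E)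
    (s : Finset {p : ℤ × ℤ // p ≠ 0}) :
    N * ∑ p ∈ s, Real.exp (-β * ((p.1.1 : ℝ) ^ 2 + p.1.1 * p.1.2 + (p.1.2 : ℝ) ^ 2)) + g ≤ E := by
  have hN0 : (0 : ℝ) < N := by exact_mod_cast hN
  have h1 : ∀ K, eK β K ≤ (E - g) / N := by
    intro K
    rw [le_div_iff₀ hN0, mul_comm]
    linarith [h K]
  have h2 := hex_fin hβ h1 s
  rw [le_div_iff₀ hN0, mul_comm] at h2
  linarith

theorem mainU : ∃ β₀ : ℝ, 1 ≤ β₀ ∧ ∀ β : ℝ, β₀ ≤ β → ∀ (N : ℕ), 0 < N → ∀ (u v : ℂ),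
    |(starRingEnd ℂ u * v).im| = √3 / 2 * N → ∀ x : Fin N → ℂ,
      (∀ j k, ∀ m n : ℤ, x j - x k + m * u + n * v = 0 → j = k) →
      (∀ s : Finset {p : ℤ × ℤ // p ≠ 0},
        N * ∑ p ∈ s, Real.exp (-β * ((p.1.1 : ℝ) ^ 2 + p.1.1 * p.1.2 + (p.1.2 : ℝ) ^ 2)) ≤
          Ep β u v x) ∧
      ((∃ c w : ℂ, ‖w‖ = 1 ∧ PC u v x = {y | ∃ m n : ℤ, y = c + w * (m + n * ze)}) ∨
        ∃ g : ℝ, 0 < g ∧ ∀ s : Finset {p : ℤ × ℤ // p ≠ 0},
        N * ∑ p ∈ s, Real.exp (-β * ((p.1.1 : ℝ) ^ 2 + p.1.1 * p.1.2 + (p.1.2 : ℝ) ^ 2)) + g ≤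
          Ep β u v x) := by
  classical
  obtain ⟨Cc, τ, hCc, hτ, hCτ, hrot, c, hc, β₀, hβ₀, hB⟩ := Pr.prune
  refine ⟨β₀, hβ₀, fun β hβ N hN u v hD x hx => ?_⟩
  obtain ⟨A, hA⟩ := hB β hβ
  have hβ0 : 0 < β := by linarith
  have hN0 : (0 : ℝ) < N := by exact_mod_cast hN
  have hDp : (0 : ℝ) < √3 / 2 * N := by positivity
  have hD0 : (starRingEnd ℂ u * v).im ≠ 0 := by
    intro h
    rw [h, abs_zero] at hD
    linarith
  have he := Pr.eK_nonneg β
  have hP := Pr.PK_nonneg hβ0.le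
  have hH : ∀ K, ∀ (M : ℕ) (z : Fin M → ℂ) (Ω : Set ℂ), MeasurableSet Ω → volume Ω ≠ ⊤ →
      (∀ i, Metric.ball (z i) R ⊆ Ω) →
      M * (eK β K + PK β K * (√3 / 2)) ≤
        ∑ i, ∑ j ∈ Finset.univ.erase i, Real.exp (-β * ‖z j - z i‖ ^ 2) +
        PK β K * (volume Ω).toReal := fun K M z Ω h1 h2 h3 => hA.all K M z Ω h1 h2 h3
  constructor
  · intro s
    have h1 : ∀ K, N * eK β K + 0 ≤ Ep β u v x := by
      intro K
      have h2 := per_bound hβ0 (he K) (hP K) (hH K) N hN u v hD x hx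
      rw [add_zero]
      exact h2
    have := of_eK hβ0 hN h1 s
    rwa [add_zero] at this
  · by_cases hns : ∃ y ∈ PC u v x, ∃ y' ∈ PC u v x, y ≠ y' ∧ ‖y - y'‖ < 1 / A
    · right
      obtain ⟨g, hg0, hg⟩ := hA.gap
      refine ⟨g, hg0, of_eK hβ0 hN fun K => ?_⟩
      have h2 := nsep hβ0 (he K) (hP K) (by linarith [hA.one_le]) (hg K) (hH K) N hN u v hDp hD x hx hns
      have h3 : (N : ℝ) * (eK β K + PK β K * (√3 / 2)) = N * eK β K + PK β K * (√3 / 2 * N) := by ring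
      linarith
    · push Not at hns
      by_cases hp : ∀ (M : ℕ) (z : Fin M → ℂ) (i : Fin M), Loc (PC u v x) (2 * R) z i →
        Dv τ A (fun l => (A : ℂ) * z l) 0 i
      · left
        exact perfect_hex hA.one_le hA.le ⟨x ⟨0, hN⟩, ⟨0, hN⟩, 0, 0, by simp⟩ hns
          (pc_finite hD0 x) hCc hCτ hrot hp
      · right
        push Not at hp
        obtain ⟨M, z, i, hL, hn⟩ := hp
        obtain ⟨d, hd0, hd1, hd⟩ := imperfect hA.one_le hL hn
        obtain ⟨j₀, m₀, n₀, hz⟩ := hL.sub i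
        refine ⟨c * β * Real.exp (-β) * d ^ 2, by positivity, of_eK hβ0 hN fun K => ?_⟩
        have h2 := per_defect (r := 2 * R) hβ0 (he K) (hP K)
          (s := c * β * Real.exp (-β) * d ^ 2) (by positivity) N hN u v hDp hD x hx j₀
          (fun M' z' i' => ¬ Dv τ A (fun l => (A : ℂ) * z' l) d i')
          (fun M' z' i' hL' ⟨m, n, hz'⟩ => hd M' z' i' hL' (by
            have h3 : z' i' - z i = ((m - m₀ : ℤ) : ℂ) * u + ((n - n₀ : ℤ) : ℂ) * v := by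
              rw [hz', hz]; push_cast; ring
            intro y
            rw [h3]
            exact pc_add _ _ y))
          (fun M' z' Ω hinj hsub h4 h5 h6 => hA.sep K M' z' Ω
            (fun a b hab => hns _ (hsub a) _ (hsub b) fun h => hab (hinj h)) h4 h5 h6 d hd0.le hd1)
        have h3 : (N : ℝ) * (eK β K + PK β K * (√3 / 2)) = N * eK β K + PK β K * (√3 / 2 * N) := by ring
        linarith

end Mu

end Pool.Agent.J4.H83.SG
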