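import Pool.Agent.J4.H83.SG.Defs

/-!
# Steep Gaussians: the areas of the truncated Voronoi cells (piece AREA, helper46)
-/

set_option autoImplicit false

open MeasureTheory Set
open scoped Pointwise

namespace Pool.Agent.J4.H83.SG

open Pool.Agent.J4.H83.FV Pool.Agent.J4.H83.HD Pool.Agent.J4.H83.OO

namespace Area

/-- there is no room for a seventh neighbour -/
lemma seventh' {ι : Type} (S : Finset ι) (v : ι → ℂ)
    (h1 : ∀ j ∈ S, 1 ≤ ‖v j‖) (h2 : ∀ j ∈ S, ‖v j‖ ≤ 101 / 100)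
    (h3 : ∀ j ∈ S, ∀ k ∈ S, j ≠ k → 1 ≤ ‖v j - v k‖) (hc : S.card = 6) {w : ℂ} (hw : 1 ≤ ‖w‖)
    (hw2 : ‖w‖ ≤ 117 / 100) (hwv : ∀ j ∈ S, 1 ≤ ‖v j - w‖) : False := by
  have hpi := Real.pi_gt_three
  have hpi2 := Real.pi_lt_d2
  have hcos : (0.6 : ℝ) ≤ Real.cos 0.89 := by
    have := Real.one_sub_sq_div_two_le_cos (x := 0.89)
    norm_num at this ⊢
    linarith
  have hb : ∀ k ∈ S, |(Hex.zz w (v k)).arg| ≤ Real.pi - 0.89 := by
    intro k hk
    refine Hex.zz_arg hw (h1 k hk) (c := 0.6) (by linarith) hcos ?_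
    have a1 := h1 k hk
    have a2 := h2 k hk
    have a3 : 1 ≤ ‖v k - w‖ ^ 2 := by nlinarith [hwv k hk]
    rw [nsq, Complex.sub_re, Complex.sub_im] at a3
    have a4 := nsq (v k)
    have a5 := nsq w
    set a := ‖v k‖
    set b := ‖w‖
    have a6 : a ^ 2 + b ^ 2 - 1 ≤ 1.2 * (a * b) := by
      nlinarith [mul_nonneg (by linarith : (0 : ℝ) ≤ a - 1) (by linarith : (0 : ℝ) ≤ b - 1),
        mul_nonneg (by linarith : (0 : ℝ) ≤ a - 1) (by linarith : (0 : ℝ) ≤ 101 / 100 - a),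
        mul_nonneg (by linarith : (0 : ℝ) ≤ b - 1) (by linarith : (0 : ℝ) ≤ 117 / 100 - b)]
    linarith
  obtain ⟨k, hk, h4⟩ := Hex.pack S (fun k => Hex.zz w (v k)) (m := 1 / 100) (β := 0.89) (n := 5) le_rfl
    (fun k hk => by rw [Hex.zz_norm hw]; exact h1 k hk)
    (fun k hk => by rw [Hex.zz_norm hw]; exact (h2 k hk).trans (by norm_num))
    (fun k hk l hl hkl => by rw [Hex.zz_sub hw]; exact h3 k hk l hl hkl) hb hc
  have h5 := (abs_le.1 (hb k hk)).1
  push_cast at h4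
  linarith

lemma T_sub {ι : Type*} (J : Finset ι) (v : ι → ℂ) : T J v ⊆ Metric.ball 0 R := fun z hz => by
  rw [mem_ball_zero_iff]; exact hz.1

lemma T_fin {ι : Type*} (J : Finset ι) (v : ι → ℂ) : volume (T J v) ≠ ⊤ :=
  ((measure_mono (T_sub J v)).trans_lt measure_ball_lt_top).ne

/-- the area of the cell is at least that of the disc minus the caps -/
lemma T_ge {ι : Type*} (J S : Finset ι) (v : ι → ℂ) (h : ∀ j ∈ J, j ∉ S → 2 * R ≤ ‖v j‖) :
    Real.pi / 3 - ∑ j ∈ S, aC (v j) ≤ (volume (T J v)).toReal := by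
  have hpi := Real.pi_pos
  have hfin : ∀ j, volume (cap (v j)) ≠ ⊤ := fun j =>
    ((measure_mono (cap_sub _)).trans_lt measure_ball_lt_top).ne
  have hsub : Metric.ball (0 : ℂ) R ⊆ T J v ∪ ⋃ j ∈ S, cap (v j) := by
    intro z hz
    by_cases hzT : z ∈ T J v
    · exact Or.inl hzT
    · right
      rw [T_eq, mem_sdiff, not_and, not_not] at hzT
      have h1 := hzT hz
      rw [mem_iUnion₂] at h1 ⊢
      obtain ⟨j, hj, hjz⟩ := h1
      by_cases hjS : j ∈ S
      · exact ⟨j, hjS, hjz⟩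
      · rw [cap_big (h j hj hjS)] at hjz
        exact absurd hjz (Set.notMem_empty _)
  have h1 : volume (Metric.ball (0 : ℂ) R) ≤ volume (T J v) + ∑ j ∈ S, volume (cap (v j)) :=
    (measure_mono hsub).trans ((measure_union_le _ _).trans
      (add_le_add_right (measure_biUnion_finset_le _ _) _))
  have h2 : ∑ j ∈ S, volume (cap (v j)) ≠ ⊤ := ENNReal.sum_ne_top.2 fun j _ => hfin j
  have h3 := ENNReal.toReal_mono (ENNReal.add_ne_top.2 ⟨T_fin J v, h2⟩) h1
  rw [vol_disc, ENNReal.toReal_ofReal (by positivity), ENNReal.toReal_add (T_fin J v) h2,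
    ENNReal.toReal_sum fun j _ => hfin j] at h3
  have h4 : ∑ j ∈ S, aC (v j) = ∑ j ∈ S, (volume (cap (v j))).toReal := rfl
  rw [h4]
  linarith

end Area

open Area

theorem area_good : ∃ τ₁ : ℝ, 0 < τ₁ ∧ ∃ η₁ : ℝ, 0 < η₁ ∧ ∀ (N : ℕ) (x : Fin N → ℂ), Sep x →
    ∀ (A : ℝ) (i : Fin N), 1 ≤ A → A ≤ 1 + η₁ → ex x i ≤ τ₁ →
      (Nbr x i).card = 6 ∧ (∀ j ∈ Nbr x i, ‖x j - x i‖ ≤ 101 / 100) ∧
      Real.pi / 3 - ∑ j ∈ Nbr x i, aC ((x j - x i) / (A : ℂ)) ≤ vA A x i := by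
  obtain ⟨C, hC, τ, hτ, h⟩ := hex
  refine ⟨min τ (1 / (100 * C)), lt_min hτ (by positivity), 1 / 100, by norm_num, ?_⟩
  intro N x hx A i hA1 hA2 hex
  obtain ⟨hc, hn, -, -⟩ := h N x hx i (hex.trans (min_le_left _ _))
  have hCe : C * ex x i ≤ 1 / 100 := by
    have hC0 : 0 < C := by linarith
    calc C * ex x i ≤ C * (1 / (100 * C)) := mul_le_mul_of_nonneg_left (hex.trans (min_le_right _ _)) hC0.le
      _ = 1 / 100 := by field_simp
  have hn' : ∀ j ∈ Nbr x i, ‖x j - x i‖ ≤ 101 / 100 := fun j hj => (hn j hj).trans (by linarith)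
  refine ⟨hc, hn', ?_⟩
  unfold vA
  refine T_ge (Finset.univ.erase i) (Nbr x i) (fun j => (x j - x i) / (A : ℂ)) ?_
  intro j hj hjN
  have hji : j ≠ i := Finset.ne_of_mem_erase hj
  have hA0 : 0 < A := by linarith
  have hnorm : ‖(x j - x i) / (A : ℂ)‖ = ‖x j - x i‖ / A := by
    rw [norm_div, Complex.norm_real, Real.norm_of_nonneg hA0.le]
  rw [hnorm, le_div_iff₀ hA0]
  by_contra hcon
  push Not at hcon
  have hR := R_lt
  have hR0 := R_pos
  have hmem : ∀ k ∈ Nbr x i, k ≠ i := fun k hk => (Finset.mem_filter.1 hk).2.1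
  refine seventh' (Nbr x i) (fun k => x k - x i) (fun k hk => hx k i (hmem k hk)) hn'
    (fun k _ l _ hkl => by
      rw [sub_sub_sub_cancel_right]
      exact hx k l hkl) hc (w := x j - x i) (hx j i hji) ?_ ?_
  · nlinarith
  · intro k hk
    rw [sub_sub_sub_cancel_right]
    exact hx k j (fun e => hjN (by rw [← e]; exact hk))

theorem area_bad {N : ℕ} (x : Fin N → ℂ) (A : ℝ) (i : Fin N) (hA : 1 ≤ A) :
    (√3 / 2 + ex x i) / A ^ 2 ≤ vA A x i := by
  have hA0 : 0 < A := by linarith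
  have hR0 := R_pos
  have hsub : A⁻¹ • T (Finset.univ.erase i) (fun j => x j - x i) ⊆
      T (Finset.univ.erase i) (fun j => (x j - x i) / (A : ℂ)) := by
    rintro z ⟨w, ⟨hw1, hw2⟩, rfl⟩
    have e : ∀ u : ℂ, ‖A⁻¹ • u‖ = A⁻¹ * ‖u‖ := fun u => by
      rw [norm_smul, Real.norm_of_nonneg (by positivity)]
    have hAi : A⁻¹ ≤ 1 := inv_le_one_of_one_le₀ hA
    have hAi0 : 0 < A⁻¹ := by positivity
    refine ⟨?_, fun j hj => ?_⟩
    · simp only
      rw [e]
      have := norm_nonneg w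
      nlinarith
    · simp only
      have e2 : A⁻¹ • w - (x j - x i) / (A : ℂ) = A⁻¹ • (w - (x j - x i)) := by
        rw [smul_sub, Complex.real_smul, Complex.real_smul, Complex.ofReal_inv, div_eq_inv_mul]
      rw [e2, e, e]
      exact mul_lt_mul_of_pos_left (hw2 j hj) hAi0
  have h1 := measure_mono (μ := volume) hsub
  rw [Measure.addHaar_smul, Complex.finrank_real_complex] at h1
  have h2 := ENNReal.toReal_mono (T_fin _ _) h1
  rw [ENNReal.toReal_mul, ENNReal.toReal_ofReal (abs_nonneg _)] at h2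
  have h3 : |A⁻¹ ^ 2| = (A ^ 2)⁻¹ := by
    rw [abs_of_nonneg (by positivity), inv_pow]
  rw [h3] at h2
  unfold vA
  have h4 : √3 / 2 + ex x i = (volume (T (Finset.univ.erase i) fun j => x j - x i)).toReal := by
    unfold ex
    ring
  rw [h4, div_eq_inv_mul]
  exact h2

theorem area_sum {N : ℕ} (z : Fin N → ℂ) (Ω : Set ℂ) (hΩ : MeasurableSet Ω) (hf : volume Ω ≠ ⊤)
    (hb : ∀ i, Metric.ball (z i) R ⊆ Ω) :
    ∑ i, (volume (T (Finset.univ.erase i) fun j => z j - z i)).toReal ≤ (volume Ω).toReal := by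
  set V : Fin N → Set ℂ := fun i =>
    (fun p => p - z i) ⁻¹' (T (Finset.univ.erase i) fun j => z j - z i) with hV
  have hvol : ∀ i, volume (V i) = volume (T (Finset.univ.erase i) fun j => z j - z i) := by
    intro i
    exact (measurePreserving_sub_right volume (z i)).measure_preimage (T_meas _ _).nullMeasurableSet
  have hmem : ∀ i p, p ∈ V i ↔ ‖p - z i‖ < R ∧ ∀ j, j ≠ i → ‖p - z i‖ < ‖p - z j‖ := by
    intro i p
    simp only [hV, mem_preimage, T, mem_ofPred_eq, Finset.mem_erase, Finset.mem_univ, and_true,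
      sub_sub_sub_cancel_right]
  have hmeas : ∀ i, MeasurableSet (V i) := fun i => (measurable_sub_const _) (T_meas _ _)
  have hdis : Pairwise (Function.onFun Disjoint V) := by
    intro i j hij
    rw [Function.onFun, Set.disjoint_left]
    intro p hp hq
    rw [hmem] at hp hq
    have h1 := hp.2 j hij.symm
    have h2 := hq.2 i hij
    linarith
  have hsub : (⋃ i, V i) ⊆ Ω := by
    intro p hp
    rw [mem_iUnion] at hp
    obtain ⟨i, hi⟩ := hp
    have h1 := ((hmem i p).1 hi).1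
    exact hb i (by rw [Metric.mem_ball, dist_eq_norm]; exact h1)
  have hle : ∑ i, volume (V i) ≤ volume Ω := by
    calc ∑ i, volume (V i) = volume (⋃ i, V i) := by
          rw [measure_iUnion hdis hmeas, tsum_fintype]
      _ ≤ volume Ω := measure_mono hsub
  have h1 := ENNReal.toReal_mono hf hle
  rw [ENNReal.toReal_sum fun i _ => by rw [hvol]; exact T_fin _ _] at h1
  have h2 : ∑ i, (volume (T (Finset.univ.erase i) fun j => z j - z i)).toReal =
      ∑ i, (volume (V i)).toReal := Finset.sum_congr rfl fun i _ => by rw [hvol]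
  rw [h2]
  exact h1

end Pool.Agent.J4.H83.SG
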