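import Pool.Agent.J4.H83.SG.Defs

/-!
# Steep Gaussians: the area of a cap (piece CAP, helper46)
-/

set_option autoImplicit false

open MeasureTheory Set

namespace Pool.Agent.J4.H83.SG

open Pool.Agent.J4.H83.FV Pool.Agent.J4.H83.HD Pool.Agent.J4.H83.OO

namespace Cap

/-- the slack as a function of the angle -/
noncomputable def K (φ : ℝ) : ℝ :=
  (Real.pi / 6 - √3 / 4) / 3 - (2 * R * Real.cos φ - 1) * (R / 2) + (2 * R * Real.cos φ - 1) ^ 2 -
    (φ - Real.sin φ * Real.cos φ) / 3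

lemma K_deriv (x : ℝ) : HasDerivAt K (Real.sin x * (4 / 3 * Real.sin ((x - Real.pi / 6) / 2) *
    (4 * Real.sin ((x + Real.pi / 6) / 2) - Real.cos ((x + Real.pi / 6) / 2)))) x := by
  have hc := Real.hasDerivAt_cos x
  have hs := Real.hasDerivAt_sin x
  have h1 : HasDerivAt (fun y : ℝ => 2 * R * Real.cos y - 1) (2 * R * -Real.sin x) x :=
    (hc.const_mul (2 * R)).sub_const 1
  have h2 := h1.mul_const (R / 2)
  have h3 := h1.pow 2
  have h4 : HasDerivAt (fun y : ℝ => (y - Real.sin y * Real.cos y) / 3)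
      ((1 - (Real.cos x * Real.cos x + Real.sin x * -Real.sin x)) / 3) x :=
    ((hasDerivAt_id x).sub (hs.mul hc)).div_const 3
  have h5 := ((h2.const_sub ((Real.pi / 6 - √3 / 4) / 3)).add h3).sub h4
  have e0 : (fun y : ℝ => (Real.pi / 6 - √3 / 4) / 3 - (2 * R * Real.cos y - 1) * (R / 2) +
      (2 * R * Real.cos y - 1) ^ 2 - (y - Real.sin y * Real.cos y) / 3) = K := rfl
  have e1 : Real.cos (Real.pi / 6) - Real.cos x =
      2 * Real.sin ((x + Real.pi / 6) / 2) * Real.sin ((x - Real.pi / 6) / 2) := by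
    rw [Real.cos_sub_cos]
    have : (Real.pi / 6 - x) / 2 = -((x - Real.pi / 6) / 2) := by ring
    rw [this, Real.sin_neg, add_comm (Real.pi / 6) x]
    ring
  have e2 : Real.sin x - Real.sin (Real.pi / 6) =
      2 * Real.sin ((x - Real.pi / 6) / 2) * Real.cos ((x + Real.pi / 6) / 2) := by
    rw [Real.sin_sub_sin]
  rw [Real.cos_pi_div_six] at e1
  rw [Real.sin_pi_div_six] at e2
  have hR2 := R_sq
  have hR3 : 3 * R = √3 := by unfold R; ring
  have hsc := Real.sin_sq_add_cos_sq x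
  have e3 : 4 / 3 * Real.sin ((x - Real.pi / 6) / 2) *
    (4 * Real.sin ((x + Real.pi / 6) / 2) - Real.cos ((x + Real.pi / 6) / 2)) =
      8 / 3 * (√3 / 2 - Real.cos x) - 2 / 3 * (Real.sin x - 1 / 2) := by
    rw [e1, e2]
    ring
  rw [e3, ← hR3]
  rw [← e0]
  refine h5.congr_deriv ?_
  simp only [Nat.cast_ofNat, Nat.add_one_sub_one, pow_one]
  linear_combination (Real.sin x - 8 * Real.cos x * Real.sin x) * hR2 + 1 / 3 * hsc

lemma K_pi : K (Real.pi / 6) = 0 := by
  unfold K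
  rw [Real.cos_pi_div_six, Real.sin_pi_div_six]
  have hR3 : R = √3 / 3 := rfl
  have h3 := sqrt3_sq
  have h4 : 2 * R * (√3 / 2) = 1 := by
    rw [hR3]
    linarith
  rw [h4]
  ring

lemma pos_fac {m : ℝ} (h1 : 0.3 ≤ m) (h2 : m ≤ Real.pi / 2) : 0 ≤ 4 * Real.sin m - Real.cos m := by
  have hpi := Real.pi_gt_three
  have h3 : Real.sin 0.3 ≤ Real.sin m :=
    Real.sin_le_sin_of_le_of_le_pi_div_two (by linarith) h2 h1
  have h4 := Real.sin_gt_sub_cube (x := 0.3) (by norm_num)
  have h5 := Real.cos_le_one m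
  norm_num at h4 h3
  linarith

lemma K_nonneg {φ : ℝ} (h1 : 0.3 ≤ φ) (h2 : φ ≤ Real.pi / 2) : 0 ≤ K φ := by
  have hpi := Real.pi_gt_three
  have hpi2 := Real.pi_lt_d2
  have hcont : Continuous K := continuous_iff_continuousAt.2 fun x => (K_deriv x).continuousAt
  rw [← K_pi]
  rcases le_total φ (Real.pi / 6) with h | h
  · have hanti : AntitoneOn K (Icc 0.3 (Real.pi / 6)) := by
      refine antitoneOn_of_deriv_nonpos (convex_Icc _ _) hcont.continuousOn
        (fun x _ => (K_deriv x).differentiableAt.differentiableWithinAt) fun x hx => ?_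
      rw [interior_Icc] at hx
      rw [(K_deriv x).deriv]
      obtain ⟨a1, a2⟩ := hx
      have b1 : 0 ≤ Real.sin x := Real.sin_nonneg_of_nonneg_of_le_pi (by linarith) (by linarith)
      have b2 : Real.sin ((x - Real.pi / 6) / 2) ≤ 0 :=
        Real.sin_nonpos_of_nonpos_of_neg_pi_le (by linarith) (by linarith)
      have b3 := pos_fac (m := (x + Real.pi / 6) / 2) (by linarith) (by linarith)
      refine mul_nonpos_of_nonneg_of_nonpos b1 (mul_nonpos_of_nonpos_of_nonneg ?_ b3)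
      linarith
    exact hanti ⟨h1, h⟩ ⟨by linarith, le_rfl⟩ h
  · have hmono : MonotoneOn K (Icc (Real.pi / 6) (Real.pi / 2)) := by
      refine monotoneOn_of_deriv_nonneg (convex_Icc _ _) hcont.continuousOn
        (fun x _ => (K_deriv x).differentiableAt.differentiableWithinAt) fun x hx => ?_
      rw [interior_Icc] at hx
      rw [(K_deriv x).deriv]
      obtain ⟨a1, a2⟩ := hx
      have b1 : 0 ≤ Real.sin x := Real.sin_nonneg_of_nonneg_of_le_pi (by linarith) (by linarith)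
      have b2 : 0 ≤ Real.sin ((x - Real.pi / 6) / 2) :=
        Real.sin_nonneg_of_nonneg_of_le_pi (by linarith) (by linarith)
      have b3 := pos_fac (m := (x + Real.pi / 6) / 2) (by linarith) (by linarith)
      refine mul_nonneg b1 (mul_nonneg ?_ b3)
      linarith
    exact hmono ⟨le_rfl, by linarith⟩ ⟨h, h2⟩ h

end Cap

open Cap

theorem cap_le {v : ℂ} (h1 : 98 / 100 ≤ ‖v‖) (h2 : ‖v‖ ≤ 103 / 100) :
    aC v ≤ (Real.pi / 6 - √3 / 4) / 3 - (‖v‖ - 1) / (2 * √3) + (‖v‖ - 1) ^ 2 := by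
  have hR := R_pos
  have hRg := R_gt
  have hRl := R_lt
  have hpi := Real.pi_gt_three
  have hv0 : 0 < ‖v‖ := by linarith
  have h2R : 0 < 2 * R := by positivity
  set φ := Real.arccos (‖v‖ / (2 * R)) with hφ
  have hle1 : ‖v‖ / (2 * R) ≤ 0.9 := by
    rw [div_le_iff₀ h2R]
    linarith
  have hcos : Real.cos φ = ‖v‖ / (2 * R) := by
    rw [hφ, Real.cos_arccos]
    · have : 0 ≤ ‖v‖ / (2 * R) := by positivity
      linarith
    · linarith
  have hφ0 : 0 ≤ φ := Real.arccos_nonneg _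
  have hφpi : φ ≤ Real.pi := Real.arccos_le_pi _
  have hφ3 : 0.3 ≤ φ := by
    by_contra hcon
    push Not at hcon
    have h5 := Real.cos_lt_cos_of_nonneg_of_le_pi hφ0 (by linarith) hcon
    have h6 := Real.one_sub_sq_div_two_le_cos (x := 0.3)
    rw [hcos] at h5
    norm_num at h5 h6 hle1
    linarith
  have hφ2 : φ < Real.pi / 2 := by
    rw [hφ]
    exact Real.arccos_lt_pi_div_two.2 (by positivity)
  have hd : ‖v‖ = 2 * R * Real.cos φ := by rw [hcos]; field_simp
  obtain ⟨r1, -⟩ := vol_rot v hv0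
  have e : aC v = (φ - Real.sin φ * Real.cos φ) / 3 := by
    unfold aC
    rw [r1, vol_cap hv0 hφ0 hφ2 hd]
  have hK := K_nonneg hφ3 hφ2.le
  unfold K at hK
  rw [← hd, ← e] at hK
  have hR3 : R = √3 / 3 := rfl
  have h3p : 0 < √3 := by positivity
  have h3 := sqrt3_sq
  have e2 : (‖v‖ - 1) / (2 * √3) = (‖v‖ - 1) * (R / 2) := by
    rw [hR3]
    field_simp
    linear_combination (-(‖v‖ - 1)) * h3
  rw [e2]
  linarith

end Pool.Agent.J4.H83.SG
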