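import Pool.Agent.J4.H83.SG.Defs

/-!
# Steep Gaussians: the numerical estimates for the far shells
-/

set_option autoImplicit false

namespace Pool.Agent.J4.H83.SG

namespace ChAux

theorem Nm_ge {m n : ℕ} (h : 2 ≤ m + n) : m + n + 1 ≤ Nm m n := by
  unfold Nm
  rcases Nat.eq_zero_or_pos m with rfl | hm
  · have : 2 ≤ n := by omega
    nlinarith
  · rcases Nat.eq_zero_or_pos n with rfl | hn
    · have : 2 ≤ m := by omega
      nlinarith
    · nlinarith

theorem Nm_le (m n : ℕ) : Nm m n ≤ (m + n) ^ 2 := by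
  unfold Nm
  nlinarith [Nat.zero_le (m * n)]

theorem sum_le {r : ℝ} (h0 : 0 ≤ r) (h1 : r ≤ 1 / 2) (K : ℕ) :
    ∑ p ∈ far K, r ^ (p.1 + p.2) ≤ 4 * r := by
  have hg : ∀ n : ℕ, ∑ i ∈ Finset.range n, r ^ i ≤ 2 := by
    intro n
    have h2 : (1 - r) * ∑ i ∈ Finset.range n, r ^ i = 1 - r ^ n := by
      have := mul_neg_geom_sum r n
      exact this
    have h3 : 0 ≤ r ^ n := pow_nonneg h0 n
    have h4 : 0 ≤ ∑ i ∈ Finset.range n, r ^ i := Finset.sum_nonneg fun i _ => pow_nonneg h0 i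
    nlinarith
  have hg1 : ∑ i ∈ Finset.Icc 1 K, r ^ i ≤ 2 * r := by
    have h2 : ∑ i ∈ Finset.Icc 1 K, r ^ i = r * ∑ i ∈ Finset.range K, r ^ i := by
      rw [Finset.mul_sum, Finset.range_eq_Ico, Finset.sum_Ico_eq_sum_range, Nat.sub_zero,
        ← Finset.Ico_succ_right_eq_Icc, Finset.sum_Ico_eq_sum_range]
      simp only [Order.succ_eq_add_one, Nat.add_sub_cancel, zero_add]
      refine Finset.sum_congr rfl fun i _ => ?_
      rw [pow_add, pow_one]
    rw [h2]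
    nlinarith [hg K]
  have h2 : far K ⊆ Finset.Icc 1 K ×ˢ Finset.range K := Finset.filter_subset _ _
  calc ∑ p ∈ far K, r ^ (p.1 + p.2) ≤ ∑ p ∈ Finset.Icc 1 K ×ˢ Finset.range K, r ^ (p.1 + p.2) :=
        Finset.sum_le_sum_of_subset_of_nonneg h2 fun p _ _ => pow_nonneg h0 _
    _ = (∑ i ∈ Finset.Icc 1 K, r ^ i) * ∑ i ∈ Finset.range K, r ^ i := by
        rw [Finset.sum_mul_sum, Finset.sum_product]
        refine Finset.sum_congr rfl fun i _ => Finset.sum_congr rfl fun j _ => pow_add _ _ _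
    _ ≤ (2 * r) * 2 := mul_le_mul hg1 (hg K) (Finset.sum_nonneg fun i _ => pow_nonneg h0 i)
        (by positivity)
    _ = 4 * r := by ring

theorem mem_far {K : ℕ} {p : ℕ × ℕ} (h : p ∈ far K) : 2 ≤ p.1 + p.2 :=
  (Finset.mem_filter.1 h).2.1

/-- the Gaussian of a far vector -/
theorem exp_le {β : ℝ} (hβ : 0 ≤ β) {K : ℕ} {p : ℕ × ℕ} (h : p ∈ far K) :
    Real.exp (-β * Nm p.1 p.2) ≤ Real.exp (-β) * Real.exp (-β * ((p.1 : ℝ) + p.2)) := by
  rw [← Real.exp_add, Real.exp_le_exp]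
  have h1 : ((p.1 : ℝ) + p.2) + 1 ≤ Nm p.1 p.2 := by exact_mod_cast Nm_ge (mem_far h)
  nlinarith

theorem exp_pow (β : ℝ) (p : ℕ × ℕ) :
    Real.exp ((p.1 : ℝ) + p.2) * Real.exp (-β * ((p.1 : ℝ) + p.2)) =
      Real.exp (-(β - 1)) ^ (p.1 + p.2) := by
  rw [← Real.exp_add, ← Real.exp_nat_mul]
  congr 1
  push_cast
  ring

end ChAux

open ChAux

theorem charge (c C : ℝ) (hc : 0 < c) (hC : 0 < C) : ∃ β₁ : ℝ, 1 ≤ β₁ ∧ ∀ β : ℝ, β₁ ≤ β →
    (∀ K k₀ : ℕ, 2 ≤ k₀ → ∑ p ∈ (far K).filter fun p => k₀ ≤ p.1 + p.2,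
      Real.exp (-β * Nm p.1 p.2) * (C * ((p.1 : ℝ) + p.2) ^ 6 * β) ≤
        c * β * Real.exp (-β) / (k₀ : ℝ) ^ 4) ∧
    (∀ K : ℕ, ∑ p ∈ far K, (Nm p.1 p.2 : ℝ) * Real.exp (-β * Nm p.1 p.2) ≤
      Real.exp (-β) / β) := by
  refine ⟨max 20 (4 * 3628800 * C / c), le_trans (by norm_num) (le_max_left _ _), fun β hβ => ?_⟩
  have hβ20 : 20 ≤ β := le_trans (le_max_left _ _) hβ
  have hβC : 4 * 3628800 * C / c ≤ β := le_trans (le_max_right _ _) hβ
  have hβ0 : 0 < β := by linarith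
  set r : ℝ := Real.exp (-(β - 1)) with hr
  have hr0 : 0 < r := Real.exp_pos _
  have hre : r * Real.exp (β - 1) = 1 := by
    rw [hr, ← Real.exp_add, neg_add_cancel, Real.exp_zero]
  have hrβ : r * β ≤ 1 := by
    have h1 : β ≤ Real.exp (β - 1) := by
      have := Real.add_one_le_exp (β - 1)
      linarith
    rw [← hre]
    exact mul_le_mul_of_nonneg_left h1 hr0.le
  have hr2 : r ≤ 1 / 2 := by nlinarith
  have hrc : C * 3628800 * (4 * r) ≤ c := by
    rw [div_le_iff₀ hc] at hβC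
    have h2 : r * (4 * 3628800 * C) ≤ r * (β * c) := mul_le_mul_of_nonneg_left hβC hr0.le
    nlinarith
  have hr8 : 2 * (4 * r) ≤ 1 / β := by
    rw [le_div_iff₀ hβ0]
    have h1 : (β - 1) ^ 2 / 2 ≤ Real.exp (β - 1) := by
      have := Real.pow_div_factorial_le_exp (β - 1) (by linarith) 2
      simpa using this
    have h2 : 8 * β ≤ Real.exp (β - 1) := by nlinarith
    have h3 := mul_le_mul_of_nonneg_left h2 hr0.le
    rw [hre] at h3
    linarith
  constructor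
  · intro K k₀ hk₀
    have hk0 : (0 : ℝ) < k₀ := by
      have : (2 : ℝ) ≤ k₀ := by exact_mod_cast hk₀
      linarith
    have hterm : ∀ p ∈ (far K).filter fun p => k₀ ≤ p.1 + p.2,
        Real.exp (-β * Nm p.1 p.2) * (C * ((p.1 : ℝ) + p.2) ^ 6 * β) ≤
          (Real.exp (-β) * β / (k₀ : ℝ) ^ 4 * (C * 3628800)) * r ^ (p.1 + p.2) := by
      intro p hp
      obtain ⟨hp1, hp2⟩ := Finset.mem_filter.1 hp
      have h1 := exp_le hβ0.le hp1
      have hk : (k₀ : ℝ) ≤ (p.1 : ℝ) + p.2 := by exact_mod_cast hp2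
      set k : ℝ := (p.1 : ℝ) + p.2 with hkdef
      have hkp : 0 < k := by linarith
      have h2 : k ^ 10 ≤ 3628800 * Real.exp k := by
        have := Real.pow_div_factorial_le_exp k hkp.le 10
        rw [div_le_iff₀ (by positivity)] at this
        have h3 : ((Nat.factorial 10 : ℕ) : ℝ) = 3628800 := by norm_num [Nat.factorial]
        rw [h3] at this
        linarith
      have h3 : k ^ 6 * (k₀ : ℝ) ^ 4 ≤ 3628800 * Real.exp k := by
        calc k ^ 6 * (k₀ : ℝ) ^ 4 ≤ k ^ 6 * k ^ 4 :=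
              mul_le_mul_of_nonneg_left (pow_le_pow_left₀ hk0.le hk 4) (by positivity)
          _ = k ^ 10 := by ring
          _ ≤ _ := h2
      have h4 : k ^ 6 ≤ 3628800 * Real.exp k / (k₀ : ℝ) ^ 4 := by
        rw [le_div_iff₀ (by positivity)]
        exact h3
      calc Real.exp (-β * Nm p.1 p.2) * (C * k ^ 6 * β) ≤
            (Real.exp (-β) * Real.exp (-β * k)) *
              (C * (3628800 * Real.exp k / (k₀ : ℝ) ^ 4) * β) := by
            refine mul_le_mul h1 ?_ (by positivity) (by positivity)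
            refine mul_le_mul_of_nonneg_right ?_ hβ0.le
            exact mul_le_mul_of_nonneg_left h4 hC.le
        _ = (Real.exp (-β) * β / (k₀ : ℝ) ^ 4 * (C * 3628800)) *
              (Real.exp k * Real.exp (-β * k)) := by ring
        _ = _ := by rw [hkdef, exp_pow]
    calc ∑ p ∈ (far K).filter fun p => k₀ ≤ p.1 + p.2,
          Real.exp (-β * Nm p.1 p.2) * (C * ((p.1 : ℝ) + p.2) ^ 6 * β) ≤
          ∑ p ∈ (far K).filter fun p => k₀ ≤ p.1 + p.2,
            (Real.exp (-β) * β / (k₀ : ℝ) ^ 4 * (C * 3628800)) * r ^ (p.1 + p.2) :=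
          Finset.sum_le_sum hterm
      _ ≤ ∑ p ∈ far K, (Real.exp (-β) * β / (k₀ : ℝ) ^ 4 * (C * 3628800)) * r ^ (p.1 + p.2) :=
          Finset.sum_le_sum_of_subset_of_nonneg (Finset.filter_subset _ _)
            fun p _ _ => by positivity
      _ = (Real.exp (-β) * β / (k₀ : ℝ) ^ 4 * (C * 3628800)) * ∑ p ∈ far K, r ^ (p.1 + p.2) := by
          rw [Finset.mul_sum]
      _ ≤ (Real.exp (-β) * β / (k₀ : ℝ) ^ 4 * (C * 3628800)) * (4 * r) :=
          mul_le_mul_of_nonneg_left (sum_le hr0.le hr2 K) (by positivity)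
      _ = (Real.exp (-β) * β / (k₀ : ℝ) ^ 4) * (C * 3628800 * (4 * r)) := by ring
      _ ≤ (Real.exp (-β) * β / (k₀ : ℝ) ^ 4) * c :=
          mul_le_mul_of_nonneg_left hrc (by positivity)
      _ = c * β * Real.exp (-β) / (k₀ : ℝ) ^ 4 := by ring
  · intro K
    have hterm : ∀ p ∈ far K, (Nm p.1 p.2 : ℝ) * Real.exp (-β * Nm p.1 p.2) ≤
        (2 * Real.exp (-β)) * r ^ (p.1 + p.2) := by
      intro p hp
      have h1 := exp_le hβ0.le hp
      have h2 : (Nm p.1 p.2 : ℝ) ≤ ((p.1 : ℝ) + p.2) ^ 2 := by exact_mod_cast Nm_le p.1 p.2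
      have h3 : ((p.1 : ℝ) + p.2) ^ 2 ≤ 2 * Real.exp ((p.1 : ℝ) + p.2) := by
        have := Real.pow_div_factorial_le_exp ((p.1 : ℝ) + p.2) (by positivity) 2
        rw [div_le_iff₀ (by positivity)] at this
        have h3 : ((Nat.factorial 2 : ℕ) : ℝ) = 2 := by norm_num [Nat.factorial]
        rw [h3] at this
        linarith
      calc (Nm p.1 p.2 : ℝ) * Real.exp (-β * Nm p.1 p.2) ≤
            (2 * Real.exp ((p.1 : ℝ) + p.2)) *
              (Real.exp (-β) * Real.exp (-β * ((p.1 : ℝ) + p.2))) :=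
            mul_le_mul (h2.trans h3) h1 (Real.exp_pos _).le (by positivity)
        _ = (2 * Real.exp (-β)) *
              (Real.exp ((p.1 : ℝ) + p.2) * Real.exp (-β * ((p.1 : ℝ) + p.2))) := by ring
        _ = _ := by rw [exp_pow]
    calc ∑ p ∈ far K, (Nm p.1 p.2 : ℝ) * Real.exp (-β * Nm p.1 p.2) ≤
          ∑ p ∈ far K, (2 * Real.exp (-β)) * r ^ (p.1 + p.2) := Finset.sum_le_sum hterm
      _ = (2 * Real.exp (-β)) * ∑ p ∈ far K, r ^ (p.1 + p.2) := by rw [Finset.mul_sum]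
      _ ≤ (2 * Real.exp (-β)) * (4 * r) :=
          mul_le_mul_of_nonneg_left (sum_le hr0.le hr2 K) (by positivity)
      _ = Real.exp (-β) * (2 * (4 * r)) := by ring
      _ ≤ Real.exp (-β) * (1 / β) := mul_le_mul_of_nonneg_left hr8 (Real.exp_pos _).le
      _ = Real.exp (-β) / β := by ring

end Pool.Agent.J4.H83.SG
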