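import Pool.Agent.J4.H83.SG.Defs

/-!
# The number of bonds which are not good of level `k`
-/

set_option autoImplicit false

open MeasureTheory Set

namespace Pool.Agent.J4.H83.SG

open Pool.Agent.J4.H83.FV Pool.Agent.J4.H83.HD Pool.Agent.J4.H83.OO

namespace Cnt

open Classical in
/-- the indicator function of the particles with a bad particle nearby -/
noncomputable def gi {N : ℕ} (τ A : ℝ) (x : Fin N → ℂ) (d : ℝ) (i : Fin N) : ℝ :=
  if Dw τ A x d i then 0 else 1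

lemma gi_nonneg {N : ℕ} (τ A : ℝ) (x : Fin N → ℂ) (d : ℝ) (i : Fin N) : 0 ≤ gi τ A x d i := by
  unfold gi
  split_ifs <;> norm_num

open Classical in
lemma gi_sum {N : ℕ} {x : Fin N → ℂ} (hx : Sep x) (τ A c₀ : ℝ) (k : ℕ) :
    ∑ i, gi τ A x (c₀ / (k : ℝ) ^ 2) i ≤ 13 * ((bad τ A c₀ x k).card : ℝ) := by
  have h1 : ∀ i, gi τ A x (c₀ / (k : ℝ) ^ 2) i ≤ (if i ∈ bad τ A c₀ x k then (1 : ℝ) else 0) +
      ∑ j ∈ bad τ A c₀ x k, if i ∈ Nbr x j then (1 : ℝ) else 0 := by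
    intro i
    have h0 : 0 ≤ ∑ j ∈ bad τ A c₀ x k, if i ∈ Nbr x j then (1 : ℝ) else 0 :=
      Finset.sum_nonneg fun j _ => by split_ifs <;> norm_num
    have h0' : (0 : ℝ) ≤ if i ∈ bad τ A c₀ x k then (1 : ℝ) else 0 := by
      split_ifs <;> norm_num
    unfold gi
    by_cases h2 : Dw τ A x (c₀ / (k : ℝ) ^ 2) i
    · rw [if_pos h2]
      linarith
    rw [if_neg h2]
    by_cases h3 : i ∈ bad τ A c₀ x k
    · rw [if_pos h3]
      linarith
    · rw [if_neg h3]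
      have h4 : Dv τ A x (c₀ / (k : ℝ) ^ 2) i := by
        by_contra h5
        exact h3 (Finset.mem_filter.2 ⟨Finset.mem_univ _, h5⟩)
      have h5 : ∃ j ∈ Nbr x i, ¬ Dv τ A x (c₀ / (k : ℝ) ^ 2) j := by
        by_contra h6
        push Not at h6
        exact h2 ⟨h4, h6⟩
      obtain ⟨j, hj, hj'⟩ := h5
      have h6 : j ∈ bad τ A c₀ x k := Finset.mem_filter.2 ⟨Finset.mem_univ _, hj'⟩
      have h7 := Finset.single_le_sum (f := fun j => if i ∈ Nbr x j then (1 : ℝ) else 0)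
        (fun j _ => by split_ifs <;> norm_num) h6
      rw [if_pos (CountO.nbr_symm hj)] at h7
      linarith
  calc ∑ i, gi τ A x (c₀ / (k : ℝ) ^ 2) i
      ≤ ∑ i, ((if i ∈ bad τ A c₀ x k then (1 : ℝ) else 0) +
        ∑ j ∈ bad τ A c₀ x k, if i ∈ Nbr x j then (1 : ℝ) else 0) :=
        Finset.sum_le_sum fun i _ => h1 i
    _ = ((bad τ A c₀ x k).card : ℝ) + ∑ j ∈ bad τ A c₀ x k, ((Nbr x j).card : ℝ) := by
        rw [Finset.sum_add_distrib, Finset.sum_comm]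
        congr 1
        · rw [Finset.sum_ite_mem, Finset.univ_inter, Finset.sum_const, nsmul_eq_mul, mul_one]
        · refine Finset.sum_congr rfl fun j _ => ?_
          rw [Finset.sum_ite_mem, Finset.univ_inter, Finset.sum_const, nsmul_eq_mul, mul_one]
    _ ≤ ((bad τ A c₀ x k).card : ℝ) + ∑ j ∈ bad τ A c₀ x k, (12 : ℝ) := by
        refine add_le_add le_rfl (Finset.sum_le_sum fun j _ => ?_)
        exact_mod_cast CountO.nbr_card' hx j
    _ = 13 * ((bad τ A c₀ x k).card : ℝ) := by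
        rw [Finset.sum_const, nsmul_eq_mul]
        ring

end Cnt

open Cnt in
theorem cnt {N : ℕ} {x : Fin N → ℂ} (hx : Sep x) {τ C A c₀ : ℝ}
    {ρ : Equiv.Perm (Fin N × Fin N)} (hρ : IsRot x τ C ρ) (k : ℕ) :
    ((Bd x \ Gk τ A c₀ x ρ k).card : ℝ) ≤ 156 * (2 * k + 1) ^ 2 * ((bad τ A c₀ x k).card : ℝ) := by
  classical
  obtain ⟨g, hg⟩ : ∃ g : Fin N → ℝ, g = gi τ A x (c₀ / (k : ℝ) ^ 2) := ⟨_, rfl⟩
  have hg0 : ∀ i, 0 ≤ g i := fun i => by rw [hg]; exact gi_nonneg _ _ _ _ _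
  have h1 : ∀ γ ∈ Bd x \ Gk τ A c₀ x ρ k, (1 : ℝ) ≤
      ∑ m ∈ Finset.range (2 * k + 1), ∑ n ∈ Finset.range (2 * k + 1),
        g ((fw ρ ^ m) ((up ρ ^ n) γ)).1 := by
    intro γ hγ
    rw [Finset.mem_sdiff] at hγ
    obtain ⟨hγ1, hγ2⟩ := hγ
    have h2 : ∃ m ≤ 2 * k, ∃ n ≤ 2 * k, ¬ Dw τ A x (c₀ / (k : ℝ) ^ 2) (act ρ m n γ).1 := by
      by_contra h3
      push Not at h3
      apply hγ2
      unfold Gk
      rw [Finset.mem_filter]
      exact ⟨hγ1, h3⟩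
    obtain ⟨m, hm, n, hn, h3⟩ := h2
    have h4 : g ((fw ρ ^ m) ((up ρ ^ n) γ)).1 = 1 := by
      rw [hg]
      unfold gi
      rw [if_neg]
      exact h3
    have h5 := Finset.single_le_sum (s := Finset.range (2 * k + 1))
      (f := fun n => g ((fw ρ ^ m) ((up ρ ^ n) γ)).1) (fun n _ => hg0 _)
      (Finset.mem_range.2 (by omega : n < 2 * k + 1))
    have h6 := Finset.single_le_sum (s := Finset.range (2 * k + 1))
      (f := fun m => ∑ n ∈ Finset.range (2 * k + 1), g ((fw ρ ^ m) ((up ρ ^ n) γ)).1)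
      (fun m _ => Finset.sum_nonneg fun n _ => hg0 _)
      (Finset.mem_range.2 (by omega : m < 2 * k + 1))
    linarith
  have h2 : ((Bd x \ Gk τ A c₀ x ρ k).card : ℝ) ≤
      ∑ γ ∈ Bd x, ∑ m ∈ Finset.range (2 * k + 1), ∑ n ∈ Finset.range (2 * k + 1),
        g ((fw ρ ^ m) ((up ρ ^ n) γ)).1 := by
    calc ((Bd x \ Gk τ A c₀ x ρ k).card : ℝ) = ∑ γ ∈ Bd x \ Gk τ A c₀ x ρ k, (1 : ℝ) := by
          rw [Finset.sum_const, nsmul_eq_mul, mul_one]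
      _ ≤ ∑ γ ∈ Bd x \ Gk τ A c₀ x ρ k, ∑ m ∈ Finset.range (2 * k + 1),
          ∑ n ∈ Finset.range (2 * k + 1), g ((fw ρ ^ m) ((up ρ ^ n) γ)).1 :=
          Finset.sum_le_sum h1
      _ ≤ _ := Finset.sum_le_sum_of_subset_of_nonneg Finset.sdiff_subset fun γ _ _ =>
          Finset.sum_nonneg fun m _ => Finset.sum_nonneg fun n _ => hg0 _
  have h3 : ∑ γ ∈ Bd x, ∑ m ∈ Finset.range (2 * k + 1), ∑ n ∈ Finset.range (2 * k + 1),
        g ((fw ρ ^ m) ((up ρ ^ n) γ)).1 =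
      ∑ m ∈ Finset.range (2 * k + 1), ∑ n ∈ Finset.range (2 * k + 1), ∑ γ ∈ Bd x,
        g ((fw ρ ^ m) ((up ρ ^ n) γ)).1 := by
    rw [Finset.sum_comm]
    refine Finset.sum_congr rfl fun m _ => ?_
    rw [Finset.sum_comm]
  have h4 : ∑ m ∈ Finset.range (2 * k + 1), ∑ n ∈ Finset.range (2 * k + 1), ∑ γ ∈ Bd x,
        g ((fw ρ ^ m) ((up ρ ^ n) γ)).1 ≤
      ∑ m ∈ Finset.range (2 * k + 1), ∑ n ∈ Finset.range (2 * k + 1), 12 * ∑ i, g i :=
    Finset.sum_le_sum fun m _ => Finset.sum_le_sum fun n _ => CountO.sum_shift hx hρ g hg0 m n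
  have h5 : ∑ m ∈ Finset.range (2 * k + 1), ∑ n ∈ Finset.range (2 * k + 1), 12 * ∑ i, g i =
      (2 * (k : ℝ) + 1) ^ 2 * (12 * ∑ i, g i) := by
    rw [Finset.sum_const, Finset.sum_const, Finset.card_range, nsmul_eq_mul, nsmul_eq_mul]
    push_cast
    ring
  have h6 : ∑ i, g i ≤ 13 * ((bad τ A c₀ x k).card : ℝ) := by
    rw [hg]
    exact gi_sum hx τ A c₀ k
  have h7 : 0 ≤ (2 * (k : ℝ) + 1) ^ 2 := by positivity
  calc ((Bd x \ Gk τ A c₀ x ρ k).card : ℝ) ≤ (2 * (k : ℝ) + 1) ^ 2 * (12 * ∑ i, g i) := by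
        linarith
    _ ≤ (2 * (k : ℝ) + 1) ^ 2 * (12 * (13 * ((bad τ A c₀ x k).card : ℝ))) :=
        mul_le_mul_of_nonneg_left (by linarith) h7
    _ = 156 * (2 * k + 1) ^ 2 * ((bad τ A c₀ x k).card : ℝ) := by ring

end Pool.Agent.J4.H83.SG
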