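import Pool.Agent.J4.H83.SG.Defs

/-!
# The local inequality for steep Gaussians
-/

set_option autoImplicit false

open MeasureTheory Set Filter Topology

namespace Pool.Agent.J4.H83.SG

open Pool.Agent.J4.H83.FV Pool.Agent.J4.H83.HD Pool.Agent.J4.H83.OO

namespace LocAux

lemma exp_gap (y : ℝ) : min (y ^ 2) |y| / 4 ≤ Real.exp (-y) - 1 + y := by
  rcases le_total y 2 with h | h
  · have h1 : 1 - y / 2 ≤ Real.exp (-y / 2) := by
      have := Real.add_one_le_exp (-y / 2)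
      linarith
    have h2 : Real.exp (-y) = Real.exp (-y / 2) ^ 2 := by
      rw [← Real.exp_nat_mul]
      congr 1
      push_cast
      ring
    have h3 : (1 - y / 2) ^ 2 ≤ Real.exp (-y / 2) ^ 2 := by
      refine pow_le_pow_left₀ (by linarith) h1 2
    have h4 : min (y ^ 2) |y| ≤ y ^ 2 := min_le_left _ _
    rw [h2]
    nlinarith
  · have h4 : min (y ^ 2) |y| ≤ |y| := min_le_right _ _
    have h5 : |y| = y := abs_of_nonneg (by linarith)
    have := Real.exp_pos (-y)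
    have h6 : min (y ^ 2) |y| ≤ y := h4.trans h5.le
    linarith

/-- the inequality for one bond -/
lemma pt {β q s : ℝ} (hβ : 200 ≤ β) (hq : 0 ≤ q) (hq2 : q ≤ 1 / β) (hs : |s| ≤ 1 / 100) :
    1 + min ((β * (2 * s + s ^ 2)) ^ 2) |β * (2 * s + s ^ 2)| / 8 ≤
      Real.exp (-β * ((1 + s) ^ 2 - 1)) - β * q * ((1 + s) ^ 2 - 1) +
        β * (1 + q) * (2 * s - 4 * √3 * s ^ 2) := by
  set y := β * (2 * s + s ^ 2) with hy
  have hβ0 : 0 < β := by linarith
  have hs' := abs_le.1 hs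
  have e1 : -β * ((1 + s) ^ 2 - 1) = -y := by rw [hy]; ring
  have e2 : Real.exp (-y) - β * q * ((1 + s) ^ 2 - 1) + β * (1 + q) * (2 * s - 4 * √3 * s ^ 2) =
      (Real.exp (-y) - 1 + y) + 1 - (1 + 4 * √3) * (1 + q) * (β * s ^ 2) := by
    rw [hy]; ring
  rw [e1, e2]
  have h3 : √3 ≤ 1.7321 := by
    rw [Real.sqrt_le_left (by norm_num)]; norm_num
  have h30 : 0 ≤ √3 := Real.sqrt_nonneg _
  have hqs : q ≤ 1 / 200 := hq2.trans (one_div_le_one_div_of_le (by norm_num) hβ)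
  have hco : (1 + 4 * √3) * (1 + q) ≤ 7.97 := by
    have : (1 + 4 * √3) * (1 + q) ≤ (1 + 4 * 1.7321) * (1 + 1 / 200) := by
      refine mul_le_mul (by linarith) (by linarith) (by linarith) (by norm_num)
    refine this.trans (by norm_num)
  have hbs : 0 ≤ β * s ^ 2 := by positivity
  have hb : (1 + 4 * √3) * (1 + q) * (β * s ^ 2) ≤ 7.97 * (β * s ^ 2) :=
    mul_le_mul_of_nonneg_right hco hbs
  -- `β s² ≤ y² / (3.96 β)`
  have hy2 : 3.96 * β * (β * s ^ 2) ≤ y ^ 2 := by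
    have : y ^ 2 = β ^ 2 * s ^ 2 * (2 + s) ^ 2 := by rw [hy]; ring
    rw [this]
    have h2s : 3.96 ≤ (2 + s) ^ 2 := by nlinarith
    have : 0 ≤ β ^ 2 * s ^ 2 := by positivity
    nlinarith
  have hya : |y| = β * |s| * (2 + s) := by
    have : y = β * s * (2 + s) := by rw [hy]; ring
    rw [this, abs_mul, abs_mul, abs_of_pos hβ0, abs_of_pos (by linarith : 0 < 2 + s)]
  have hyb : 7.97 * (β * s ^ 2) ≤ 0.05 * |y| := by
    rw [hya]
    have hs2 : s ^ 2 = |s| * |s| := by rw [← abs_mul, ← sq, abs_of_nonneg (sq_nonneg s)]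
    rw [hs2]
    have h0 : 0 ≤ β * |s| := by positivity
    have h1 : 7.97 * |s| ≤ 0.05 * (2 + s) := by nlinarith [abs_nonneg s]
    nlinarith
  have hyc : 7.97 * (β * s ^ 2) ≤ 0.02 * y ^ 2 := by
    have : 7.97 * (β * s ^ 2) ≤ 0.02 * (3.96 * β * (β * s ^ 2)) := by
      nlinarith
    linarith
  have hmin : 7.97 * (β * s ^ 2) ≤ min (y ^ 2) |y| / 8 := by
    rcases min_choice (y ^ 2) |y| with h | h <;> rw [h]
    · nlinarith [sq_nonneg y]
    · nlinarith [abs_nonneg y]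
  have hg := exp_gap y
  linarith

/-- a bond of the wrong length -/
lemma pt' {β s d : ℝ} (hβ : 200 ≤ β) (hs : |s| ≤ 1 / 100) (hd : 0 ≤ d) (hd1 : d ≤ 1)
    (h : d < |s|) : β * d ^ 2 ≤ min ((β * (2 * s + s ^ 2)) ^ 2) |β * (2 * s + s ^ 2)| := by
  have hβ0 : 0 < β := by linarith
  have hs' := abs_le.1 hs
  have hya : |β * (2 * s + s ^ 2)| = β * |s| * (2 + s) := by
    have : β * (2 * s + s ^ 2) = β * s * (2 + s) := by ring
    rw [this, abs_mul, abs_mul, abs_of_pos hβ0, abs_of_pos (by linarith : 0 < 2 + s)]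
  have h1 : β * d ≤ |β * (2 * s + s ^ 2)| := by
    rw [hya]
    have : β * d ≤ β * |s| := mul_le_mul_of_nonneg_left h.le hβ0.le
    have h2 : 0 ≤ β * |s| := by positivity
    nlinarith
  have hbd : 0 ≤ β * d := by positivity
  refine le_min ?_ ?_
  · rw [← sq_abs (β * (2 * s + s ^ 2))]
    have h3 : (β * d) ^ 2 ≤ |β * (2 * s + s ^ 2)| ^ 2 := pow_le_pow_left₀ hbd h1 2
    have h4 : β * d ^ 2 ≤ (β * d) ^ 2 := by
      rw [mul_pow]
      have : β ≤ β ^ 2 := by nlinarith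
      nlinarith [sq_nonneg d]
    linarith
  · have : β * d ^ 2 ≤ β * d := by nlinarith
    linarith

end LocAux

open LocAux

open Classical in
/-- the local inequality, with the bound for the caps and the area of the cell as hypotheses -/
theorem loc_of
    (hcap : ∀ {v : ℂ}, 98 / 100 ≤ ‖v‖ → ‖v‖ ≤ 103 / 100 →
      aC v ≤ (Real.pi / 6 - √3 / 4) / 3 - (‖v‖ - 1) / (2 * √3) + (‖v‖ - 1) ^ 2)
    (hbad : ∀ {N : ℕ} (x : Fin N → ℂ) (A : ℝ) (i : Fin N), 1 ≤ A →
      (√3 / 2 + ex x i) / A ^ 2 ≤ vA A x i)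
    (τ : ℝ) (hτ : 0 < τ) (τ₁ η₁ : ℝ) (hη₁ : 0 < η₁) (hττ₁ : τ ≤ τ₁)
    (harea : ∀ (N : ℕ) (x : Fin N → ℂ), Sep x →
      ∀ (A : ℝ) (i : Fin N), 1 ≤ A → A ≤ 1 + η₁ → ex x i ≤ τ₁ →
        (Nbr x i).card = 6 ∧ (∀ j ∈ Nbr x i, ‖x j - x i‖ ≤ 101 / 100) ∧
        Real.pi / 3 - ∑ j ∈ Nbr x i, aC ((x j - x i) / (A : ℂ)) ≤ vA A x i) :
    ∃ η₀ : ℝ, 0 < η₀ ∧ ∃ β₀ : ℝ, 1 ≤ β₀ ∧ ∃ c : ℝ, 0 < c ∧ ∀ (β A q : ℝ) (N : ℕ) (x : Fin N → ℂ)
      (i : Fin N), β₀ ≤ β → 1 ≤ A → A ≤ 1 + η₀ → 0 ≤ q → q ≤ 1 / β → Sep x →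
      ∀ d : ℝ, 0 ≤ d → d ≤ 1 →
        6 + 6 * β * (1 + q) + (if Dv τ A x d i then 0 else c * β * d ^ 2) ≤
          (if ex x i ≤ τ then ∑ j ∈ Nbr x i, (Real.exp (-β * ((‖x j - x i‖ / A) ^ 2 - 1)) -
            β * q * ((‖x j - x i‖ / A) ^ 2 - 1)) else 0) + 4 * √3 * β * (1 + q) * vA A x i := by
  have h30 : 0 < √3 := Real.sqrt_pos.2 (by norm_num)
  have h33 : √3 * √3 = 3 := Real.mul_self_sqrt (by norm_num)
  have h3l : 1.7 ≤ √3 := by
    apply Real.le_sqrt_of_sq_le; norm_num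
  have h3u : √3 ≤ 1.7321 := by
    rw [Real.sqrt_le_left (by norm_num)]; norm_num
  -- choice of the constants
  set σ : ℝ := min τ 1 with hσ
  have hσ0 : 0 < σ := lt_min hτ one_pos
  have hσ1 : σ ≤ 1 := min_le_right _ _
  have hστ : σ ≤ τ := min_le_left _ _
  refine ⟨min η₁ (σ / 100), lt_min hη₁ (by positivity), max 200 (6 / σ), by
    exact le_trans (by norm_num) (le_max_left _ _), min (1 / 8) σ, lt_min (by norm_num) hσ0, ?_⟩
  intro β A q N x i hβ hA hA2 hq hq2 hx d hd hd1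
  have hβ200 : 200 ≤ β := (le_max_left _ _).trans hβ
  have hβσ : 6 ≤ β * σ := by
    have : 6 / σ ≤ β := (le_max_right _ _).trans hβ
    rwa [div_le_iff₀ hσ0] at this
  have hβ0 : 0 < β := by linarith
  have hA0 : 0 < A := by linarith
  have hAη : A ≤ 1 + η₁ := hA2.trans (by linarith [min_le_left η₁ (σ / 100)])
  have hAσ : A ≤ 1 + σ / 100 := hA2.trans (by linarith [min_le_right η₁ (σ / 100)])
  have hc8 : min (1 / 8) σ ≤ 1 / 8 := min_le_left _ _
  have hcσ : min (1 / 8) σ ≤ σ := min_le_right _ _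
  have hd2 : 0 ≤ β * d ^ 2 := by positivity
  by_cases hex : ex x i ≤ τ
  · rw [if_pos hex]
    obtain ⟨hcard, hlen, har⟩ := harea N x hx A i hA hAη (hex.trans hττ₁)
    -- the numbers `s j`
    have hnorm : ∀ j, ‖(x j - x i) / (A : ℂ)‖ = ‖x j - x i‖ / A := by
      intro j
      rw [norm_div, Complex.norm_real, Real.norm_of_nonneg hA0.le]
    have ht1 : ∀ j ∈ Nbr x i, |‖x j - x i‖ / A - 1| ≤ 1 / 100 := by
      intro j hj
      have hj' : j ≠ i := by
        simp only [Nbr, Finset.mem_filter] at hj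
        exact hj.2.1
      have h1 : 1 ≤ ‖x j - x i‖ := hx j i hj'
      have h2 := hlen j hj
      rw [abs_le]
      constructor
      · have : 1 / A ≤ ‖x j - x i‖ / A := div_le_div_of_nonneg_right h1 hA0.le
        have h3 : 1 - 1 / 100 ≤ 1 / A := by
          rw [le_div_iff₀ hA0]
          nlinarith
        linarith
      · have : ‖x j - x i‖ / A ≤ ‖x j - x i‖ := div_le_self (norm_nonneg _) hA
        linarith
    have hcaps : ∀ j ∈ Nbr x i, aC ((x j - x i) / (A : ℂ)) ≤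
        (Real.pi / 6 - √3 / 4) / 3 - (‖x j - x i‖ / A - 1) / (2 * √3) +
          (‖x j - x i‖ / A - 1) ^ 2 := by
      intro j hj
      have h1 := abs_le.1 (ht1 j hj)
      have := hcap (v := (x j - x i) / (A : ℂ)) (by rw [hnorm]; linarith) (by rw [hnorm]; linarith)
      rwa [hnorm] at this
    have hsum := Finset.sum_le_sum hcaps
    have hv : √3 / 2 + ∑ j ∈ Nbr x i, ((‖x j - x i‖ / A - 1) / (2 * √3) -
        (‖x j - x i‖ / A - 1) ^ 2) ≤ vA A x i := by
      refine le_trans ?_ har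
      have e1 : ∑ j ∈ Nbr x i, ((Real.pi / 6 - √3 / 4) / 3 - (‖x j - x i‖ / A - 1) / (2 * √3) +
          (‖x j - x i‖ / A - 1) ^ 2) = 2 * (Real.pi / 6 - √3 / 4) -
          ∑ j ∈ Nbr x i, ((‖x j - x i‖ / A - 1) / (2 * √3) - (‖x j - x i‖ / A - 1) ^ 2) := by
        rw [Finset.sum_congr rfl (fun j _ => show (Real.pi / 6 - √3 / 4) / 3 -
          (‖x j - x i‖ / A - 1) / (2 * √3) + (‖x j - x i‖ / A - 1) ^ 2 =
          (Real.pi / 6 - √3 / 4) / 3 - ((‖x j - x i‖ / A - 1) / (2 * √3) -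
          (‖x j - x i‖ / A - 1) ^ 2) by ring), Finset.sum_sub_distrib, Finset.sum_const, hcard]
        simp only [nsmul_eq_mul]
        push_cast
        ring
      rw [e1] at hsum
      linarith
    have hK : 0 ≤ 4 * √3 * β * (1 + q) := by positivity
    have hv2 := mul_le_mul_of_nonneg_left hv hK
    have e2 : 4 * √3 * β * (1 + q) * (√3 / 2 + ∑ j ∈ Nbr x i, ((‖x j - x i‖ / A - 1) / (2 * √3) -
        (‖x j - x i‖ / A - 1) ^ 2)) = 6 * β * (1 + q) +
        ∑ j ∈ Nbr x i, β * (1 + q) * (2 * (‖x j - x i‖ / A - 1) -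
          4 * √3 * (‖x j - x i‖ / A - 1) ^ 2) := by
      rw [mul_add, Finset.mul_sum]
      congr 1
      · linear_combination (2 * β * (1 + q)) * h33
      · refine Finset.sum_congr rfl fun j _ => ?_
        field_simp
        ring
    rw [e2] at hv2
    have hpt : ∀ j ∈ Nbr x i, 1 + min ((β * (2 * (‖x j - x i‖ / A - 1) +
        (‖x j - x i‖ / A - 1) ^ 2)) ^ 2) |β * (2 * (‖x j - x i‖ / A - 1) +
        (‖x j - x i‖ / A - 1) ^ 2)| / 8 ≤
        (Real.exp (-β * ((‖x j - x i‖ / A) ^ 2 - 1)) - β * q * ((‖x j - x i‖ / A) ^ 2 - 1)) +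
        β * (1 + q) * (2 * (‖x j - x i‖ / A - 1) - 4 * √3 * (‖x j - x i‖ / A - 1) ^ 2) := by
      intro j hj
      have := pt hβ200 hq hq2 (ht1 j hj)
      simpa only [add_sub_cancel] using this
    have hmain := Finset.sum_le_sum hpt
    rw [Finset.sum_add_distrib, Finset.sum_add_distrib, Finset.sum_const, hcard,
      nsmul_eq_mul] at hmain
    have hminpos : ∀ j ∈ Nbr x i, 0 ≤ min ((β * (2 * (‖x j - x i‖ / A - 1) +
        (‖x j - x i‖ / A - 1) ^ 2)) ^ 2) |β * (2 * (‖x j - x i‖ / A - 1) +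
        (‖x j - x i‖ / A - 1) ^ 2)| / 8 := by
      intro j _
      have : 0 ≤ min ((β * (2 * (‖x j - x i‖ / A - 1) +
        (‖x j - x i‖ / A - 1) ^ 2)) ^ 2) |β * (2 * (‖x j - x i‖ / A - 1) +
        (‖x j - x i‖ / A - 1) ^ 2)| := le_min (sq_nonneg _) (abs_nonneg _)
      linarith
    have hdv : (if Dv τ A x d i then 0 else min (1 / 8) σ * β * d ^ 2) ≤
        ∑ j ∈ Nbr x i, min ((β * (2 * (‖x j - x i‖ / A - 1) +
        (‖x j - x i‖ / A - 1) ^ 2)) ^ 2) |β * (2 * (‖x j - x i‖ / A - 1) +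
        (‖x j - x i‖ / A - 1) ^ 2)| / 8 := by
      split_ifs with hD
      · exact Finset.sum_nonneg hminpos
      · have : ∃ j ∈ Nbr x i, d < |‖x j - x i‖ / A - 1| := by
          by_contra hcon
          push Not at hcon
          exact hD ⟨hex, hcon⟩
        obtain ⟨j, hj, hjd⟩ := this
        have h1 := pt' hβ200 (ht1 j hj) hd hd1 hjd
        have h2 := Finset.single_le_sum hminpos hj
        have h3 : min (1 / 8) σ * β * d ^ 2 ≤ 1 / 8 * (β * d ^ 2) := by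
          rw [mul_assoc]
          exact mul_le_mul_of_nonneg_right hc8 hd2
        linarith
    push_cast at hmain
    linarith
  · rw [if_neg hex]
    push Not at hex
    have hb := hbad x A i hA
    have hK : 0 ≤ 4 * √3 * β * (1 + q) := by positivity
    have h1 : (√3 / 2 + τ) / A ^ 2 ≤ vA A x i := by
      refine le_trans ?_ hb
      exact div_le_div_of_nonneg_right (by linarith) (by positivity)
    have h1σ : (√3 / 2 + σ) / A ^ 2 ≤ vA A x i := by
      refine le_trans ?_ h1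
      exact div_le_div_of_nonneg_right (by linarith) (by positivity)
    -- `(√3 / 2 + σ) / A² ≥ √3 / 2 + 3 σ / 4`
    have h2 : √3 / 2 + 3 * σ / 4 ≤ (√3 / 2 + σ) / A ^ 2 := by
      rw [le_div_iff₀ (by positivity)]
      have hA3 : A ^ 2 ≤ 1 + 3 * σ / 100 := by nlinarith
      have : (√3 / 2 + 3 * σ / 4) * A ^ 2 ≤ (√3 / 2 + 3 * σ / 4) * (1 + 3 * σ / 100) :=
        mul_le_mul_of_nonneg_left hA3 (by positivity)
      nlinarith
    have h3 := mul_le_mul_of_nonneg_left (h2.trans h1σ) hK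
    have h4 : 6 * β * (1 + q) + 5 * σ * β ≤ 4 * √3 * β * (1 + q) * (√3 / 2 + 3 * σ / 4) := by
      have e : 4 * √3 * β * (1 + q) * (√3 / 2 + 3 * σ / 4) =
          2 * β * (1 + q) * (√3 * √3) + 3 * σ * √3 * β * (1 + q) := by ring
      rw [e, h33]
      have : 5 * (σ * β) ≤ 3 * √3 * (σ * β) := by nlinarith [mul_pos hσ0 hβ0]
      have h5 : 3 * √3 * (σ * β) ≤ 3 * √3 * (σ * β) * (1 + q) := by
        have : 0 ≤ 3 * √3 * (σ * β) := by positivity
        nlinarith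
      nlinarith
    have h5 : (if Dv τ A x d i then 0 else min (1 / 8) σ * β * d ^ 2) ≤ σ * β := by
      have hd3 : d ^ 2 ≤ 1 := by nlinarith
      split_ifs with hD
      · positivity
      · have : min (1 / 8) σ * β * d ^ 2 ≤ σ * β * 1 := by
          refine mul_le_mul (mul_le_mul_of_nonneg_right hcσ hβ0.le) hd3 (sq_nonneg _)
            (by positivity)
        linarith
    nlinarith

end Pool.Agent.J4.H83.SG
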