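import Pool.Agent.J4.H83.SG.RotD
import Pool.Agent.J4.H83.OO.Comm

/-!
# Positions of the translates of a bond
-/

set_option autoImplicit false

open MeasureTheory Set

namespace Pool.Agent.J4.H83.SG

open Pool.Agent.J4.H83.FV Pool.Agent.J4.H83.HD Pool.Agent.J4.H83.OO

namespace Pos

variable {N : ℕ}

lemma act_succ (ρ : Equiv.Perm (Fin N × Fin N)) (m n : ℕ) (γ : Fin N × Fin N) :
    act ρ (m + 1) n γ = fw ρ (act ρ m n γ) := by
  unfold act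
  rw [pow_succ', mul_assoc, Equiv.Perm.mul_apply]

lemma act_zero_succ (ρ : Equiv.Perm (Fin N × Fin N)) (n : ℕ) (γ : Fin N × Fin N) :
    act ρ 0 (n + 1) γ = up ρ (act ρ 0 n γ) := by
  unfold act
  rw [pow_zero, one_mul, one_mul, pow_succ', Equiv.Perm.mul_apply]

lemma act_zero_zero (ρ : Equiv.Perm (Fin N × Fin N)) (γ : Fin N × Fin N) :
    act ρ 0 0 γ = γ := by
  unfold act
  rw [pow_zero, pow_zero, one_mul, Equiv.Perm.one_apply]

lemma fw_fst {x : Fin N → ℂ} {τ C : ℝ} {ρ : Equiv.Perm (Fin N × Fin N)} (hρ : IsRot x τ C ρ)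
    (γ : Fin N × Fin N) : (fw ρ γ).1 = γ.2 := by
  rw [Comm.fw_apply, hρ.fst, hρ.fst, hρ.fst]
  rfl

lemma up_fst {x : Fin N → ℂ} {τ C : ℝ} {ρ : Equiv.Perm (Fin N × Fin N)} (hρ : IsRot x τ C ρ)
    (γ : Fin N × Fin N) : (up ρ γ).1 = (ρ γ).2 := by
  rw [Comm.up_apply, hρ.fst, hρ.fst]
  rfl

lemma act_snd {x : Fin N → ℂ} {τ C : ℝ} {ρ : Equiv.Perm (Fin N × Fin N)} (hρ : IsRot x τ C ρ)
    (m n : ℕ) (γ : Fin N × Fin N) : (act ρ m n γ).2 = (act ρ (m + 1) n γ).1 := by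
  rw [act_succ, fw_fst hρ]

lemma mem_Gk {x : Fin N → ℂ} {τ A c₀ : ℝ} {ρ : Equiv.Perm (Fin N × Fin N)} {k : ℕ}
    {γ : Fin N × Fin N} (hγ : γ ∈ Gk τ A c₀ x ρ k) : γ ∈ Bd x ∧ ∀ m ≤ 2 * k, ∀ n ≤ 2 * k,
      Dw τ A x (c₀ / (k : ℝ) ^ 2) (act ρ m n γ).1 := by
  classical
  unfold Gk at hγ
  rw [Finset.mem_filter] at hγ
  exact hγ

lemma d_le {k : ℕ} (hk : 1 ≤ k) : (1 / 1000 : ℝ) / (k : ℝ) ^ 2 ≤ 1 / 1000 := by
  have h1 : (1 : ℝ) ≤ (k : ℝ) ^ 2 := by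
    have : (1 : ℝ) ≤ k := by exact_mod_cast hk
    nlinarith
  exact div_le_self (by norm_num) h1

/-- the bound of `pos` with a smaller constant -/
theorem main {x : Fin N → ℂ} (hx : Sep x) {τ C A d : ℝ} (hC : 1 ≤ C)
    (hCτ : C * τ ≤ 1 / 100) (hA : 1 ≤ A) (hA2 : A ≤ 1001 / 1000) (hd : 0 ≤ d) (hd2 : d ≤ 1 / 1000)
    {ρ : Equiv.Perm (Fin N × Fin N)} (hex0 : ∀ i, 0 ≤ ex x i) (hρ : IsRot x τ C ρ) {K : ℕ}
    {γ : Fin N × Fin N} (hγ : γ ∈ Bd x)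
    (hD : ∀ m ≤ K, ∀ n ≤ K, Dw τ A x d (act ρ m n γ).1) (n : ℕ) (hn : n ≤ K) :
    ∀ m ≤ K, act ρ m n γ ∈ Bd x ∧
      ‖bv x (act ρ m n γ) - bv x γ‖ ≤ 12 * (m + n) * d * A ∧
      ‖Xv x ρ m n γ - ((m : ℂ) + n * ze) * bv x γ‖ ≤ 6 * (m + n) ^ 2 * d * A := by
  have hdA : 0 ≤ d * A := mul_nonneg hd (by linarith)
  -- the steps upwards
  have hup : ∀ n ≤ K, act ρ 0 n γ ∈ Bd x ∧
      ‖bv x (act ρ 0 n γ) - bv x γ‖ ≤ 12 * n * (d * A) ∧
      ‖Xv x ρ 0 n γ - (n * ze) * bv x γ‖ ≤ 6 * (n : ℝ) ^ 2 * (d * A) := by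
    intro n
    induction n with
    | zero =>
      intro _
      unfold Xv
      rw [act_zero_zero]
      refine ⟨hγ, ?_, ?_⟩ <;> simp
    | succ n ih =>
      intro hn
      obtain ⟨i1, i2, i3⟩ := ih (by omega)
      have hD1 := hD 0 (Nat.zero_le _) n (by omega)
      have hD2 := hD 0 (Nat.zero_le _) (n + 1) hn
      rw [act_zero_succ] at hD2
      obtain ⟨u1, u2, u3⟩ := up_dev hx hC hCτ hA hA2 hd hd2 hex0 hρ i1 hD1 hD2
      obtain ⟨r1, -, -⟩ := rot_dev hx hC hCτ hA hA2 hd hd2 hex0 hρ i1 hD1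
      rw [act_zero_succ]
      refine ⟨u1, ?_, ?_⟩
      · have e : bv x (up ρ (act ρ 0 n γ)) - bv x γ = (bv x (up ρ (act ρ 0 n γ)) -
            bv x (act ρ 0 n γ)) + (bv x (act ρ 0 n γ) - bv x γ) := by ring
        rw [e]
        refine (norm_add_le _ _).trans ?_
        push_cast
        linarith
      · have e : Xv x ρ 0 (n + 1) γ - (((n + 1 : ℕ) : ℂ) * ze) * bv x γ =
            (Xv x ρ 0 n γ - (n * ze) * bv x γ) +
            (bv x (ρ (act ρ 0 n γ)) - ze * bv x (act ρ 0 n γ)) +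
            ze * (bv x (act ρ 0 n γ) - bv x γ) := by
          have e1 : Xv x ρ 0 (n + 1) γ = Xv x ρ 0 n γ + bv x (ρ (act ρ 0 n γ)) := by
            unfold Xv bv
            rw [act_zero_succ, up_fst hρ, hρ.fst]
            ring
          rw [e1]
          push_cast
          ring
        rw [e]
        refine (norm_add₃_le).trans ?_
        rw [norm_mul, Comm.ze_norm, one_mul]
        have h4 : 4 * d * A = 4 * (d * A) := by ring
        rw [h4] at r1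
        push_cast
        nlinarith
  intro m
  induction m with
  | zero =>
    intro _
    obtain ⟨i1, i2, i3⟩ := hup n hn
    refine ⟨i1, ?_, ?_⟩
    · refine i2.trans (le_of_eq ?_)
      push_cast
      ring
    · have e : ((0 : ℕ) : ℂ) + n * ze = n * ze := by push_cast; ring
      rw [e]
      refine i3.trans (le_of_eq ?_)
      push_cast
      ring
  | succ m ih =>
    intro hm
    obtain ⟨i1, i2, i3⟩ := ih (by omega)
    have hD1 := hD (m + 1) hm n hn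
    rw [← act_snd hρ] at hD1
    obtain ⟨u1, u2, u3⟩ := fw_dev hx hC hCτ hA hA2 hd hd2 hex0 hρ i1 hD1
    rw [act_succ]
    refine ⟨u1, ?_, ?_⟩
    · have e : bv x (fw ρ (act ρ m n γ)) - bv x γ = (bv x (fw ρ (act ρ m n γ)) -
          bv x (act ρ m n γ)) + (bv x (act ρ m n γ) - bv x γ) := by ring
      rw [e]
      refine (norm_add_le _ _).trans ?_
      push_cast
      linarith
    · have e : Xv x ρ (m + 1) n γ - (((m + 1 : ℕ) : ℂ) + n * ze) * bv x γ =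
          (Xv x ρ m n γ - ((m : ℂ) + n * ze) * bv x γ) + (bv x (act ρ m n γ) - bv x γ) := by
        have e1 : Xv x ρ (m + 1) n γ = Xv x ρ m n γ + bv x (act ρ m n γ) := by
          unfold Xv bv
          rw [← act_snd hρ]
          ring
        rw [e1]
        push_cast
        ring
      rw [e]
      refine (norm_add_le _ _).trans ?_
      have h5 : 6 * ((m : ℝ) + n) ^ 2 * d * A + 12 * ((m : ℝ) + n) * d * A ≤
          6 * (((m + 1 : ℕ) : ℝ) + n) ^ 2 * d * A := by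
        push_cast
        nlinarith
      linarith

end Pos

open Pos in
theorem pos {N : ℕ} {x : Fin N → ℂ} (hx : Sep x) {τ C A : ℝ} (hC : 1 ≤ C)
    (hCτ : C * τ ≤ 1 / 100) (hA : 1 ≤ A) (hA2 : A ≤ 1001 / 1000)
    {ρ : Equiv.Perm (Fin N × Fin N)} (hex0 : ∀ i, 0 ≤ ex x i) (hρ : IsRot x τ C ρ) {k : ℕ}
    (hk : 1 ≤ k) {γ : Fin N × Fin N} (hγ : γ ∈ Gk τ A (1 / 1000) x ρ k) (m n : ℕ)
    (hm : m ≤ 2 * k) (hn : n ≤ 2 * k) :
    act ρ m n γ ∈ Bd x ∧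
      ‖bv x (act ρ m n γ) - bv x γ‖ ≤ 12 * (m + n) * (1 / 1000 / (k : ℝ) ^ 2) * A ∧
      ‖Xv x ρ m n γ - ((m : ℂ) + n * ze) * bv x γ‖ ≤
        12 * (m + n) ^ 2 * (1 / 1000 / (k : ℝ) ^ 2) * A := by
  obtain ⟨h1, h2⟩ := mem_Gk hγ
  have hd : (0 : ℝ) ≤ 1 / 1000 / (k : ℝ) ^ 2 := by positivity
  obtain ⟨i1, i2, i3⟩ := main hx hC hCτ hA hA2 hd (d_le hk) hex0 hρ h1 h2 n hn m hm
  refine ⟨i1, i2, i3.trans ?_⟩
  have h3 : 0 ≤ ((m : ℝ) + n) ^ 2 * (1 / 1000 / (k : ℝ) ^ 2) * A := by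
    have : 0 ≤ A := by linarith
    positivity
  linarith

open Pos in
theorem act_add {N : ℕ} {x : Fin N → ℂ} (hx : Sep x) {τ C A : ℝ} (hC : 1 ≤ C)
    (hCτ : C * τ ≤ 1 / 100) (hA : 1 ≤ A) (hA2 : A ≤ 1001 / 1000)
    {ρ : Equiv.Perm (Fin N × Fin N)} (hex0 : ∀ i, 0 ≤ ex x i) (hρ : IsRot x τ C ρ) {k : ℕ}
    (hk : 1 ≤ k) {γ : Fin N × Fin N} (hγ : γ ∈ Gk τ A (1 / 1000) x ρ k) (m n m' n' : ℕ)
    (hm : m + m' ≤ 2 * k) (hn : n + n' ≤ 2 * k) :
    act ρ m n (act ρ m' n' γ) = act ρ (m + m') (n + n') γ := by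
  obtain ⟨h1, h2⟩ := mem_Gk hγ
  have hex : ∀ a ≤ 2 * k, ∀ b ≤ 2 * k, ex x (act ρ a b γ).1 ≤ τ := fun a ha b hb =>
    (h2 a ha b hb).1.1
  -- one step upwards
  have hstep : ∀ b, b + 1 ≤ 2 * k → ∀ a ≤ 2 * k, up ρ (act ρ a b γ) = act ρ a (b + 1) γ := by
    intro b hb a
    induction a with
    | zero => intro _; rw [act_zero_succ]
    | succ a ih =>
      intro ha
      have i := ih (by omega)
      have hBd := (pos hx hC hCτ hA hA2 hex0 hρ hk hγ a b (by omega) (by omega)).1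
      rw [act_succ, act_succ, ← i]
      refine comm hx (by linarith) hCτ hρ hBd (hex a (by omega) b (by omega)) ?_ ?_ ?_
      · rw [act_snd hρ]
        exact hex (a + 1) ha b (by omega)
      · rw [i]
        exact hex a (by omega) (b + 1) hb
      · rw [i, act_snd hρ]
        exact hex (a + 1) ha (b + 1) hb
  have hups : ∀ c, n' + c ≤ 2 * k → (up ρ ^ c) (act ρ m' n' γ) = act ρ m' (n' + c) γ := by
    intro c
    induction c with
    | zero => intro _; rw [pow_zero, Equiv.Perm.one_apply, add_zero]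
    | succ c ih =>
      intro hc
      rw [pow_succ', Equiv.Perm.mul_apply, ih (by omega), hstep _ (by omega) _ (by omega)]
      rfl
  have h3 : act ρ m n (act ρ m' n' γ) = (fw ρ ^ m) ((up ρ ^ n) (act ρ m' n' γ)) := rfl
  rw [h3, hups n (by omega)]
  have h4 : act ρ m' (n' + n) γ = (fw ρ ^ m') ((up ρ ^ (n' + n)) γ) := rfl
  have h5 : act ρ (m + m') (n + n') γ = (fw ρ ^ (m + m')) ((up ρ ^ (n + n')) γ) := rfl
  rw [h4, h5, pow_add (fw ρ) m m', Equiv.Perm.mul_apply, add_comm n' n]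

end Pool.Agent.J4.H83.SG
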