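import Pool.Agent.J4.H83.SG.Area
import Pool.Agent.J4.H83.SG.Cap
import Pool.Agent.J4.H83.SG.Loc
import Pool.Agent.J4.H83.SG.Ch
import Pool.Agent.J4.H83.SG.Pos
import Pool.Agent.J4.H83.SG.RotD
import Pool.Agent.J4.H83.SG.Dist
import Pool.Agent.J4.H83.SG.Far
import Pool.Agent.J4.H83.OO.Rot

/-!
# Steep Gaussians: the pieces in the form in which they are used
-/

set_option autoImplicit false

open MeasureTheory Set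

namespace Pool.Agent.J4.H83.SG

open Pool.Agent.J4.H83.FV Pool.Agent.J4.H83.HD Pool.Agent.J4.H83.OO

open Classical in
theorem loc (τ : ℝ) (hτ : 0 < τ) (τ₁ η₁ : ℝ) (hη₁ : 0 < η₁) (hττ₁ : τ ≤ τ₁)
    (harea : ∀ (N : ℕ) (x : Fin N → ℂ), Sep x →
      ∀ (A : ℝ) (i : Fin N), 1 ≤ A → A ≤ 1 + η₁ → ex x i ≤ τ₁ →
        (Nbr x i).card = 6 ∧ (∀ j ∈ Nbr x i, ‖x j - x i‖ ≤ 101 / 100) ∧
        Real.pi / 3 - ∑ j ∈ Nbr x i, aC ((x j - x i) / (A : ℂ)) ≤ vA A x i) :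
    ∃ η₀ : ℝ, 0 < η₀ ∧ ∃ β₀ : ℝ, 1 ≤ β₀ ∧ ∃ c : ℝ, 0 < c ∧ ∀ (β A q : ℝ) (N : ℕ) (x : Fin N → ℂ)
      (i : Fin N), β₀ ≤ β → 1 ≤ A → A ≤ 1 + η₀ → 0 ≤ q → q ≤ 1 / β → Sep x →
      ∀ d : ℝ, 0 ≤ d → d ≤ 1 →
        6 + 6 * β * (1 + q) + (if Dv τ A x d i then 0 else c * β * d ^ 2) ≤
          (if ex x i ≤ τ then ∑ j ∈ Nbr x i, (Real.exp (-β * ((‖x j - x i‖ / A) ^ 2 - 1)) -
            β * q * ((‖x j - x i‖ / A) ^ 2 - 1)) else 0) + 4 * √3 * β * (1 + q) * vA A x i :=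
  loc_of cap_le (fun x A i h => area_bad x A i h) τ hτ τ₁ η₁ hη₁ hττ₁ harea

theorem en_ge {N : ℕ} {x : Fin N → ℂ} (hx : Sep x) {τ C A β : ℝ} (hC : 1 ≤ C)
    (hCτ : C * τ ≤ 1 / 100) (hA : 1 ≤ A) (hA2 : A ≤ 1001 / 1000)
    {ρ : Equiv.Perm (Fin N × Fin N)} (hex0 : ∀ i, 0 ≤ ex x i) (hρ : IsRot x τ C ρ) (K : ℕ) :
    ∑ γ ∈ Bg τ x, Real.exp (-β * (‖bv x γ‖ / A) ^ 2) +
      ∑ p ∈ far K, ∑ γ ∈ Gk τ A (1 / 1000) x ρ (p.1 + p.2),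
        Real.exp (-β * (‖Xv x ρ p.1 p.2 γ‖ / A) ^ 2) ≤ En β A x :=
  have h1 : Dist.S_rot := @rot_dev
  have h2 : Dist.S_pos := @pos
  Dist.en_ge_of h1 h2 hx hC hCτ hA hA2 hex0 hρ K

end Pool.Agent.J4.H83.SG
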