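import Pool.Agent.J4.H83.SG.DefsG

/-!
# Steep log-convex potentials: the numerical estimates for the far shells
-/

set_option autoImplicit false

open MeasureTheory Set Filter Topology

namespace Pool.Agent.J4.H83.SG

namespace ChG

theorem mem_far {K : ℕ} {p : ℕ × ℕ} (h : p ∈ far K) : 1 ≤ p.1 ∧ 2 ≤ p.1 + p.2 := by
  obtain ⟨h1, h2, -⟩ := Finset.mem_filter.1 h
  exact ⟨(Finset.mem_Icc.1 (Finset.mem_product.1 h1).1).1, h2⟩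

theorem Nm_three {m n : ℕ} (hm : 1 ≤ m) (h : 2 ≤ m + n) : 3 ≤ Nm m n := by
  unfold Nm
  rcases Nat.eq_zero_or_pos n with rfl | hn
  · have : 2 ≤ m := by omega
    nlinarith
  · nlinarith

theorem Nm_sq (m n : ℕ) : (m + n) ^ 2 ≤ 2 * Nm m n := by
  unfold Nm
  nlinarith [Nat.zero_le (m * n), Nat.zero_le (m ^ 2), Nat.zero_le (n ^ 2)]

/-- the power of a far vector -/
theorem pow_le {B : ℝ} (hB : 8 ≤ B) {K : ℕ} {p : ℕ × ℕ} (h : p ∈ far K) :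
    (Nm p.1 p.2 : ℝ) ^ (-B) ≤ (3 : ℝ) ^ (-(B - 8)) * (256 / ((p.1 : ℝ) + p.2) ^ 16) := by
  obtain ⟨h1, h2⟩ := mem_far h
  have h3 : (3 : ℝ) ≤ (Nm p.1 p.2 : ℝ) := by exact_mod_cast Nm_three h1 h2
  have h4 : ((p.1 : ℝ) + p.2) ^ 2 ≤ 2 * (Nm p.1 p.2 : ℝ) := by exact_mod_cast Nm_sq p.1 p.2
  obtain ⟨X, hX⟩ : ∃ X : ℝ, X = (Nm p.1 p.2 : ℝ) := ⟨_, rfl⟩
  obtain ⟨k, hk⟩ : ∃ k : ℝ, k = (p.1 : ℝ) + p.2 := ⟨_, rfl⟩
  rw [← hX] at h3 h4 ⊢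
  rw [← hk] at h4 ⊢
  have hk2 : 2 ≤ k := by rw [hk]; exact_mod_cast h2
  have hX0 : 0 < X := by linarith
  have e1 : X ^ (-B) = X ^ (-(B - 8)) * X ^ (-(8 : ℝ)) := by
    rw [← Real.rpow_add hX0]
    congr 1
    ring
  have e2 : X ^ (-(8 : ℝ)) = 1 / X ^ 8 := by
    rw [Real.rpow_neg hX0.le, show (8 : ℝ) = ((8 : ℕ) : ℝ) by norm_num, Real.rpow_natCast,
      one_div]
  have h5 : X ^ (-(B - 8)) ≤ (3 : ℝ) ^ (-(B - 8)) :=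
    Real.rpow_le_rpow_of_nonpos (by norm_num) h3 (by linarith)
  have h6 : 1 / X ^ 8 ≤ 256 / k ^ 16 := by
    rw [div_le_div_iff₀ (by positivity) (by positivity)]
    have h7 : (k ^ 2) ^ 8 ≤ (2 * X) ^ 8 := pow_le_pow_left₀ (by positivity) h4 8
    have h8 : (k ^ 2) ^ 8 = k ^ 16 := by ring
    have h9 : (2 * X) ^ 8 = 256 * X ^ 8 := by ring
    rw [h8, h9] at h7
    linarith
  rw [e1, e2]
  exact mul_le_mul h5 h6 (by positivity) (by positivity)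

theorem sum_Icc_le (K : ℕ) : ∑ i ∈ Finset.Icc 1 K, 1 / (i : ℝ) ^ 2 ≤ 2 := by
  have h := sum_Ioo_inv_sq_le (α := ℝ) 0 (K + 1)
  have e : Finset.Icc 1 K = Finset.Ioo 0 (K + 1) := by
    ext i
    simp only [Finset.mem_Icc, Finset.mem_Ioo]
    omega
  rw [e]
  simp only [one_div]
  norm_num at h
  exact h

theorem sum_range_le (K : ℕ) : ∑ i ∈ Finset.range K, 1 / ((i : ℝ) + 1) ^ 2 ≤ 2 := by
  have h := sum_Icc_le K
  have e : ∑ i ∈ Finset.Icc 1 K, 1 / (i : ℝ) ^ 2 = ∑ i ∈ Finset.range K, 1 / ((i : ℝ) + 1) ^ 2 := by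
    rw [← Finset.Ico_succ_right_eq_Icc, Finset.sum_Ico_eq_sum_range]
    simp only [Order.succ_eq_add_one, Nat.add_sub_cancel]
    refine Finset.sum_congr rfl fun i _ => ?_
    push_cast
    rw [add_comm (1 : ℝ)]
  rwa [e] at h

theorem sum_far_le (K : ℕ) :
    ∑ p ∈ far K, (1 / (p.1 : ℝ) ^ 2) * (1 / ((p.2 : ℝ) + 1) ^ 2) ≤ 4 := by
  have h2 : far K ⊆ Finset.Icc 1 K ×ˢ Finset.range K := Finset.filter_subset _ _
  calc ∑ p ∈ far K, (1 / (p.1 : ℝ) ^ 2) * (1 / ((p.2 : ℝ) + 1) ^ 2) ≤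
        ∑ p ∈ Finset.Icc 1 K ×ˢ Finset.range K, (1 / (p.1 : ℝ) ^ 2) * (1 / ((p.2 : ℝ) + 1) ^ 2) :=
        Finset.sum_le_sum_of_subset_of_nonneg h2 fun p _ _ => by positivity
    _ = (∑ i ∈ Finset.Icc 1 K, 1 / (i : ℝ) ^ 2) *
          ∑ i ∈ Finset.range K, 1 / ((i : ℝ) + 1) ^ 2 := by
        rw [Finset.sum_mul_sum, Finset.sum_product]
    _ ≤ 2 * 2 := mul_le_mul (sum_Icc_le K) (sum_range_le K)
        (Finset.sum_nonneg fun i _ => by positivity) (by norm_num)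
    _ = 4 := by norm_num

/-- `m² (n + 1)² ≤ (m + n)⁴` -/
theorem prod_le {K : ℕ} {p : ℕ × ℕ} (h : p ∈ far K) :
    (p.1 : ℝ) ^ 2 * ((p.2 : ℝ) + 1) ^ 2 ≤ ((p.1 : ℝ) + p.2) ^ 4 := by
  obtain ⟨h1, h2⟩ := mem_far h
  have h3 : (1 : ℝ) ≤ p.1 := by exact_mod_cast h1
  have h4 : (0 : ℝ) ≤ p.2 := Nat.cast_nonneg _
  have h5 : (p.1 : ℝ) ^ 2 ≤ ((p.1 : ℝ) + p.2) ^ 2 :=
    pow_le_pow_left₀ (by linarith) (by linarith) 2
  have h6 : ((p.2 : ℝ) + 1) ^ 2 ≤ ((p.1 : ℝ) + p.2) ^ 2 :=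
    pow_le_pow_left₀ (by linarith) (by linarith) 2
  calc (p.1 : ℝ) ^ 2 * ((p.2 : ℝ) + 1) ^ 2 ≤ ((p.1 : ℝ) + p.2) ^ 2 * ((p.1 : ℝ) + p.2) ^ 2 :=
        mul_le_mul h5 h6 (by positivity) (by positivity)
    _ = _ := by ring

theorem three_rpow {x : ℝ} (hx : 1 ≤ x) : 2 * x ≤ (3 : ℝ) ^ x := by
  have h := one_add_mul_self_le_rpow_one_add (s := (2 : ℝ)) (by norm_num) hx
  norm_num at h
  linarith

end ChG

open ChG

theorem chargeG (c C : ℝ) (hc : 0 < c) (hC : 0 < C) : ∃ B₁ : ℝ, 2 ≤ B₁ ∧ ∀ B : ℝ, B₁ ≤ B →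
    (∀ K k₀ : ℕ, 2 ≤ k₀ → ∑ p ∈ (far K).filter fun p => k₀ ≤ p.1 + p.2,
      (Nm p.1 p.2 : ℝ) ^ (-B) * (C * ((p.1 : ℝ) + p.2) ^ 6) ≤ c / (k₀ : ℝ) ^ 4) ∧
    (∀ K : ℕ, ∑ p ∈ far K, (Nm p.1 p.2 : ℝ) * (Nm p.1 p.2 : ℝ) ^ (-B) ≤ 1 / 10) := by
  refine ⟨max 5129 (9 + 1024 * C / c), le_trans (by norm_num) (le_max_left _ _), fun B hB => ?_⟩
  have hB1 : 5129 ≤ B := le_trans (le_max_left _ _) hB
  have hB2 : 9 + 1024 * C / c ≤ B := le_trans (le_max_right _ _) hB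
  have hinv : ∀ x : ℝ, (3 : ℝ) ^ (-x) = 1 / (3 : ℝ) ^ x := fun x => by
    rw [Real.rpow_neg (by norm_num), one_div]
  constructor
  · intro K k₀ hk₀
    have hk0 : (0 : ℝ) < k₀ := by
      have : (2 : ℝ) ≤ k₀ := by exact_mod_cast hk₀
      linarith
    have hA : (3 : ℝ) ^ (-(B - 8)) * (1024 * C) ≤ c := by
      have h1 := three_rpow (x := B - 8) (by linarith)
      rw [hinv, one_div_mul_eq_div, div_le_iff₀ (by positivity)]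
      have h2 : 1024 * C / c ≤ B - 9 := by linarith
      rw [div_le_iff₀ hc] at h2
      have h3 : c * (2 * (B - 8)) ≤ c * (3 : ℝ) ^ (B - 8) := mul_le_mul_of_nonneg_left h1 hc.le
      nlinarith
    have hterm : ∀ p ∈ (far K).filter fun p => k₀ ≤ p.1 + p.2,
        (Nm p.1 p.2 : ℝ) ^ (-B) * (C * ((p.1 : ℝ) + p.2) ^ 6) ≤
          ((3 : ℝ) ^ (-(B - 8)) * (256 * C) / (k₀ : ℝ) ^ 4) *
            ((1 / (p.1 : ℝ) ^ 2) * (1 / ((p.2 : ℝ) + 1) ^ 2)) := by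
      intro p hp
      obtain ⟨hp1, hp2⟩ := Finset.mem_filter.1 hp
      have h1 := pow_le (B := B) (by linarith) hp1
      have h2 := prod_le hp1
      have hk : (k₀ : ℝ) ≤ (p.1 : ℝ) + p.2 := by exact_mod_cast hp2
      obtain ⟨hm1, hm2⟩ := mem_far hp1
      have hm : (0 : ℝ) < p.1 := by exact_mod_cast hm1
      obtain ⟨k, hkd⟩ : ∃ k : ℝ, k = (p.1 : ℝ) + p.2 := ⟨_, rfl⟩
      rw [← hkd] at h1 h2 hk ⊢
      have hk2 : 2 ≤ k := by rw [hkd]; exact_mod_cast hm2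
      have hkp : 0 < k := by linarith
      have h3 : (k₀ : ℝ) ^ 4 * ((p.1 : ℝ) ^ 2 * ((p.2 : ℝ) + 1) ^ 2) ≤ k ^ 10 := by
        calc (k₀ : ℝ) ^ 4 * ((p.1 : ℝ) ^ 2 * ((p.2 : ℝ) + 1) ^ 2) ≤ k ^ 4 * k ^ 4 :=
              mul_le_mul (pow_le_pow_left₀ hk0.le hk 4) h2 (by positivity) (by positivity)
          _ = k ^ 8 := by ring
          _ ≤ k ^ 10 := pow_le_pow_right₀ (by linarith) (by norm_num)
      have h4 : 1 / k ^ 10 ≤ 1 / ((k₀ : ℝ) ^ 4 * ((p.1 : ℝ) ^ 2 * ((p.2 : ℝ) + 1) ^ 2)) :=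
        one_div_le_one_div_of_le (by positivity) h3
      calc (Nm p.1 p.2 : ℝ) ^ (-B) * (C * k ^ 6) ≤
            ((3 : ℝ) ^ (-(B - 8)) * (256 / k ^ 16)) * (C * k ^ 6) :=
            mul_le_mul_of_nonneg_right h1 (by positivity)
        _ = ((3 : ℝ) ^ (-(B - 8)) * (256 * C)) * (1 / k ^ 10) := by
            field_simp
        _ ≤ ((3 : ℝ) ^ (-(B - 8)) * (256 * C)) *
              (1 / ((k₀ : ℝ) ^ 4 * ((p.1 : ℝ) ^ 2 * ((p.2 : ℝ) + 1) ^ 2))) :=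
            mul_le_mul_of_nonneg_left h4 (by positivity)
        _ = _ := by
            field_simp
    calc ∑ p ∈ (far K).filter fun p => k₀ ≤ p.1 + p.2,
          (Nm p.1 p.2 : ℝ) ^ (-B) * (C * ((p.1 : ℝ) + p.2) ^ 6) ≤
          ∑ p ∈ (far K).filter fun p => k₀ ≤ p.1 + p.2,
            ((3 : ℝ) ^ (-(B - 8)) * (256 * C) / (k₀ : ℝ) ^ 4) *
            ((1 / (p.1 : ℝ) ^ 2) * (1 / ((p.2 : ℝ) + 1) ^ 2)) := Finset.sum_le_sum hterm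
      _ ≤ ∑ p ∈ far K, ((3 : ℝ) ^ (-(B - 8)) * (256 * C) / (k₀ : ℝ) ^ 4) *
            ((1 / (p.1 : ℝ) ^ 2) * (1 / ((p.2 : ℝ) + 1) ^ 2)) :=
          Finset.sum_le_sum_of_subset_of_nonneg (Finset.filter_subset _ _)
            fun p _ _ => by positivity
      _ = ((3 : ℝ) ^ (-(B - 8)) * (256 * C) / (k₀ : ℝ) ^ 4) *
            ∑ p ∈ far K, ((1 / (p.1 : ℝ) ^ 2) * (1 / ((p.2 : ℝ) + 1) ^ 2)) := by
          rw [Finset.mul_sum]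
      _ ≤ ((3 : ℝ) ^ (-(B - 8)) * (256 * C) / (k₀ : ℝ) ^ 4) * 4 :=
          mul_le_mul_of_nonneg_left (sum_far_le K) (by positivity)
      _ = ((3 : ℝ) ^ (-(B - 8)) * (1024 * C)) / (k₀ : ℝ) ^ 4 := by ring
      _ ≤ c / (k₀ : ℝ) ^ 4 := div_le_div_of_nonneg_right hA (by positivity)
  · intro K
    have hA : (3 : ℝ) ^ (-(B - 1 - 8)) * 1024 ≤ 1 / 10 := by
      have h1 := three_rpow (x := B - 1 - 8) (by linarith)
      rw [hinv, one_div_mul_eq_div, div_le_iff₀ (by positivity)]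
      linarith
    have hterm : ∀ p ∈ far K, (Nm p.1 p.2 : ℝ) * (Nm p.1 p.2 : ℝ) ^ (-B) ≤
        ((3 : ℝ) ^ (-(B - 1 - 8)) * 256) * ((1 / (p.1 : ℝ) ^ 2) * (1 / ((p.2 : ℝ) + 1) ^ 2)) := by
      intro p hp
      have h1 := pow_le (B := B - 1) (by linarith) hp
      have h2 := prod_le hp
      obtain ⟨hm1, hm2⟩ := mem_far hp
      have hm : (0 : ℝ) < p.1 := by exact_mod_cast hm1
      have h3 : (3 : ℝ) ≤ (Nm p.1 p.2 : ℝ) := by exact_mod_cast Nm_three hm1 hm2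
      have e : (Nm p.1 p.2 : ℝ) * (Nm p.1 p.2 : ℝ) ^ (-B) = (Nm p.1 p.2 : ℝ) ^ (-(B - 1)) := by
        nth_rewrite 1 [← Real.rpow_one (Nm p.1 p.2 : ℝ)]
        rw [← Real.rpow_add (by linarith)]
        congr 1
        ring
      rw [e]
      obtain ⟨k, hkd⟩ : ∃ k : ℝ, k = (p.1 : ℝ) + p.2 := ⟨_, rfl⟩
      rw [← hkd] at h1 h2
      have hk2 : 2 ≤ k := by rw [hkd]; exact_mod_cast hm2
      have hkp : 0 < k := by linarith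
      have h5 : (p.1 : ℝ) ^ 2 * ((p.2 : ℝ) + 1) ^ 2 ≤ k ^ 16 :=
        h2.trans (pow_le_pow_right₀ (by linarith) (by norm_num))
      have h4 : 1 / k ^ 16 ≤ 1 / ((p.1 : ℝ) ^ 2 * ((p.2 : ℝ) + 1) ^ 2) :=
        one_div_le_one_div_of_le (by positivity) h5
      calc (Nm p.1 p.2 : ℝ) ^ (-(B - 1)) ≤ (3 : ℝ) ^ (-(B - 1 - 8)) * (256 / k ^ 16) := h1
        _ = ((3 : ℝ) ^ (-(B - 1 - 8)) * 256) * (1 / k ^ 16) := by ring
        _ ≤ ((3 : ℝ) ^ (-(B - 1 - 8)) * 256) * (1 / ((p.1 : ℝ) ^ 2 * ((p.2 : ℝ) + 1) ^ 2)) :=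
            mul_le_mul_of_nonneg_left h4 (by positivity)
        _ = _ := by
            rw [one_div_mul_one_div]
    calc ∑ p ∈ far K, (Nm p.1 p.2 : ℝ) * (Nm p.1 p.2 : ℝ) ^ (-B) ≤
          ∑ p ∈ far K, ((3 : ℝ) ^ (-(B - 1 - 8)) * 256) *
            ((1 / (p.1 : ℝ) ^ 2) * (1 / ((p.2 : ℝ) + 1) ^ 2)) := Finset.sum_le_sum hterm
      _ = ((3 : ℝ) ^ (-(B - 1 - 8)) * 256) *
            ∑ p ∈ far K, ((1 / (p.1 : ℝ) ^ 2) * (1 / ((p.2 : ℝ) + 1) ^ 2)) := by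
          rw [Finset.mul_sum]
      _ ≤ ((3 : ℝ) ^ (-(B - 1 - 8)) * 256) * 4 :=
          mul_le_mul_of_nonneg_left (sum_far_le K) (by positivity)
      _ = (3 : ℝ) ^ (-(B - 1 - 8)) * 1024 := by ring
      _ ≤ 1 / 10 := hA

end Pool.Agent.J4.H83.SG
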