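import Pool.Agent.J4.H83.SG.DefsU
import Pool.Agent.J4.H83.SG.FinDefs2

/-!
# Steep log-convex potentials: definitions
-/

set_option autoImplicit false

open MeasureTheory Set

namespace Pool.Agent.J4.H83.SG

open Pool.Agent.J4.H83.FV Pool.Agent.J4.H83.HD Pool.Agent.J4.H83.OO

/-- A steep log-convex function `f` of the squared distance (in units of the lattice spacing), `φ n` is a
slope of `- log f` at `n`, `β` the one at `1`. -/
structure Pot (f : ℝ → ℝ) (φ : ℕ → ℝ) (β B : ℝ) : Prop where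
  pos : ∀ y, 0 < y → 0 < f y
  tan : ∀ n : ℕ, 1 ≤ n → ∀ y, 0 < y → f n * Real.exp (-φ n * (y - n)) ≤ f y
  nn : ∀ n : ℕ, 1 ≤ n → 0 ≤ φ n
  le : ∀ n : ℕ, 1 ≤ n → φ n ≤ β
  one : φ 1 = β
  norm : f 1 = 1
  dec : ∀ y, 1 ≤ y → f y ≤ y ^ (-B)
  big : B ≤ β

/-- the energy of the hexagonal lattice up to the shell `K` -/
noncomputable def eF (f : ℝ → ℝ) (K : ℕ) : ℝ :=
  6 * (f 1 + ∑ p ∈ far K, f (Nm p.1 p.2))

/-- the pressure up to the shell `K` -/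
noncomputable def PF (f : ℝ → ℝ) (φ : ℕ → ℝ) (β : ℝ) (K : ℕ) : ℝ :=
  4 * √3 * (β + ∑ p ∈ far K, (Nm p.1 p.2 : ℝ) * (φ (Nm p.1 p.2) * f (Nm p.1 p.2)))

/-- the energy of a finite configuration -/
noncomputable def EfF {M : ℕ} (f : ℝ → ℝ) (z : Fin M → ℂ) : ℝ :=
  ∑ i, ∑ j ∈ Finset.univ.erase i, f (‖z j - z i‖ ^ 2)

/-- the energy of a periodic configuration -/
noncomputable def EpF {N : ℕ} (f : ℝ → ℝ) (u v : ℂ) (x : Fin N → ℂ) : ℝ :=
  ∑ j, ∑ k, ∑' p : ℤ × ℤ, (if x j - x k + p.1 * u + p.2 * v = 0 then 0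
    else f (‖x j - x k + p.1 * u + p.2 * v‖ ^ 2))

/-- the potential `p(r) = f(r²)` -/
noncomputable def pot (f : ℝ → ℝ) (r : ℝ) : ENNReal := ENNReal.ofReal (f (r ^ 2))

end Pool.Agent.J4.H83.SG
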