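import Pool.Agent.J4.H83.SG.RotD
import Pool.Agent.J4.H83.SG.Pos
import Pool.Agent.J4.H83.SG.Dist

/-!
# Steep log-convex potentials: the pairs found near good particles are different (piece DISTG)
-/

set_option autoImplicit false

open MeasureTheory Set Filter Topology

namespace Pool.Agent.J4.H83.SG

open Pool.Agent.J4.H83.FV Pool.Agent.J4.H83.HD Pool.Agent.J4.H83.OO

open Dist in
theorem en_geG {N : ℕ} {x : Fin N → ℂ} (hx : Sep x) {τ C A : ℝ} {F : ℝ → ℝ}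
    (hF : ∀ t, 0 < t → 0 ≤ F t) (hC : 1 ≤ C)
    (hCτ : C * τ ≤ 1 / 100) (hA : 1 ≤ A) (hA2 : A ≤ 1001 / 1000)
    {ρ : Equiv.Perm (Fin N × Fin N)} (hex0 : ∀ i, 0 ≤ ex x i) (hρ : IsRot x τ C ρ) (K : ℕ) :
    ∑ γ ∈ Bg τ x, F (‖bv x γ‖ / A) +
      ∑ p ∈ far K, ∑ γ ∈ Gk τ A (1 / 1000) x ρ (p.1 + p.2), F (‖Xv x ρ p.1 p.2 γ‖ / A) ≤
        ∑ i, ∑ j ∈ Finset.univ.erase i, F (‖x j - x i‖ / A) := by
  classical
  have hrot : S_rot := fun {_ _} hx {_ _ _ _} hC hCτ hA hA2 hd hd2 {_} hex0 hρ {_} hγ h =>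
    rot_dev hx hC hCτ hA hA2 hd hd2 hex0 hρ hγ h
  have hpos : S_pos := fun {_ _} hx {_ _ _} hC hCτ hA hA2 {_} hex0 hρ {_} hk {_} hγ m n hm hn =>
    pos hx hC hCτ hA hA2 hex0 hρ hk hγ m n hm hn
  have hA0 : 0 < A := by linarith
  set f : Fin N × Fin N → ℝ := fun q => F (‖x q.2 - x q.1‖ / A) with hf
  have hf0 : ∀ q : Fin N × Fin N, q.2 ≠ q.1 → 0 ≤ f q := fun q hq =>
    hF _ (div_pos (by linarith [hx _ _ hq]) hA0)
  -- the energy as a sum over pairs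
  have hEn : ∑ i, ∑ j ∈ Finset.univ.erase i, F (‖x j - x i‖ / A) =
      ∑ q ∈ (Finset.univ : Finset (Fin N × Fin N)).filter (fun q => q.2 ≠ q.1), f q := by
    rw [Finset.sum_filter, ← Finset.univ_product_univ, Finset.sum_product]
    refine Finset.sum_congr rfl fun i _ => ?_
    rw [← Finset.sum_filter]
    refine Finset.sum_congr ?_ fun j _ => rfl
    ext j
    simp
  have hfar : ∀ p ∈ far K, 1 ≤ p.1 ∧ 2 ≤ p.1 + p.2 := by
    intro p hp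
    unfold far at hp
    rw [Finset.mem_filter, Finset.mem_product, Finset.mem_Icc] at hp
    exact ⟨hp.1.1.1, hp.2.1⟩
  set S : Finset (Σ _ : ℕ × ℕ, Fin N × Fin N) :=
    (far K).sigma fun p => Gk τ A (1 / 1000) x ρ (p.1 + p.2) with hS
  set Φ : (Σ _ : ℕ × ℕ, Fin N × Fin N) → Fin N × Fin N :=
    fun z => (z.2.1, (act ρ z.1.1 z.1.2 z.2).1) with hΦ
  have hinj : Set.InjOn Φ (S : Set (Σ _ : ℕ × ℕ, Fin N × Fin N)) := by
    rintro ⟨p, γ⟩ hz ⟨p', γ'⟩ hz' heq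
    rw [Finset.mem_coe, hS, Finset.mem_sigma] at hz hz'
    obtain ⟨h1, h2⟩ := hfar p hz.1
    obtain ⟨h1', h2'⟩ := hfar p' hz'.1
    have e1 : (Φ ⟨p, γ⟩).1 = (Φ ⟨p', γ'⟩).1 := by rw [heq]
    have e2 : (Φ ⟨p, γ⟩).2 = (Φ ⟨p', γ'⟩).2 := by rw [heq]
    change γ.1 = γ'.1 at e1
    change (act ρ p.1 p.2 γ).1 = (act ρ p'.1 p'.2 γ').1 at e2
    have key : p.1 = p'.1 ∧ p.2 = p'.2 ∧ γ = γ' := by
      rcases le_total (p.1 + p.2) (p'.1 + p'.2) with h | h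
      · exact inj hrot hpos hx hC hCτ hA hA2 hex0 hρ h1 h1' h2 h2' h hz.2 hz'.2 e1 e2
      · obtain ⟨a, b, c⟩ := inj hrot hpos hx hC hCτ hA hA2 hex0 hρ h1' h1 h2' h2 h hz'.2 hz.2
          e1.symm e2.symm
        exact ⟨a.symm, b.symm, c.symm⟩
    obtain ⟨a, b, c⟩ := key
    obtain ⟨p1, p2⟩ := p
    obtain ⟨p1', p2'⟩ := p'
    simp only at a b
    subst a
    subst b
    subst c
    rfl
  have hlen : ∀ z ∈ S, 17 / 10 ≤ ‖x (Φ z).2 - x (Φ z).1‖ := by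
    rintro ⟨p, γ⟩ hz
    rw [hS, Finset.mem_sigma] at hz
    obtain ⟨h1, h2⟩ := hfar p hz.1
    exact far_len hpos hx hC hCτ hA hA2 hex0 hρ h1 h2 hz.2
  have hsum2 : ∑ p ∈ far K, ∑ γ ∈ Gk τ A (1 / 1000) x ρ (p.1 + p.2),
      F (‖Xv x ρ p.1 p.2 γ‖ / A) = ∑ q ∈ S.image Φ, f q := by
    rw [Finset.sum_image hinj, hS, Finset.sum_sigma]
    rfl
  have hR : 2 * R < 17 / 10 := by
    have h3 : √3 * √3 = 3 := Real.mul_self_sqrt (by norm_num)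
    have h4 : √3 ≤ 2 := by
      rw [Real.sqrt_le_left (by norm_num)]
      norm_num
    unfold R
    nlinarith
  have hBd : ∀ γ ∈ Bg τ x, γ.2 ≠ γ.1 ∧ ‖x γ.2 - x γ.1‖ < 2 * R := by
    intro γ hγ
    unfold Bg Bd Nbr at hγ
    rw [Finset.mem_filter, Finset.mem_filter, Finset.mem_filter] at hγ
    exact ⟨hγ.1.2.2.1, hγ.1.2.2.2⟩
  have hdisj : Disjoint (Bg τ x) (S.image Φ) := by
    rw [Finset.disjoint_left]
    intro q hq hq2
    rw [Finset.mem_image] at hq2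
    obtain ⟨z, hz, rfl⟩ := hq2
    have h1 := hlen z hz
    have h2 := (hBd _ hq).2
    linarith
  rw [hsum2, hEn]
  change ∑ γ ∈ Bg τ x, f γ + _ ≤ _
  rw [← Finset.sum_union hdisj]
  refine Finset.sum_le_sum_of_subset_of_nonneg ?_ fun q hq _ => hf0 q (Finset.mem_filter.1 hq).2
  intro q hq
  rw [Finset.mem_filter]
  refine ⟨Finset.mem_univ _, ?_⟩
  rcases Finset.mem_union.1 hq with h | h
  · exact (hBd q h).1
  · rw [Finset.mem_image] at h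
    obtain ⟨z, hz, rfl⟩ := h
    intro hc
    have h1 := hlen z hz
    rw [hc, sub_self, norm_zero] at h1
    linarith

end Pool.Agent.J4.H83.SG
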