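import Pool.Agent.J4.H83.SG.SumSq
import Pool.Agent.J4.H83.SG.Cnt
import Pool.Agent.J4.H83.SG.Far
import Pool.Agent.J4.H83.SG.DefsG
import Pool.Agent.J4.H83.SG.Dist

/-!
# Steep potentials: the lower bound of a far shell
-/

set_option autoImplicit false

open MeasureTheory Set

namespace Pool.Agent.J4.H83.SG

open Pool.Agent.J4.H83.FV Pool.Agent.J4.H83.HD Pool.Agent.J4.H83.OO

open FarA

theorem far_shellG {f : ℝ → ℝ} {a g : ℝ} {N : ℕ} {x : Fin N → ℂ} (hx : Sep x) {τ C A β : ℝ} (hC : 1 ≤ C)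
    (hCτ : C * τ ≤ 1 / 100) (hA : 1 ≤ A) (hA2 : A ≤ 1001 / 1000) (hβ : 1 ≤ β)
    {ρ : Equiv.Perm (Fin N × Fin N)} (hex0 : ∀ i, 0 ≤ ex x i) (hρ : IsRot x τ C ρ) {m n : ℕ}
    (hmn : 1 ≤ m + n) (ha : 0 ≤ a) (hg : 0 ≤ g) (hgβ : g ≤ β)
    (hf : ∀ y, 0 < y → a * (1 - g * (y - Nm m n)) ≤ f y) :
    a * (6 * N - g * Nm m n * ∑ γ ∈ Bg τ x, ((‖bv x γ‖ / A) ^ 2 - 1) -
      10 ^ 7 * ((m : ℝ) + n) ^ 6 * β * ((bad τ A (1 / 1000) x (m + n)).card : ℝ)) ≤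
      ∑ γ ∈ Gk τ A (1 / 1000) x ρ (m + n), f ((‖Xv x ρ m n γ‖ / A) ^ 2) := by
  classical
  set k := m + n with hk
  have hkr : (k : ℝ) = (m : ℝ) + n := by rw [hk]; push_cast; ring
  have hk1 : (1 : ℝ) ≤ k := by exact_mod_cast hmn
  set G := Gk τ A (1 / 1000) x ρ k with hG
  set b : ℝ := ((bad τ A (1 / 1000) x k).card : ℝ) with hb
  have hb0 : 0 ≤ b := Nat.cast_nonneg _
  set δ : ℝ := ((Bd x \ G).card : ℝ) with hδ
  have hδ0 : 0 ≤ δ := Nat.cast_nonneg _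
  set M : ℝ := (Nm m n : ℝ) with hM
  have hM0 : 0 ≤ M := Nat.cast_nonneg _
  have hMk : M ≤ (k : ℝ) ^ 2 := by
    rw [hM, hkr]
    unfold Nm
    push_cast
    nlinarith [mul_nonneg (Nat.cast_nonneg (α := ℝ) m) (Nat.cast_nonneg (α := ℝ) n)]
  have hA0 : 0 < A := by linarith
  have hGBd : G ⊆ Bd x := by
    rw [hG]; unfold Gk; exact Finset.filter_subset _ _
  have hGBg : G ⊆ Bg τ x := by
    intro γ hγ
    have h1 := hγ
    rw [hG] at h1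
    unfold Gk at h1
    rw [Finset.mem_filter] at h1
    unfold Bg
    rw [Finset.mem_filter]
    refine ⟨h1.1, ?_⟩
    have h2 := (h1.2 0 (Nat.zero_le _) 0 (Nat.zero_le _)).1.1
    simpa [act] using h2
  have hBgBd : Bg τ x ⊆ Bd x := by
    unfold Bg; exact Finset.filter_subset _ _
  -- the number of bonds
  have hcard : 6 * (N : ℝ) - 6 * b - δ ≤ (G.card : ℝ) := by
    have h1 : ((Bd x).card : ℝ) = G.card + δ := by
      rw [hδ]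
      have := Finset.card_sdiff_add_card_eq_card hGBd
      rw [← this]
      push_cast
      ring
    have h2 : 6 * (N : ℝ) - 6 * b ≤ ((Bd x).card : ℝ) := by
      rw [card_Bd]
      push_cast
      have h3 : ∀ i, (6 : ℝ) - (if i ∈ bad τ A (1 / 1000) x k then 6 else 0) ≤ ((Nbr x i).card : ℝ) := by
        intro i
        by_cases hi : i ∈ bad τ A (1 / 1000) x k
        · rw [if_pos hi]
          simp
        · rw [if_neg hi]
          have h4 : Dv τ A x (1 / 1000 / (k : ℝ) ^ 2) i := by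
            by_contra h5
            apply hi
            unfold bad
            rw [Finset.mem_filter]
            exact ⟨Finset.mem_univ _, h5⟩
          rw [hρ.six i h4.1]
          norm_num
      have h5 := Finset.sum_le_sum fun i (_ : i ∈ Finset.univ) => h3 i
      rw [Finset.sum_sub_distrib, Finset.sum_const, Finset.card_univ, Fintype.card_fin,
        nsmul_eq_mul, Finset.sum_ite_mem, Finset.univ_inter, Finset.sum_const, nsmul_eq_mul] at h5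
      linarith
    linarith
  have hδb : δ ≤ 1404 * (k : ℝ) ^ 2 * b := by
    have h1 := cnt (c₀ := 1 / 1000) (A := A) hx hρ k
    have h2 : (2 * (k : ℝ) + 1) ^ 2 ≤ 9 * (k : ℝ) ^ 2 := by nlinarith
    calc δ ≤ 156 * (2 * (k : ℝ) + 1) ^ 2 * b := h1
      _ ≤ 156 * (9 * (k : ℝ) ^ 2) * b := by gcongr
      _ = _ := by ring
  -- the squares
  have hss := sumsq hx hC hCτ hA hA2 hex0 hρ hmn m n le_rfl
  have hSG : ∑ γ ∈ G, (‖Xv x ρ m n γ‖ / A) ^ 2 ≤ M * ∑ γ ∈ G, (‖bv x γ‖ / A) ^ 2 +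
      100 * M * (k : ℝ) ^ 2 * δ := by
    have h1 : ∑ γ ∈ G, (‖Xv x ρ m n γ‖ / A) ^ 2 = (∑ γ ∈ G, ‖Xv x ρ m n γ‖ ^ 2) / A ^ 2 := by
      rw [Finset.sum_div]
      exact Finset.sum_congr rfl fun γ _ => div_pow _ _ _
    have h2 : ∑ γ ∈ G, (‖bv x γ‖ / A) ^ 2 = (∑ γ ∈ G, ‖bv x γ‖ ^ 2) / A ^ 2 := by
      rw [Finset.sum_div]
      exact Finset.sum_congr rfl fun γ _ => div_pow _ _ _
    rw [h1, h2, div_le_iff₀ (by positivity)]
    refine hss.trans ?_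
    have h3 : (1 : ℝ) ≤ A ^ 2 := one_le_pow₀ hA
    have h4 : 0 ≤ 100 * M * (k : ℝ) ^ 2 * δ := by positivity
    have h5 : (M * ((∑ γ ∈ G, ‖bv x γ‖ ^ 2) / A ^ 2) + 100 * M * (k : ℝ) ^ 2 * δ) * A ^ 2 =
        M * (∑ γ ∈ G, ‖bv x γ‖ ^ 2) + 100 * M * (k : ℝ) ^ 2 * δ * A ^ 2 := by
      field_simp
    rw [h5]
    nlinarith
  -- from `G` to `Bg`
  have hBgG : ∑ γ ∈ G, ((‖bv x γ‖ / A) ^ 2 - 1) ≤
      ∑ γ ∈ Bg τ x, ((‖bv x γ‖ / A) ^ 2 - 1) + 1 / 100 * δ := by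
    rw [← Finset.sum_sdiff hGBg]
    have h1 : ∀ γ ∈ Bg τ x \ G, -(1 / 100 : ℝ) ≤ (‖bv x γ‖ / A) ^ 2 - 1 := by
      intro γ hγ
      have h2 := hBgBd (Finset.mem_sdiff.1 hγ).1
      rw [Comm.mem_Bd] at h2
      have h3 : 1 ≤ ‖bv x γ‖ := hx _ _ h2.1
      have h4 : 999 / 1000 ≤ ‖bv x γ‖ / A := by
        rw [le_div_iff₀ hA0]
        nlinarith
      nlinarith
    have h2 := Finset.sum_le_sum h1
    rw [Finset.sum_const, nsmul_eq_mul] at h2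
    have h3 : (((Bg τ x \ G).card : ℕ) : ℝ) ≤ δ := by
      rw [hδ]
      exact_mod_cast Finset.card_le_card (Finset.sdiff_subset_sdiff hBgBd le_rfl)
    nlinarith
  -- the sum
  have hpt : ∑ γ ∈ G, a * (1 - g * ((‖Xv x ρ m n γ‖ / A) ^ 2 - M)) ≤
      ∑ γ ∈ G, f ((‖Xv x ρ m n γ‖ / A) ^ 2) := by
    refine Finset.sum_le_sum fun γ hγ => hf _ ?_
    have h2 : 0 < ‖Xv x ρ m n γ‖ := by
      rw [norm_pos_iff]
      intro h0
      obtain ⟨_, _, h1⟩ := pos hx hC hCτ hA hA2 hex0 hρ hmn hγ m n (by omega) (by omega)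
      rw [h0, zero_sub, norm_neg, norm_mul] at h1
      have h3 : 1 ≤ ‖bv x γ‖ := hx _ _ (Comm.mem_Bd.1 (hGBd hγ)).1
      have h4 : 1 ≤ ‖(m : ℂ) + n * ze‖ := by
        have h5 := Dist.norm_eis (m : ℤ) (n : ℤ)
        have h6 : (1 : ℤ) ≤ (m : ℤ) ^ 2 + m * n + (n : ℤ) ^ 2 := by
          have h7 : (1 : ℤ) ≤ (m : ℤ) + n := by exact_mod_cast hmn
          nlinarith [Int.natCast_nonneg m, Int.natCast_nonneg n,
            mul_nonneg (Int.natCast_nonneg m) (Int.natCast_nonneg n)]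
        have h8 : (1 : ℝ) ≤ (((m : ℤ) ^ 2 + m * n + (n : ℤ) ^ 2 : ℤ) : ℝ) := by exact_mod_cast h6
        rw [← h5] at h8
        have h9 : (1 : ℝ) ≤ ‖(((m : ℤ) : ℂ) + ((n : ℤ) : ℂ) * ze)‖ := by
          by_contra h10
          push Not at h10
          nlinarith [norm_nonneg (((m : ℤ) : ℂ) + ((n : ℤ) : ℂ) * ze)]
        simpa using h9
      have h5 : 12 * ((m : ℝ) + n) ^ 2 * (1 / 1000 / (k : ℝ) ^ 2) * A ≤ 13 / 1000 := by
        rw [← hkr]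
        have : 12 * (k : ℝ) ^ 2 * (1 / 1000 / (k : ℝ) ^ 2) * A = 12 / 1000 * A := by
          field_simp
        rw [this]
        linarith
      nlinarith
    positivity
  refine le_trans ?_ hpt
  rw [← Finset.mul_sum]
  refine mul_le_mul_of_nonneg_left ?_ ha
  have hs1 : ∑ γ ∈ G, (1 - g * ((‖Xv x ρ m n γ‖ / A) ^ 2 - M)) =
      (1 + g * M) * G.card - g * ∑ γ ∈ G, (‖Xv x ρ m n γ‖ / A) ^ 2 := by
    rw [Finset.mul_sum, mul_comm, ← nsmul_eq_mul, ← Finset.sum_const, ← Finset.sum_sub_distrib]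
    exact Finset.sum_congr rfl fun γ _ => by ring
  have hs2 : ∑ γ ∈ G, ((‖bv x γ‖ / A) ^ 2 - 1) = ∑ γ ∈ G, (‖bv x γ‖ / A) ^ 2 - G.card := by
    rw [Finset.sum_sub_distrib, Finset.sum_const, nsmul_eq_mul, mul_one]
  rw [hs1]
  rw [hs2] at hBgG
  set S := ∑ γ ∈ Bg τ x, ((‖bv x γ‖ / A) ^ 2 - 1) with hS
  set Y := ∑ γ ∈ G, (‖bv x γ‖ / A) ^ 2 with hY
  set Z := ∑ γ ∈ G, (‖Xv x ρ m n γ‖ / A) ^ 2 with hZ
  rw [← hkr]
  have hβ0 : 0 ≤ β := by linarith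
  have h1 : g * Z ≤ g * (M * Y + 100 * M * (k : ℝ) ^ 2 * δ) := mul_le_mul_of_nonneg_left hSG hg
  have h2 : g * M * (Y - G.card) ≤ g * M * (S + 1 / 100 * δ) :=
    mul_le_mul_of_nonneg_left hBgG (by positivity)
  have h1' : g * (100 * M * (k : ℝ) ^ 2 * δ) ≤ β * (100 * M * (k : ℝ) ^ 2 * δ) :=
    mul_le_mul_of_nonneg_right hgβ (by positivity)
  have h2' : g * M * (1 / 100 * δ) ≤ β * M * (1 / 100 * δ) := by gcongr
  -- the errors
  have h3 : 6 * b + δ + β * M * (1 / 100 * δ) + β * (100 * M * (k : ℝ) ^ 2 * δ) ≤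
      10 ^ 7 * (k : ℝ) ^ 6 * β * b := by
    have hk2 : (1 : ℝ) ≤ (k : ℝ) ^ 2 := one_le_pow₀ hk1
    have hk4 : (1 : ℝ) ≤ (k : ℝ) ^ 4 := one_le_pow₀ hk1
    have hk6 : (1 : ℝ) ≤ (k : ℝ) ^ 6 := one_le_pow₀ hk1
    have hk24 : (k : ℝ) ^ 2 ≤ (k : ℝ) ^ 4 := pow_le_pow_right₀ hk1 (by norm_num)
    have a1 : 6 * b ≤ 6 * ((k : ℝ) ^ 6 * β * b) := by
      have : (1 : ℝ) ≤ (k : ℝ) ^ 6 * β := one_le_mul_of_one_le_of_one_le hk6 hβ
      nlinarith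
    have a2 : δ ≤ β * (k : ℝ) ^ 4 * δ := by
      have : (1 : ℝ) ≤ β * (k : ℝ) ^ 4 := one_le_mul_of_one_le_of_one_le hβ hk4
      nlinarith
    have a3 : β * M * (1 / 100 * δ) ≤ β * (k : ℝ) ^ 4 * δ := by
      have h5 : M ≤ (k : ℝ) ^ 4 := hMk.trans hk24
      have h6 : β * M * δ ≤ β * (k : ℝ) ^ 4 * δ := by gcongr
      have h7 : 0 ≤ β * M * δ := by positivity
      linarith
    have a4 : β * (100 * M * (k : ℝ) ^ 2 * δ) ≤ 100 * (β * (k : ℝ) ^ 4 * δ) := by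
      have h5 : M * (k : ℝ) ^ 2 ≤ (k : ℝ) ^ 4 := by
        calc M * (k : ℝ) ^ 2 ≤ (k : ℝ) ^ 2 * (k : ℝ) ^ 2 := by gcongr
          _ = _ := by ring
      calc β * (100 * M * (k : ℝ) ^ 2 * δ) = 100 * (β * (M * (k : ℝ) ^ 2) * δ) := by ring
        _ ≤ 100 * (β * (k : ℝ) ^ 4 * δ) := by gcongr
    have a5 : β * (k : ℝ) ^ 4 * δ ≤ 1404 * ((k : ℝ) ^ 6 * β * b) := by
      calc β * (k : ℝ) ^ 4 * δ ≤ β * (k : ℝ) ^ 4 * (1404 * (k : ℝ) ^ 2 * b) := by gcongr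
        _ = _ := by ring
    have a6 : 0 ≤ (k : ℝ) ^ 6 * β * b := by positivity
    nlinarith
  nlinarith
  
end Pool.Agent.J4.H83.SG
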