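import Pool.Agent.J4.H83.SG.FinDefs

/-!
# Steep Gaussians: density one and mixtures
-/

set_option autoImplicit false

open MeasureTheory Set

namespace Pool.Agent.J4.H83.SG

namespace FinBAux

theorem spc_pos : 0 < spc := Real.rpow_pos_of_pos (by norm_num) _

theorem spc_four : spc ^ 4 = 4 / 3 := by
  unfold spc
  rw [← Real.rpow_natCast, ← Real.rpow_mul (by norm_num)]
  norm_num

theorem spc_sq : spc ^ 2 * √3 = 2 := by
  have h1 : (spc ^ 2 * √3) ^ 2 = 2 ^ 2 := by
    rw [mul_pow, Real.sq_sqrt (by norm_num), ← pow_mul, spc_four]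
    norm_num
  exact (pow_left_inj₀ (by positivity) (by norm_num) two_ne_zero).1 h1

theorem ofReal_tsum_le {ι : Type} (f : ι → ℝ) (hf : ∀ i, 0 ≤ f i) :
    ENNReal.ofReal (∑' i, f i) ≤ ∑' i, ENNReal.ofReal (f i) := by
  by_cases h : Summable f
  · rw [ENNReal.ofReal_tsum_of_nonneg hf h]
  · rw [tsum_eq_zero_of_not_summable h]
    simp

/-- the norms of the lattice vectors -/
theorem hex_norm (q : ℤ × ℤ) :
    ‖(0 : ℂ) - 0 + (q.1 * (spc : ℂ) + q.2 * (⟨spc / 2, spc * √3 / 2⟩ : ℂ))‖ ^ 2 =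
      spc ^ 2 * ((q.1 : ℝ) ^ 2 + q.1 * q.2 + (q.2 : ℝ) ^ 2) := by
  have h3 : √3 * √3 = 3 := Real.mul_self_sqrt (by norm_num)
  rw [Complex.sq_norm, Complex.normSq_apply]
  simp only [sub_self, zero_add, Complex.add_re, Complex.add_im, Complex.mul_re, Complex.mul_im,
    Complex.intCast_re, Complex.intCast_im, Complex.ofReal_re, Complex.ofReal_im, zero_mul,
    mul_zero, sub_zero, add_zero]
  linear_combination ((q.2 : ℝ) ^ 2 * spc ^ 2 / 4) * h3

theorem hex_zero (q : ℤ × ℤ) :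
    (0 : ℂ) - 0 + (q.1 * (spc : ℂ) + q.2 * (⟨spc / 2, spc * √3 / 2⟩ : ℂ)) = 0 ↔ q = 0 := by
  constructor
  · intro h
    have h1 := hex_norm q
    rw [h, norm_zero, zero_pow two_ne_zero] at h1
    have h2 : (q.1 : ℝ) ^ 2 + q.1 * q.2 + (q.2 : ℝ) ^ 2 = 0 := by
      rcases mul_eq_zero.1 h1.symm with h2 | h2
      · exact absurd h2 (pow_pos spc_pos 2).ne'
      · exact h2
    have h3 : (q.2 : ℝ) = 0 := by nlinarith [sq_nonneg ((q.1 : ℝ) + q.2 / 2)]
    have h4 : (q.1 : ℝ) = 0 := by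
      rw [h3] at h2
      nlinarith
    exact Prod.ext (by exact_mod_cast h4) (by exact_mod_cast h3)
  · rintro rfl
    simp

open Classical in
/-- the energy of the hexagonal lattice -/
theorem hex_eq (α : ℝ) : hexEnergy (gauss α) = ∑' q : ℤ × ℤ, if q = 0 then 0 else
    ENNReal.ofReal (Real.exp (-(α * spc ^ 2) *
      ((q.1 : ℝ) ^ 2 + q.1 * q.2 + (q.2 : ℝ) ^ 2))) := by
  unfold hexEnergy energy
  rw [Nat.cast_one, div_one, Fin.sum_univ_one, Fin.sum_univ_one]
  refine tsum_congr fun q => ?_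
  by_cases hq : q = 0
  · rw [if_pos ((hex_zero q).2 hq), if_pos hq]
  · rw [if_neg (fun h => hq ((hex_zero q).1 h)), if_neg hq]
    unfold gauss
    rw [hex_norm]
    congr 2
    ring

theorem measurable_gauss (r : ℝ) : Measurable fun α : ℝ => gauss α r := by
  unfold gauss
  exact (Continuous.measurable (by fun_prop)).ennreal_ofReal

/-- Tonelli -/
theorem energy_mix (μ : Measure ℝ) {N : ℕ} (u v : ℂ) (x : Fin N → ℂ) :
    energy (mix μ) u v x = ∫⁻ α, energy (gauss α) u v x ∂μ := by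
  classical
  have hm : ∀ (j k : Fin N) (q : ℤ × ℤ), Measurable fun α : ℝ =>
      (if x j - x k + (q.1 * u + q.2 * v) = 0 then 0
        else gauss α ‖x j - x k + (q.1 * u + q.2 * v)‖ : ENNReal) := by
    intro j k q
    split_ifs
    · exact measurable_const
    · exact measurable_gauss _
  have hmt : ∀ (j k : Fin N), Measurable fun α : ℝ => ∑' q : ℤ × ℤ,
      (if x j - x k + (q.1 * u + q.2 * v) = 0 then 0
        else gauss α ‖x j - x k + (q.1 * u + q.2 * v)‖ : ENNReal) :=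
    fun j k => Measurable.tsum fun q => hm j k q
  have hms : ∀ j : Fin N, Measurable fun α : ℝ => ∑ k, ∑' q : ℤ × ℤ,
      (if x j - x k + (q.1 * u + q.2 * v) = 0 then 0
        else gauss α ‖x j - x k + (q.1 * u + q.2 * v)‖ : ENNReal) :=
    fun j => Finset.measurable_sum _ fun k _ => hmt j k
  have h1 : ∫⁻ α, energy (gauss α) u v x ∂μ = (∫⁻ α, ∑ j, ∑ k, ∑' q : ℤ × ℤ,
      (if x j - x k + (q.1 * u + q.2 * v) = 0 then 0
        else gauss α ‖x j - x k + (q.1 * u + q.2 * v)‖ : ENNReal) ∂μ) * (N : ENNReal)⁻¹ := by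
    rw [← lintegral_mul_const _ (Finset.measurable_sum _ fun j _ => hms j)]
    refine lintegral_congr fun α => ?_
    unfold energy
    rw [div_eq_mul_inv]
  rw [h1, lintegral_finsetSum _ fun j _ => hms j]
  unfold energy
  rw [div_eq_mul_inv]
  congr 1
  refine Finset.sum_congr rfl fun j _ => ?_
  rw [lintegral_finsetSum _ fun k _ => hmt j k]
  refine Finset.sum_congr rfl fun k _ => ?_
  rw [lintegral_tsum fun q => (hm j k q).aemeasurable]
  refine tsum_congr fun q => ?_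
  by_cases hq : x j - x k + (q.1 * u + q.2 * v) = 0
  · simp only [if_pos hq, lintegral_zero]
  · simp only [if_neg hq]
    rfl

end FinBAux

open FinBAux

theorem hex_conf : IsConf (spc : ℂ) ⟨spc / 2, spc * √3 / 2⟩ (fun _ : Fin 1 => (0 : ℂ)) where
  pos := one_pos
  covol := by
    have h := spc_sq
    have h1 : (spc : ℂ).re * (⟨spc / 2, spc * √3 / 2⟩ : ℂ).im -
        (spc : ℂ).im * (⟨spc / 2, spc * √3 / 2⟩ : ℂ).re = 1 := by
      simp only [Complex.ofReal_re, Complex.ofReal_im, zero_mul, sub_zero]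
      linear_combination h / 2
    rw [h1, abs_one, Nat.cast_one]
  distinct := fun j k hjk => absurd (Subsingleton.elim j k) hjk

/-- from units of the lattice spacing to density one, and to mixtures -/
theorem final_of (main : ∃ β₀ : ℝ, 1 ≤ β₀ ∧ ∀ β : ℝ, β₀ ≤ β → ∀ (N : ℕ), 0 < N → ∀ (u v : ℂ),
    |(starRingEnd ℂ u * v).im| = √3 / 2 * N → ∀ x : Fin N → ℂ,
      (∀ j k, ∀ m n : ℤ, x j - x k + m * u + n * v = 0 → j = k) →
      ∀ s : Finset {p : ℤ × ℤ // p ≠ 0},
        N * ∑ p ∈ s, Real.exp (-β * ((p.1.1 : ℝ) ^ 2 + p.1.1 * p.1.2 + (p.1.2 : ℝ) ^ 2)) ≤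
          ∑ j, ∑ k, ∑' p : ℤ × ℤ, (if x j - x k + p.1 * u + p.2 * v = 0 then 0
            else Real.exp (-β * ‖x j - x k + p.1 * u + p.2 * v‖ ^ 2))) :
    ∃ α₀ : ℝ, 0 < α₀ ∧
      (∀ α : ℝ, α₀ ≤ α → ∀ (N : ℕ) (u v : ℂ) (x : Fin N → ℂ), IsConf u v x →
        hexEnergy (gauss α) ≤ energy (gauss α) u v x) ∧
      (∀ μ : Measure ℝ, μ (Iio α₀) = 0 → ∀ (N : ℕ) (u v : ℂ) (x : Fin N → ℂ), IsConf u v x →
        hexEnergy (mix μ) ≤ energy (mix μ) u v x) := by
  classical
  obtain ⟨β₀, hβ₀, hmain⟩ := main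
  have hsp := spc_pos
  have hsp2 : 0 < spc ^ 2 := by positivity
  have hspc : (spc : ℂ) ≠ 0 := by exact_mod_cast hsp.ne'
  have key : ∀ α : ℝ, β₀ / spc ^ 2 ≤ α → ∀ (N : ℕ) (u v : ℂ) (x : Fin N → ℂ), IsConf u v x →
      hexEnergy (gauss α) ≤ energy (gauss α) u v x := by
    intro α hα N u v x hx
    have hβ : β₀ ≤ α * spc ^ 2 := by
      rwa [div_le_iff₀ hsp2] at hα
    have hN : (0 : ℝ) < N := by exact_mod_cast hx.pos
    have hlin : ∀ (j k : Fin N) (m n : ℤ), x j / spc - x k / spc + m * (u / spc) + n * (v / spc) =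
        (x j - x k + (m * u + n * v)) / spc := by
      intro j k m n
      field_simp
      ring
    have hcov : |(starRingEnd ℂ (u / spc) * (v / spc)).im| = √3 / 2 * N := by
      have h1 : (starRingEnd ℂ (u / spc) * (v / spc)).im =
          (u.re * v.im - u.im * v.re) * (√3 / 2) := by
        have h2 : starRingEnd ℂ (u / spc) * (v / spc) =
            ((1 / spc ^ 2 : ℝ) : ℂ) * (starRingEnd ℂ u * v) := by
          rw [map_div₀, Complex.conj_ofReal]
          push_cast
          field_simp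
        have h3 : 1 / spc ^ 2 = √3 / 2 := by
          rw [div_eq_div_iff hsp2.ne' two_ne_zero]
          linarith [spc_sq]
        rw [h2, Complex.im_ofReal_mul, h3, Complex.mul_im, Complex.conj_re, Complex.conj_im]
        ring
      rw [h1, abs_mul, hx.covol, abs_of_nonneg (by positivity)]
      ring
    have h1 := hmain (α * spc ^ 2) hβ N hx.pos (u / spc) (v / spc) hcov (fun j => x j / spc) (by
      intro j k m n h
      by_contra hjk
      rw [hlin, div_eq_zero_iff] at h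
      rcases h with h | h
      · exact hx.distinct j k hjk m n h
      · exact hspc h)
    -- the right hand side
    have h2 : ENNReal.ofReal (∑ j, ∑ k, ∑' p : ℤ × ℤ,
        (if x j / spc - x k / spc + p.1 * (u / spc) + p.2 * (v / spc) = 0 then 0
            else Real.exp (-(α * spc ^ 2) *
              ‖x j / spc - x k / spc + p.1 * (u / spc) + p.2 * (v / spc)‖ ^ 2))) ≤
        ∑ j, ∑ k, ∑' q : ℤ × ℤ, (if x j - x k + (q.1 * u + q.2 * v) = 0 then 0
          else gauss α ‖x j - x k + (q.1 * u + q.2 * v)‖ : ENNReal) := by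
      have hnn : ∀ (j k : Fin N) (p : ℤ × ℤ), (0 : ℝ) ≤
          (if x j / spc - x k / spc + p.1 * (u / spc) + p.2 * (v / spc) = 0 then 0
            else Real.exp (-(α * spc ^ 2) *
              ‖x j / spc - x k / spc + p.1 * (u / spc) + p.2 * (v / spc)‖ ^ 2)) := by
        intro j k p
        split_ifs
        · exact le_rfl
        · exact (Real.exp_pos _).le
      rw [ENNReal.ofReal_sum_of_nonneg fun j _ => Finset.sum_nonneg fun k _ =>
        tsum_nonneg fun p => hnn j k p]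
      refine Finset.sum_le_sum fun j _ => ?_
      rw [ENNReal.ofReal_sum_of_nonneg fun k _ => tsum_nonneg fun p => hnn j k p]
      refine Finset.sum_le_sum fun k _ => ?_
      refine (ofReal_tsum_le _ fun p => hnn j k p).trans (le_of_eq ?_)
      refine tsum_congr fun p => ?_
      rw [hlin]
      by_cases hp : x j - x k + (p.1 * u + p.2 * v) = 0
      · rw [if_pos hp, hp, zero_div, if_pos rfl, ENNReal.ofReal_zero]
      · rw [if_neg hp, if_neg (div_ne_zero hp hspc)]
        unfold gauss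
        rw [norm_div, Complex.norm_real, Real.norm_of_nonneg hsp.le, div_pow]
        congr 2
        field_simp
    rw [hex_eq]
    unfold energy
    rw [ENNReal.le_div_iff_mul_le (Or.inl (by exact_mod_cast hx.pos.ne'))
      (Or.inl (ENNReal.natCast_ne_top N)), mul_comm]
    have h3 : (N : ENNReal) * (∑' q : ℤ × ℤ, if q = 0 then 0 else
        ENNReal.ofReal (Real.exp (-(α * spc ^ 2) *
          ((q.1 : ℝ) ^ 2 + q.1 * q.2 + (q.2 : ℝ) ^ 2)))) =
        ∑' q : ℤ × ℤ, (N : ENNReal) * (if q = 0 then 0 else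
        ENNReal.ofReal (Real.exp (-(α * spc ^ 2) *
          ((q.1 : ℝ) ^ 2 + q.1 * q.2 + (q.2 : ℝ) ^ 2)))) := ENNReal.tsum_mul_left.symm
    rw [h3]
    refine ENNReal.summable.tsum_le_of_sum_le fun s => ?_
    rw [← Finset.mul_sum]
    have h4 : ∑ q ∈ s, (if q = 0 then 0 else ENNReal.ofReal (Real.exp (-(α * spc ^ 2) *
          ((q.1 : ℝ) ^ 2 + q.1 * q.2 + (q.2 : ℝ) ^ 2)))) =
        ENNReal.ofReal (∑ p ∈ s.subtype (fun q => q ≠ 0), Real.exp (-(α * spc ^ 2) *
          ((p.1.1 : ℝ) ^ 2 + p.1.1 * p.1.2 + (p.1.2 : ℝ) ^ 2))) := by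
      rw [ENNReal.ofReal_sum_of_nonneg fun p _ => (Real.exp_pos _).le,
        Finset.sum_subtype_eq_sum_filter (s := s) (p := fun q : ℤ × ℤ => q ≠ 0)
          (fun q : ℤ × ℤ => ENNReal.ofReal (Real.exp (-(α * spc ^ 2) *
          ((q.1 : ℝ) ^ 2 + q.1 * q.2 + (q.2 : ℝ) ^ 2)))), Finset.sum_filter]
      refine Finset.sum_congr rfl fun q _ => ?_
      by_cases hq : q = 0
      · simp [hq]
      · simp [hq]
    rw [h4]
    have h5 : (N : ENNReal) = ENNReal.ofReal (N : ℝ) := (ENNReal.ofReal_natCast N).symm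
    rw [h5, ← ENNReal.ofReal_mul hN.le]
    refine (ENNReal.ofReal_le_ofReal (h1 (s.subtype fun q => q ≠ 0))).trans ?_
    refine le_trans (le_of_eq ?_) (h2.trans (le_of_eq ?_))
    · congr!
    · congr!
  refine ⟨β₀ / spc ^ 2, by positivity, key, ?_⟩
  intro μ hμ N u v x hx
  have h1 : hexEnergy (mix μ) = ∫⁻ α, hexEnergy (gauss α) ∂μ := energy_mix μ _ _ _
  rw [h1, energy_mix]
  refine lintegral_mono_ae ?_
  have h2 : ∀ᵐ α ∂μ, α ∉ Iio (β₀ / spc ^ 2) := measure_eq_zero_iff_ae_notMem.1 hμ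
  filter_upwards [h2] with α hα
  exact key α (not_lt.1 hα) N u v x hx

end Pool.Agent.J4.H83.SG
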