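import Mathlib

/-!
# Energies of periodic configurations in the plane: definitions for the theorem on steep Gaussians
-/

set_option autoImplicit false

open MeasureTheory Set

namespace Pool.Agent.J4.H83.SG

/-- The lattice `Λ = ℤ u + ℤ v` in the plane has covolume `N ≥ 1` (in particular `u` and `v` are linearly
independent), and the cosets `x j + Λ` of the `N` points `x j` are distinct: their union is a periodic
configuration of density one. -/
structure IsConf {N : ℕ} (u v : ℂ) (x : Fin N → ℂ) : Prop where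
  pos : 0 < N
  covol : |u.re * v.im - u.im * v.re| = N
  distinct : ∀ j k, j ≠ k → ∀ m n : ℤ, x j - x k + (m * u + n * v) ≠ 0

open Classical in
/-- The energy per particle `E_p(C)` of the union `C` of the cosets `x j + Λ`, `Λ = ℤ u + ℤ v`, for the
potential `p`, with values in `[0, ∞]`. -/
noncomputable def energy (p : ℝ → ENNReal) {N : ℕ} (u v : ℂ) (x : Fin N → ℂ) : ENNReal :=
  (∑ j, ∑ k, ∑' q : ℤ × ℤ, if x j - x k + (q.1 * u + q.2 * v) = 0 then 0
    else p ‖x j - x k + (q.1 * u + q.2 * v)‖) / N

/-- The Gaussian potential `p_α(r) = exp(-α r²)`. -/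
noncomputable def gauss (α : ℝ) (r : ℝ) : ENNReal := ENNReal.ofReal (Real.exp (-α * r ^ 2))

/-- The mixture of Gaussians `p(r) = ∫ exp(-α r²) dμ(α)`. -/
noncomputable def mix (μ : Measure ℝ) (r : ℝ) : ENNReal := ∫⁻ α, gauss α r ∂μ

/-- The spacing `a = (4/3)^{1/4}` of the hexagonal lattice of density one. -/
noncomputable def spc : ℝ := (4 / 3 : ℝ) ^ (1 / 4 : ℝ)

/-- The energy of the hexagonal lattice of density one, `ℤ (a, 0) + ℤ (a / 2, a √3 / 2)`. -/
noncomputable def hexEnergy (p : ℝ → ENNReal) : ENNReal :=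
  energy p (spc : ℂ) ⟨spc / 2, spc * √3 / 2⟩ (fun _ : Fin 1 => 0)

end Pool.Agent.J4.H83.SG
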