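import Pool.Agent.J4.H83.SG.FinU
import Pool.Agent.J4.H83.SG.DefsG

/-!
# Steep log-convex potentials: from units of the spacing to density one
-/

set_option autoImplicit false

open MeasureTheory Set

namespace Pool.Agent.J4.H83.SG

open Pool.Agent.J4.H83.OO

namespace FinGAux

open FinBAux FinUAux

/-- the quadratic form of the hexagonal lattice is positive -/
theorem Q_pos {q : ℤ × ℤ} (hq : q ≠ 0) : 0 < (q.1 : ℝ) ^ 2 + q.1 * q.2 + (q.2 : ℝ) ^ 2 := by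
  have h0 : 0 ≤ (q.1 : ℝ) ^ 2 + q.1 * q.2 + (q.2 : ℝ) ^ 2 := by
    nlinarith [sq_nonneg ((q.1 : ℝ) + q.2), sq_nonneg (q.1 : ℝ), sq_nonneg (q.2 : ℝ)]
  rcases h0.lt_or_eq with h | h
  · exact h
  · exfalso
    apply hq
    have h3 : (q.2 : ℝ) = 0 := by nlinarith [sq_nonneg ((q.1 : ℝ) + q.2 / 2)]
    have h4 : (q.1 : ℝ) = 0 := by
      rw [h3] at h
      nlinarith
    exact Prod.ext (by exact_mod_cast h4) (by exact_mod_cast h3)

theorem right {N : ℕ} {f : ℝ → ℝ} (hf : ∀ y, 0 < y → 0 < f y) {u v : ℂ} {x : Fin N → ℂ}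
    (hx : IsConf u v x) :
    ENNReal.ofReal (EpF (fun y => f (spc ^ 2 * y)) (u / spc) (v / spc) fun j => x j / spc) ≤
      N * energy (pot f) u v x := by
  classical
  have hsp := spc_pos
  have hspc := spc_ne
  have h0 : (N : ENNReal) * energy (pot f) u v x = ∑ j, ∑ k, ∑' q : ℤ × ℤ,
      (if x j - x k + (q.1 * u + q.2 * v) = 0 then 0
        else pot f ‖x j - x k + (q.1 * u + q.2 * v)‖ : ENNReal) := by
    unfold energy
    rw [ENNReal.mul_div_cancel (by exact_mod_cast hx.pos.ne') (ENNReal.natCast_ne_top N)]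
  rw [h0]
  unfold EpF
  have hnn : ∀ (j k : Fin N) (p : ℤ × ℤ), (0 : ℝ) ≤
      (if x j / spc - x k / spc + p.1 * (u / spc) + p.2 * (v / spc) = 0 then 0
        else f (spc ^ 2 *
          ‖x j / spc - x k / spc + p.1 * (u / spc) + p.2 * (v / spc)‖ ^ 2)) := by
    intro j k p
    split_ifs with h
    · exact le_rfl
    · have h1 := norm_pos_iff.2 h
      exact (hf _ (by positivity)).le
  rw [ENNReal.ofReal_sum_of_nonneg fun j _ => Finset.sum_nonneg fun k _ =>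
    tsum_nonneg fun p => hnn j k p]
  refine Finset.sum_le_sum fun j _ => ?_
  rw [ENNReal.ofReal_sum_of_nonneg fun k _ => tsum_nonneg fun p => hnn j k p]
  refine Finset.sum_le_sum fun k _ => ?_
  refine (ofReal_tsum_le _ fun p => hnn j k p).trans (le_of_eq ?_)
  refine tsum_congr fun p => ?_
  rw [lin]
  by_cases hp : x j - x k + (p.1 * u + p.2 * v) = 0
  · rw [if_pos hp, hp, zero_div, if_pos rfl, ENNReal.ofReal_zero]
  · rw [if_neg hp, if_neg (div_ne_zero hp hspc)]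
    unfold pot
    rw [norm_div, Complex.norm_real, Real.norm_of_nonneg hsp.le, div_pow]
    congr 2
    field_simp

open Classical in
theorem hexF_eq (f : ℝ → ℝ) : hexEnergy (pot f) = ∑' q : ℤ × ℤ, if q = 0 then 0 else
    ENNReal.ofReal (f (spc ^ 2 * ((q.1 : ℝ) ^ 2 + q.1 * q.2 + (q.2 : ℝ) ^ 2))) := by
  unfold hexEnergy energy
  rw [Nat.cast_one, div_one, Fin.sum_univ_one, Fin.sum_univ_one]
  refine tsum_congr fun q => ?_
  by_cases hq : q = 0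
  · rw [if_pos ((hex_zero q).2 hq), if_pos hq]
  · rw [if_neg (fun h => hq ((hex_zero q).1 h)), if_neg hq]
    unfold pot
    rw [hex_norm]

theorem left {f : ℝ → ℝ} (hf : ∀ y, 0 < y → 0 < f y) (N : ℕ) (g E : ℝ) (hg : 0 ≤ g)
    (h : ∀ s : Finset {p : ℤ × ℤ // p ≠ 0}, N * ∑ p ∈ s, f (spc ^ 2 *
      ((p.1.1 : ℝ) ^ 2 + p.1.1 * p.1.2 + (p.1.2 : ℝ) ^ 2)) + g ≤ E) :
    (N : ENNReal) * hexEnergy (pot f) + ENNReal.ofReal g ≤ ENNReal.ofReal E := by
  classical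
  have hsp := spc_pos
  have hnn : ∀ p : {p : ℤ × ℤ // p ≠ 0}, 0 ≤ f (spc ^ 2 *
      ((p.1.1 : ℝ) ^ 2 + p.1.1 * p.1.2 + (p.1.2 : ℝ) ^ 2)) := fun p =>
    (hf _ (mul_pos (by positivity) (Q_pos p.2))).le
  rw [hexF_eq, ENNReal.tsum_eq_iSup_sum, ENNReal.mul_iSup, ENNReal.iSup_add]
  refine iSup_le fun s => ?_
  have h4 : ∑ q ∈ s, (if q = 0 then 0 else ENNReal.ofReal (f (spc ^ 2 *
        ((q.1 : ℝ) ^ 2 + q.1 * q.2 + (q.2 : ℝ) ^ 2)))) =
      ENNReal.ofReal (∑ p ∈ s.subtype (fun q => q ≠ 0), f (spc ^ 2 *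
        ((p.1.1 : ℝ) ^ 2 + p.1.1 * p.1.2 + (p.1.2 : ℝ) ^ 2))) := by
    rw [ENNReal.ofReal_sum_of_nonneg fun p _ => hnn p,
      Finset.sum_subtype_eq_sum_filter (s := s) (p := fun q : ℤ × ℤ => q ≠ 0)
        (fun q : ℤ × ℤ => ENNReal.ofReal (f (spc ^ 2 *
        ((q.1 : ℝ) ^ 2 + q.1 * q.2 + (q.2 : ℝ) ^ 2)))), Finset.sum_filter]
    refine Finset.sum_congr rfl fun q _ => ?_
    by_cases hq : q = 0
    · simp [hq]
    · simp [hq]
  have h5 : (N : ENNReal) = ENNReal.ofReal (N : ℝ) := (ENNReal.ofReal_natCast N).symm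
  have h6 : (N : ENNReal) * ∑ q ∈ s, (if q = 0 then 0 else ENNReal.ofReal (f
      (spc ^ 2 * ((q.1 : ℝ) ^ 2 + q.1 * q.2 + (q.2 : ℝ) ^ 2)))) + ENNReal.ofReal g ≤
      ENNReal.ofReal E := by
    rw [h4, h5, ← ENNReal.ofReal_mul (Nat.cast_nonneg N), ← ENNReal.ofReal_add (mul_nonneg
      (Nat.cast_nonneg N) (Finset.sum_nonneg fun p _ => hnn p)) hg]
    exact ENNReal.ofReal_le_ofReal (h _)
  refine le_trans (le_of_eq ?_) h6
  congr!

theorem EpF_div {N : ℕ} (g : ℝ → ℝ) (c : ℝ) (u v : ℂ) (x : Fin N → ℂ) :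
    EpF (fun y => g y / c) u v x = EpF g u v x / c := by
  unfold EpF
  rw [Finset.sum_div]
  refine Finset.sum_congr rfl fun j _ => ?_
  rw [Finset.sum_div]
  refine Finset.sum_congr rfl fun k _ => ?_
  rw [← tsum_div_const]
  refine tsum_congr fun p => ?_
  split_ifs
  · rw [zero_div]
  · rfl

/-- the statement of `pot_of` -/
def S_pot : Prop := ∀ {f : ℝ → ℝ} {B : ℝ} (hB : 1 ≤ B) (hpos : ∀ y, 0 < y → 0 < f y)
    (hlc : ConvexOn ℝ (Ioi 0) fun y => Real.log (f y))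
    (hanti : AntitoneOn (fun y => y ^ B * f y) (Ici 1)),
    ∃ φ : ℕ → ℝ, ∃ β : ℝ, Pot (fun y => f y / f 1) φ β B

theorem final_of (hpot : S_pot)
    (mainG : ∃ B : ℝ, 2 ≤ B ∧ ∀ (f : ℝ → ℝ) (φ : ℕ → ℝ) (β : ℝ), Pot f φ β B →
      ∀ (N : ℕ), 0 < N → ∀ (u v : ℂ), |(starRingEnd ℂ u * v).im| = √3 / 2 * N → ∀ x : Fin N → ℂ,
      (∀ j k, ∀ m n : ℤ, x j - x k + m * u + n * v = 0 → j = k) →
      (∀ s : Finset {p : ℤ × ℤ // p ≠ 0},
        N * ∑ p ∈ s, f ((p.1.1 : ℝ) ^ 2 + p.1.1 * p.1.2 + (p.1.2 : ℝ) ^ 2) ≤ EpF f u v x) ∧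
      ((∃ c w : ℂ, ‖w‖ = 1 ∧ PC u v x = {y | ∃ m n : ℤ, y = c + w * (m + n * ze)}) ∨
        ∃ g : ℝ, 0 < g ∧ ∀ s : Finset {p : ℤ × ℤ // p ≠ 0},
        N * ∑ p ∈ s, f ((p.1.1 : ℝ) ^ 2 + p.1.1 * p.1.2 + (p.1.2 : ℝ) ^ 2) + g ≤ EpF f u v x)) :
    ∃ B : ℝ, 2 ≤ B ∧ ∀ f : ℝ → ℝ, (∀ y, 0 < y → 0 < f y) →
      ConvexOn ℝ (Ioi 0) (fun y => Real.log (f y)) →
      AntitoneOn (fun y => y ^ B * f y) (Ici (spc ^ 2)) →
      ∀ (N : ℕ) (u v : ℂ) (x : Fin N → ℂ), IsConf u v x →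
        hexEnergy (pot f) ≤ energy (pot f) u v x ∧
        (energy (pot f) u v x = hexEnergy (pot f) → IsHex (points u v x)) := by
  obtain ⟨B, hB, hmain⟩ := mainG
  refine ⟨B, hB, fun f hf hlc hanti N u v x hx => ?_⟩
  have hsp := spc_pos
  have hsp2 : 0 < spc ^ 2 := by positivity
  -- the rescaled function
  set g : ℝ → ℝ := fun y => f (spc ^ 2 * y) with hgdef
  have hgpos : ∀ y, 0 < y → 0 < g y := fun y hy => hf _ (mul_pos hsp2 hy)
  have hglc : ConvexOn ℝ (Ioi 0) fun y => Real.log (g y) := by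
    refine ⟨convex_Ioi 0, fun a ha b hb s t hs ht hst => ?_⟩
    have ha' : spc ^ 2 * a ∈ Ioi (0 : ℝ) := mul_pos hsp2 ha
    have hb' : spc ^ 2 * b ∈ Ioi (0 : ℝ) := mul_pos hsp2 hb
    have h1 := hlc.2 ha' hb' hs ht hst
    have h2 : s • (spc ^ 2 * a) + t • (spc ^ 2 * b) = spc ^ 2 * (s • a + t • b) := by
      simp only [smul_eq_mul]
      ring
    rw [h2] at h1
    exact h1
  have hganti : AntitoneOn (fun y => y ^ B * g y) (Ici 1) := by
    intro a ha b hb hab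
    have ha0 : (0 : ℝ) < a := lt_of_lt_of_le one_pos ha
    have hb0 : (0 : ℝ) < b := lt_of_lt_of_le one_pos hb
    have ha' : spc ^ 2 * a ∈ Ici (spc ^ 2) := by
      have : (1 : ℝ) ≤ a := ha
      exact le_mul_of_one_le_right hsp2.le this
    have hb' : spc ^ 2 * b ∈ Ici (spc ^ 2) := by
      have : (1 : ℝ) ≤ b := hb
      exact le_mul_of_one_le_right hsp2.le this
    have h1 := hanti ha' hb' (mul_le_mul_of_nonneg_left hab hsp2.le)
    dsimp only at h1 ⊢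
    rw [Real.mul_rpow hsp2.le ha0.le, Real.mul_rpow hsp2.le hb0.le, mul_assoc, mul_assoc] at h1
    exact le_of_mul_le_mul_left h1 (Real.rpow_pos_of_pos hsp2 B)
  obtain ⟨φ, β, hP⟩ := hpot (le_trans (by norm_num) hB) hgpos hglc hganti
  have hg1 : 0 < g 1 := hgpos 1 one_pos
  have hN0 : (N : ENNReal) ≠ 0 := by exact_mod_cast hx.pos.ne'
  have hNt : (N : ENNReal) ≠ ⊤ := ENNReal.natCast_ne_top N
  obtain ⟨hA, hBq⟩ := hmain _ φ β hP N hx.pos (u / spc) (v / spc) (cov hx)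
    (fun j => x j / spc) (fun j k m n h => dist hx j k m n h)
  rw [EpF_div] at hA hBq
  have hA' : ∀ s : Finset {p : ℤ × ℤ // p ≠ 0}, N * ∑ p ∈ s, f (spc ^ 2 *
      ((p.1.1 : ℝ) ^ 2 + p.1.1 * p.1.2 + (p.1.2 : ℝ) ^ 2)) + 0 ≤
      EpF g (u / spc) (v / spc) fun j => x j / spc := by
    intro s
    have h1 := hA s
    rw [← Finset.sum_div, ← mul_div_assoc, div_le_div_iff_of_pos_right hg1] at h1
    rw [add_zero]
    exact h1
  have hle : (N : ENNReal) * hexEnergy (pot f) ≤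
      ENNReal.ofReal (EpF g (u / spc) (v / spc) fun j => x j / spc) := by
    have := left hf N 0 (EpF g (u / spc) (v / spc) fun j => x j / spc) le_rfl hA'
    rwa [ENNReal.ofReal_zero, add_zero] at this
  have hR := right hf hx
  refine ⟨(ENNReal.mul_le_mul_iff_right hN0 hNt).1 (hle.trans hR), fun he => ?_⟩
  rcases hBq with ⟨c, w, hw, h⟩ | ⟨γ, hγ, h⟩
  · exact isHex hw h
  · exfalso
    have h' : ∀ s : Finset {p : ℤ × ℤ // p ≠ 0}, N * ∑ p ∈ s, f (spc ^ 2 *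
        ((p.1.1 : ℝ) ^ 2 + p.1.1 * p.1.2 + (p.1.2 : ℝ) ^ 2)) + γ * g 1 ≤
        EpF g (u / spc) (v / spc) fun j => x j / spc := by
      intro s
      have h1 := h s
      rw [← Finset.sum_div, ← mul_div_assoc, le_div_iff₀ hg1, add_mul, div_mul_cancel₀ _ hg1.ne'] at h1
      exact h1
    have h1 := left hf N (γ * g 1) _ (by positivity) h'
    have h2 : (N : ENNReal) * hexEnergy (pot f) ≠ ⊤ :=
      ne_top_of_le_ne_top ENNReal.ofReal_ne_top hle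
    have h3 : (N : ENNReal) * hexEnergy (pot f) < N * energy (pot f) u v x := by
      refine lt_of_lt_of_le (ENNReal.lt_add_right h2 ?_) (h1.trans hR)
      rw [Ne, ENNReal.ofReal_eq_zero]
      exact not_le.2 (by positivity)
    rw [he] at h3
    exact lt_irrefl _ h3

end FinGAux

end Pool.Agent.J4.H83.SG
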