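import Pool.Agent.J4.H83.SG.DefsG

/-!
# Project SG (helper83), round 3, piece SUBG (helper30): slopes of a log-convex function
-/

set_option autoImplicit false

open MeasureTheory Set Filter Topology

namespace Pool.Agent.J4.H83.SG

open Pool.Agent.J4.H83.FV Pool.Agent.J4.H83.HD Pool.Agent.J4.H83.OO

namespace SubG

/-- the right derivative -/
noncomputable def R (g : ℝ → ℝ) (x : ℝ) : ℝ := derivWithin g (Ioi x) x

theorem mem_int {x : ℝ} (hx : 0 < x) : x ∈ interior (Ioi (0 : ℝ)) := by
  rw [interior_Ioi]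
  exact hx

theorem tangent {g : ℝ → ℝ} (hg : ConvexOn ℝ (Ioi 0) g) {x y : ℝ} (hx : 0 < x) (hy : 0 < y) :
    g x + R g x * (y - x) ≤ g y := by
  rcases lt_trichotomy x y with h | h | h
  · have h1 := hg.rightDeriv_le_slope_of_mem_interior (mem_int hx) (mem_Ioi.2 hy) h
    rw [slope_def_field, le_div_iff₀ (sub_pos.2 h)] at h1
    unfold R
    linarith
  · subst h
    simp
  · have h1 := hg.slope_le_leftDeriv_of_mem_interior (mem_Ioi.2 hy) (mem_int hx) h
    have h2 := h1.trans (hg.leftDeriv_le_rightDeriv_of_mem_interior (mem_int hx))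
    rw [slope_def_field, div_le_iff₀ (sub_pos.2 h)] at h2
    unfold R
    linarith

theorem R_mono {g : ℝ → ℝ} (hg : ConvexOn ℝ (Ioi 0) g) {x y : ℝ} (hx : 0 < x) (hxy : x ≤ y) :
    R g x ≤ R g y :=
  hg.monotoneOn_rightDeriv (mem_int hx) (mem_int (hx.trans_le hxy)) hxy

end SubG

open SubG

theorem pot_of {f : ℝ → ℝ} {B : ℝ} (hB : 1 ≤ B) (hpos : ∀ y, 0 < y → 0 < f y)
    (hlc : ConvexOn ℝ (Ioi 0) fun y => Real.log (f y))
    (hanti : AntitoneOn (fun y => y ^ B * f y) (Ici 1)) :
    ∃ φ : ℕ → ℝ, ∃ β : ℝ, Pot (fun y => f y / f 1) φ β B := by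
  have hf1 : 0 < f 1 := hpos 1 one_pos
  -- `f` decreases on `[1, ∞)`
  have hdec : ∀ x y : ℝ, 1 ≤ x → x ≤ y → f y ≤ f x := by
    intro x y hx hxy
    have h1 : y ^ B * f y ≤ x ^ B * f x := hanti (mem_Ici.2 hx) (mem_Ici.2 (hx.trans hxy)) hxy
    have h2 : x ^ B ≤ y ^ B := Real.rpow_le_rpow (by linarith) hxy (by linarith)
    have h3 : 0 < x ^ B := Real.rpow_pos_of_pos (by linarith) _
    have h4 : 0 < f y := hpos y (by linarith)
    have h5 : x ^ B * f y ≤ x ^ B * f x := (mul_le_mul_of_nonneg_right h2 h4.le).trans h1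
    exact le_of_mul_le_mul_left h5 h3
  have hRn : ∀ x : ℝ, 1 ≤ x → R (fun y => Real.log (f y)) x ≤ 0 := by
    intro x hx
    have h1 := tangent hlc (x := x) (y := x + 1) (by linarith) (by linarith)
    have h2 : Real.log (f (x + 1)) ≤ Real.log (f x) :=
      Real.log_le_log (hpos _ (by linarith)) (hdec _ _ hx (by linarith))
    have h3 : R (fun y => Real.log (f y)) x * (x + 1 - x) = R (fun y => Real.log (f y)) x := by ring
    rw [h3] at h1
    linarith
  have hR1 : R (fun y => Real.log (f y)) 1 ≤ -B := by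
    by_contra hcon
    rw [not_le] at hcon
    have hkey : ∀ y : ℝ, 1 < y → R (fun y => Real.log (f y)) 1 * y ≤ -B := by
      intro y hy
      have h1 := tangent hlc (x := 1) (y := y) one_pos (by linarith)
      have h2 : y ^ B * f y ≤ 1 ^ B * f 1 := hanti (mem_Ici.2 le_rfl) (mem_Ici.2 hy.le) hy.le
      rw [Real.one_rpow, one_mul] at h2
      have hyB : 0 < y ^ B := Real.rpow_pos_of_pos (by linarith) _
      have h3 : B * Real.log y + Real.log (f y) ≤ Real.log (f 1) := by
        rw [← Real.log_rpow (by linarith), ← Real.log_mul hyB.ne' (hpos y (by linarith)).ne']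
        exact Real.log_le_log (mul_pos hyB (hpos y (by linarith))) h2
      have h4 : 1 - y⁻¹ ≤ Real.log y := Real.one_sub_inv_le_log_of_pos (by linarith)
      have h5 : R (fun y => Real.log (f y)) 1 * (y - 1) ≤ -B * (1 - y⁻¹) := by nlinarith
      have hy0 : (0 : ℝ) < y - 1 := by linarith
      have h6 : 1 - y⁻¹ = (y - 1) / y := by
        field_simp
      rw [h6] at h5
      have h7 : R (fun y => Real.log (f y)) 1 * (y - 1) * y ≤ -B * (y - 1) := by
        calc R (fun y => Real.log (f y)) 1 * (y - 1) * y ≤ (-B * ((y - 1) / y)) * y :=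
              mul_le_mul_of_nonneg_right h5 (by linarith)
          _ = -B * (y - 1) := by field_simp
      have h8 : (R (fun y => Real.log (f y)) 1 * y) * (y - 1) ≤ -B * (y - 1) := by linarith
      exact le_of_mul_le_mul_right h8 hy0
    obtain ⟨r, hr⟩ : ∃ r, r = R (fun y => Real.log (f y)) 1 := ⟨_, rfl⟩
    rw [← hr] at hcon hkey
    have hr0 : r < 0 := by
      by_contra h
      rw [not_lt] at h
      have := hkey 2 (by norm_num)
      nlinarith
    have h9 : 1 < B / (-r) := by
      rw [lt_div_iff₀ (by linarith)]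
      linarith
    have h10 := hkey ((1 + B / (-r)) / 2) (by linarith)
    have h11 : r * (B / (-r)) = -B := by
      have hr1 : r ≠ 0 := hr0.ne
      rw [div_neg, mul_neg, mul_div_cancel₀ _ hr1]
    have h12 : r * ((1 + B / (-r)) / 2) = (r + -B) / 2 := by
      rw [← h11]
      ring
    rw [h12] at h10
    linarith
  refine ⟨fun n => -R (fun y => Real.log (f y)) n, -R (fun y => Real.log (f y)) 1, ?_⟩
  refine ⟨fun y hy => div_pos (hpos y hy) hf1, ?_, ?_, ?_, ?_, ?_, ?_, ?_⟩
  · intro n hn y hy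
    have hn0 : (0 : ℝ) < n := by exact_mod_cast hn
    have h1 := tangent hlc hn0 hy
    have h2 : f n * Real.exp (R (fun y => Real.log (f y)) n * (y - n)) ≤ f y := by
      have h3 := Real.exp_le_exp.2 h1
      rw [Real.exp_add, Real.exp_log (hpos _ hn0), Real.exp_log (hpos _ hy)] at h3
      exact h3
    show f n / f 1 * Real.exp (-(-R (fun y => Real.log (f y)) n) * (y - n)) ≤ f y / f 1
    rw [neg_neg, div_mul_eq_mul_div]
    exact div_le_div_of_nonneg_right h2 hf1.le
  · intro n hn
    have := hRn n (by exact_mod_cast hn)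
    show 0 ≤ -R (fun y => Real.log (f y)) n
    linarith
  · intro n hn
    have := R_mono hlc one_pos (show (1 : ℝ) ≤ n by exact_mod_cast hn)
    show -R (fun y => Real.log (f y)) n ≤ -R (fun y => Real.log (f y)) 1
    linarith
  · show -R (fun y => Real.log (f y)) ((1 : ℕ) : ℝ) = -R (fun y => Real.log (f y)) 1
    rw [Nat.cast_one]
  · exact div_self hf1.ne'
  · intro y hy
    have h2 : y ^ B * f y ≤ 1 ^ B * f 1 := hanti (mem_Ici.2 le_rfl) (mem_Ici.2 hy) hy
    rw [Real.one_rpow, one_mul] at h2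
    have hyB : 0 < y ^ B := Real.rpow_pos_of_pos (by linarith) _
    show f y / f 1 ≤ y ^ (-B)
    rw [Real.rpow_neg (by linarith), div_le_iff₀ hf1]
    rw [inv_mul_eq_div, le_div_iff₀ hyB, mul_comm]
    exact h2
  · linarith

end Pool.Agent.J4.H83.SG
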