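import Pool.Agent.J4.H83.SG.FinG
import Pool.Agent.J4.H83.SG.SubG

/-!
# Project SG (helper83), round 3: the final step without the hypothesis on `pot_of` (helper20)
-/

set_option autoImplicit false

open MeasureTheory Set Filter Topology

namespace Pool.Agent.J4.H83.SG

open Pool.Agent.J4.H83.FV Pool.Agent.J4.H83.HD Pool.Agent.J4.H83.OO

/-- the final step -/
theorem final_G
    (mainG : ∃ B : ℝ, 2 ≤ B ∧ ∀ (f : ℝ → ℝ) (φ : ℕ → ℝ) (β : ℝ), Pot f φ β B →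
      ∀ (N : ℕ), 0 < N → ∀ (u v : ℂ), |(starRingEnd ℂ u * v).im| = √3 / 2 * N → ∀ x : Fin N → ℂ,
      (∀ j k, ∀ m n : ℤ, x j - x k + m * u + n * v = 0 → j = k) →
      (∀ s : Finset {p : ℤ × ℤ // p ≠ 0},
        N * ∑ p ∈ s, f ((p.1.1 : ℝ) ^ 2 + p.1.1 * p.1.2 + (p.1.2 : ℝ) ^ 2) ≤ EpF f u v x) ∧
      ((∃ c w : ℂ, ‖w‖ = 1 ∧ PC u v x = {y | ∃ m n : ℤ, y = c + w * (m + n * ze)}) ∨
        ∃ g : ℝ, 0 < g ∧ ∀ s : Finset {p : ℤ × ℤ // p ≠ 0},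
        N * ∑ p ∈ s, f ((p.1.1 : ℝ) ^ 2 + p.1.1 * p.1.2 + (p.1.2 : ℝ) ^ 2) + g ≤ EpF f u v x)) :
    ∃ B : ℝ, 2 ≤ B ∧ ∀ f : ℝ → ℝ, (∀ y, 0 < y → 0 < f y) →
      ConvexOn ℝ (Ioi 0) (fun y => Real.log (f y)) →
      AntitoneOn (fun y => y ^ B * f y) (Ici (spc ^ 2)) →
      ∀ (N : ℕ) (u v : ℂ) (x : Fin N → ℂ), IsConf u v x →
        hexEnergy (pot f) ≤ energy (pot f) u v x ∧
        (energy (pot f) u v x = hexEnergy (pot f) → IsHex (points u v x)) :=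
  FinGAux.final_of @pot_of mainG

end Pool.Agent.J4.H83.SG
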