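import Mathlib
import Pool.Agent.J4.H83.SG.DefsG
import Pool.Agent.J4.H83.SG.HexS

/-! Project SG (helper83), piece HEXSG: the energy of the hexagonal lattice is the supremum of the energies of its shells. -/

set_option autoImplicit false

open MeasureTheory Set Filter Topology

namespace Pool.Agent.J4.H83.SG

open HexSAux in
/-- finite form -/
theorem hex_finG {f : ℝ → ℝ} {E : ℝ} (hf : ∀ y, 0 < y → 0 ≤ f y) (h : ∀ K, eF f K ≤ E)
    (s : Finset {p : ℤ × ℤ // p ≠ 0}) :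
    ∑ p ∈ s, f ((p.1.1 : ℝ) ^ 2 + p.1.1 * p.1.2 + (p.1.2 : ℝ) ^ 2) ≤ E := by
  classical
  obtain ⟨F, hF⟩ : ∃ F : ℤ × ℤ → ℝ, F = fun p => f ((p.1 : ℝ) ^ 2 + p.1 * p.2 + (p.2 : ℝ) ^ 2) :=
    ⟨_, rfl⟩
  have hs : ∑ p ∈ s, f ((p.1.1 : ℝ) ^ 2 + p.1.1 * p.1.2 + (p.1.2 : ℝ) ^ 2) = ∑ p ∈ s, F p.1 := by
    rw [hF]
  rw [hs]
  obtain ⟨K, hK⟩ : ∃ K : ℕ, K = s.sup (fun p => p.1.1.natAbs + p.1.2.natAbs) := ⟨_, rfl⟩
  have hc : ∀ p : {p : ℤ × ℤ // p ≠ 0}, ∃ x : Fin 6 × (ℕ × ℕ), p ∈ s →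
      x ∈ (Finset.univ : Finset (Fin 6)) ×ˢ insert (1, 0) (far K) ∧ g x = p.1 := by
    intro p
    by_cases hp : p ∈ s
    · have hle : p.1.1.natAbs + p.1.2.natAbs ≤ K := by
        rw [hK]
        exact Finset.le_sup (f := fun p : {p : ℤ × ℤ // p ≠ 0} =>
          p.1.1.natAbs + p.1.2.natAbs) hp
      obtain ⟨x, hx1, hx2⟩ := cover p.1.1 p.1.2 p.2 K hle
      exact ⟨x, fun _ => ⟨hx1, hx2⟩⟩
    · exact ⟨(0, (0, 0)), fun hp' => absurd hp' hp⟩
  choose ψ hψ using hc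
  have hinj : Set.InjOn ψ s := by
    intro p hp q hq hpq
    apply Subtype.ext
    rw [← (hψ p hp).2, ← (hψ q hq).2, hpq]
  have h1 : ∑ p ∈ s, F p.1 = ∑ x ∈ s.image ψ, F (g x) := by
    rw [Finset.sum_image hinj]
    exact Finset.sum_congr rfl fun p hp => by rw [(hψ p hp).2]
  have e1 : ∀ x : Fin 6 × (ℕ × ℕ), F (g x) = f (Nm x.2.1 x.2.2 : ℝ) := by
    intro x
    rw [hF]
    dsimp only
    rw [g_norm]
  have hpos : ∀ x ∈ (Finset.univ : Finset (Fin 6)) ×ˢ insert (1, 0) (far K), 0 ≤ F (g x) := by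
    intro x hx
    rw [e1]
    apply hf
    have hm : 1 ≤ x.2.1 := by
      rw [Finset.mem_product, Finset.mem_insert] at hx
      rcases hx.2 with h2 | h2
      · rw [h2]
      · unfold far at h2
        rw [Finset.mem_filter, Finset.mem_product, Finset.mem_Icc] at h2
        exact h2.1.1.1
    have hN : 1 ≤ Nm x.2.1 x.2.2 := by
      unfold Nm
      nlinarith [Nat.zero_le (x.2.1 * x.2.2), Nat.zero_le (x.2.2 ^ 2)]
    have : (1 : ℝ) ≤ (Nm x.2.1 x.2.2 : ℝ) := by exact_mod_cast hN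
    linarith
  have h2 : ∑ x ∈ s.image ψ, F (g x) ≤
      ∑ x ∈ (Finset.univ : Finset (Fin 6)) ×ˢ insert (1, 0) (far K), F (g x) := by
    refine Finset.sum_le_sum_of_subset_of_nonneg ?_ fun x hx _ => hpos x hx
    intro x hx
    obtain ⟨p, hp, rfl⟩ := Finset.mem_image.1 hx
    exact (hψ p hp).1
  have h3 : ∑ x ∈ (Finset.univ : Finset (Fin 6)) ×ˢ insert (1, 0) (far K), F (g x) = eF f K := by
    have e2 : ((1, 0) : ℕ × ℕ) ∉ far K := by
      unfold far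
      rw [Finset.mem_filter]
      rintro ⟨_, hh, _⟩
      exact absurd hh (by norm_num)
    rw [Finset.sum_congr rfl fun x _ => e1 x, Finset.sum_product]
    dsimp only
    rw [Finset.sum_const, Finset.card_univ, Fintype.card_fin, nsmul_eq_mul, Finset.sum_insert e2]
    have e3 : Nm 1 0 = 1 := by unfold Nm; norm_num
    unfold eF
    rw [e3]
    push_cast
    ring
  rw [h1]
  exact h2.trans (h3.trans_le (h K))

end Pool.Agent.J4.H83.SG
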