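import Pool.Agent.J4.H83.SG.DefsG

/-!
# Steep log-convex potentials: periodic configurations with two points nearer than `1 / A`

Removing the class of one of the two points lowers the energy by at least `2 f (1 / A²)`.
Here the bound for general periodic configurations is a hypothesis, see `NSepG.lean`.
-/

set_option autoImplicit false

open MeasureTheory Set Filter Topology

namespace Pool.Agent.J4.H83.SG

open Pool.Agent.J4.H83.FV Pool.Agent.J4.H83.HD Pool.Agent.J4.H83.OO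

namespace NSepG

/-- one term of the interaction -/
noncomputable def G (f : ℝ → ℝ) (u v w : ℂ) (p : ℤ × ℤ) : ℝ :=
  if w + p.1 * u + p.2 * v = 0 then 0 else f (‖w + p.1 * u + p.2 * v‖ ^ 2)

lemma G_nonneg {f : ℝ → ℝ} (hf : ∀ y, 0 < y → 0 ≤ f y) (u v w : ℂ) (p : ℤ × ℤ) :
    0 ≤ G f u v w p := by
  unfold G
  split_ifs with h
  · exact le_rfl
  · exact hf _ (pow_pos (norm_pos_iff.2 h) 2)

/-- the interaction of two classes -/
noncomputable def F {N : ℕ} (f : ℝ → ℝ) (u v : ℂ) (x : Fin N → ℂ) (j k : Fin N) : ℝ :=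
  ∑' p : ℤ × ℤ, G f u v (x j - x k) p

lemma F_nonneg {N : ℕ} {f : ℝ → ℝ} (hf : ∀ y, 0 < y → 0 ≤ f y) (u v : ℂ) (x : Fin N → ℂ)
    (j k : Fin N) : 0 ≤ F f u v x j k :=
  tsum_nonneg fun p => G_nonneg hf u v _ p

lemma Ep_eq {N : ℕ} (f : ℝ → ℝ) (u v : ℂ) (x : Fin N → ℂ) :
    EpF f u v x = ∑ j, ∑ k, F f u v x j k := rfl

lemma Ep_succ {n : ℕ} (f : ℝ → ℝ) (u v : ℂ) (x : Fin (n + 1) → ℂ) (k₀ : Fin (n + 1)) :
    EpF f u v x = F f u v x k₀ k₀ + ∑ k, F f u v x k₀ (k₀.succAbove k) +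
      (∑ j, F f u v x (k₀.succAbove j) k₀ + EpF f u v (fun j => x (k₀.succAbove j))) := by
  rw [Ep_eq, Ep_eq, Fin.sum_univ_succAbove _ k₀, Fin.sum_univ_succAbove _ k₀,
    ← Finset.sum_add_distrib]
  congr 1
  refine Finset.sum_congr rfl fun j _ => ?_
  rw [Fin.sum_univ_succAbove _ k₀]
  rfl

lemma term_le {f : ℝ → ℝ} {c A : ℝ} (hg : ∀ y, 0 < y → y ≤ (1 / A) ^ 2 → c ≤ 2 * f y)
    {u v w : ℂ} (p : ℤ × ℤ)
    (h0 : w + p.1 * u + p.2 * v ≠ 0) (h1 : ‖w + p.1 * u + p.2 * v‖ < 1 / A) :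
    c ≤ 2 * G f u v w p := by
  unfold G
  rw [if_neg h0]
  refine hg _ (pow_pos (norm_pos_iff.2 h0) 2) ?_
  have : (0:ℝ) ≤ ‖w + p.1 * u + p.2 * v‖ := norm_nonneg _
  gcongr

lemma F_ge {N : ℕ} {f : ℝ → ℝ} (hf : ∀ y, 0 < y → 0 ≤ f y) {c A : ℝ}
    (hg : ∀ y, 0 < y → y ≤ (1 / A) ^ 2 → c ≤ 2 * f y) {u v : ℂ}
    (hsum : ∀ w : ℂ, Summable fun p : ℤ × ℤ => G f u v w p) (x : Fin N → ℂ) (j k : Fin N)
    (p : ℤ × ℤ)
    (h0 : x j - x k + p.1 * u + p.2 * v ≠ 0) (h1 : ‖x j - x k + p.1 * u + p.2 * v‖ < 1 / A) :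
    c ≤ 2 * F f u v x j k := by
  refine (term_le hg p h0 h1).trans ?_
  have := (hsum (x j - x k)).le_tsum p fun q _ => G_nonneg hf u v _ q
  unfold F
  linarith

lemma F_diag {N : ℕ} {f : ℝ → ℝ} (hf : ∀ y, 0 < y → 0 ≤ f y) {c A : ℝ}
    (hg : ∀ y, 0 < y → y ≤ (1 / A) ^ 2 → c ≤ 2 * f y) {u v : ℂ}
    (hsum : ∀ w : ℂ, Summable fun p : ℤ × ℤ => G f u v w p) (x : Fin N → ℂ) (k : Fin N)
    (p : ℤ × ℤ)
    (h0 : x k - x k + p.1 * u + p.2 * v ≠ 0) (h1 : ‖x k - x k + p.1 * u + p.2 * v‖ < 1 / A) :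
    c ≤ F f u v x k k := by
  have hne : p ≠ -p := by
    intro h
    apply h0
    have h2 : p.1 = 0 := by
      have := congrArg Prod.fst h
      simp only [Prod.fst_neg] at this
      omega
    have h3 : p.2 = 0 := by
      have := congrArg Prod.snd h
      simp only [Prod.snd_neg] at this
      omega
    rw [h2, h3]
    simp
  have e : x k - x k + ((-p).1 : ℤ) * u + ((-p).2 : ℤ) * v = -(x k - x k + p.1 * u + p.2 * v) := by
    simp only [Prod.fst_neg, Prod.snd_neg]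
    push_cast
    ring
  have h2 := term_le hg p h0 h1
  have h3 := term_le (w := x k - x k) (u := u) (v := v) hg (-p) (by rw [e]; exact neg_ne_zero.2 h0)
    (by rw [e, norm_neg]; exact h1)
  have h4 := (hsum (x k - x k)).sum_le_tsum {p, -p} fun q _ => G_nonneg hf u v _ q
  rw [Finset.sum_pair hne] at h4
  unfold F
  linarith

end NSepG

open NSepG in
/-- `nsepG` from the bound for general periodic configurations -/
theorem nsepG_of {f : ℝ → ℝ} {e P g D A : ℝ} (hf : ∀ y, 0 < y → 0 ≤ f y) (hP : 0 ≤ P)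
    (hg : ∀ y, 0 < y → y ≤ (1 / A) ^ 2 → e + P * (√3 / 2) + g ≤ 2 * f y)
    (N : ℕ) (hN : 0 < N) (u v : ℂ) (hDp : 0 < D)
    (hper : ∀ n : ℕ, 0 < n → ∀ x : Fin n → ℂ,
      (∀ j k, ∀ m n : ℤ, x j - x k + m * u + n * v = 0 → j = k) →
      n * (e + P * (√3 / 2)) ≤ EpF f u v x + P * D)
    (x : Fin N → ℂ) (hx : ∀ j k, ∀ m n : ℤ, x j - x k + m * u + n * v = 0 → j = k)
    (hsum : ∀ w : ℂ, Summable fun p : ℤ × ℤ => if w + p.1 * u + p.2 * v = 0 then 0
      else f (‖w + p.1 * u + p.2 * v‖ ^ 2))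
    (hns : ∃ y ∈ PC u v x, ∃ y' ∈ PC u v x, y ≠ y' ∧ ‖y - y'‖ < 1 / A) :
    N * (e + P * (√3 / 2)) + g ≤ EpF f u v x + P * D := by
  obtain ⟨n, rfl⟩ : ∃ n, N = n + 1 := ⟨N - 1, by omega⟩
  obtain ⟨y, ⟨j, a, b, rfl⟩, y', ⟨k, a', b', rfl⟩, hne, hlt⟩ := hns
  have e1 : x j + a * u + b * v - (x k + a' * u + b' * v) =
      x j - x k + ((a - a' : ℤ) : ℂ) * u + ((b - b' : ℤ) : ℂ) * v := by
    push_cast
    ring
  have h0 : x j - x k + ((a - a' : ℤ) : ℂ) * u + ((b - b' : ℤ) : ℂ) * v ≠ 0 := by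
    rw [← e1]
    exact sub_ne_zero.2 hne
  rw [e1] at hlt
  have hsum' : ∀ w : ℂ, Summable fun p : ℤ × ℤ => G f u v w p := hsum
  -- the remaining classes
  have h1 : (n : ℝ) * (e + P * (√3 / 2)) ≤ EpF f u v (fun i => x (k.succAbove i)) + P * D := by
    rcases Nat.eq_zero_or_pos n with hn | hn
    · subst hn
      have : EpF f u v (fun i => x (k.succAbove i)) = 0 := by
        rw [Ep_eq]
        simp
      rw [this]
      push_cast
      have := mul_nonneg hP hDp.le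
      linarith
    · exact hper n hn (fun i => x (k.succAbove i))
        fun i i' m m' h => k.succAbove_right_injective (hx _ _ m m' h)
  -- the removed class
  have h2 : e + P * (√3 / 2) + g ≤ F f u v x k k + ∑ i, F f u v x k (k.succAbove i) +
      ∑ i, F f u v x (k.succAbove i) k := by
    have p1 : 0 ≤ ∑ i, F f u v x k (k.succAbove i) :=
      Finset.sum_nonneg fun i _ => F_nonneg hf u v x _ _
    have p2 : 0 ≤ ∑ i, F f u v x (k.succAbove i) k :=
      Finset.sum_nonneg fun i _ => F_nonneg hf u v x _ _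
    rcases eq_or_ne j k with hjk | hjk
    · subst hjk
      have := F_diag hf hg hsum' x j (a - a', b - b') h0 hlt
      linarith
    · obtain ⟨i, hi⟩ := Fin.exists_succAbove_eq hjk
      have h3 := F_ge hf hg hsum' x j k (a - a', b - b') h0 hlt
      have e2 : x k - x j + ((-(a - a') : ℤ) : ℂ) * u + ((-(b - b') : ℤ) : ℂ) * v =
          -(x j - x k + ((a - a' : ℤ) : ℂ) * u + ((b - b' : ℤ) : ℂ) * v) := by
        push_cast
        ring
      have h4 := F_ge hf hg hsum' x k j (-(a - a'), -(b - b')) (by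
        show x k - x j + ((-(a - a') : ℤ) : ℂ) * u + ((-(b - b') : ℤ) : ℂ) * v ≠ 0
        rw [e2]
        exact neg_ne_zero.2 h0) (by
        show ‖x k - x j + ((-(a - a') : ℤ) : ℂ) * u + ((-(b - b') : ℤ) : ℂ) * v‖ < 1 / A
        rw [e2, norm_neg]
        exact hlt)
      have h5 : F f u v x k j ≤ ∑ i, F f u v x k (k.succAbove i) := by
        rw [← hi]
        exact Finset.single_le_sum (f := fun i => F f u v x k (k.succAbove i))
          (fun i _ => F_nonneg hf u v x _ _) (Finset.mem_univ i)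
      have h6 : F f u v x j k ≤ ∑ i, F f u v x (k.succAbove i) k := by
        rw [← hi]
        exact Finset.single_le_sum (f := fun i => F f u v x (k.succAbove i) k)
          (fun i _ => F_nonneg hf u v x _ _) (Finset.mem_univ i)
      have h7 := F_nonneg hf u v x k k
      linarith
  rw [Ep_succ f u v x k]
  push_cast
  linarith

end Pool.Agent.J4.H83.SG
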