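import Pool.Agent.J4.H83.SG.DefsG
import Pool.Agent.J4.H83.SG.Per2

/-!
# From finite configurations to periodic configurations, general potentials
-/

set_option autoImplicit false

open MeasureTheory Set Filter Topology

namespace Pool.Agent.J4.H83.SG

open Pool.Agent.J4.H83.FV

namespace Per2G

open Per Per2

/-- the term -/
noncomputable def GF (f : ℝ → ℝ) (u v w : ℂ) (p : ℤ × ℤ) : ℝ :=
  if w + p.1 * u + p.2 * v = 0 then 0 else f (‖w + p.1 * u + p.2 * v‖ ^ 2)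

lemma GF_nonneg {f : ℝ → ℝ} (hf : ∀ y, 0 < y → 0 ≤ f y) (u v w : ℂ) (p : ℤ × ℤ) :
    0 ≤ GF f u v w p := by
  unfold GF
  split_ifs with h
  · exact le_rfl
  · have : 0 < ‖w + p.1 * u + p.2 * v‖ := norm_pos_iff.2 h
    exact hf _ (by positivity)

lemma energy_le {f : ℝ → ℝ} (hf : ∀ y, 0 < y → 0 ≤ f y) {N : ℕ} {u v : ℂ} (hD0 : (starRingEnd ℂ u * v).im ≠ 0)
    {x : Fin N → ℂ} (hx : ∀ j k, ∀ m n : ℤ, x j - x k + m * u + n * v = 0 → j = k)
    (hsum : ∀ w : ℂ, Summable (GF f u v w)) (K : ℕ) :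
    ∑ i, ∑ i' ∈ Finset.univ.erase i, f (‖zq u v x K i' - zq u v x K i‖ ^ 2) ≤
      (K : ℝ) ^ 2 * EpF f u v x := by
  have h1 : ∀ i : Fin N × (Fin K × Fin K),
      ∑ i' ∈ Finset.univ.erase i, f (‖zq u v x K i' - zq u v x K i‖ ^ 2) ≤
        ∑ k, ∑' p : ℤ × ℤ, GF f u v (x k - x i.1) p := by
    rintro ⟨j, m, n⟩
    have h2 : ∀ i' ∈ Finset.univ.erase (j, m, n),
        f (‖zq u v x K i' - zq u v x K (j, m, n)‖ ^ 2) =
          GF f u v (x i'.1 - x j) (((i'.2.1 : ℕ) : ℤ) - ((m : ℕ) : ℤ), ((i'.2.2 : ℕ) : ℤ) - ((n : ℕ) : ℤ)) := by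
      rintro ⟨k, m', n'⟩ hi
      have hne := (Finset.mem_erase.1 hi).1
      have e1 := zz_sub u v x K (j, m, n) (k, m', n')
      unfold GF
      rw [if_neg, e1]
      intro h0
      apply hne
      apply zz_inj hD0 hx K
      rw [← sub_eq_zero, e1]
      exact h0
    rw [Finset.sum_congr rfl h2]
    refine (Finset.sum_le_sum_of_subset_of_nonneg (Finset.erase_subset _ _)
      (fun i' _ _ => GF_nonneg hf _ _ _ _)).trans ?_
    rw [Fintype.sum_prod_type]
    refine Finset.sum_le_sum fun k _ => ?_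
    have hinj : Function.Injective fun q : Fin K × Fin K =>
        ((((q.1 : ℕ) : ℤ) - ((m : ℕ) : ℤ), ((q.2 : ℕ) : ℤ) - ((n : ℕ) : ℤ)) : ℤ × ℤ) := by
      rintro ⟨a, b⟩ ⟨a', b'⟩ hab
      simp only [Prod.mk.injEq] at hab
      have h3 : a = a' := Fin.ext (by omega)
      have h4 : b = b' := Fin.ext (by omega)
      rw [h3, h4]
    have h5 := tsum_comp_le_tsum_of_inj (hsum (x k - x j)) (GF_nonneg hf _ _ _) hinj
    rw [tsum_fintype] at h5
    exact h5
  refine (Finset.sum_le_sum fun i _ => h1 i).trans (le_of_eq ?_)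
  rw [Fintype.sum_prod_type]
  simp only [Finset.sum_const, Finset.card_univ, Fintype.card_prod, Fintype.card_fin, nsmul_eq_mul]
  have h6 : EpF f u v x = ∑ j, ∑ k, ∑' p : ℤ × ℤ, GF f u v (x j - x k) p := rfl
  rw [← Finset.mul_sum, h6, Finset.sum_comm]
  push_cast
  ring

lemma Ef_comp {f : ℝ → ℝ} {ι : Type} [Fintype ι] [DecidableEq ι] {M : ℕ} (e : Fin M ≃ ι) (z : ι → ℂ) :
    EfF f (fun i => z (e i)) = ∑ i, ∑ j ∈ Finset.univ.erase i, f (‖z j - z i‖ ^ 2) := by
  unfold EfF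
  rw [← Equiv.sum_comp e (fun i => ∑ j ∈ Finset.univ.erase i, f (‖z j - z i‖ ^ 2))]
  refine Finset.sum_congr rfl fun i _ => ?_
  rw [Finset.sum_erase_eq_sub (Finset.mem_univ _), Finset.sum_erase_eq_sub (Finset.mem_univ _)]
  congr 1
  exact Equiv.sum_comp e (fun j => f (‖z j - z (e i)‖ ^ 2))

end Per2G

open Per Per2 in
theorem per_defectG {f : ℝ → ℝ} {e P s r D : ℝ} (hf : ∀ y, 0 < y → 0 ≤ f y) (he : 0 ≤ e)
    (hP : 0 ≤ P) (hs : 0 ≤ s)
    (N : ℕ) (hN : 0 < N) (u v : ℂ) (hDp : 0 < D) (hD : |(starRingEnd ℂ u * v).im| = D)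
    (x : Fin N → ℂ) (hx : ∀ j k, ∀ m n : ℤ, x j - x k + m * u + n * v = 0 → j = k)
    (hsum : ∀ w : ℂ, Summable fun p : ℤ × ℤ => if w + p.1 * u + p.2 * v = 0 then 0
      else f (‖w + p.1 * u + p.2 * v‖ ^ 2)) (j₀ : Fin N)
    (Q : ∀ M : ℕ, (Fin M → ℂ) → Fin M → Prop)
    (hQ : ∀ (M : ℕ) (z : Fin M → ℂ) (i : Fin M), Loc (PC u v x) r z i →
      (∃ m n : ℤ, z i = x j₀ + m * u + n * v) → Q M z i)
    (H : ∀ (M : ℕ) (z : Fin M → ℂ) (Ω : Set ℂ), Function.Injective z → (∀ l, z l ∈ PC u v x) →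
      MeasurableSet Ω → volume Ω ≠ ⊤ → (∀ i, Metric.ball (z i) R ⊆ Ω) →
      M * (e + P * (√3 / 2)) + s * ({i | Q M z i}.ncard : ℝ) ≤ EfF f z + P * (volume Ω).toReal) :
    N * (e + P * (√3 / 2)) + s ≤ EpF f u v x + P * D := by
  classical
  have hD0 : (starRingEnd ℂ u * v).im ≠ 0 := by
    intro h
    rw [h, abs_zero] at hD
    linarith
  have hR : 0 ≤ R := by
    unfold R
    positivity
  have hs0 : 0 ≤ ∑ j, ‖x j‖ := Finset.sum_nonneg fun i _ => norm_nonneg _
  set c : ℝ := (∑ j, ‖x j‖ + R) * (‖u‖ + ‖v‖) / D with hc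
  have hc0 : 0 ≤ c := by positivity
  obtain ⟨L, hL⟩ := exists_nat_ge ((|r| + 2 * ∑ j, ‖x j‖) * (‖u‖ + ‖v‖) / D)
  have key : ∀ K : ℕ, 1 ≤ K → (N : ℝ) * (K : ℝ) ^ 2 * (e + P * (√3 / 2)) +
      s * ((K : ℝ) ^ 2 - 4 * L * K) ≤
      (K : ℝ) ^ 2 * EpF f u v x + P * (D * (K + 2 * c) ^ 2) := by
    intro K hK
    have hvol := Om_vol hD0 hc0 (Nat.cast_nonneg K)
    rw [hD] at hvol
    have eq := (Fintype.equivFin (Fin N × (Fin K × Fin K))).symm
    set M := Fintype.card (Fin N × (Fin K × Fin K)) with hM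
    have hz : Function.Injective fun i => zq u v x K (eq i) := (zz_inj hD0 hx K).comp eq.injective
    have hPC : ∀ l, zq u v x K (eq l) ∈ PC u v x := fun l =>
      ⟨(eq l).1, (((eq l).2.1 : ℕ) : ℤ), (((eq l).2.2 : ℕ) : ℤ), by
        unfold zq
        push_cast
        rfl⟩
    have h := H M (fun i => zq u v x K (eq i)) (Om u v c K) hz hPC (Om_meas u v c K) hvol.1
      fun i => ball_sub hD0 x (by rw [hD]) K _
    have hcard : (M : ℝ) = N * (K : ℝ) ^ 2 := by
      rw [hM, Fintype.card_prod, Fintype.card_prod, Fintype.card_fin, Fintype.card_fin]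
      push_cast
      ring
    rw [hcard, Per2G.Ef_comp eq (zq u v x K)] at h
    have hen := Per2G.energy_le hf hD0 hx hsum K
    -- the number of the defects
    have hcount : (K : ℝ) ^ 2 - 4 * L * K ≤
        ({i | Q M (fun i => zq u v x K (eq i)) i}.ncard : ℝ) := by
      by_cases hKL : 2 * L ≤ K
      · let g : Fin (K - 2 * L) × Fin (K - 2 * L) → Fin M := fun q =>
          eq.symm (j₀, ⟨(q.1 : ℕ) + L, by omega⟩, ⟨(q.2 : ℕ) + L, by omega⟩)
        have hg : Function.Injective g := by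
          rintro ⟨a, b⟩ ⟨a', b'⟩ hab
          have h1 := eq.symm.injective hab
          simp only [Prod.mk.injEq, Fin.mk.injEq, true_and] at h1
          have h2 : a = a' := Fin.ext (by omega)
          have h3 : b = b' := Fin.ext (by omega)
          rw [h2, h3]
        have hsub : ((Finset.univ.image g : Finset (Fin M)) : Set (Fin M)) ⊆
            {i | Q M (fun i => zq u v x K (eq i)) i} := by
          intro i hi
          rw [Finset.coe_image, Set.mem_image] at hi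
          obtain ⟨q, -, rfl⟩ := hi
          have e1 : eq (g q) = (j₀, ⟨(q.1 : ℕ) + L, by omega⟩, ⟨(q.2 : ℕ) + L, by omega⟩) :=
            eq.apply_symm_apply _
          refine hQ _ _ _ ⟨hz, hPC, fun y hy hr => ?_⟩ ⟨(((q.1 : ℕ) + L : ℕ) : ℤ), (((q.2 : ℕ) + L : ℕ) : ℤ), ?_⟩
          · simp only [e1] at hr
            obtain ⟨i, hi⟩ := interior hD0 x (by rw [hD]; exact hL) K
              (by show L ≤ (q.1 : ℕ) + L; omega) (by show (q.1 : ℕ) + L + L < K; omega)
              (by show L ≤ (q.2 : ℕ) + L; omega) (by show (q.2 : ℕ) + L + L < K; omega) hy hr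
            exact ⟨eq.symm i, by simp only [Equiv.apply_symm_apply]; exact hi⟩
          · simp only [e1]
            unfold zq
            push_cast
            rfl
        have h1 := Set.ncard_le_ncard hsub (Set.toFinite _)
        rw [Set.ncard_coe_finset, Finset.card_image_of_injective _ hg, Finset.card_univ,
          Fintype.card_prod, Fintype.card_fin] at h1
        have h2 : (((K - 2 * L) * (K - 2 * L) : ℕ) : ℝ) ≤
            ({i | Q M (fun i => zq u v x K (eq i)) i}.ncard : ℝ) := by exact_mod_cast h1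
        refine le_trans ?_ h2
        rw [Nat.cast_mul, Nat.cast_sub hKL]
        push_cast
        nlinarith [sq_nonneg (L : ℝ)]
      · push Not at hKL
        have h1 : (K : ℝ) ≤ 2 * L := by exact_mod_cast hKL.le
        have h2 : (0 : ℝ) ≤ ({i | Q M (fun i => zq u v x K (eq i)) i}.ncard : ℝ) := Nat.cast_nonneg _
        have h3 : (0 : ℝ) ≤ K := Nat.cast_nonneg _
        have h4 : (0 : ℝ) ≤ L := Nat.cast_nonneg _
        nlinarith
    have h1 := mul_le_mul_of_nonneg_left hcount hs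
    have h2 := mul_le_mul_of_nonneg_left hvol.2 hP
    linarith
  by_contra hcon
  push Not at hcon
  refine growth (δ := N * (e + P * (√3 / 2)) + s - (EpF f u v x + P * D))
    (A := P * (D * (4 * c)) + s * (4 * L)) (B := P * (D * (4 * c ^ 2)))
    (by linarith) (by positivity) (by positivity) fun K hK => ?_
  have h1 := key K hK
  nlinarith

theorem per_boundG {f : ℝ → ℝ} {e P D : ℝ} (hf : ∀ y, 0 < y → 0 ≤ f y) (he : 0 ≤ e) (hP : 0 ≤ P)
    (H : ∀ (M : ℕ) (z : Fin M → ℂ) (Ω : Set ℂ), Function.Injective z → MeasurableSet Ω →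
      volume Ω ≠ ⊤ → (∀ i, Metric.ball (z i) R ⊆ Ω) →
      M * (e + P * (√3 / 2)) ≤ EfF f z + P * (volume Ω).toReal)
    (N : ℕ) (hN : 0 < N) (u v : ℂ) (hDp : 0 < D) (hD : |(starRingEnd ℂ u * v).im| = D)
    (x : Fin N → ℂ) (hx : ∀ j k, ∀ m n : ℤ, x j - x k + m * u + n * v = 0 → j = k)
    (hsum : ∀ w : ℂ, Summable fun p : ℤ × ℤ => if w + p.1 * u + p.2 * v = 0 then 0
      else f (‖w + p.1 * u + p.2 * v‖ ^ 2)) :
    N * (e + P * (√3 / 2)) ≤ EpF f u v x + P * D := by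
  have h := per_defectG (s := 0) (r := 0) hf he hP le_rfl N hN u v hDp hD x hx hsum ⟨0, hN⟩
    (fun _ _ _ => True) (fun _ _ _ _ _ => trivial) (fun M z Ω h1 _ h2 h3 h4 => by
      rw [zero_mul, add_zero]
      exact H M z Ω h1 h2 h3 h4)
  rwa [add_zero] at h

end Pool.Agent.J4.H83.SG
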