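import Pool.Agent.J4.H83.SG.DefsG
import Pool.Agent.J4.H83.SG.Per

/-!
# Summability over a lattice
-/

set_option autoImplicit false

open MeasureTheory Set Filter Topology

namespace Pool.Agent.J4.H83.SG

open Pool.Agent.J4.H83.FV Pool.Agent.J4.H83.HD Pool.Agent.J4.H83.OO

namespace SumF

lemma summ1 : Summable (fun m : ℤ => 1 / (1 + (m : ℝ) ^ 2)) := by
  have h1 : Summable (fun m : ℤ => 1 / (m : ℝ) ^ 2) :=
    Real.summable_one_div_int_pow.2 (by norm_num)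
  have h2 : Summable (fun m : ℤ => if m = 0 then (1 : ℝ) else 0) :=
    summable_of_finite_support (Set.Finite.subset (Set.finite_singleton (0 : ℤ)) (by
      intro m hm
      by_contra h
      apply hm
      exact if_neg h))
  refine Summable.of_nonneg_of_le (fun m => by positivity) (fun m => ?_) (h1.add h2)
  by_cases h : m = 0
  · rw [h, if_pos rfl]
    norm_num
  · rw [if_neg h, add_zero]
    have hm : (0 : ℝ) < (m : ℝ) ^ 2 := by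
      have : (m : ℝ) ≠ 0 := by exact_mod_cast h
      positivity
    apply one_div_le_one_div_of_le hm
    linarith

lemma summ2 : Summable (fun p : ℤ × ℤ => 1 / (1 + (p.1 : ℝ) ^ 2) * (1 / (1 + (p.2 : ℝ) ^ 2))) :=
  summ1.mul_of_nonneg summ1 (fun m => by positivity) (fun m => by positivity)

lemma ineq {a b : ℝ} (ha : 0 ≤ a) (hb : 0 ≤ b) (h : 1 ≤ a + b) :
    1 / (a + b) ^ 2 ≤ 3 * (1 / (1 + a) * (1 / (1 + b))) := by
  have h1 : 0 < (a + b) ^ 2 := by positivity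
  have h2 : 0 < (1 + a) * (1 + b) := by positivity
  have e : 3 * (1 / (1 + a) * (1 / (1 + b))) = 3 / ((1 + a) * (1 + b)) := by
    field_simp
  rw [e, div_le_div_iff₀ h1 h2]
  nlinarith [mul_nonneg ha hb, sq_nonneg (a - b), mul_nonneg (sub_nonneg.2 h) (add_nonneg ha hb)]

end SumF

open SumF in
theorem sumF {f : ℝ → ℝ} {B : ℝ} (hB : 2 ≤ B) (hf : ∀ y, 0 < y → 0 ≤ f y)
    (hdec : ∀ y, 1 ≤ y → f y ≤ y ^ (-B)) {u v : ℂ} (h : (starRingEnd ℂ u * v).im ≠ 0) (w : ℂ) :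
    Summable fun p : ℤ × ℤ => if w + p.1 * u + p.2 * v = 0 then 0
      else f (‖w + p.1 * u + p.2 * v‖ ^ 2) := by
  have hu : u ≠ 0 := by
    rintro rfl
    simp at h
  have hs : 0 < ‖u‖ ^ 2 + ‖v‖ ^ 2 := by
    have := norm_pos_iff.2 hu
    positivity
  obtain ⟨κ, hκ⟩ : ∃ κ : ℝ, κ = (starRingEnd ℂ u * v).im ^ 2 / (‖u‖ ^ 2 + ‖v‖ ^ 2) := ⟨_, rfl⟩
  have hκ0 : 0 < κ := by rw [hκ]; positivity
  have hlow : ∀ p : ℤ × ℤ, κ * ((p.1 : ℝ) ^ 2 + (p.2 : ℝ) ^ 2) ≤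
      ‖(p.1 : ℂ) * u + p.2 * v‖ ^ 2 := by
    intro p
    rw [hκ, div_mul_eq_mul_div, div_le_iff₀ hs]
    have := Per.lat_le h p
    linarith
  obtain ⟨R, hR⟩ : ∃ R : ℝ, R = 4 * (‖w‖ ^ 2 + 1) / κ + 1 := ⟨_, rfl⟩
  have hR1 : 1 ≤ R := by
    rw [hR]
    have : 0 ≤ 4 * (‖w‖ ^ 2 + 1) / κ := by positivity
    linarith
  have hfin : {p : ℤ × ℤ | ¬ R ≤ (p.1 : ℝ) ^ 2 + (p.2 : ℝ) ^ 2}.Finite := by
    refine Set.Finite.subset ((Set.finite_Icc (-⌈R⌉) ⌈R⌉).prod (Set.finite_Icc (-⌈R⌉) ⌈R⌉)) ?_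
    intro p hp
    have hp' : (p.1 : ℝ) ^ 2 + (p.2 : ℝ) ^ 2 < R := not_le.1 hp
    have key : ∀ m : ℤ, (m : ℝ) ^ 2 < R → m ∈ Set.Icc (-⌈R⌉) ⌈R⌉ := by
      intro m hm
      have h1 : (m : ℝ) ^ 2 ≤ (⌈R⌉ : ℝ) := hm.le.trans (Int.le_ceil R)
      have h2 : m ^ 2 ≤ ⌈R⌉ := by exact_mod_cast h1
      rw [Set.mem_Icc]
      constructor <;> nlinarith [sq_nonneg (m - 1), sq_nonneg (m + 1), sq_nonneg m,
        Int.le_self_sq m, Int.le_self_sq (-m)]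
    rw [Set.mem_prod]
    exact ⟨key _ (by nlinarith [sq_nonneg (p.2 : ℝ)]), key _ (by nlinarith [sq_nonneg (p.1 : ℝ)])⟩
  refine Summable.of_norm_bounded_eventually (summ2.mul_left (16 / κ ^ 2 * 3)) ?_
  rw [Filter.eventually_cofinite]
  refine hfin.subset ?_
  intro p hp hcon
  apply hp
  obtain ⟨S, hS⟩ : ∃ S : ℝ, S = (p.1 : ℝ) ^ 2 + (p.2 : ℝ) ^ 2 := ⟨_, rfl⟩
  obtain ⟨a, ha⟩ : ∃ a : ℂ, a = (p.1 : ℂ) * u + p.2 * v := ⟨_, rfl⟩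
  have hSR : R ≤ S := by rw [hS]; exact hcon
  have h1 : κ * S ≤ ‖a‖ ^ 2 := by rw [hS, ha]; exact hlow p
  have h2 : 4 * (‖w‖ ^ 2 + 1) ≤ κ * S := by
    have h3 : 4 * (‖w‖ ^ 2 + 1) / κ ≤ S := by linarith
    rw [div_le_iff₀ hκ0] at h3
    linarith
  have hwa : w + p.1 * u + p.2 * v = w + a := by rw [ha]; ring
  have h4 : 2 * ‖w‖ ≤ ‖a‖ := by
    apply le_of_sq_le_sq _ (norm_nonneg _)
    nlinarith
  have h5 : ‖a‖ ≤ ‖w + a‖ + ‖w‖ := by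
    have : a = (w + a) - w := by ring
    calc ‖a‖ = ‖(w + a) - w‖ := by rw [← this]
      _ ≤ _ := norm_sub_le _ _
  have h6 : ‖a‖ / 2 ≤ ‖w + a‖ := by linarith
  have h7 : κ * S / 4 ≤ ‖w + a‖ ^ 2 := by
    have h8 : (‖a‖ / 2) ^ 2 ≤ ‖w + a‖ ^ 2 := by gcongr
    nlinarith
  have h8 : 1 ≤ κ * S / 4 := by nlinarith [sq_nonneg ‖w‖]
  have h9 : 1 ≤ ‖w + a‖ ^ 2 := h8.trans h7
  have hne : w + a ≠ 0 := by
    intro h0
    rw [h0, norm_zero] at h9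
    norm_num at h9
  rw [hwa, if_neg hne, Real.norm_eq_abs, abs_of_nonneg (hf _ (by linarith))]
  have hS1 : 1 ≤ (p.1 : ℝ) ^ 2 + (p.2 : ℝ) ^ 2 := by rw [← hS]; linarith
  calc f (‖w + a‖ ^ 2) ≤ (‖w + a‖ ^ 2) ^ (-B) := hdec _ h9
    _ ≤ (‖w + a‖ ^ 2) ^ (-2 : ℝ) := Real.rpow_le_rpow_of_exponent_le h9 (by linarith)
    _ = 1 / (‖w + a‖ ^ 2) ^ 2 := by
        rw [Real.rpow_neg (by positivity), Real.rpow_two, one_div]
    _ ≤ 1 / (κ * S / 4) ^ 2 := by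
        apply one_div_le_one_div_of_le (by positivity)
        gcongr
    _ = 16 / κ ^ 2 * (1 / S ^ 2) := by
        have : S ≠ 0 := by linarith
        field_simp
        norm_num
    _ ≤ 16 / κ ^ 2 * (3 * (1 / (1 + (p.1 : ℝ) ^ 2) * (1 / (1 + (p.2 : ℝ) ^ 2)))) := by
        apply mul_le_mul_of_nonneg_left _ (by positivity)
        rw [hS]
        exact ineq (sq_nonneg _) (sq_nonneg _) hS1
    _ = _ := by ring

end Pool.Agent.J4.H83.SG
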