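import Pool.Agent.J4.H83.SG.PruneG
import Pool.Agent.J4.H83.SG.MainU
import Pool.Agent.J4.H83.SG.Per2G
import Pool.Agent.J4.H83.SG.NSepG0
import Pool.Agent.J4.H83.SG.HexSG
import Pool.Agent.J4.H83.SG.SumF

/-!
# Steep potentials: the theorem for one potential, in units of the lattice spacing
-/

set_option autoImplicit false

open MeasureTheory Set Filter Topology

namespace Pool.Agent.J4.H83.SG

open Pool.Agent.J4.H83.FV Pool.Agent.J4.H83.HD Pool.Agent.J4.H83.OO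

namespace Mg

/-- a bound for all `K` gives the bound for the finite sums over the lattice -/
theorem of_eF {f : ℝ → ℝ} {g E : ℝ} {N : ℕ} (hf : ∀ y, 0 < y → 0 ≤ f y) (hN : 0 < N)
    (h : ∀ K, N * eF f K + g ≤ E) (s : Finset {p : ℤ × ℤ // p ≠ 0}) :
    N * ∑ p ∈ s, f ((p.1.1 : ℝ) ^ 2 + p.1.1 * p.1.2 + (p.1.2 : ℝ) ^ 2) + g ≤ E := by
  have hN0 : (0 : ℝ) < N := by exact_mod_cast hN
  have h1 : ∀ K, eF f K ≤ (E - g) / N := by
    intro K
    rw [le_div_iff₀ hN0, mul_comm]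
    linarith [h K]
  have h2 := hex_finG hf h1 s
  rw [le_div_iff₀ hN0, mul_comm] at h2
  linarith

theorem mainG : ∃ B : ℝ, 2 ≤ B ∧ ∀ (f : ℝ → ℝ) (φ : ℕ → ℝ) (β : ℝ), Pot f φ β B →
      ∀ (N : ℕ), 0 < N → ∀ (u v : ℂ), |(starRingEnd ℂ u * v).im| = √3 / 2 * N → ∀ x : Fin N → ℂ,
      (∀ j k, ∀ m n : ℤ, x j - x k + m * u + n * v = 0 → j = k) →
      (∀ s : Finset {p : ℤ × ℤ // p ≠ 0},
        N * ∑ p ∈ s, f ((p.1.1 : ℝ) ^ 2 + p.1.1 * p.1.2 + (p.1.2 : ℝ) ^ 2) ≤ EpF f u v x) ∧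
      ((∃ c w : ℂ, ‖w‖ = 1 ∧ PC u v x = {y | ∃ m n : ℤ, y = c + w * (m + n * ze)}) ∨
        ∃ g : ℝ, 0 < g ∧ ∀ s : Finset {p : ℤ × ℤ // p ≠ 0},
        N * ∑ p ∈ s, f ((p.1.1 : ℝ) ^ 2 + p.1.1 * p.1.2 + (p.1.2 : ℝ) ^ 2) + g ≤ EpF f u v x) := by
  classical
  obtain ⟨Cc, τ, hCc, hτ, hCτ, hrot, c, hc, B, hB2, hB⟩ := Pg.pruneG
  refine ⟨B, hB2, fun f φ β hpot N hN u v hD x hx => ?_⟩
  obtain ⟨A, hA⟩ := hB f φ β B hpot le_rfl
  have hBβ : B ≤ β := hpot.big
  have hβ0 : 0 < β := by linarith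
  have hN0 : (0 : ℝ) < N := by exact_mod_cast hN
  have hDp : (0 : ℝ) < √3 / 2 * N := by positivity
  have hD0 : (starRingEnd ℂ u * v).im ≠ 0 := by
    intro h
    rw [h, abs_zero] at hD
    linarith
  have hf0 : ∀ y, 0 < y → 0 ≤ f y := fun y hy => (hpot.pos y hy).le
  have he := Pg.eF_nonneg hpot
  have hP := Pg.PF_nonneg hpot hβ0
  have hsum := sumF hB2 hf0 hpot.dec hD0
  have hH := fun K => hA.all K
  constructor
  · intro s
    have h1 : ∀ K, N * eF f K + 0 ≤ EpF f u v x := by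
      intro K
      have h2 := per_boundG hf0 (he K) (hP K) (hH K) N hN u v hDp hD x hx hsum
      have h3 : (N : ℝ) * (eF f K + PF f φ β K * (√3 / 2)) =
        N * eF f K + PF f φ β K * (√3 / 2 * N) := by ring
      linarith
    have := of_eF hf0 hN h1 s
    rwa [add_zero] at this
  · by_cases hns : ∃ y ∈ PC u v x, ∃ y' ∈ PC u v x, y ≠ y' ∧ ‖y - y'‖ < 1 / A
    · right
      refine ⟨1, one_pos, of_eF hf0 hN fun K => ?_⟩
      have h2 := nsepG_of hf0 (hP K) (hA.gap K) N hN u v hDp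
        (fun n hn x' hx' => per_boundG hf0 (he K) (hP K) (hH K) n hn u v hDp hD x' hx' hsum)
        x hx hsum hns
      have h3 : (N : ℝ) * (eF f K + PF f φ β K * (√3 / 2)) =
        N * eF f K + PF f φ β K * (√3 / 2 * N) := by ring
      linarith
    · push Not at hns
      by_cases hp : ∀ (M : ℕ) (z : Fin M → ℂ) (i : Fin M), Loc (PC u v x) (2 * R) z i →
        Dv τ A (fun l => (A : ℂ) * z l) 0 i
      · left
        exact perfect_hex hA.one_le hA.le ⟨x ⟨0, hN⟩, ⟨0, hN⟩, 0, 0, by simp⟩ hns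
          (pc_finite hD0 x) hCc hCτ hrot hp
      · right
        push Not at hp
        obtain ⟨M, z, i, hL, hn⟩ := hp
        obtain ⟨d, hd0, hd1, hd⟩ := imperfect hA.one_le hL hn
        obtain ⟨j₀, m₀, n₀, hz⟩ := hL.sub i
        refine ⟨c * β * d ^ 2, by positivity, of_eF hf0 hN fun K => ?_⟩
        have h2 := per_defectG (r := 2 * R) hf0 (he K) (hP K)
          (s := c * β * d ^ 2) (by positivity) N hN u v hDp hD x hx hsum j₀
          (fun M' z' i' => ¬ Dv τ A (fun l => (A : ℂ) * z' l) d i')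
          (fun M' z' i' hL' ⟨m, n, hz'⟩ => hd M' z' i' hL' (by
            have h3 : z' i' - z i = ((m - m₀ : ℤ) : ℂ) * u + ((n - n₀ : ℤ) : ℂ) * v := by
              rw [hz', hz]; push_cast; ring
            intro y
            rw [h3]
            exact Mu.pc_add _ _ y))
          (fun M' z' Ω hinj hsub h4 h5 h6 => hA.sep K M' z' Ω
            (fun a b hab => hns _ (hsub a) _ (hsub b) fun h => hab (hinj h)) h4 h5 h6 d hd0.le hd1)
        have h3 : (N : ℝ) * (eF f K + PF f φ β K * (√3 / 2)) =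
          N * eF f K + PF f φ β K * (√3 / 2 * N) := by ring
        linarith

end Mg

end Pool.Agent.J4.H83.SG
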