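import Pool.Agent.J4.H83.SG.FinGv
import Pool.Agent.J4.H83.SG.MainG

/-!
# Steep log-convex potentials: the theorem
-/

set_option autoImplicit false

open MeasureTheory Set

namespace Pool.Agent.J4.H83.SG

/-- For steep log-convex potentials the hexagonal lattice is the unique minimiser of the energy among all
periodic configurations of density one. -/
theorem steep : ∃ B : ℝ, 2 ≤ B ∧ ∀ f : ℝ → ℝ, (∀ y, 0 < y → 0 < f y) →
      ConvexOn ℝ (Ioi 0) (fun y => Real.log (f y)) →
      AntitoneOn (fun y => y ^ B * f y) (Ici (spc ^ 2)) →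
      ∀ (N : ℕ) (u v : ℂ) (x : Fin N → ℂ), IsConf u v x →
        hexEnergy (pot f) ≤ energy (pot f) u v x ∧
        (energy (pot f) u v x = hexEnergy (pot f) → IsHex (points u v x)) :=
  final_G Mg.mainG

end Pool.Agent.J4.H83.SG
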