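import Pool.Agent.J4.H83.SG.SepU
import Pool.Agent.J4.H83.SG.DefsU

/-!
# Steep Gaussians: removing particles with a near neighbour
-/

set_option autoImplicit false

open MeasureTheory Set Filter Topology

namespace Pool.Agent.J4.H83.SG

open Pool.Agent.J4.H83.FV Pool.Agent.J4.H83.HD Pool.Agent.J4.H83.OO

namespace Pr

/-- the energy of `z` -/
noncomputable def F {M : ℕ} (β : ℝ) (z : Fin M → ℂ) : ℝ :=
  ∑ i, ∑ j ∈ Finset.univ.erase i, Real.exp (-β * ‖z j - z i‖ ^ 2)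

open Classical in
theorem F_eq {M : ℕ} (β : ℝ) (z : Fin M → ℂ) :
    F β z = ∑ i, ∑ j, if j = i then 0 else Real.exp (-β * ‖z j - z i‖ ^ 2) := by
  unfold F
  refine Finset.sum_congr rfl fun i _ => ?_
  rw [← Finset.sum_erase_add _ _ (Finset.mem_univ i), if_pos rfl, add_zero]
  refine Finset.sum_congr (by congr) fun j hj => ?_
  rw [if_neg (Finset.ne_of_mem_erase hj)]

theorem F_remove {M : ℕ} (β : ℝ) (z : Fin (M + 1) → ℂ) {i j : Fin (M + 1)} (hij : i ≠ j) :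
    F β (fun a => z (i.succAbove a)) + 2 * Real.exp (-β * ‖z i - z j‖ ^ 2) ≤ F β z := by
  classical
  rw [F_eq, F_eq, Fin.sum_univ_succAbove _ i, Fin.sum_univ_succAbove _ i, if_pos rfl]
  have h1 : ∀ a : Fin M, (∑ b, if b = i.succAbove a then 0 else
      Real.exp (-β * ‖z b - z (i.succAbove a)‖ ^ 2)) = Real.exp (-β * ‖z i - z (i.succAbove a)‖ ^ 2) +
      ∑ b, if b = a then 0 else
        Real.exp (-β * ‖z (i.succAbove b) - z (i.succAbove a)‖ ^ 2) := by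
    intro a
    rw [Fin.sum_univ_succAbove _ i, if_neg (Fin.succAbove_ne i a).symm]
    simp only [Fin.succAbove_right_inj]
  simp only [h1]
  rw [Finset.sum_add_distrib]
  obtain ⟨j', hj'⟩ := Fin.exists_succAbove_eq hij.symm
  have h2 : Real.exp (-β * ‖z i - z j‖ ^ 2) ≤ ∑ a, Real.exp (-β * ‖z i - z (i.succAbove a)‖ ^ 2) := by
    rw [← hj']
    exact Finset.single_le_sum (f := fun a => Real.exp (-β * ‖z i - z (i.succAbove a)‖ ^ 2))
      (fun a _ => (Real.exp_pos _).le) (Finset.mem_univ j')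
  have h3 : Real.exp (-β * ‖z i - z j‖ ^ 2) ≤ ∑ a, if i.succAbove a = i then 0 else
      Real.exp (-β * ‖z (i.succAbove a) - z i‖ ^ 2) := by
    have h4 : (∑ a, if i.succAbove a = i then 0 else
      Real.exp (-β * ‖z (i.succAbove a) - z i‖ ^ 2)) =
        ∑ a, Real.exp (-β * ‖z (i.succAbove a) - z i‖ ^ 2) :=
      Finset.sum_congr rfl fun a _ => if_neg (Fin.succAbove_ne i a)
    rw [h4, ← hj', norm_sub_rev]
    exact Finset.single_le_sum (f := fun a => Real.exp (-β * ‖z (i.succAbove a) - z i‖ ^ 2))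
      (fun a _ => (Real.exp_pos _).le) (Finset.mem_univ j')
  linarith [h2, h3]

theorem Nm_ge {K : ℕ} {p : ℕ × ℕ} (hp : p ∈ far K) : 1 ≤ Nm p.1 p.2 := by
  unfold far at hp
  rw [Finset.mem_filter, Finset.mem_product, Finset.mem_Icc] at hp
  unfold Nm
  nlinarith [hp.1.1.1, Nat.zero_le (p.1 * p.2), Nat.zero_le (p.2 ^ 2)]

theorem spacing (η : ℝ) (hη : 0 < η) : ∃ β₀ : ℝ, 2 ≤ β₀ ∧ ∀ β : ℝ, β₀ ≤ β → ∃ A : ℝ, 1 ≤ A ∧
    A ≤ 1 + η ∧ Real.exp (-β / A ^ 2) = 10 * β * Real.exp (-β) := by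
  set δ : ℝ := η / (1 + η) with hδ
  have hδ0 : 0 < δ := by positivity
  have hδ1 : δ < 1 := by rw [hδ, div_lt_one (by linarith)]; linarith
  refine ⟨max 2 (49 / δ ^ 2), le_max_left _ _, fun β hβ => ?_⟩
  have hβ2 : 2 ≤ β := (le_max_left _ _).trans hβ
  have hβδ : 49 / δ ^ 2 ≤ β := (le_max_right _ _).trans hβ
  have hβ0 : 0 < β := by linarith
  have hs0 : 0 < √β := Real.sqrt_pos.2 hβ0
  have hlog : Real.log (10 * β) ≤ 7 * √β := by
    have h1 : Real.log (10 * β) = 2 * Real.log √(10 * β) := by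
      rw [Real.log_sqrt (by positivity)]; ring
    have h2 : Real.log √(10 * β) ≤ √(10 * β) - 1 := Real.log_le_sub_one_of_pos (by positivity)
    have h3 : √(10 * β) = √10 * √β := Real.sqrt_mul (by norm_num) _
    have h4 : √10 ≤ 7 / 2 := by
      rw [Real.sqrt_le_left (by norm_num)]; norm_num
    nlinarith
  have hlog0 : 0 ≤ Real.log (10 * β) := Real.log_nonneg (by linarith)
  set s : ℝ := Real.log (10 * β) / β with hs
  have hs0' : 0 ≤ s := by positivity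
  have hsδ : s ≤ δ := by
    rw [hs, div_le_iff₀ hβ0]
    have h1 : 49 ≤ β * δ ^ 2 := by
      rwa [div_le_iff₀ (by positivity)] at hβδ
    have h2 : 7 ≤ √β * δ := by
      have h3 : (√β * δ) ^ 2 = β * δ ^ 2 := by rw [mul_pow, Real.sq_sqrt hβ0.le]
      by_contra h4
      push Not at h4
      have h5 : 0 ≤ √β * δ := by positivity
      nlinarith
    calc Real.log (10 * β) ≤ 7 * √β := hlog
      _ ≤ (√β * δ) * √β := by gcongr
      _ = δ * β := by
        have h3 : √β * √β = β := Real.mul_self_sqrt hβ0.le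
        linear_combination δ * h3
  have h1s : 0 < 1 - s := by linarith
  refine ⟨√(1 / (1 - s)), ?_, ?_, ?_⟩
  · rw [Real.one_le_sqrt, le_div_iff₀ h1s]
    linarith
  · have h1 : 1 ≤ 1 / (1 - s) := by rw [le_div_iff₀ h1s]; linarith
    have h2 : 1 / (1 - s) ≤ 1 + η := by
      rw [div_le_iff₀ h1s]
      have h3 : (1 + η) * δ = η := by rw [hδ]; field_simp
      nlinarith
    refine le_trans ?_ h2
    rw [Real.sqrt_le_left (by linarith)]
    nlinarith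
  · rw [Real.sq_sqrt (by positivity)]
    have h1 : -β / (1 / (1 - s)) = Real.log (10 * β) + -β := by
      rw [hs]
      field_simp
      ring
    rw [h1, Real.exp_add, Real.exp_log (by positivity)]

theorem two_le_eK {β : ℝ} {K : ℕ} (hβ2 : 2 ≤ β) (h4 : ∑ p ∈ far K, (Nm p.1 p.2 : ℝ) *
    Real.exp (-β * Nm p.1 p.2) ≤ Real.exp (-β) / β) :
    eK β K + PK β K * (√3 / 2) ≤ (6 * β + 18) * Real.exp (-β) := by
  have hβ0 : 0 < β := by linarith
  have he0 : 0 < Real.exp (-β) := Real.exp_pos _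
  have h5 : ∑ p ∈ far K, Real.exp (-β * Nm p.1 p.2) ≤
      ∑ p ∈ far K, (Nm p.1 p.2 : ℝ) * Real.exp (-β * Nm p.1 p.2) := by
    refine Finset.sum_le_sum fun p hp => ?_
    have h6 : (1 : ℝ) ≤ Nm p.1 p.2 := by exact_mod_cast Nm_ge hp
    nlinarith [Real.exp_pos (-β * (Nm p.1 p.2 : ℝ))]
  have h7 : Real.exp (-β) / β ≤ Real.exp (-β) / 2 :=
    div_le_div_of_nonneg_left he0.le (by norm_num) hβ2
  have h8 : β * (Real.exp (-β) / β) = Real.exp (-β) := by field_simp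
  have h9 : √3 * √3 = 3 := Real.mul_self_sqrt (by norm_num)
  unfold eK PK
  set S := ∑ p ∈ far K, (Nm p.1 p.2 : ℝ) * Real.exp (-β * Nm p.1 p.2) with hS
  set S' := ∑ p ∈ far K, Real.exp (-β * Nm p.1 p.2) with hS'
  have h10 : 4 * √3 * β * (Real.exp (-β) + S) * (√3 / 2) = 6 * β * Real.exp (-β) + 6 * (β * S) := by
    linear_combination (2 * β * (Real.exp (-β) + S)) * h9
  have h11 : β * S ≤ Real.exp (-β) := by
    rw [← h8]; exact mul_le_mul_of_nonneg_left h4 hβ0.le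
  rw [h10]
  nlinarith [mul_le_mul_of_nonneg_right hβ2 he0.le]

theorem PK_nonneg {β : ℝ} (hβ : 0 ≤ β) (K : ℕ) : 0 ≤ PK β K := by
  unfold PK
  have : 0 ≤ ∑ p ∈ far K, (Nm p.1 p.2 : ℝ) * Real.exp (-β * Nm p.1 p.2) :=
    Finset.sum_nonneg fun p _ => by positivity
  positivity

theorem eK_nonneg (β : ℝ) (K : ℕ) : 0 ≤ eK β K := by
  unfold eK
  have : 0 ≤ ∑ p ∈ far K, Real.exp (-β * Nm p.1 p.2) :=
    Finset.sum_nonneg fun p _ => (Real.exp_pos _).le
  have := Real.exp_pos (-β)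
  positivity

/-- the finite bounds -/
structure Bnd (τ c β A : ℝ) : Prop where
  one_le : 1 ≤ A
  le : A ≤ 1001 / 1000
  gap : ∃ g : ℝ, 0 < g ∧ ∀ K, eK β K + PK β K * (√3 / 2) + g ≤ 2 * Real.exp (-β / A ^ 2)
  sep : ∀ (K M : ℕ) (z : Fin M → ℂ) (Ω : Set ℂ), (∀ i j, i ≠ j → 1 / A ≤ ‖z i - z j‖) →
    MeasurableSet Ω → volume Ω ≠ ⊤ → (∀ i, Metric.ball (z i) R ⊆ Ω) → ∀ d : ℝ, 0 ≤ d → d ≤ 1 →
      M * (eK β K + PK β K * (√3 / 2)) + c * β * Real.exp (-β) * d ^ 2 *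
        ({i | ¬ Dv τ A (fun l => (A : ℂ) * z l) d i}.ncard : ℝ) ≤
          Ef β z + PK β K * (volume Ω).toReal
  all : ∀ (K M : ℕ) (z : Fin M → ℂ) (Ω : Set ℂ), MeasurableSet Ω → volume Ω ≠ ⊤ →
    (∀ i, Metric.ball (z i) R ⊆ Ω) →
      M * (eK β K + PK β K * (√3 / 2)) ≤ Ef β z + PK β K * (volume Ω).toReal

theorem prune : ∃ Cc τ : ℝ, 1 ≤ Cc ∧ 0 < τ ∧ Cc * τ ≤ 1 / 100 ∧
    (∀ (N : ℕ) (x : Fin N → ℂ), Sep x → (∀ i, 0 ≤ ex x i) ∧
      ∃ ρ : Equiv.Perm (Fin N × Fin N), IsRot x τ Cc ρ) ∧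
    ∃ c : ℝ, 0 < c ∧ ∃ β₀ : ℝ, 1 ≤ β₀ ∧ ∀ β : ℝ, β₀ ≤ β → ∃ A : ℝ, Bnd τ c β A := by
  obtain ⟨Cc, τ, hCc, hτ, hCτ, hrot, η₀, hη₀, β₁, hβ₁, c, hc, hsep⟩ := Sb.sep_def
  obtain ⟨β₂, hβ₂, hsp⟩ := spacing (min η₀ (1 / 1000)) (by positivity)
  obtain ⟨β₃, hβ₃, hch⟩ := charge 1 1 one_pos one_pos
  refine ⟨Cc, τ, hCc, hτ, hCτ, hrot, c, hc, max β₁ (max β₂ β₃), le_max_of_le_left hβ₁,
    fun β hβ => ?_⟩
  have h1 : β₁ ≤ β := (le_max_left _ _).trans hβ
  have h2 : β₂ ≤ β := ((le_max_left _ _).trans (le_max_right _ _)).trans hβ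
  have h3 : β₃ ≤ β := ((le_max_right _ _).trans (le_max_right _ _)).trans hβ
  have hβ2 : 2 ≤ β := hβ₂.trans h2
  have hβ0 : 0 < β := by linarith
  obtain ⟨A, hA1, hA2, hA3⟩ := hsp β h2
  have hA0 : 0 < A := by linarith
  have hA4 : A ≤ 1 + η₀ := hA2.trans (by linarith [min_le_left η₀ (1 / 1000 : ℝ)])
  have hA5 : A ≤ 1001 / 1000 := by linarith [min_le_right η₀ (1 / 1000 : ℝ)]
  have hP0 : ∀ K, 0 ≤ PK β K := PK_nonneg hβ0.le
  have he0 : 0 < Real.exp (-β) := Real.exp_pos _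
  have hsm : ∀ K, eK β K + PK β K * (√3 / 2) ≤ (6 * β + 18) * Real.exp (-β) := fun K =>
    two_le_eK hβ2 ((hch β h3).2 K)
  have hgap : ∀ K, eK β K + PK β K * (√3 / 2) + Real.exp (-β) ≤ 2 * Real.exp (-β / A ^ 2) := by
    intro K
    rw [hA3]
    nlinarith [hsm K, mul_le_mul_of_nonneg_right hβ2 he0.le]
  have hS : ∀ (K M : ℕ) (z : Fin M → ℂ) (Ω : Set ℂ), (∀ i j, i ≠ j → 1 / A ≤ ‖z i - z j‖) →
      MeasurableSet Ω → volume Ω ≠ ⊤ → (∀ i, Metric.ball (z i) R ⊆ Ω) → ∀ d : ℝ, 0 ≤ d → d ≤ 1 →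
        M * (eK β K + PK β K * (√3 / 2)) + c * β * Real.exp (-β) * d ^ 2 *
          ({i | ¬ Dv τ A (fun l => (A : ℂ) * z l) d i}.ncard : ℝ) ≤
            Ef β z + PK β K * (volume Ω).toReal := by
    intro K M z Ω hc hΩ hf hb d hd0 hd1
    have hx : Sep (fun i => (A : ℂ) * z i) := by
      intro i j hij
      show 1 ≤ ‖(A : ℂ) * z i - A * z j‖
      rw [← mul_sub, norm_mul, Complex.norm_real, Real.norm_of_nonneg hA0.le]
      have := hc i j hij
      rwa [div_le_iff₀' hA0] at this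
    have h4 := hsep β A K M _ h1 hA1 hA4 hx d hd0 hd1
    have h5 : En β A (fun i => (A : ℂ) * z i) = Ef β z := by
      unfold En Ef
      refine Finset.sum_congr rfl fun i _ => Finset.sum_congr rfl fun j _ => ?_
      show Real.exp (-β * (‖(A : ℂ) * z j - A * z i‖ / A) ^ 2) = _
      rw [← mul_sub, norm_mul, Complex.norm_real, Real.norm_of_nonneg hA0.le,
        mul_div_cancel_left₀ _ hA0.ne']
    have h6 : ∀ i, vA A (fun i => (A : ℂ) * z i) i =
        (volume (T (Finset.univ.erase i) fun j => z j - z i)).toReal := by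
      intro i
      unfold vA
      congr 3
      funext j
      have hAc : (A : ℂ) ≠ 0 := by exact_mod_cast hA0.ne'
      rw [← mul_sub, mul_div_cancel_left₀ _ hAc]
    have h7 := area_sum z Ω hΩ hf hb
    simp only [h6] at h4
    rw [h5] at h4
    refine h4.trans (add_le_add le_rfl (mul_le_mul_of_nonneg_left h7 (hP0 K)))
  refine ⟨A, hA1, hA5, ⟨Real.exp (-β), he0, hgap⟩, hS, fun K M => ?_⟩
  induction M with
  | zero =>
    intro z Ω _ _ _
    have : 0 ≤ PK β K * (volume Ω).toReal := mul_nonneg (hP0 K) ENNReal.toReal_nonneg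
    simpa [Ef] using this
  | succ M ih =>
    intro z Ω hΩ hf hb
    by_cases hc : ∀ i j, i ≠ j → 1 / A ≤ ‖z i - z j‖
    · have h4 := hS K (M + 1) z Ω hc hΩ hf hb 0 le_rfl zero_le_one
      simpa using h4
    · push Not at hc
      obtain ⟨i, j, hij, hlt⟩ := hc
      have h4 := ih (fun a => z (i.succAbove a)) Ω hΩ hf fun a => hb _
      have h5 := F_remove β z hij
      have h6 : Real.exp (-β / A ^ 2) ≤ Real.exp (-β * ‖z i - z j‖ ^ 2) := by
        refine Real.exp_le_exp.2 ?_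
        have h7 : ‖z i - z j‖ ^ 2 ≤ (1 / A) ^ 2 := by gcongr
        have h8 : -β / A ^ 2 = -(β * (1 / A) ^ 2) := by ring
        rw [h8]
        nlinarith
      have h7 : F β z = Ef β z := rfl
      have h8 : F β (fun a => z (i.succAbove a)) = Ef β (fun a => z (i.succAbove a)) := rfl
      rw [h7, h8] at h5
      push_cast
      linarith [h4, h5, h6, hgap K, he0]

end Pr

end Pool.Agent.J4.H83.SG
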