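import Pool.Agent.J4.H83.SG.SepG
import Pool.Agent.J4.H83.SG.PruneU

/-!
# Steep potentials: removing particles with a near neighbour
-/

set_option autoImplicit false

open MeasureTheory Set Filter Topology

namespace Pool.Agent.J4.H83.SG

open Pool.Agent.J4.H83.FV Pool.Agent.J4.H83.HD Pool.Agent.J4.H83.OO

namespace Pg

open Classical in
theorem F_eq {M : ℕ} (f : ℝ → ℝ) (z : Fin M → ℂ) :
    EfF f z = ∑ i, ∑ j, if j = i then 0 else f (‖z j - z i‖ ^ 2) := by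
  unfold EfF
  refine Finset.sum_congr rfl fun i _ => ?_
  rw [← Finset.sum_erase_add _ _ (Finset.mem_univ i), if_pos rfl, add_zero]
  refine Finset.sum_congr (by congr) fun j hj => ?_
  rw [if_neg (Finset.ne_of_mem_erase hj)]

theorem F_remove {M : ℕ} {f : ℝ → ℝ} (hf : ∀ y, 0 < y → 0 ≤ f y) {z : Fin (M + 1) → ℂ}
    (hz : Function.Injective z) {i j : Fin (M + 1)} (hij : i ≠ j) :
    EfF f (fun a => z (i.succAbove a)) + 2 * f (‖z i - z j‖ ^ 2) ≤ EfF f z := by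
  classical
  have hpos : ∀ a b, a ≠ b → 0 ≤ f (‖z a - z b‖ ^ 2) := fun a b h => by
    refine hf _ ?_
    have : 0 < ‖z a - z b‖ := norm_pos_iff.2 (sub_ne_zero.2 fun h2 => h (hz h2))
    positivity
  rw [F_eq, F_eq, Fin.sum_univ_succAbove _ i, Fin.sum_univ_succAbove _ i, if_pos rfl]
  have h1 : ∀ a : Fin M, (∑ b, if b = i.succAbove a then 0 else
      f (‖z b - z (i.succAbove a)‖ ^ 2)) = f (‖z i - z (i.succAbove a)‖ ^ 2) +
      ∑ b, if b = a then 0 else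
        f (‖z (i.succAbove b) - z (i.succAbove a)‖ ^ 2) := by
    intro a
    rw [Fin.sum_univ_succAbove _ i, if_neg (Fin.succAbove_ne i a).symm]
    simp only [Fin.succAbove_right_inj]
  simp only [h1]
  rw [Finset.sum_add_distrib]
  obtain ⟨j', hj'⟩ := Fin.exists_succAbove_eq hij.symm
  have h2 : f (‖z i - z j‖ ^ 2) ≤ ∑ a, f (‖z i - z (i.succAbove a)‖ ^ 2) := by
    rw [← hj']
    exact Finset.single_le_sum (f := fun a => f (‖z i - z (i.succAbove a)‖ ^ 2))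
      (fun a _ => hpos _ _ (Fin.succAbove_ne i a).symm) (Finset.mem_univ j')
  have h3 : f (‖z i - z j‖ ^ 2) ≤ ∑ a, if i.succAbove a = i then 0 else
      f (‖z (i.succAbove a) - z i‖ ^ 2) := by
    have h4 : (∑ a, if i.succAbove a = i then 0 else
      f (‖z (i.succAbove a) - z i‖ ^ 2)) =
        ∑ a, f (‖z (i.succAbove a) - z i‖ ^ 2) :=
      Finset.sum_congr rfl fun a _ => if_neg (Fin.succAbove_ne i a)
    rw [h4, ← hj', norm_sub_rev]
    exact Finset.single_le_sum (f := fun a => f (‖z (i.succAbove a) - z i‖ ^ 2))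
      (fun a _ => hpos _ _ (Fin.succAbove_ne i a)) (Finset.mem_univ j')
  linarith [h2, h3]

theorem two_le_eF {f : ℝ → ℝ} {φ : ℕ → ℝ} {β B : ℝ} (h : Pot f φ β B) (hβ : 2 ≤ β) {K : ℕ}
    (hch : ∑ p ∈ far K, (Nm p.1 p.2 : ℝ) * (Nm p.1 p.2 : ℝ) ^ (-B) ≤ 1 / 10) :
    eF f K + PF f φ β K * (√3 / 2) + 1 ≤ 20 * β := by
  have hβ0 : 0 < β := by linarith
  have h1 := Sg.qF_le h hβ0 hch
  have h3 : √3 * √3 = 3 := Real.mul_self_sqrt (by norm_num)
  have h2 : ∑ p ∈ far K, f (Nm p.1 p.2) ≤ 1 / 10 := by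
    refine le_trans (Finset.sum_le_sum fun p hp => ?_) hch
    have h4 : (1 : ℝ) ≤ Nm p.1 p.2 := by exact_mod_cast Sg.far_ge hp
    have h5 := Sg.f_le h hp
    have h6 : 0 < (Nm p.1 p.2 : ℝ) ^ (-B) := Real.rpow_pos_of_pos (by linarith) _
    nlinarith
  have h4 : PF f φ β K * (√3 / 2) = 6 * β * (1 + Sg.qF f φ β K) := by
    rw [Sg.PF_eq hβ0]
    linear_combination (2 * β * (1 + Sg.qF f φ β K)) * h3
  rw [h4]
  unfold eF
  rw [h.norm]
  nlinarith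

theorem PF_nonneg {f : ℝ → ℝ} {φ : ℕ → ℝ} {β B : ℝ} (h : Pot f φ β B) (hβ : 0 < β) (K : ℕ) :
    0 ≤ PF f φ β K := by
  rw [Sg.PF_eq hβ]
  have := Sg.qF_nonneg h hβ K
  positivity

theorem eF_nonneg {f : ℝ → ℝ} {φ : ℕ → ℝ} {β B : ℝ} (h : Pot f φ β B) (K : ℕ) :
    0 ≤ eF f K := by
  unfold eF
  rw [h.norm]
  have : 0 ≤ ∑ p ∈ far K, f (Nm p.1 p.2) := Finset.sum_nonneg fun p hp => (Sg.f_pos h hp).le
  positivity

/-- the finite bounds -/
structure BndG (τ c : ℝ) (f : ℝ → ℝ) (φ : ℕ → ℝ) (β A : ℝ) : Prop where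
  one_le : 1 ≤ A
  le : A ≤ 1001 / 1000
  gap : ∀ K, ∀ y, 0 < y → y ≤ (1 / A) ^ 2 → eF f K + PF f φ β K * (√3 / 2) + 1 ≤ 2 * f y
  sep : ∀ (K M : ℕ) (z : Fin M → ℂ) (Ω : Set ℂ), (∀ i j, i ≠ j → 1 / A ≤ ‖z i - z j‖) →
    MeasurableSet Ω → volume Ω ≠ ⊤ → (∀ i, Metric.ball (z i) R ⊆ Ω) → ∀ d : ℝ, 0 ≤ d → d ≤ 1 →
      M * (eF f K + PF f φ β K * (√3 / 2)) + c * β * d ^ 2 *
        ({i | ¬ Dv τ A (fun l => (A : ℂ) * z l) d i}.ncard : ℝ) ≤
          EfF f z + PF f φ β K * (volume Ω).toReal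
  all : ∀ (K M : ℕ) (z : Fin M → ℂ) (Ω : Set ℂ), Function.Injective z → MeasurableSet Ω →
    volume Ω ≠ ⊤ → (∀ i, Metric.ball (z i) R ⊆ Ω) →
      M * (eF f K + PF f φ β K * (√3 / 2)) ≤ EfF f z + PF f φ β K * (volume Ω).toReal

theorem pruneG : ∃ Cc τ : ℝ, 1 ≤ Cc ∧ 0 < τ ∧ Cc * τ ≤ 1 / 100 ∧
    (∀ (N : ℕ) (x : Fin N → ℂ), Sep x → (∀ i, 0 ≤ ex x i) ∧
      ∃ ρ : Equiv.Perm (Fin N × Fin N), IsRot x τ Cc ρ) ∧
    ∃ c : ℝ, 0 < c ∧ ∃ B₀ : ℝ, 2 ≤ B₀ ∧ ∀ (f : ℝ → ℝ) (φ : ℕ → ℝ) (β B : ℝ), Pot f φ β B →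
      B₀ ≤ B → ∃ A : ℝ, BndG τ c f φ β A := by
  obtain ⟨Cc, τ, hCc, hτ, hCτ, hrot, η₀, hη₀, B₁, hB₁, c, hc, hsep⟩ := Sg.sep_defG
  obtain ⟨β₂, hβ₂, hsp⟩ := Pr.spacing (min η₀ (1 / 1000)) (by positivity)
  obtain ⟨B₃, hB₃, hch⟩ := chargeG 1 1 one_pos one_pos
  refine ⟨Cc, τ, hCc, hτ, hCτ, hrot, c, hc, max B₁ (max β₂ B₃), le_max_of_le_left hB₁,
    fun f φ β B hpot hB => ?_⟩
  have h1 : B₁ ≤ B := (le_max_left _ _).trans hB
  have h2 : β₂ ≤ B := ((le_max_left _ _).trans (le_max_right _ _)).trans hB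
  have h3 : B₃ ≤ B := ((le_max_right _ _).trans (le_max_right _ _)).trans hB
  have hBβ : B ≤ β := hpot.big
  have hβ2 : 2 ≤ β := hβ₂.trans (h2.trans hBβ)
  have hβ0 : 0 < β := by linarith
  obtain ⟨A, hA1, hA2, hA3⟩ := hsp β (h2.trans hBβ)
  have hA0 : 0 < A := by linarith
  have hA4 : A ≤ 1 + η₀ := hA2.trans (by linarith [min_le_left η₀ (1 / 1000 : ℝ)])
  have hA5 : A ≤ 1001 / 1000 := by linarith [min_le_right η₀ (1 / 1000 : ℝ)]
  have hP0 : ∀ K, 0 ≤ PF f φ β K := PF_nonneg hpot hβ0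
  have hf0 : ∀ y, 0 < y → 0 ≤ f y := fun y hy => (hpot.pos y hy).le
  have hfy : ∀ y, 0 < y → y ≤ (1 / A) ^ 2 → 10 * β ≤ f y := by
    intro y hy hyA
    have h4 := hpot.tan 1 le_rfl y hy
    rw [hpot.one, Nat.cast_one, hpot.norm, one_mul] at h4
    refine le_trans ?_ h4
    have h5 : Real.exp (-β / A ^ 2) * Real.exp β = 10 * β := by
      rw [hA3, mul_assoc, ← Real.exp_add]
      simp
    rw [← h5, ← Real.exp_add]
    refine Real.exp_le_exp.2 ?_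
    have h6 : -β / A ^ 2 = -(β * (1 / A) ^ 2) := by ring
    rw [h6]
    nlinarith
  have hgap : ∀ K, ∀ y, 0 < y → y ≤ (1 / A) ^ 2 →
      eF f K + PF f φ β K * (√3 / 2) + 1 ≤ 2 * f y := by
    intro K y hy hyA
    have h4 := two_le_eF hpot hβ2 ((hch B h3).2 K)
    have h5 := hfy y hy hyA
    linarith
  have hS : ∀ (K M : ℕ) (z : Fin M → ℂ) (Ω : Set ℂ), (∀ i j, i ≠ j → 1 / A ≤ ‖z i - z j‖) →
      MeasurableSet Ω → volume Ω ≠ ⊤ → (∀ i, Metric.ball (z i) R ⊆ Ω) → ∀ d : ℝ, 0 ≤ d → d ≤ 1 →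
        M * (eF f K + PF f φ β K * (√3 / 2)) + c * β * d ^ 2 *
          ({i | ¬ Dv τ A (fun l => (A : ℂ) * z l) d i}.ncard : ℝ) ≤
            EfF f z + PF f φ β K * (volume Ω).toReal := by
    intro K M z Ω hc hΩ hf hb d hd0 hd1
    have hx : Sep (fun i => (A : ℂ) * z i) := by
      intro i j hij
      show 1 ≤ ‖(A : ℂ) * z i - A * z j‖
      rw [← mul_sub, norm_mul, Complex.norm_real, Real.norm_of_nonneg hA0.le]
      have := hc i j hij
      rwa [div_le_iff₀' hA0] at this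
    have h4 := hsep f φ β B hpot h1 A K M _ hA1 hA4 hx d hd0 hd1
    have h5 : Sg.EnG f A (fun i => (A : ℂ) * z i) = EfF f z := by
      unfold Sg.EnG EfF
      refine Finset.sum_congr rfl fun i _ => Finset.sum_congr rfl fun j _ => ?_
      show f ((‖(A : ℂ) * z j - A * z i‖ / A) ^ 2) = _
      rw [← mul_sub, norm_mul, Complex.norm_real, Real.norm_of_nonneg hA0.le,
        mul_div_cancel_left₀ _ hA0.ne']
    have h6 : ∀ i, vA A (fun i => (A : ℂ) * z i) i =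
        (volume (T (Finset.univ.erase i) fun j => z j - z i)).toReal := by
      intro i
      unfold vA
      congr 3
      funext j
      have hAc : (A : ℂ) ≠ 0 := by exact_mod_cast hA0.ne'
      rw [← mul_sub, mul_div_cancel_left₀ _ hAc]
    have h7 := area_sum z Ω hΩ hf hb
    simp only [h6] at h4
    rw [h5] at h4
    refine h4.trans (add_le_add le_rfl (mul_le_mul_of_nonneg_left h7 (hP0 K)))
  refine ⟨A, hA1, hA5, hgap, hS, fun K M => ?_⟩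
  induction M with
  | zero =>
    intro z Ω _ _ _ _
    have : 0 ≤ PF f φ β K * (volume Ω).toReal := mul_nonneg (hP0 K) ENNReal.toReal_nonneg
    simpa [EfF] using this
  | succ M ih =>
    intro z Ω hz hΩ hf hb
    by_cases hc : ∀ i j, i ≠ j → 1 / A ≤ ‖z i - z j‖
    · have h4 := hS K (M + 1) z Ω hc hΩ hf hb 0 le_rfl zero_le_one
      simpa using h4
    · push Not at hc
      obtain ⟨i, j, hij, hlt⟩ := hc
      have h4 := ih (fun a => z (i.succAbove a)) Ω (fun a b hab => Fin.succAbove_right_injective (hz hab))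
        hΩ hf fun a => hb _
      have h5 := F_remove hf0 hz hij
      have h6 : 0 < ‖z i - z j‖ := norm_pos_iff.2 (sub_ne_zero.2 fun h => hij (hz h))
      have h7 : ‖z i - z j‖ ^ 2 ≤ (1 / A) ^ 2 := by gcongr
      have h8 := hgap K _ (by positivity) h7
      push_cast
      linarith [h4, h5, h8]

end Pg

end Pool.Agent.J4.H83.SG
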