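import Pool.Agent.J4.H83.SG.SepU
import Pool.Agent.J4.H83.SG.FarG
import Pool.Agent.J4.H83.SG.LocG
import Pool.Agent.J4.H83.SG.ChG
import Pool.Agent.J4.H83.SG.DistG

/-!
# Steep potentials: the bound for separated configurations, with defects
-/

set_option autoImplicit false

open MeasureTheory Set Filter Topology

namespace Pool.Agent.J4.H83.SG

open Pool.Agent.J4.H83.FV Pool.Agent.J4.H83.HD Pool.Agent.J4.H83.OO

namespace Sg

/-- the energy of the configuration in units of the spacing -/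
noncomputable def EnG {N : ℕ} (f : ℝ → ℝ) (A : ℝ) (x : Fin N → ℂ) : ℝ :=
  ∑ i, ∑ j ∈ Finset.univ.erase i, f ((‖x j - x i‖ / A) ^ 2)

/-- the ratio of the far pressure and the nearest neighbour pressure -/
noncomputable def qF (f : ℝ → ℝ) (φ : ℕ → ℝ) (β : ℝ) (K : ℕ) : ℝ :=
  (∑ p ∈ far K, (Nm p.1 p.2 : ℝ) * (φ (Nm p.1 p.2) * f (Nm p.1 p.2))) / β

theorem qF_eq {f : ℝ → ℝ} {φ : ℕ → ℝ} {β : ℝ} (hβ : 0 < β) (K : ℕ) :
    ∑ p ∈ far K, (Nm p.1 p.2 : ℝ) * (φ (Nm p.1 p.2) * f (Nm p.1 p.2)) = β * qF f φ β K := by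
  unfold qF
  field_simp

theorem PF_eq {f : ℝ → ℝ} {φ : ℕ → ℝ} {β : ℝ} (hβ : 0 < β) (K : ℕ) :
    PF f φ β K = 4 * √3 * β * (1 + qF f φ β K) := by
  unfold PF
  rw [qF_eq hβ]
  ring

theorem far_ge {K : ℕ} {p : ℕ × ℕ} (hp : p ∈ far K) : 1 ≤ Nm p.1 p.2 := by
  unfold far at hp
  rw [Finset.mem_filter, Finset.mem_product, Finset.mem_Icc] at hp
  unfold Nm
  nlinarith [hp.1.1.1, Nat.zero_le (p.1 * p.2), Nat.zero_le (p.2 ^ 2)]

theorem f_pos {f : ℝ → ℝ} {φ : ℕ → ℝ} {β B : ℝ} (h : Pot f φ β B) {K : ℕ} {p : ℕ × ℕ}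
    (hp : p ∈ far K) : 0 < f (Nm p.1 p.2) :=
  h.pos _ (by exact_mod_cast far_ge hp)

theorem f_le {f : ℝ → ℝ} {φ : ℕ → ℝ} {β B : ℝ} (h : Pot f φ β B) {K : ℕ} {p : ℕ × ℕ}
    (hp : p ∈ far K) : f (Nm p.1 p.2) ≤ (Nm p.1 p.2 : ℝ) ^ (-B) :=
  h.dec _ (by exact_mod_cast far_ge hp)

theorem qF_nonneg {f : ℝ → ℝ} {φ : ℕ → ℝ} {β B : ℝ} (h : Pot f φ β B) (hβ : 0 < β) (K : ℕ) :
    0 ≤ qF f φ β K := by
  unfold qF
  refine div_nonneg (Finset.sum_nonneg fun p hp => ?_) hβ.le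
  have h1 := f_pos h hp
  have h2 := h.nn _ (far_ge hp)
  positivity

theorem qF_le {f : ℝ → ℝ} {φ : ℕ → ℝ} {β B : ℝ} (h : Pot f φ β B) (hβ : 0 < β) {K : ℕ}
    (hch : ∑ p ∈ far K, (Nm p.1 p.2 : ℝ) * (Nm p.1 p.2 : ℝ) ^ (-B) ≤ 1 / 10) :
    qF f φ β K ≤ 1 / 10 := by
  unfold qF
  rw [div_le_iff₀ hβ]
  have h1 : ∑ p ∈ far K, (Nm p.1 p.2 : ℝ) * (φ (Nm p.1 p.2) * f (Nm p.1 p.2)) ≤
      β * ∑ p ∈ far K, (Nm p.1 p.2 : ℝ) * (Nm p.1 p.2 : ℝ) ^ (-B) := by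
    rw [Finset.mul_sum]
    refine Finset.sum_le_sum fun p hp => ?_
    have h2 := f_pos h hp
    have h3 := f_le h hp
    have h4 := h.le _ (far_ge hp)
    have h5 := h.nn _ (far_ge hp)
    calc (Nm p.1 p.2 : ℝ) * (φ (Nm p.1 p.2) * f (Nm p.1 p.2)) ≤
        (Nm p.1 p.2 : ℝ) * (β * (Nm p.1 p.2 : ℝ) ^ (-B)) := by gcongr
      _ = _ := by ring
  calc _ ≤ _ := h1
    _ ≤ β * (1 / 10) := mul_le_mul_of_nonneg_left hch hβ.le
    _ = _ := by ring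

theorem sep_defG : ∃ Cc τ : ℝ, 1 ≤ Cc ∧ 0 < τ ∧ Cc * τ ≤ 1 / 100 ∧
    (∀ (N : ℕ) (x : Fin N → ℂ), Sep x → (∀ i, 0 ≤ ex x i) ∧
      ∃ ρ : Equiv.Perm (Fin N × Fin N), IsRot x τ Cc ρ) ∧
    ∃ η₀ : ℝ, 0 < η₀ ∧ ∃ B₀ : ℝ, 2 ≤ B₀ ∧ ∃ c : ℝ, 0 < c ∧
    ∀ (f : ℝ → ℝ) (φ : ℕ → ℝ) (β B : ℝ), Pot f φ β B → B₀ ≤ B →
    ∀ (A : ℝ) (K N : ℕ) (x : Fin N → ℂ), 1 ≤ A → A ≤ 1 + η₀ → Sep x → ∀ d : ℝ, 0 ≤ d → d ≤ 1 →
      N * (eF f K + PF f φ β K * (√3 / 2)) +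
        c * β * d ^ 2 * ({i | ¬ Dv τ A x d i}.ncard : ℝ) ≤
          EnG f A x + PF f φ β K * ∑ i, vA A x i := by
  classical
  obtain ⟨C, hC, τr, hτr, hCτr, hrot⟩ := exists_rot
  obtain ⟨τa, hτa, η₁, hη₁, harea⟩ := area_good
  set τ : ℝ := min τr τa with hτdef
  have hτ : 0 < τ := lt_min hτr hτa
  obtain ⟨η₂, hη₂, β₂, hβ₂, c, hc, hloc⟩ := locG τ hτ τa η₁ hη₁ (min_le_right _ _) harea
  obtain ⟨B₁, hB₁, hch⟩ := chargeG (c / 2 * (1 / 1000) ^ 2) (10 ^ 7) (by positivity) (by positivity)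
  refine ⟨C, τ, hC, hτ, (mul_le_mul_of_nonneg_left (min_le_left _ _) (by linarith)).trans hCτr,
    fun N x hx => hrot N x hx τ hτ (min_le_left _ _),
    min η₂ (1 / 1000), by positivity, max β₂ B₁, le_max_of_le_right hB₁, c / 2, by positivity, ?_⟩
  intro f φ β B hpot hBB A K N x hA1 hA2 hx d hd0 hd1
  have hBβ : B ≤ β := hpot.big
  have hββ₂ : β₂ ≤ β := ((le_max_left _ _).trans hBB).trans hBβ
  have hBB₁ : B₁ ≤ B := (le_max_right _ _).trans hBB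
  have hβ1 : 1 ≤ β := hβ₂.trans hββ₂
  have hβ0 : 0 < β := by linarith
  have hAη : A ≤ 1 + η₂ := hA2.trans (by linarith [min_le_left η₂ (1 / 1000 : ℝ)])
  have hA3 : A ≤ 1001 / 1000 := by linarith [min_le_right η₂ (1 / 1000 : ℝ)]
  have hCτ : C * τ ≤ 1 / 100 :=
    (mul_le_mul_of_nonneg_left (min_le_left _ _) (by linarith)).trans hCτr
  obtain ⟨hex0, ρ, hρ⟩ := hrot N x hx τ hτ (min_le_left _ _)
  obtain ⟨hch1, hch2⟩ := hch B hBB₁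
  set q : ℝ := qF f φ β K with hq
  have hq0 : 0 ≤ q := qF_nonneg hpot hβ0 K
  have hq1 : q ≤ 1 := (qF_le hpot hβ0 (hch2 K)).trans (by norm_num)
  -- the cost of a bad particle
  set cost : Fin N → ℝ := fun i => ∑ p ∈ far K, if i ∈ bad τ A (1 / 1000) x (p.1 + p.2) then
    f (Nm p.1 p.2) * (10 ^ 7 * ((p.1 : ℝ) + p.2) ^ 6 * β) else 0 with hcost
  have hfar2 : ∀ p ∈ far K, 2 ≤ p.1 + p.2 ∧ p.1 + p.2 ≤ K := by
    intro p hp
    unfold far at hp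
    rw [Finset.mem_filter] at hp
    exact hp.2
  set dfc : Fin N → ℝ := fun i => if Dv τ A x d i then 0 else c / 2 * β * d ^ 2 with hdfc
  have hP : PF f φ β K = 4 * √3 * β * (1 + q) := PF_eq hβ0 K
  have hlocal : ∀ i, 1 * (6 + 6 * β * (1 + q)) + cost i + dfc i ≤
      (if ex x i ≤ τ then ∑ j ∈ Nbr x i, (Real.exp (-β * ((‖x j - x i‖ / A) ^ 2 - 1)) -
            β * q * ((‖x j - x i‖ / A) ^ 2 - 1)) else 0) + PF f φ β K * vA A x i := by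
    intro i
    have h1d := hloc β A q N x i hββ₂ hA1 hAη hq0 hq1 hx d hd0 hd1
    have h1d' : (if Dv τ A x d i then 0 else c * β * d ^ 2) = 2 * dfc i := by
      rw [hdfc]
      show _ = 2 * (if Dv τ A x d i then 0 else c / 2 * β * d ^ 2)
      split_ifs
      · ring
      · ring
    rw [h1d'] at h1d
    by_cases hb : ∃ k, 2 ≤ k ∧ k ≤ K ∧ i ∈ bad τ A (1 / 1000) x k
    · set k₀ := Nat.find hb with hk₀
      obtain ⟨hk2, hkK, hkb⟩ := Nat.find_spec hb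
      rw [← hk₀] at hk2 hkK hkb
      have hmin : ∀ k, 2 ≤ k → k ≤ K → i ∈ bad τ A (1 / 1000) x k → k₀ ≤ k :=
        fun k h1 h2 h3 => Nat.find_min' hb ⟨h1, h2, h3⟩
      have hk0 : (0 : ℝ) < k₀ := by exact_mod_cast (by omega : 0 < k₀)
      have hk1 : (1 : ℝ) ≤ k₀ := by exact_mod_cast (by omega : 1 ≤ k₀)
      have hD : ¬ Dv τ A x (1 / 1000 / (k₀ : ℝ) ^ 2) i := by
        unfold bad at hkb
        rw [Finset.mem_filter] at hkb
        exact hkb.2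
      have hdk1 : 1 / 1000 / (k₀ : ℝ) ^ 2 ≤ 1 := by
        rw [div_le_one (by positivity)]
        nlinarith
      have h1 := hloc β A q N x i hββ₂ hA1 hAη hq0 hq1 hx (1 / 1000 / (k₀ : ℝ) ^ 2) (by positivity) hdk1
      rw [if_neg hD] at h1
      have h2 : cost i ≤ β * (c / 2 * (1 / 1000) ^ 2 / (k₀ : ℝ) ^ 4) := by
        refine le_trans ?_ (mul_le_mul_of_nonneg_left (hch1 K k₀ hk2) hβ0.le)
        rw [hcost, Finset.sum_filter, Finset.mul_sum]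
        refine Finset.sum_le_sum fun p hp => ?_
        by_cases h3 : i ∈ bad τ A (1 / 1000) x (p.1 + p.2)
        · rw [if_pos h3, if_pos (hmin _ (hfar2 p hp).1 (hfar2 p hp).2 h3)]
          have h4 := f_le hpot hp
          have h5 : 0 ≤ 10 ^ 7 * ((p.1 : ℝ) + p.2) ^ 6 * β := by positivity
          calc _ ≤ (Nm p.1 p.2 : ℝ) ^ (-B) * (10 ^ 7 * ((p.1 : ℝ) + p.2) ^ 6 * β) := by gcongr
            _ = _ := by ring
        · rw [if_neg h3]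
          split_ifs
          · positivity
          · simp
      have h4 : (c * β * (1 / 1000 / (k₀ : ℝ) ^ 2) ^ 2) =
          2 * (β * (c / 2 * (1 / 1000) ^ 2 / (k₀ : ℝ) ^ 4)) := by
        field_simp
      rw [h4] at h1
      rw [hP]
      linarith [h1, h2, h1d]
    · push Not at hb
      have h2 : cost i = 0 := by
        rw [hcost]
        refine Finset.sum_eq_zero fun p hp => ?_
        rw [if_neg (hb _ (hfar2 p hp).1 (hfar2 p hp).2)]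
      have hd3 : 0 ≤ dfc i := by
        rw [hdfc]
        show 0 ≤ (if Dv τ A x d i then 0 else c / 2 * β * d ^ 2)
        split_ifs
        · exact le_rfl
        · positivity
      rw [hP, h2]
      linarith [h1d]
  have hsum := Finset.sum_le_sum fun i (_ : i ∈ Finset.univ) => hlocal i
  have hdsum : ∑ i, dfc i = c / 2 * β * d ^ 2 * ({i | ¬ Dv τ A x d i}.ncard : ℝ) := by
    rw [hdfc, Finset.sum_ite, Finset.sum_const_zero, zero_add, Finset.sum_const, nsmul_eq_mul,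
      Set.ncard_eq_toFinset_card']
    rw [mul_comm]
    congr 3
    ext i
    simp
  rw [Finset.sum_add_distrib, Finset.sum_add_distrib, Finset.sum_add_distrib,
    Finset.sum_const (1 * (6 + 6 * β * (1 + q))), Finset.card_univ, Fintype.card_fin, nsmul_eq_mul, hdsum] at hsum
  have hBg := Sb.sum_Bg τ x fun γ => Real.exp (-β * ((‖bv x γ‖ / A) ^ 2 - 1)) -
            β * q * ((‖bv x γ‖ / A) ^ 2 - 1)
  have hBg' : (∑ i, if ex x i ≤ τ then ∑ j ∈ Nbr x i, (Real.exp (-β * ((‖x j - x i‖ / A) ^ 2 - 1)) -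
            β * q * ((‖x j - x i‖ / A) ^ 2 - 1)) else 0) =
      ∑ γ ∈ Bg τ x, (Real.exp (-β * ((‖bv x γ‖ / A) ^ 2 - 1)) -
            β * q * ((‖bv x γ‖ / A) ^ 2 - 1)) := by
    rw [hBg]
    rfl
  have h9 : ∑ i, PF f φ β K * vA A x i = PF f φ β K * ∑ i, vA A x i := (Finset.mul_sum ..).symm
  rw [hBg', Finset.sum_sub_distrib, ← Finset.mul_sum, h9] at hsum
  generalize hS : ∑ γ ∈ Bg τ x, ((‖bv x γ‖ / A) ^ 2 - 1) = S at hsum
  have hexp : ∑ γ ∈ Bg τ x, Real.exp (-β * ((‖bv x γ‖ / A) ^ 2 - 1)) ≤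
      ∑ γ ∈ Bg τ x, f ((‖bv x γ‖ / A) ^ 2) := by
    refine Finset.sum_le_sum fun γ hγ => ?_
    have h1 : 1 ≤ ‖bv x γ‖ := by
      unfold Bg at hγ
      rw [Finset.mem_filter, Comm.mem_Bd] at hγ
      exact hx _ _ hγ.1.1
    have h2 := hpot.tan 1 le_rfl ((‖bv x γ‖ / A) ^ 2) (by positivity)
    rw [hpot.one, Nat.cast_one, hpot.norm, one_mul] at h2
    exact h2
  -- the far shells
  have hen : ∑ γ ∈ Bg τ x, f ((‖bv x γ‖ / A) ^ 2) +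
      ∑ p ∈ far K, ∑ γ ∈ Gk τ A (1 / 1000) x ρ (p.1 + p.2), f ((‖Xv x ρ p.1 p.2 γ‖ / A) ^ 2) ≤
        EnG f A x :=
    en_geG (F := fun t => f (t ^ 2)) hx (fun t ht => (hpot.pos _ (by positivity)).le) hC hCτ hA1 hA3
      hex0 hρ K
  have hfar : ∑ p ∈ far K, f (Nm p.1 p.2) * (6 * N - φ (Nm p.1 p.2) * Nm p.1 p.2 * S -
      10 ^ 7 * ((p.1 : ℝ) + p.2) ^ 6 * β * ((bad τ A (1 / 1000) x (p.1 + p.2)).card : ℝ)) ≤
      ∑ p ∈ far K, ∑ γ ∈ Gk τ A (1 / 1000) x ρ (p.1 + p.2), f ((‖Xv x ρ p.1 p.2 γ‖ / A) ^ 2) := by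
    refine Finset.sum_le_sum fun p hp => hS ▸ far_shellG hx hC hCτ hA1 hA3 hβ1 hex0 hρ
      (by have := (hfar2 p hp).1; omega) (f_pos hpot hp).le (hpot.nn _ (far_ge hp))
      (hpot.le _ (far_ge hp)) fun y hy => ?_
    have h1 := hpot.tan _ (far_ge hp) y hy
    refine le_trans (mul_le_mul_of_nonneg_left ?_ (f_pos hpot hp).le) h1
    have h2 := Real.add_one_le_exp (-φ (Nm p.1 p.2) * (y - (Nm p.1 p.2 : ℝ)))
    linarith
  have hcs : ∑ i, cost i = ∑ p ∈ far K, f (Nm p.1 p.2) *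
      (10 ^ 7 * ((p.1 : ℝ) + p.2) ^ 6 * β * ((bad τ A (1 / 1000) x (p.1 + p.2)).card : ℝ)) := by
    rw [hcost, Finset.sum_comm]
    refine Finset.sum_congr rfl fun p _ => ?_
    rw [Finset.sum_ite_mem, Finset.univ_inter, Finset.sum_const, nsmul_eq_mul]
    ring
  have hfs : ∑ p ∈ far K, f (Nm p.1 p.2) * (6 * N - φ (Nm p.1 p.2) * Nm p.1 p.2 * S -
      10 ^ 7 * ((p.1 : ℝ) + p.2) ^ 6 * β * ((bad τ A (1 / 1000) x (p.1 + p.2)).card : ℝ)) =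
      6 * N * ∑ p ∈ far K, f (Nm p.1 p.2) - β * q * S - ∑ i, cost i := by
    rw [hcs, hq, ← qF_eq hβ0, Finset.mul_sum, Finset.sum_mul, ← Finset.sum_sub_distrib,
      ← Finset.sum_sub_distrib]
    refine Finset.sum_congr rfl fun p _ => ?_
    ring
  rw [hfs] at hfar
  have hP2 : PF f φ β K * (√3 / 2) = 6 * β * (1 + q) := by
    have h3 : √3 * √3 = 3 := Real.mul_self_sqrt (by norm_num)
    rw [hP]
    linear_combination (2 * β * (1 + q)) * h3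
  have hE : eF f K = 6 * (1 + ∑ p ∈ far K, f (Nm p.1 p.2)) := by
    unfold eF
    rw [hpot.norm]
  rw [hP2, hE]
  linarith [hsum, hfar, hen, hexp]

end Sg

end Pool.Agent.J4.H83.SG
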