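import Pool.Agent.J4.H83.SG.Bridge

/-!
# Steep Gaussians: the bound for separated configurations, with defects
-/

set_option autoImplicit false

open MeasureTheory Set Filter Topology

namespace Pool.Agent.J4.H83.SG

open Pool.Agent.J4.H83.FV Pool.Agent.J4.H83.HD Pool.Agent.J4.H83.OO

namespace Sb

theorem sum_Bg {N : ℕ} (τ : ℝ) (x : Fin N → ℂ) (f : Fin N × Fin N → ℝ) :
    ∑ γ ∈ Bg τ x, f γ = ∑ i, if ex x i ≤ τ then ∑ j ∈ Nbr x i, f (i, j) else 0 := by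
  classical
  unfold Bg Bd
  rw [Finset.sum_filter, Finset.sum_filter, ← Finset.univ_product_univ, Finset.sum_product]
  refine Finset.sum_congr rfl fun i _ => ?_
  by_cases h : ex x i ≤ τ
  · simp only [h, if_true]
    rw [Finset.sum_ite_mem, Finset.univ_inter]
  · simp [h]

theorem mono {N : ℕ} {τ A d d' : ℝ} (hd : d' ≤ d) {x : Fin N → ℂ} {i : Fin N} (h : Dv τ A x d' i) :
    Dv τ A x d i :=
  ⟨h.1, fun j hj => (h.2 j hj).trans hd⟩

theorem bad_mono {N : ℕ} {τ A c₀ : ℝ} (hc : 0 ≤ c₀) {x : Fin N → ℂ} {k k' : ℕ} (hk : 1 ≤ k)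
    (hkk : k ≤ k') : bad τ A c₀ x k ⊆ bad τ A c₀ x k' := by
  classical
  intro i hi
  unfold bad at *
  rw [Finset.mem_filter] at *
  refine ⟨hi.1, fun h => hi.2 (mono ?_ h)⟩
  have h1 : (0 : ℝ) < k := by exact_mod_cast hk
  have h2 : (k : ℝ) ≤ k' := by exact_mod_cast hkk
  exact div_le_div_of_nonneg_left hc (by positivity) (by gcongr)

/-- the ratio of the far pressure and the nearest neighbour pressure -/
noncomputable def qK (β : ℝ) (K : ℕ) : ℝ :=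
  (∑ p ∈ far K, (Nm p.1 p.2 : ℝ) * Real.exp (-β * Nm p.1 p.2)) * Real.exp β

theorem qK_eq (β : ℝ) (K : ℕ) :
    ∑ p ∈ far K, (Nm p.1 p.2 : ℝ) * Real.exp (-β * Nm p.1 p.2) = qK β K * Real.exp (-β) := by
  unfold qK
  rw [mul_assoc, ← Real.exp_add]
  simp

theorem PK_eq (β : ℝ) (K : ℕ) : PK β K = 4 * √3 * β * (1 + qK β K) * Real.exp (-β) := by
  unfold PK
  rw [qK_eq]
  ring

theorem sep_def : ∃ Cc τ : ℝ, 1 ≤ Cc ∧ 0 < τ ∧ Cc * τ ≤ 1 / 100 ∧
    (∀ (N : ℕ) (x : Fin N → ℂ), Sep x → (∀ i, 0 ≤ ex x i) ∧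
      ∃ ρ : Equiv.Perm (Fin N × Fin N), IsRot x τ Cc ρ) ∧
    ∃ η₀ : ℝ, 0 < η₀ ∧ ∃ β₀ : ℝ, 1 ≤ β₀ ∧ ∃ c : ℝ, 0 < c ∧ ∀ (β A : ℝ) (K N : ℕ) (x : Fin N → ℂ),
    β₀ ≤ β → 1 ≤ A → A ≤ 1 + η₀ → Sep x → ∀ d : ℝ, 0 ≤ d → d ≤ 1 →
      N * (eK β K + PK β K * (√3 / 2)) +
        c * β * Real.exp (-β) * d ^ 2 * ({i | ¬ Dv τ A x d i}.ncard : ℝ) ≤
          En β A x + PK β K * ∑ i, vA A x i := by
  classical
  obtain ⟨C, hC, τr, hτr, hCτr, hrot⟩ := exists_rot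
  obtain ⟨τa, hτa, η₁, hη₁, harea⟩ := area_good
  set τ : ℝ := min τr τa with hτdef
  have hτ : 0 < τ := lt_min hτr hτa
  obtain ⟨η₂, hη₂, β₂, hβ₂, c, hc, hloc⟩ := loc τ hτ τa η₁ hη₁ (min_le_right _ _) harea
  obtain ⟨β₁, hβ₁, hch⟩ := charge (c / 2 * (1 / 1000) ^ 2) (10 ^ 7) (by positivity) (by positivity)
  refine ⟨C, τ, hC, hτ, (mul_le_mul_of_nonneg_left (min_le_left _ _) (by linarith)).trans hCτr,
    fun N x hx => hrot N x hx τ hτ (min_le_left _ _),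
    min η₂ (1 / 1000), by positivity, max β₂ β₁, le_max_of_le_left hβ₂, c / 2, by positivity, ?_⟩
  intro β A K N x hβ hA1 hA2 hx d hd0 hd1
  have hββ₂ : β₂ ≤ β := (le_max_left _ _).trans hβ
  have hββ₁ : β₁ ≤ β := (le_max_right _ _).trans hβ
  have hβ1 : 1 ≤ β := hβ₂.trans hββ₂
  have hβ0 : 0 < β := by linarith
  have hAη : A ≤ 1 + η₂ := hA2.trans (by linarith [min_le_left η₂ (1 / 1000 : ℝ)])
  have hA3 : A ≤ 1001 / 1000 := by linarith [min_le_right η₂ (1 / 1000 : ℝ)]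
  have hCτ : C * τ ≤ 1 / 100 :=
    (mul_le_mul_of_nonneg_left (min_le_left _ _) (by linarith)).trans hCτr
  obtain ⟨hex0, ρ, hρ⟩ := hrot N x hx τ hτ (min_le_left _ _)
  obtain ⟨hch1, hch2⟩ := hch β hββ₁
  set e : ℝ := Real.exp (-β) with he
  have he0 : 0 < e := Real.exp_pos _
  set q : ℝ := qK β K with hq
  have hq0 : 0 ≤ q := by
    rw [hq]; unfold qK
    exact mul_nonneg (Finset.sum_nonneg fun p _ => by positivity) (Real.exp_pos _).le
  have hq1 : q ≤ 1 / β := by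
    have h1 := hch2 K
    rw [qK_eq] at h1
    have h2 : q * e ≤ 1 / β * e := by
      calc q * e ≤ Real.exp (-β) / β := h1
        _ = 1 / β * e := by ring
    exact le_of_mul_le_mul_right h2 he0
  -- the cost of a bad particle
  set cost : Fin N → ℝ := fun i => ∑ p ∈ far K, if i ∈ bad τ A (1 / 1000) x (p.1 + p.2) then
    Real.exp (-β * Nm p.1 p.2) * (10 ^ 7 * ((p.1 : ℝ) + p.2) ^ 6 * β) else 0 with hcost
  have hfar2 : ∀ p ∈ far K, 2 ≤ p.1 + p.2 ∧ p.1 + p.2 ≤ K := by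
    intro p hp
    unfold far at hp
    rw [Finset.mem_filter] at hp
    exact hp.2
  set dfc : Fin N → ℝ := fun i => if Dv τ A x d i then 0 else c / 2 * β * e * d ^ 2 with hdfc
  have hlocal : ∀ i, e * (6 + 6 * β * (1 + q)) + cost i + dfc i ≤
      e * (if ex x i ≤ τ then ∑ j ∈ Nbr x i, (Real.exp (-β * ((‖x j - x i‖ / A) ^ 2 - 1)) -
            β * q * ((‖x j - x i‖ / A) ^ 2 - 1)) else 0) + PK β K * vA A x i := by
    intro i
    have hP : PK β K = e * (4 * √3 * β * (1 + q)) := by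
      rw [PK_eq]; ring
    by_cases hb : ∃ k, 2 ≤ k ∧ k ≤ K ∧ i ∈ bad τ A (1 / 1000) x k
    · set k₀ := Nat.find hb with hk₀
      obtain ⟨hk2, hkK, hkb⟩ := Nat.find_spec hb
      rw [← hk₀] at hk2 hkK hkb
      have hmin : ∀ k, 2 ≤ k → k ≤ K → i ∈ bad τ A (1 / 1000) x k → k₀ ≤ k :=
        fun k h1 h2 h3 => Nat.find_min' hb ⟨h1, h2, h3⟩
      have hk0 : (0 : ℝ) < k₀ := by exact_mod_cast (by omega : 0 < k₀)
      have hk1 : (1 : ℝ) ≤ k₀ := by exact_mod_cast (by omega : 1 ≤ k₀)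
      have hD : ¬ Dv τ A x (1 / 1000 / (k₀ : ℝ) ^ 2) i := by
        unfold bad at hkb
        rw [Finset.mem_filter] at hkb
        exact hkb.2
      have hdk1 : 1 / 1000 / (k₀ : ℝ) ^ 2 ≤ 1 := by
        rw [div_le_one (by positivity)]
        nlinarith
      have h1 := hloc β A q N x i hββ₂ hA1 hAη hq0 hq1 hx (1 / 1000 / (k₀ : ℝ) ^ 2) (by positivity) hdk1
      rw [if_neg hD] at h1
      have h1d := hloc β A q N x i hββ₂ hA1 hAη hq0 hq1 hx d hd0 hd1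
      have h1d' : e * (if Dv τ A x d i then 0 else c * β * d ^ 2) = 2 * dfc i := by
        rw [hdfc]
        show _ = 2 * (if Dv τ A x d i then 0 else c / 2 * β * e * d ^ 2)
        split_ifs
        · ring
        · ring
      have h2 : cost i ≤ c / 2 * (1 / 1000) ^ 2 * β * e / (k₀ : ℝ) ^ 4 := by
        refine le_trans ?_ (hch1 K k₀ hk2)
        rw [hcost, Finset.sum_filter]
        refine Finset.sum_le_sum fun p hp => ?_
        by_cases h3 : i ∈ bad τ A (1 / 1000) x (p.1 + p.2)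
        · rw [if_pos h3, if_pos (hmin _ (hfar2 p hp).1 (hfar2 p hp).2 h3)]
        · rw [if_neg h3]
          split_ifs
          · positivity
          · exact le_rfl
      have h4 : e * (c * β * (1 / 1000 / (k₀ : ℝ) ^ 2) ^ 2) =
          2 * (c / 2 * (1 / 1000) ^ 2 * β * e / (k₀ : ℝ) ^ 4) := by
        field_simp
      have h5 := mul_le_mul_of_nonneg_left h1 he0.le
      have h5d := mul_le_mul_of_nonneg_left h1d he0.le
      rw [mul_add, mul_add, h4] at h5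
      rw [mul_add e, h1d', mul_add e (ite _ _ _)] at h5d
      rw [hP]
      linarith [h5, h2, h5d]
    · push Not at hb
      have h2 : cost i = 0 := by
        rw [hcost]
        refine Finset.sum_eq_zero fun p hp => ?_
        rw [if_neg (hb _ (hfar2 p hp).1 (hfar2 p hp).2)]
      have h1 := hloc β A q N x i hββ₂ hA1 hAη hq0 hq1 hx d hd0 hd1
      have h1d' : e * (if Dv τ A x d i then 0 else c * β * d ^ 2) = 2 * dfc i := by
        rw [hdfc]
        show _ = 2 * (if Dv τ A x d i then 0 else c / 2 * β * e * d ^ 2)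
        split_ifs
        · ring
        · ring
      have hd3 : 0 ≤ dfc i := by
        rw [hdfc]
        show 0 ≤ (if Dv τ A x d i then 0 else c / 2 * β * e * d ^ 2)
        split_ifs
        · exact le_rfl
        · positivity
      have h5 := mul_le_mul_of_nonneg_left h1 he0.le
      rw [mul_add e, h1d', mul_add e (ite _ _ _)] at h5
      rw [hP, h2]
      linarith [h5]
  have hsum := Finset.sum_le_sum fun i (_ : i ∈ Finset.univ) => hlocal i
  have hdsum : ∑ i, dfc i = c / 2 * β * e * d ^ 2 * ({i | ¬ Dv τ A x d i}.ncard : ℝ) := by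
    rw [hdfc, Finset.sum_ite, Finset.sum_const_zero, zero_add, Finset.sum_const, nsmul_eq_mul,
      Set.ncard_eq_toFinset_card']
    rw [mul_comm]
    congr 3
    ext i
    simp
  rw [Finset.sum_add_distrib, Finset.sum_add_distrib, Finset.sum_add_distrib, ← Finset.mul_sum,
    ← Finset.mul_sum,
    Finset.sum_const, Finset.card_univ, Fintype.card_fin, nsmul_eq_mul, hdsum] at hsum
  have hBg := sum_Bg τ x fun γ => Real.exp (-β * ((‖bv x γ‖ / A) ^ 2 - 1)) -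
            β * q * ((‖bv x γ‖ / A) ^ 2 - 1)
  have hBg' : (∑ i, if ex x i ≤ τ then ∑ j ∈ Nbr x i, (Real.exp (-β * ((‖x j - x i‖ / A) ^ 2 - 1)) -
            β * q * ((‖x j - x i‖ / A) ^ 2 - 1)) else 0) =
      ∑ γ ∈ Bg τ x, (Real.exp (-β * ((‖bv x γ‖ / A) ^ 2 - 1)) -
            β * q * ((‖bv x γ‖ / A) ^ 2 - 1)) := by
    rw [hBg]
    rfl
  have h9 : ∑ i, PK β K * vA A x i = PK β K * ∑ i, vA A x i := (Finset.mul_sum ..).symm
  rw [hBg', Finset.sum_sub_distrib, ← Finset.mul_sum, h9] at hsum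
  generalize hS : ∑ γ ∈ Bg τ x, ((‖bv x γ‖ / A) ^ 2 - 1) = S at hsum
  have hexp : e * ∑ γ ∈ Bg τ x, Real.exp (-β * ((‖bv x γ‖ / A) ^ 2 - 1)) =
      ∑ γ ∈ Bg τ x, Real.exp (-β * (‖bv x γ‖ / A) ^ 2) := by
    rw [Finset.mul_sum]
    refine Finset.sum_congr rfl fun γ _ => ?_
    rw [he, ← Real.exp_add]
    congr 1
    ring
  -- the far shells
  have hen := en_ge (β := β) hx hC hCτ hA1 hA3 hex0 hρ K
  have hfar : ∑ p ∈ far K, Real.exp (-β * Nm p.1 p.2) * (6 * N - β * Nm p.1 p.2 * S -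
      10 ^ 7 * ((p.1 : ℝ) + p.2) ^ 6 * β * ((bad τ A (1 / 1000) x (p.1 + p.2)).card : ℝ)) ≤
      ∑ p ∈ far K, ∑ γ ∈ Gk τ A (1 / 1000) x ρ (p.1 + p.2),
        Real.exp (-β * (‖Xv x ρ p.1 p.2 γ‖ / A) ^ 2) :=
    Finset.sum_le_sum fun p hp => hS ▸ far_shell hx hC hCτ hA1 hA3 hβ1 hex0 hρ
      (by have := (hfar2 p hp).1; omega)
  have hcs : ∑ i, cost i = ∑ p ∈ far K, Real.exp (-β * Nm p.1 p.2) *
      (10 ^ 7 * ((p.1 : ℝ) + p.2) ^ 6 * β * ((bad τ A (1 / 1000) x (p.1 + p.2)).card : ℝ)) := by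
    rw [hcost, Finset.sum_comm]
    refine Finset.sum_congr rfl fun p _ => ?_
    rw [Finset.sum_ite_mem, Finset.univ_inter, Finset.sum_const, nsmul_eq_mul]
    ring
  have hfs : ∑ p ∈ far K, Real.exp (-β * Nm p.1 p.2) * (6 * N - β * Nm p.1 p.2 * S -
      10 ^ 7 * ((p.1 : ℝ) + p.2) ^ 6 * β * ((bad τ A (1 / 1000) x (p.1 + p.2)).card : ℝ)) =
      6 * N * ∑ p ∈ far K, Real.exp (-β * Nm p.1 p.2) - β * (q * e) * S - ∑ i, cost i := by
    rw [hcs, he, hq, ← qK_eq, Finset.mul_sum, Finset.mul_sum, Finset.sum_mul, ← Finset.sum_sub_distrib,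
      ← Finset.sum_sub_distrib]
    refine Finset.sum_congr rfl fun p _ => ?_
    ring
  rw [hfs] at hfar
  have hP2 : PK β K * (√3 / 2) = e * (6 * β * (1 + q)) := by
    have h3 : √3 * √3 = 3 := Real.mul_self_sqrt (by norm_num)
    rw [PK_eq]
    linear_combination (2 * β * (1 + q) * e) * h3
  have hE : eK β K = 6 * (e + ∑ p ∈ far K, Real.exp (-β * Nm p.1 p.2)) := rfl
  rw [hP2, hE]
  rw [mul_sub, hexp] at hsum
  linarith [hsum, hfar, hen]

theorem sep_bound : ∃ η₀ : ℝ, 0 < η₀ ∧ ∃ β₀ : ℝ, 1 ≤ β₀ ∧ ∀ (β A : ℝ) (K N : ℕ) (x : Fin N → ℂ),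
    β₀ ≤ β → 1 ≤ A → A ≤ 1 + η₀ → Sep x →
      N * (eK β K + PK β K * (√3 / 2)) ≤ En β A x + PK β K * ∑ i, vA A x i := by
  obtain ⟨_, _, _, _, _, _, η₀, hη, β₀, hβ, c, _, h⟩ := sep_def
  refine ⟨η₀, hη, β₀, hβ, fun β A K N x h1 h2 h3 h4 => ?_⟩
  have := h β A K N x h1 h2 h3 h4 0 le_rfl zero_le_one
  simpa using this

end Sb

end Pool.Agent.J4.H83.SG
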