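import Pool.Agent.J4.H83.SG.Pos
import Pool.Agent.J4.H83.SG.RotD

/-!
# The sum of the squares of the translates of the bonds by a lattice vector
-/

set_option autoImplicit false

open MeasureTheory Set Filter Topology

namespace Pool.Agent.J4.H83.SG

open Pool.Agent.J4.H83.FV Pool.Agent.J4.H83.HD Pool.Agent.J4.H83.OO

namespace SumSq

/-! ### Permutations of the bonds -/

section perm

variable {N : ℕ} {x : Fin N → ℂ}

theorem shift_le (T : Equiv.Perm (Fin N × Fin N)) (hT : ∀ p ∈ Bd x, T p ∈ Bd x)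
    (G : Finset (Fin N × Fin N)) (hG : G ⊆ Bd x) (f : Fin N × Fin N → ℝ) (hf : ∀ p, 0 ≤ f p)
    (B : ℝ) (hB0 : 0 ≤ B) (hB : ∀ p ∈ G, f (T p) ≤ B) :
    ∑ γ ∈ G, f (T γ) ≤ ∑ γ ∈ G, f γ + B * ((Bd x \ G).card : ℝ) := by
  classical
  have h1 := Finset.sum_image (s := G) (g := T) (f := f) fun a _ b _ hab => T.injective hab
  rw [← h1, ← Finset.sum_inter_add_sum_sdiff (G.image T) G f]
  refine add_le_add ?_ ?_
  · exact Finset.sum_le_sum_of_subset_of_nonneg Finset.inter_subset_right fun p _ _ => hf p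
  · have h2 : ∑ p ∈ G.image T \ G, f p ≤ ∑ _p ∈ G.image T \ G, B := by
      refine Finset.sum_le_sum fun p hp => ?_
      obtain ⟨q, hq, rfl⟩ := Finset.mem_image.1 (Finset.mem_sdiff.1 hp).1
      exact hB q hq
    refine h2.trans ?_
    rw [Finset.sum_const, nsmul_eq_mul, mul_comm]
    refine mul_le_mul_of_nonneg_left ?_ hB0
    have h3 : G.image T \ G ⊆ Bd x \ G := by
      refine Finset.sdiff_subset_sdiff ?_ (le_refl _)
      intro p hp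
      obtain ⟨q, hq, rfl⟩ := Finset.mem_image.1 hp
      exact hT q (hG hq)
    exact_mod_cast Finset.card_le_card h3

theorem shift_ge (V : Equiv.Perm (Fin N × Fin N)) (hV : ∀ p ∈ Bd x, V p ∈ Bd x)
    (G : Finset (Fin N × Fin N)) (hG : G ⊆ Bd x) (f : Fin N × Fin N → ℝ) (hf : ∀ p, 0 ≤ f p)
    (B : ℝ) (hB : ∀ p ∈ Bd x, f p ≤ B) :
    ∑ γ ∈ G, f γ - B * ((Bd x \ G).card : ℝ) ≤ ∑ γ ∈ G, f (V γ) := by
  classical
  have h1 := CountO.sum_perm V hV f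
  have h2 := Finset.sum_sdiff (f := fun p => f (V p)) hG
  have h3 : ∑ p ∈ Bd x \ G, f (V p) ≤ ∑ _p ∈ Bd x \ G, B :=
    Finset.sum_le_sum fun p hp => hB _ (hV _ (Finset.mem_sdiff.1 hp).1)
  rw [Finset.sum_const, nsmul_eq_mul, mul_comm] at h3
  have h4 : ∑ γ ∈ G, f γ ≤ ∑ γ ∈ Bd x, f γ :=
    Finset.sum_le_sum_of_subset_of_nonneg hG fun p _ _ => hf p
  linarith

theorem inv_mem (σ : Equiv.Perm (Fin N × Fin N)) (h : ∀ p ∈ Bd x, σ p ∈ Bd x) :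
    ∀ p ∈ Bd x, σ⁻¹ p ∈ Bd x := by
  classical
  intro p hp
  have himg : (Bd x).image σ = Bd x := by
    refine Finset.eq_of_subset_of_card_le (Finset.image_subset_iff.2 h) ?_
    rw [Finset.card_image_of_injective _ σ.injective]
  rw [← himg] at hp
  obtain ⟨q, hq, rfl⟩ := Finset.mem_image.1 hp
  rw [show σ⁻¹ (σ q) = q from σ.symm_apply_apply q]
  exact hq

theorem bv_sq_le {p : Fin N × Fin N} (hp : p ∈ Bd x) : ‖bv x p‖ ≤ 1.1548 := by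
  have h1 := (Comm.mem_Bd.1 hp).2
  have h2 := R_lt
  unfold bv
  linarith

theorem bv_sq_le2 {p : Fin N × Fin N} (hp : p ∈ Bd x) : ‖bv x p‖ ^ 2 ≤ 2 := by
  have h1 := bv_sq_le hp
  nlinarith [norm_nonneg (bv x p)]

end perm

/-! ### Geometry -/

theorem euler (A B C D : ℂ) : ‖C - A‖ ^ 2 + ‖D - B‖ ^ 2 ≤
    ‖B - A‖ ^ 2 + ‖C - B‖ ^ 2 + ‖C - D‖ ^ 2 + ‖D - A‖ ^ 2 := by
  simp only [Complex.sq_norm, Complex.normSq_apply, Complex.sub_re, Complex.sub_im]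
  nlinarith [sq_nonneg (A.re - B.re + C.re - D.re), sq_nonneg (A.im - B.im + C.im - D.im)]

theorem norm_lat (m n : ℕ) : ‖(m : ℂ) + n * ze‖ ^ 2 = (Nm m n : ℝ) := by
  have h3 : √3 * √3 = 3 := Real.mul_self_sqrt (by norm_num)
  rw [Complex.sq_norm, Complex.normSq_apply]
  unfold ze om Nm
  simp only [Complex.add_re, Complex.add_im, Complex.mul_re, Complex.mul_im, Complex.natCast_re,
    Complex.natCast_im, Complex.one_re, Complex.one_im]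
  push_cast
  linear_combination ((n : ℝ) ^ 2 / 4) * h3

theorem le_Nm (m n : ℕ) : m + n ≤ Nm m n := by
  unfold Nm
  have h1 : m ≤ m ^ 2 := Nat.le_self_pow two_ne_zero m
  have h2 : n ≤ n ^ 2 := Nat.le_self_pow two_ne_zero n
  have h3 : 0 ≤ m * n := Nat.zero_le _
  omega

/-! ### The setting -/

/-- the hypotheses of `sumsq` -/
structure Ctx {N : ℕ} (x : Fin N → ℂ) (τ C A : ℝ) (ρ : Equiv.Perm (Fin N × Fin N)) (k : ℕ) :
    Prop where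
  hx : Sep x
  hC : 1 ≤ C
  hCτ : C * τ ≤ 1 / 100
  hA : 1 ≤ A
  hA2 : A ≤ 1001 / 1000
  hex0 : ∀ i, 0 ≤ ex x i
  hρ : IsRot x τ C ρ
  hk : 1 ≤ k

variable {N : ℕ} {x : Fin N → ℂ} {τ C A : ℝ} {ρ : Equiv.Perm (Fin N × Fin N)} {k : ℕ}

theorem G_sub : Gk τ A (1 / 1000) x ρ k ⊆ Bd x := by
  classical
  unfold Gk
  exact Finset.filter_subset _ _

theorem G_Dw {γ : Fin N × Fin N} (hγ : γ ∈ Gk τ A (1 / 1000) x ρ k) (m n : ℕ) (hm : m ≤ 2 * k)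
    (hn : n ≤ 2 * k) : Dw τ A x (1 / 1000 / (k : ℝ) ^ 2) (act ρ m n γ).1 := by
  classical
  unfold Gk at hγ
  exact (Finset.mem_filter.1 hγ).2 m hm n hn

theorem act_mem (c : Ctx x τ C A ρ k) (m n : ℕ) : ∀ p ∈ Bd x, act ρ m n p ∈ Bd x := by
  intro p hp
  unfold act
  rw [Equiv.Perm.mul_apply]
  exact CountO.pow_mem _ (CountO.fw_mem c.hρ) m _ (CountO.pow_mem _ (CountO.up_mem c.hρ) n p hp)

theorem add_act (c : Ctx x τ C A ρ k) {γ : Fin N × Fin N} (hγ : γ ∈ Gk τ A (1 / 1000) x ρ k)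
    (m n m' n' : ℕ) (hm : m + m' ≤ 2 * k) (hn : n + n' ≤ 2 * k) :
    act ρ m n (act ρ m' n' γ) = act ρ (m + m') (n + n') γ :=
  act_add c.hx c.hC c.hCτ c.hA c.hA2 c.hex0 c.hρ c.hk hγ m n m' n' hm hn

theorem pos' (c : Ctx x τ C A ρ k) {γ : Fin N × Fin N} (hγ : γ ∈ Gk τ A (1 / 1000) x ρ k)
    (m n : ℕ) (h : m + n ≤ k) :
    ‖Xv x ρ m n γ - ((m : ℂ) + n * ze) * bv x γ‖ ≤ 0.0121 := by
  have h1 := (pos c.hx c.hC c.hCτ c.hA c.hA2 c.hex0 c.hρ c.hk hγ m n (by omega) (by omega)).2.2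
  refine h1.trans ?_
  have hk0 : (0 : ℝ) < k := by exact_mod_cast c.hk
  have h2 : ((m : ℝ) + n) ^ 2 ≤ (k : ℝ) ^ 2 := by
    have h3 : ((m : ℝ) + n) ≤ k := by exact_mod_cast h
    have h4 : 0 ≤ (m : ℝ) + n := by positivity
    nlinarith
  have h5 : 12 * ((m : ℝ) + n) ^ 2 * (1 / 1000 / (k : ℝ) ^ 2) ≤ 12 / 1000 := by
    have h6 : 12 * ((m : ℝ) + n) ^ 2 * (1 / 1000 / (k : ℝ) ^ 2) =
        12 / 1000 * (((m : ℝ) + n) ^ 2 / (k : ℝ) ^ 2) := by ring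
    rw [h6]
    have h7 : ((m : ℝ) + n) ^ 2 / (k : ℝ) ^ 2 ≤ 1 := (div_le_one (by positivity)).2 h2
    linarith
  have h8 : 12 * ((m : ℝ) + n) ^ 2 * (1 / 1000 / (k : ℝ) ^ 2) * A ≤ 12 / 1000 * (1001 / 1000) :=
    mul_le_mul h5 c.hA2 (by linarith [c.hA]) (by norm_num)
  refine h8.trans ?_
  norm_num

/-- the displacement of a translate -/
theorem Xv_act (c : Ctx x τ C A ρ k) {γ : Fin N × Fin N} (hγ : γ ∈ Gk τ A (1 / 1000) x ρ k)
    (p1 p2 q1 q2 : ℕ) (h : p1 + p2 + q1 + q2 ≤ k) :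
    Xv x ρ q1 q2 (act ρ p1 p2 γ) = x (act ρ (p1 + q1) (p2 + q2) γ).1 - x (act ρ p1 p2 γ).1 := by
  unfold Xv
  rw [add_act c hγ q1 q2 p1 p2 (by omega) (by omega), add_comm q1 p1, add_comm q2 p2]

theorem Xv_act_le (c : Ctx x τ C A ρ k) {γ : Fin N × Fin N} (hγ : γ ∈ Gk τ A (1 / 1000) x ρ k)
    (p1 p2 q1 q2 : ℕ) (h : p1 + p2 + q1 + q2 ≤ k) :
    ‖Xv x ρ q1 q2 (act ρ p1 p2 γ)‖ ^ 2 ≤ 2 * Nm q1 q2 + 1 := by
  have h1 := pos' c hγ p1 p2 (by omega)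
  have h2 := pos' c hγ (p1 + q1) (p2 + q2) (by omega)
  have h3 : Xv x ρ q1 q2 (act ρ p1 p2 γ) =
      (Xv x ρ (p1 + q1) (p2 + q2) γ - (((p1 + q1 : ℕ) : ℂ) + ((p2 + q2 : ℕ) : ℂ) * ze) * bv x γ) -
      (Xv x ρ p1 p2 γ - ((p1 : ℂ) + p2 * ze) * bv x γ) + ((q1 : ℂ) + q2 * ze) * bv x γ := by
    rw [Xv_act c hγ p1 p2 q1 q2 h]
    unfold Xv
    push_cast
    ring
  have h4 : ‖Xv x ρ q1 q2 (act ρ p1 p2 γ)‖ ≤ 0.0242 + ‖(q1 : ℂ) + q2 * ze‖ * 1.1548 := by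
    rw [h3]
    refine (norm_add_le _ _).trans (add_le_add ?_ ?_)
    · refine (norm_sub_le _ _).trans ?_
      linarith
    · rw [norm_mul]
      exact mul_le_mul_of_nonneg_left (bv_sq_le (G_sub hγ)) (norm_nonneg _)
  have h5 := norm_lat q1 q2
  rw [← h5]
  set t := ‖(q1 : ℂ) + q2 * ze‖
  have ht : 0 ≤ t := norm_nonneg _
  have h6 : ‖Xv x ρ q1 q2 (act ρ p1 p2 γ)‖ ^ 2 ≤ (0.0242 + t * 1.1548) ^ 2 :=
    pow_le_pow_left₀ (norm_nonneg _) h4 2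
  refine h6.trans ?_
  nlinarith [sq_nonneg (t - 1)]

/-- Euler's inequality summed over the good bonds -/
theorem step (c : Ctx x τ C A ρ k) (p1 p2 q1 q2 : ℕ) (h : p1 + p2 + q1 + q2 ≤ k) :
    ∑ γ ∈ Gk τ A (1 / 1000) x ρ k, ‖Xv x ρ (p1 + q1) (p2 + q2) γ‖ ^ 2 +
      ∑ γ ∈ Gk τ A (1 / 1000) x ρ k, ‖x (act ρ q1 q2 γ).1 - x (act ρ p1 p2 γ).1‖ ^ 2 ≤
    2 * ∑ γ ∈ Gk τ A (1 / 1000) x ρ k, ‖Xv x ρ p1 p2 γ‖ ^ 2 +
      2 * ∑ γ ∈ Gk τ A (1 / 1000) x ρ k, ‖Xv x ρ q1 q2 γ‖ ^ 2 +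
      (2 * Nm p1 p2 + 2 * Nm q1 q2 + 2) * ((Bd x \ Gk τ A (1 / 1000) x ρ k).card : ℝ) := by
  set G := Gk τ A (1 / 1000) x ρ k with hG
  have h1 := shift_le (act ρ p1 p2) (act_mem c p1 p2) G G_sub
    (fun γ => ‖Xv x ρ q1 q2 γ‖ ^ 2) (fun _ => by positivity) (2 * Nm q1 q2 + 1) (by positivity)
    (fun γ hγ => Xv_act_le c hγ p1 p2 q1 q2 h)
  have h2 := shift_le (act ρ q1 q2) (act_mem c q1 q2) G G_sub
    (fun γ => ‖Xv x ρ p1 p2 γ‖ ^ 2) (fun _ => by positivity) (2 * Nm p1 p2 + 1) (by positivity)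
    (fun γ hγ => Xv_act_le c hγ q1 q2 p1 p2 (by omega))
  have h3 : ∑ γ ∈ G, (‖Xv x ρ (p1 + q1) (p2 + q2) γ‖ ^ 2 +
      ‖x (act ρ q1 q2 γ).1 - x (act ρ p1 p2 γ).1‖ ^ 2) ≤
      ∑ γ ∈ G, (‖Xv x ρ p1 p2 γ‖ ^ 2 + ‖Xv x ρ q1 q2 (act ρ p1 p2 γ)‖ ^ 2 +
        ‖Xv x ρ p1 p2 (act ρ q1 q2 γ)‖ ^ 2 + ‖Xv x ρ q1 q2 γ‖ ^ 2) := by
    refine Finset.sum_le_sum fun γ hγ => ?_
    rw [Xv_act c hγ p1 p2 q1 q2 h, Xv_act c hγ q1 q2 p1 p2 (by omega), add_comm q1 p1,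
      add_comm q2 p2]
    exact euler _ _ _ _
  simp only [Finset.sum_add_distrib] at h3
  linarith

/-- the other diagonal is a bond -/
theorem low (V : Equiv.Perm (Fin N × Fin N)) (hV : ∀ p ∈ Bd x, V p ∈ Bd x)
    (p1 p2 q1 q2 : ℕ) (h : ∀ γ ∈ Gk τ A (1 / 1000) x ρ k,
      ‖x (act ρ q1 q2 γ).1 - x (act ρ p1 p2 γ).1‖ = ‖bv x (V γ)‖) :
    ∑ γ ∈ Gk τ A (1 / 1000) x ρ k, ‖bv x γ‖ ^ 2 -
      2 * ((Bd x \ Gk τ A (1 / 1000) x ρ k).card : ℝ) ≤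
    ∑ γ ∈ Gk τ A (1 / 1000) x ρ k, ‖x (act ρ q1 q2 γ).1 - x (act ρ p1 p2 γ).1‖ ^ 2 := by
  have h1 := shift_ge V hV (Gk τ A (1 / 1000) x ρ k) G_sub (fun γ => ‖bv x γ‖ ^ 2)
    (fun _ => by positivity) 2 (fun p hp => bv_sq_le2 hp)
  refine h1.trans (le_of_eq ?_)
  refine Finset.sum_congr rfl fun γ hγ => ?_
  rw [h γ hγ]

theorem act10 (c : Ctx x τ C A ρ k) (δ : Fin N × Fin N) : (act ρ 1 0 δ).1 = δ.2 := by
  unfold act
  rw [pow_one, pow_zero, mul_one, Comm.fw_apply, c.hρ.fst, c.hρ.fst, c.hρ.fst]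
  rfl

theorem act01 (c : Ctx x τ C A ρ k) (δ : Fin N × Fin N) : (act ρ 0 1 δ).1 = (ρ δ).2 := by
  unfold act
  rw [pow_one, pow_zero, one_mul, Comm.up_apply, c.hρ.fst, c.hρ.fst]
  rfl

theorem diag1 (c : Ctx x τ C A ρ k) {γ : Fin N × Fin N} (hγ : γ ∈ Gk τ A (1 / 1000) x ρ k)
    (a b : ℕ) (h : a + b + 1 ≤ k) :
    ‖x (act ρ a b γ).1 - x (act ρ (a + 1) b γ).1‖ = ‖bv x (act ρ a b γ)‖ := by
  have h1 : act ρ (a + 1) b γ = act ρ 1 0 (act ρ a b γ) := by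
    rw [add_act c hγ 1 0 a b (by omega) (by omega), add_comm 1 a, zero_add]
  rw [h1, act10 c]
  unfold bv
  exact norm_sub_rev _ _

theorem diag2 (c : Ctx x τ C A ρ k) {γ : Fin N × Fin N} (hγ : γ ∈ Gk τ A (1 / 1000) x ρ k)
    (a b : ℕ) (h : a + b + 1 ≤ k) :
    ‖x (act ρ a b γ).1 - x (act ρ a (b + 1) γ).1‖ = ‖bv x ((ρ * act ρ a b) γ)‖ := by
  have h1 : act ρ a (b + 1) γ = act ρ 0 1 (act ρ a b γ) := by
    rw [add_act c hγ 0 1 a b (by omega) (by omega), add_comm 1 b, zero_add]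
  rw [h1, act01 c, Equiv.Perm.mul_apply]
  unfold bv
  rw [c.hρ.fst]
  exact norm_sub_rev _ _

theorem diag3 (c : Ctx x τ C A ρ k) {γ : Fin N × Fin N} (hγ : γ ∈ Gk τ A (1 / 1000) x ρ k)
    (a b : ℕ) (h : a + b + 1 ≤ k) :
    ‖x (act ρ a (b + 1) γ).1 - x (act ρ (a + 1) b γ).1‖ =
      ‖bv x ((ρ⁻¹ * swp N * act ρ a b) γ)‖ := by
  have h1 : act ρ (a + 1) b γ = act ρ 1 0 (act ρ a b γ) := by
    rw [add_act c hγ 1 0 a b (by omega) (by omega), add_comm 1 a, zero_add]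
  have h2 : act ρ a (b + 1) γ = act ρ 0 1 (act ρ a b γ) := by
    rw [add_act c hγ 0 1 a b (by omega) (by omega), add_comm 1 b, zero_add]
  have hk0 : (1 : ℝ) ≤ k := by exact_mod_cast c.hk
  have hk2 : (1 : ℝ) ≤ (k : ℝ) ^ 2 := one_le_pow₀ hk0
  have h3 := (rot_dev c.hx c.hC c.hCτ c.hA c.hA2 (d := 1 / 1000 / (k : ℝ) ^ 2) (by positivity)
    (div_le_self (by norm_num) hk2) c.hex0 c.hρ (act_mem c a b γ (G_sub hγ))
    (G_Dw hγ a b (by omega) (by omega))).2.2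
  have h4 : (ρ⁻¹ * swp N * act ρ a b) γ = ((act ρ a b γ).2, (ρ (act ρ a b γ)).2) := by
    rw [Equiv.Perm.mul_apply, Equiv.Perm.mul_apply, ← h3]
    exact ρ.symm_apply_apply _
  rw [h1, h2, h4, act10 c, act01 c]
  rfl

theorem V3_mem (c : Ctx x τ C A ρ k) (a b : ℕ) :
    ∀ p ∈ Bd x, (ρ⁻¹ * swp N * act ρ a b) p ∈ Bd x := by
  intro p hp
  rw [Equiv.Perm.mul_apply, Equiv.Perm.mul_apply]
  exact inv_mem ρ c.hρ.mem _ (CountO.swp_mem (act_mem c a b p hp))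

/-! ### The induction -/

theorem main (c : Ctx x τ C A ρ k) : ∀ s m n : ℕ, m + n = s → m + n ≤ k →
    ∑ γ ∈ Gk τ A (1 / 1000) x ρ k, ‖Xv x ρ m n γ‖ ^ 2 ≤
      Nm m n * ∑ γ ∈ Gk τ A (1 / 1000) x ρ k, ‖bv x γ‖ ^ 2 +
        100 * Nm m n * ((m : ℝ) + n) * ((Bd x \ Gk τ A (1 / 1000) x ρ k).card : ℝ) := by
  intro s
  induction s using Nat.strong_induction_on with
  | _ s ih =>
  intro m n hs hmn
  set G := Gk τ A (1 / 1000) x ρ k with hG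
  set D : ℝ := ((Bd x \ G).card : ℝ) with hD
  set S : ℝ := ∑ γ ∈ G, ‖bv x γ‖ ^ 2 with hS
  have hD0 : 0 ≤ D := by positivity
  have hS0 : 0 ≤ S := Finset.sum_nonneg fun _ _ => by positivity
  obtain ⟨a, ha | ha⟩ := Nat.even_or_odd' m <;> obtain ⟨b, hb | hb⟩ := Nat.even_or_odd' n
  · -- even, even
    subst ha hb
    rcases Nat.eq_zero_or_pos (a + b) with h0 | h0
    · have ha0 : a = 0 := by omega
      have hb0 : b = 0 := by omega
      subst ha0 hb0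
      have h1 : ∀ γ ∈ G, ‖Xv x ρ (2 * 0) (2 * 0) γ‖ ^ 2 = 0 := by
        intro γ _
        unfold Xv act
        simp
      rw [Finset.sum_eq_zero h1]
      positivity
    · have h1 := ih (a + b) (by omega) a b rfl (by omega)
      have h2 := step c a b a b (by omega)
      have h3 : ∑ γ ∈ G, ‖x (act ρ a b γ).1 - x (act ρ a b γ).1‖ ^ 2 = 0 :=
        Finset.sum_eq_zero fun γ _ => by simp
      rw [← hG, h3, ← two_mul, ← two_mul, ← hD] at h2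
      have h4 : (1 : ℝ) ≤ (a : ℝ) + b := by exact_mod_cast h0
      have h5 : (1 : ℝ) ≤ Nm a b := by exact_mod_cast (le_trans h0 (le_Nm a b))
      have h6 : (Nm (2 * a) (2 * b) : ℝ) = 4 * Nm a b := by
        unfold Nm
        push_cast
        ring
      rw [h6]
      push_cast
      set ℓ : ℝ := (a : ℝ) + b
      have h7 : 2 * (a : ℝ) + 2 * b = 2 * ℓ := by ring
      rw [h7]
      have h8 : 0 ≤ 400 * (Nm a b : ℝ) * ℓ - 4 * Nm a b - 2 := by nlinarith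
      have h9 := mul_nonneg hD0 h8
      nlinarith
  · -- even, odd
    subst ha hb
    rcases Nat.eq_zero_or_pos (a + b) with h0 | h0
    · have ha0 : a = 0 := by omega
      have hb0 : b = 0 := by omega
      subst ha0 hb0
      have h1 : ∀ γ ∈ G, ‖Xv x ρ (2 * 0) (2 * 0 + 1) γ‖ ^ 2 = ‖bv x (ρ γ)‖ ^ 2 := by
        intro γ _
        unfold Xv
        rw [mul_zero, zero_add, act01 c]
        unfold bv
        rw [c.hρ.fst]
      rw [Finset.sum_congr rfl h1]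
      have h2 := shift_le ρ c.hρ.mem G G_sub (fun γ => ‖bv x γ‖ ^ 2) (fun _ => by positivity) 2
        (by norm_num) (fun p hp => bv_sq_le2 (c.hρ.mem p (G_sub hp)))
      rw [← hD, ← hS] at h2
      refine h2.trans ?_
      unfold Nm
      norm_num
      linarith
    · have h1 := ih (a + b) (by omega) a b rfl (by omega)
      have h1' := ih (a + (b + 1)) (by omega) a (b + 1) rfl (by omega)
      have h2 := step c a (b + 1) a b (by omega)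
      have h3 := low (k := k) (τ := τ) (A := A) (ρ * act ρ a b)
        (fun p hp => c.hρ.mem _ (act_mem c a b p hp)) a (b + 1) a b
        (fun γ hγ => diag2 c hγ a b (by omega))
      rw [← hG, ← hD, ← hS] at h3
      rw [← hG, ← hD] at h2
      have e1 : a + a = 2 * a := by ring
      have e2 : b + 1 + b = 2 * b + 1 := by ring
      rw [e1, e2] at h2
      have h4 : (1 : ℝ) ≤ (a : ℝ) + b := by exact_mod_cast h0
      have h5 : (1 : ℝ) ≤ Nm a b := by exact_mod_cast (le_trans h0 (le_Nm a b))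
      have h5' : (1 : ℝ) ≤ Nm a (b + 1) := by
        exact_mod_cast (le_trans (by omega : 1 ≤ a + (b + 1)) (le_Nm a (b + 1)))
      have h6 : (Nm (2 * a) (2 * b + 1) : ℝ) = 2 * Nm a (b + 1) + 2 * Nm a b - 1 := by
        unfold Nm
        push_cast
        ring
      rw [h6]
      push_cast at h1' ⊢
      set ℓ : ℝ := (a : ℝ) + b
      have h7 : 2 * (a : ℝ) + (2 * b + 1) = 2 * ℓ + 1 := by ring
      have h7' : (a : ℝ) + (b + 1) = ℓ + 1 := by ring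
      rw [h7]
      rw [h7'] at h1'
      set P : ℝ := (Nm a (b + 1) : ℝ)
      set Q : ℝ := (Nm a b : ℝ)
      have h8 : 0 ≤ 200 * P * ℓ + 200 * Q * (ℓ + 1) - 200 * ℓ - 104 - 2 * P - 2 * Q := by
        nlinarith [mul_nonneg (sub_nonneg.2 h5) (sub_nonneg.2 h4),
          mul_nonneg (sub_nonneg.2 h5') (sub_nonneg.2 h4)]
      have h9 := mul_nonneg hD0 h8
      nlinarith
  · -- odd, even
    subst ha hb
    rcases Nat.eq_zero_or_pos (a + b) with h0 | h0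
    · have ha0 : a = 0 := by omega
      have hb0 : b = 0 := by omega
      subst ha0 hb0
      have h1 : ∀ γ ∈ G, ‖Xv x ρ (2 * 0 + 1) (2 * 0) γ‖ ^ 2 = ‖bv x γ‖ ^ 2 := by
        intro γ _
        unfold Xv
        rw [mul_zero, zero_add, act10 c]
        rfl
      rw [Finset.sum_congr rfl h1, ← hS]
      unfold Nm
      norm_num
      positivity
    · have h1 := ih (a + b) (by omega) a b rfl (by omega)
      have h1' := ih (a + 1 + b) (by omega) (a + 1) b rfl (by omega)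
      have h2 := step c (a + 1) b a b (by omega)
      have h3 := low (k := k) (τ := τ) (A := A) (act ρ a b)
        (act_mem c a b) (a + 1) b a b
        (fun γ hγ => diag1 c hγ a b (by omega))
      rw [← hG, ← hD, ← hS] at h3
      rw [← hG, ← hD] at h2
      have e1 : a + 1 + a = 2 * a + 1 := by ring
      have e2 : b + b = 2 * b := by ring
      rw [e1, e2] at h2
      have h4 : (1 : ℝ) ≤ (a : ℝ) + b := by exact_mod_cast h0
      have h5 : (1 : ℝ) ≤ Nm a b := by exact_mod_cast (le_trans h0 (le_Nm a b))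
      have h5' : (1 : ℝ) ≤ Nm (a + 1) b := by
        exact_mod_cast (le_trans (by omega : 1 ≤ (a + 1) + b) (le_Nm (a + 1) b))
      have h6 : (Nm (2 * a + 1) (2 * b) : ℝ) = 2 * Nm (a + 1) b + 2 * Nm a b - 1 := by
        unfold Nm
        push_cast
        ring
      rw [h6]
      push_cast at h1' ⊢
      set ℓ : ℝ := (a : ℝ) + b
      have h7 : 2 * (a : ℝ) + 1 + 2 * b = 2 * ℓ + 1 := by ring
      have h7' : (a : ℝ) + 1 + b = ℓ + 1 := by ring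
      rw [h7]
      rw [h7'] at h1'
      set P : ℝ := (Nm (a + 1) b : ℝ)
      set Q : ℝ := (Nm a b : ℝ)
      have h8 : 0 ≤ 200 * P * ℓ + 200 * Q * (ℓ + 1) - 200 * ℓ - 104 - 2 * P - 2 * Q := by
        nlinarith [mul_nonneg (sub_nonneg.2 h5) (sub_nonneg.2 h4),
          mul_nonneg (sub_nonneg.2 h5') (sub_nonneg.2 h4)]
      have h9 := mul_nonneg hD0 h8
      nlinarith
  · -- odd, odd
    subst ha hb
    have h1 := ih (a + 1 + b) (by omega) (a + 1) b rfl (by omega)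
    have h1' := ih (a + (b + 1)) (by omega) a (b + 1) rfl (by omega)
    have h2 := step c (a + 1) b a (b + 1) (by omega)
    have h3 := low (k := k) (τ := τ) (A := A) (ρ⁻¹ * swp N * act ρ a b) (V3_mem c a b)
      (a + 1) b a (b + 1) (fun γ hγ => diag3 c hγ a b (by omega))
    rw [← hG, ← hD, ← hS] at h3
    rw [← hG, ← hD] at h2
    have e1 : a + 1 + a = 2 * a + 1 := by ring
    have e2 : b + (b + 1) = 2 * b + 1 := by ring
    rw [e1, e2] at h2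
    have h5 : (1 : ℝ) ≤ Nm (a + 1) b := by
      exact_mod_cast (le_trans (by omega : 1 ≤ (a + 1) + b) (le_Nm (a + 1) b))
    have h5' : (1 : ℝ) ≤ Nm a (b + 1) := by
      exact_mod_cast (le_trans (by omega : 1 ≤ a + (b + 1)) (le_Nm a (b + 1)))
    have h6 : (Nm (2 * a + 1) (2 * b + 1) : ℝ) = 2 * Nm (a + 1) b + 2 * Nm a (b + 1) - 1 := by
      unfold Nm
      push_cast
      ring
    rw [h6]
    have h4 : (0 : ℝ) ≤ (a : ℝ) + b := by positivity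
    push_cast at h1 h1' ⊢
    set ℓ : ℝ := (a : ℝ) + b
    have h7 : 2 * (a : ℝ) + 1 + (2 * b + 1) = 2 * (ℓ + 1) := by ring
    have h7' : (a : ℝ) + (b + 1) = ℓ + 1 := by ring
    have h7'' : (a : ℝ) + 1 + b = ℓ + 1 := by ring
    rw [h7]
    rw [h7''] at h1
    rw [h7'] at h1'
    set P : ℝ := (Nm (a + 1) b : ℝ)
    set Q : ℝ := (Nm a (b + 1) : ℝ)
    have h8 : 0 ≤ 200 * (P + Q - 1) * (ℓ + 1) - 2 * (P + Q) - 4 := by
      nlinarith [mul_nonneg (sub_nonneg.2 h5) h4, mul_nonneg (sub_nonneg.2 h5') h4]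
    have h9 := mul_nonneg hD0 h8
    nlinarith

end SumSq

theorem sumsq {N : ℕ} {x : Fin N → ℂ} (hx : Sep x) {τ C A : ℝ} (hC : 1 ≤ C)
    (hCτ : C * τ ≤ 1 / 100) (hA : 1 ≤ A) (hA2 : A ≤ 1001 / 1000)
    {ρ : Equiv.Perm (Fin N × Fin N)} (hex0 : ∀ i, 0 ≤ ex x i) (hρ : IsRot x τ C ρ) {k : ℕ}
    (hk : 1 ≤ k) (m n : ℕ) (hmn : m + n ≤ k) :
    ∑ γ ∈ Gk τ A (1 / 1000) x ρ k, ‖Xv x ρ m n γ‖ ^ 2 ≤
      Nm m n * ∑ γ ∈ Gk τ A (1 / 1000) x ρ k, ‖bv x γ‖ ^ 2 +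
        100 * Nm m n * (k : ℝ) ^ 2 * ((Bd x \ Gk τ A (1 / 1000) x ρ k).card : ℝ) := by
  have h1 := SumSq.main ⟨hx, hC, hCτ, hA, hA2, hex0, hρ, hk⟩ (m + n) m n rfl hmn
  refine h1.trans (add_le_add le_rfl ?_)
  refine mul_le_mul_of_nonneg_right ?_ (by positivity)
  refine mul_le_mul_of_nonneg_left ?_ (by positivity)
  have h2 : ((m : ℝ) + n) ≤ k := by exact_mod_cast hmn
  have h3 : (1 : ℝ) ≤ k := by exact_mod_cast hk
  nlinarith

end Pool.Agent.J4.H83.SG
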